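import Pool.Agent.Emt.Defs

/-!
# Emt, module Basic: formal lemmas on (smooth) representations

PROOFS.  All routine.
* A subgroup (here the stabiliser of a vector, `{g | ρ g v = v}`) which contains an open subgroup
  is open (`Subgroup.isOpen_mono`).
* `IsSmooth.exists_open`: finite intersection of open stabilisers.
* quotients: if `f v = w` then the stabiliser of `v` is contained in the stabiliser of `w`.
* `gen ρ F` is the subrepresentation generated by the set `F`.
-/

open Topology Set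

namespace Emt

section Alg

variable {C : Type} [Field C] {G : Type} [Group G] {V W X : Type} [AddCommGroup V] [Module C V]
  [AddCommGroup W] [Module C W] [AddCommGroup X] [Module C X]
  {ρ : Representation C G V} {σ : Representation C G W} {τ : Representation C G X}

theorem rep_inv_apply (ρ : Representation C G V) (g : G) (v : V) : ρ g⁻¹ (ρ g v) = v := by
  rw [← Module.End.mul_apply, ← map_mul, inv_mul_cancel, map_one, Module.End.one_apply]

theorem rep_apply_inv (ρ : Representation C G V) (g : G) (v : V) : ρ g (ρ g⁻¹ v) = v := by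
  rw [← Module.End.mul_apply, ← map_mul, mul_inv_cancel, map_one, Module.End.one_apply]

theorem rep_mul_apply (ρ : Representation C G V) (g h : G) (v : V) : ρ (g * h) v = ρ g (ρ h v) := by
  rw [map_mul, Module.End.mul_apply]

theorem rep_one_apply (ρ : Representation C G V) (v : V) : ρ 1 v = v := by
  rw [map_one, Module.End.one_apply]

theorem Equi.comp {f : V →ₗ[C] W} {g : W →ₗ[C] X} (hg : Equi σ τ g) (hf : Equi ρ σ f) :
    Equi ρ τ (g ∘ₗ f) := by
  intro x v
  rw [LinearMap.comp_apply, LinearMap.comp_apply, hf, hg]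

theorem Equi.id (ρ : Representation C G V) : Equi ρ ρ LinearMap.id := fun _ _ => rfl

theorem equi_subtype (M : Submodule C V) (hM : IsSub ρ M) : Equi (subRep ρ M hM) ρ M.subtype :=
  fun _ _ => rfl

theorem equi_mkQ (M : Submodule C V) (hM : IsSub ρ M) : Equi ρ (quotRep ρ M hM) M.mkQ :=
  fun _ _ => rfl

theorem Equi.codRestrict {f : V →ₗ[C] W} (hf : Equi ρ σ f) (M : Submodule C W) (hM : IsSub σ M)
    (h : ∀ v, f v ∈ M) : Equi ρ (subRep σ M hM) (f.codRestrict M h) := by
  intro g v
  apply Subtype.ext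
  exact hf g v

theorem isSub_ker {f : V →ₗ[C] W} (hf : Equi ρ σ f) : IsSub ρ (LinearMap.ker f) := by
  intro g v hv
  rw [LinearMap.mem_ker] at hv ⊢
  rw [hf, hv, map_zero]

theorem isSub_range {f : V →ₗ[C] W} (hf : Equi ρ σ f) : IsSub σ (LinearMap.range f) := by
  rintro g _ ⟨v, rfl⟩
  exact ⟨ρ g v, hf g v⟩

theorem isSub_comap {f : V →ₗ[C] W} (hf : Equi ρ σ f) {M : Submodule C W} (hM : IsSub σ M) :
    IsSub ρ (M.comap f) := by
  intro g v hv
  rw [Submodule.mem_comap] at hv ⊢
  rw [hf]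
  exact hM g _ hv

theorem isSub_map {f : V →ₗ[C] W} (hf : Equi ρ σ f) {M : Submodule C V} (hM : IsSub ρ M) :
    IsSub σ (M.map f) := by
  rintro g _ ⟨v, hv, rfl⟩
  exact ⟨ρ g v, hM g v hv, hf g v⟩

theorem isSub_inf {M N : Submodule C V} (hM : IsSub ρ M) (hN : IsSub ρ N) : IsSub ρ (M ⊓ N) :=
  fun g v hv => ⟨hM g v hv.1, hN g v hv.2⟩

theorem isSub_sup {M N : Submodule C V} (hM : IsSub ρ M) (hN : IsSub ρ N) : IsSub ρ (M ⊔ N) := by
  intro g v hv
  obtain ⟨a, ha, b, hb, rfl⟩ := Submodule.mem_sup.1 hv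
  rw [map_add]
  exact Submodule.add_mem_sup (hM g a ha) (hN g b hb)

theorem isSub_top : IsSub ρ ⊤ := fun _ _ _ => Submodule.mem_top

/-- The fixed vectors of a normal subgroup form a subrepresentation. -/
theorem isSub_fix_normal (ρ : Representation C G V) (N : Subgroup G) [N.Normal] :
    IsSub ρ (fix ρ N) := by
  intro g v hv n hn
  have h1 : g⁻¹ * n * g ∈ N := by
    have := Subgroup.Normal.conj_mem (inferInstance : N.Normal) n hn g⁻¹
    simpa using this
  have h2 := hv _ h1
  rw [← rep_mul_apply, show n * g = g * (g⁻¹ * n * g) by group, rep_mul_apply, h2]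

/-- The subrepresentation generated by the set `F`. -/
def gen (ρ : Representation C G V) (F : Set V) : Submodule C V :=
  Submodule.span C {v | ∃ g, ∃ w ∈ F, v = ρ g w}

theorem subset_gen (ρ : Representation C G V) (F : Set V) : F ⊆ gen ρ F := by
  intro v hv
  exact Submodule.subset_span ⟨1, v, hv, (rep_one_apply ρ v).symm⟩

theorem isSub_gen (ρ : Representation C G V) (F : Set V) : IsSub ρ (gen ρ F) := by
  intro g v hv
  unfold gen at hv
  induction hv using Submodule.span_induction with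
  | mem x hx =>
    obtain ⟨h, w, hw, rfl⟩ := hx
    exact Submodule.subset_span ⟨g * h, w, hw, (rep_mul_apply ρ g h w).symm⟩
  | zero =>
    rw [map_zero]
    exact Submodule.zero_mem _
  | add x y _ _ hx hy =>
    rw [map_add]
    exact Submodule.add_mem _ hx hy
  | smul a x _ hx =>
    rw [map_smul]
    exact Submodule.smul_mem _ a hx

theorem gen_le {F : Set V} {M : Submodule C V} (hM : IsSub ρ M) (hF : F ⊆ M) : gen ρ F ≤ M := by
  unfold gen
  rw [Submodule.span_le]
  rintro _ ⟨g, w, hw, rfl⟩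
  exact hM g w (hF hw)

/-- Two equivariant maps which agree on `F` agree on the subrepresentation generated by `F`. -/
theorem Equi.eqOn_gen {f g : V →ₗ[C] W} (hf : Equi ρ σ f) (hg : Equi ρ σ g) {F : Set V}
    (h : ∀ v ∈ F, f v = g v) : ∀ v ∈ gen ρ F, f v = g v := by
  intro v hv
  have h1 : Equi ρ σ (f - g) := by
    intro x w
    rw [LinearMap.sub_apply, LinearMap.sub_apply, hf, hg, map_sub]
  have h2 : gen ρ F ≤ LinearMap.ker (f - g) := by
    apply gen_le (isSub_ker h1)
    intro w hw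
    rw [SetLike.mem_coe, LinearMap.mem_ker, LinearMap.sub_apply, h w hw, sub_self]
  have h3 := h2 hv
  rw [LinearMap.mem_ker, LinearMap.sub_apply] at h3
  exact sub_eq_zero.1 h3

/-- If `f` is equivariant for the elements of two subgroups which generate `G` then it is
equivariant. -/
theorem equi_of_gen {K₁ K₂ : Subgroup G} (h : K₁ ⊔ K₂ = ⊤) {f : V →ₗ[C] W}
    (h₁ : ∀ g ∈ K₁, ∀ v, f (ρ g v) = σ g (f v)) (h₂ : ∀ g ∈ K₂, ∀ v, f (ρ g v) = σ g (f v)) :
    Equi ρ σ f := by
  let S : Subgroup G :=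
    { carrier := {g | ∀ v, f (ρ g v) = σ g (f v)}
      mul_mem' := by
        intro a b ha hb v
        rw [rep_mul_apply, ha, hb, rep_mul_apply]
      one_mem' := by
        intro v
        rw [rep_one_apply, rep_one_apply]
      inv_mem' := by
        intro a ha v
        have h := ha (ρ a⁻¹ v)
        rw [rep_apply_inv] at h
        rw [h, rep_inv_apply] }
  have hS : K₁ ⊔ K₂ ≤ S := sup_le (fun g hg => h₁ g hg) (fun g hg => h₂ g hg)
  rw [h] at hS
  intro g v
  exact hS (Subgroup.mem_top g) v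

end Alg

section Top

variable {C : Type} [Field C] {G : Type} [Group G] [TopologicalSpace G] {V W : Type}
  [AddCommGroup V] [Module C V] [AddCommGroup W] [Module C W]
  {ρ : Representation C G V} {σ : Representation C G W}

/-- The stabiliser of a vector as a subgroup. -/
def stabG (ρ : Representation C G V) (v : V) : Subgroup G where
  carrier := {g | ρ g v = v}
  mul_mem' := by
    intro a b ha hb
    have ha' : ρ a v = v := ha
    have hb' : ρ b v = v := hb
    show ρ (a * b) v = v
    rw [rep_mul_apply, hb', ha']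
  one_mem' := rep_one_apply ρ v
  inv_mem' := by
    intro a ha
    have ha' : ρ a v = v := ha
    show ρ a⁻¹ v = v
    have h := rep_inv_apply ρ a v
    rw [ha'] at h
    exact h

theorem isOpen_stab_of_le [IsTopologicalGroup G] {U : Subgroup G} (hU : IsOpen (U : Set G)) {v : V}
    (h : ∀ g ∈ U, ρ g v = v) : IsOpen {g : G | ρ g v = v} := by
  exact Subgroup.isOpen_mono (H₁ := U) (H₂ := stabG ρ v) (fun g hg => h g hg) hU

theorem IsSmooth.exists_open [IsTopologicalGroup G] (hρ : IsSmooth ρ) {F : Set V}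
    (hF : F.Finite) : ∃ U : Subgroup G, IsOpen (U : Set G) ∧ ∀ g ∈ U, ∀ v ∈ F, ρ g v = v := by
  induction F, hF using Set.Finite.induction_on with
  | empty => exact ⟨⊤, isOpen_univ, fun g _ v hv => absurd hv (Set.notMem_empty v)⟩
  | insert _ _ ih =>
    rename_i a s _ _
    obtain ⟨U, hU, h⟩ := ih
    refine ⟨U ⊓ stabG ρ a, hU.inter (hρ a), ?_⟩
    rintro g ⟨hg1, hg2⟩ v hv
    rcases hv with rfl | hv
    · exact hg2
    · exact h g hg1 v hv

theorem IsSmooth.of_injective (hσ : IsSmooth σ) {f : V →ₗ[C] W} (hf : Equi ρ σ f)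
    (hi : Function.Injective f) : IsSmooth ρ := by
  intro v
  have h : {g : G | ρ g v = v} = {g : G | σ g (f v) = f v} := by
    ext g
    simp only [Set.mem_ofPred_eq]
    rw [← hf]
    exact hi.eq_iff.symm
  rw [h]
  exact hσ (f v)

theorem IsSmooth.of_surjective [IsTopologicalGroup G] (hρ : IsSmooth ρ) {f : V →ₗ[C] W}
    (hf : Equi ρ σ f) (hi : Function.Surjective f) : IsSmooth σ := by
  intro w
  obtain ⟨v, rfl⟩ := hi w
  refine isOpen_stab_of_le (U := stabG ρ v) (hρ v) ?_
  intro g hg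
  have hg' : ρ g v = v := hg
  rw [← hf, hg']

theorem IsSmooth.sub (hρ : IsSmooth ρ) (M : Submodule C V) (hM : IsSub ρ M) :
    IsSmooth (subRep ρ M hM) :=
  hρ.of_injective (equi_subtype M hM) M.injective_subtype

theorem IsSmooth.quot [IsTopologicalGroup G] (hρ : IsSmooth ρ) (M : Submodule C V)
    (hM : IsSub ρ M) : IsSmooth (quotRep ρ M hM) :=
  hρ.of_surjective (equi_mkQ M hM) M.mkQ_surjective

theorem IsSmooth.prod [IsTopologicalGroup G] (hρ : IsSmooth ρ) (hσ : IsSmooth σ) :
    IsSmooth (prodRep ρ σ) := by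
  rintro ⟨v, w⟩
  have h : {g : G | prodRep ρ σ g (v, w) = (v, w)} = {g : G | ρ g v = v} ∩ {g : G | σ g w = w} := by
    ext g
    simp only [Set.mem_ofPred_eq, Set.mem_inter_iff, prodRep_apply, Prod.mk.injEq]
  rw [h]
  exact (hρ v).inter (hσ w)

theorem IsSmooth.res (hρ : IsSmooth ρ) (H : Subgroup G) : IsSmooth (res ρ H) := by
  intro v
  exact (hρ v).preimage continuous_subtype_val

theorem prod_finDim {V' W' : Type} [AddCommGroup V'] [Module C V'] [AddCommGroup W'] [Module C W']
    {A : Submodule C V'} {B : Submodule C W'} (hA : FiniteDimensional C A)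
    (hB : FiniteDimensional C B) : FiniteDimensional C (A.prod B) := by
  have h : A.prod B = LinearMap.range (LinearMap.prodMap A.subtype B.subtype) := by
    rw [LinearMap.range_prodMap, Submodule.range_subtype, Submodule.range_subtype]
  rw [h]
  infer_instance

/-- Finite dimensionality of a subspace from an injective map into a finite dimensional one. -/
theorem emb_finDim {V' W' : Type} [AddCommGroup V'] [Module C V'] [AddCommGroup W'] [Module C W']
    {A : Submodule C V'} {B : Submodule C W'} (hB : FiniteDimensional C B) (f : V' →ₗ[C] W')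
    (hi : ∀ v ∈ A, f v = 0 → v = 0) (h : ∀ v ∈ A, f v ∈ B) : FiniteDimensional C A := by
  let f' : A →ₗ[C] B := (f ∘ₗ A.subtype).codRestrict B (fun v => h v.1 v.2)
  have hf' : Function.Injective f' := by
    rw [← LinearMap.ker_eq_bot, LinearMap.ker_eq_bot']
    intro m hm
    have h1 : f m.1 = 0 := congrArg Subtype.val hm
    exact Subtype.ext (hi m.1 m.2 h1)
  exact FiniteDimensional.of_injective f' hf'

theorem IsAdm.of_injective (hσ : IsAdm σ) {f : V →ₗ[C] W} (hf : Equi ρ σ f)
    (hi : Function.Injective f) : IsAdm ρ := by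
  refine ⟨hσ.smooth.of_injective hf hi, ?_⟩
  intro U hU hU'
  refine emb_finDim (hσ.fin U hU hU') f ?_ ?_
  · intro v _ h0
    apply hi
    rw [h0, map_zero]
  · intro v hv g hg
    rw [← hf, hv g hg]

theorem IsAdm.prod [IsTopologicalGroup G] (hρ : IsAdm ρ) (hσ : IsAdm σ) :
    IsAdm (prodRep ρ σ) := by
  refine ⟨hρ.smooth.prod hσ.smooth, ?_⟩
  intro U hU hU'
  have h1 := hρ.fin U hU hU'
  have h2 := hσ.fin U hU hU'
  have h3 : fix (prodRep ρ σ) U = (fix ρ U).prod (fix σ U) := by
    ext x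
    rw [Submodule.mem_prod]
    constructor
    · intro hx
      constructor
      · intro g hg
        exact congrArg Prod.fst (hx g hg)
      · intro g hg
        exact congrArg Prod.snd (hx g hg)
    · rintro ⟨hx1, hx2⟩ g hg
      exact Prod.ext (hx1 g hg) (hx2 g hg)
  rw [h3]
  exact prod_finDim h1 h2

theorem isAdm_subRep (hρ : IsSmooth ρ) {M : Submodule C V} (hM : IsAdmSub ρ M) :
    IsAdm (subRep ρ M hM.sub) := by
  refine ⟨hρ.sub M hM.sub, ?_⟩
  intro U hU hU'
  refine emb_finDim (hM.fin U hU hU') M.subtype ?_ ?_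
  · intro v _ h0
    exact Subtype.ext h0
  · intro v hv
    refine ⟨v.2, ?_⟩
    intro g hg
    exact congrArg Subtype.val (hv g hg)

theorem IsAdmSub.of_isAdm {M : Submodule C V} (hM : IsSub ρ M) (h : IsAdm (subRep ρ M hM)) :
    IsAdmSub ρ M := by
  refine ⟨hM, ?_⟩
  intro U hU hU'
  have h1 := h.fin U hU hU'
  have h2 : (M ⊓ fix ρ U : Submodule C V) ≤ (fix (subRep ρ M hM) U).map M.subtype := by
    rintro v ⟨hv1, hv2⟩
    refine ⟨⟨v, hv1⟩, ?_, rfl⟩
    intro g hg
    exact Subtype.ext (hv2 g hg)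
  exact Submodule.finiteDimensional_of_le h2

/-- A subrepresentation of an admissible subrepresentation is admissible. -/
theorem IsAdmSub.mono {M N : Submodule C V} (hM : IsAdmSub ρ M) (hN : IsSub ρ N) (h : N ≤ M) :
    IsAdmSub ρ N := by
  refine ⟨hN, ?_⟩
  intro U hU hU'
  have h1 := hM.fin U hU hU'
  exact Submodule.finiteDimensional_of_le (inf_le_inf_right _ h)

theorem IsAdm.isLadm (hρ : IsAdm ρ) : IsLadm ρ := by
  refine ⟨hρ.smooth, fun v => ⟨⊤, Submodule.mem_top, isSub_top, ?_⟩⟩
  intro U hU hU'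
  have h1 := hρ.fin U hU hU'
  exact Submodule.finiteDimensional_of_le inf_le_right

theorem IsLadm.of_injective (hσ : IsLadm σ) {f : V →ₗ[C] W} (hf : Equi ρ σ f)
    (hi : Function.Injective f) : IsLadm ρ := by
  refine ⟨hσ.smooth.of_injective hf hi, ?_⟩
  intro v
  obtain ⟨M, hM, hM'⟩ := hσ.loc (f v)
  refine ⟨M.comap f, hM, isSub_comap hf hM'.sub, ?_⟩
  intro U hU hU'
  refine emb_finDim (hM'.fin U hU hU') f ?_ ?_
  · intro v _ h0
    apply hi
    rw [h0, map_zero]
  · rintro v ⟨hv1, hv2⟩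
    refine ⟨hv1, ?_⟩
    intro g hg
    rw [← hf, hv2 g hg]

theorem IsLadm.prod [IsTopologicalGroup G] (hρ : IsLadm ρ) (hσ : IsLadm σ) :
    IsLadm (prodRep ρ σ) := by
  refine ⟨hρ.smooth.prod hσ.smooth, ?_⟩
  rintro ⟨v, w⟩
  obtain ⟨M, hM, hM'⟩ := hρ.loc v
  obtain ⟨N, hN, hN'⟩ := hσ.loc w
  refine ⟨M.prod N, ⟨hM, hN⟩, ?_, ?_⟩
  · rintro g ⟨a, b⟩ ⟨ha, hb⟩
    exact ⟨hM'.sub g a ha, hN'.sub g b hb⟩
  · intro U hU hU'
    have h1 := hM'.fin U hU hU'
    have h2 := hN'.fin U hU hU'
    have h4 := prod_finDim h1 h2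
    have h3 : (M.prod N ⊓ fix (prodRep ρ σ) U : Submodule C (V × W)) ≤
        (M ⊓ fix ρ U : Submodule C V).prod (N ⊓ fix σ U : Submodule C W) := by
      rintro x ⟨hx1, hx2⟩
      refine ⟨⟨hx1.1, ?_⟩, ⟨hx1.2, ?_⟩⟩
      · intro g hg
        exact congrArg Prod.fst (hx2 g hg)
      · intro g hg
        exact congrArg Prod.snd (hx2 g hg)
    exact Submodule.finiteDimensional_of_le h3

/-- The image of an admissible subrepresentation under an injective equivariant map. -/
theorem IsAdmSub.map_injective {M : Submodule C V} (hM : IsAdmSub ρ M) {f : V →ₗ[C] W}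
    (hf : Equi ρ σ f) (hi : Function.Injective f) : IsAdmSub σ (M.map f) := by
  refine ⟨isSub_map hf hM.sub, ?_⟩
  intro U hU hU'
  have h1 := hM.fin U hU hU'
  have h2 : (M.map f ⊓ fix σ U : Submodule C W) ≤ (M ⊓ fix ρ U : Submodule C V).map f := by
    rintro _ ⟨⟨v, hv, rfl⟩, hv2⟩
    refine ⟨v, ⟨hv, ?_⟩, rfl⟩
    intro g hg
    apply hi
    rw [hf]
    exact hv2 g hg
  exact Submodule.finiteDimensional_of_le h2

/-- The fixed vectors of a smaller subgroup contain those of a larger one. -/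
theorem fix_anti (ρ : Representation C G V) {U U' : Subgroup G} (h : U ≤ U') :
    fix ρ U' ≤ fix ρ U := fun _ hv g hg => hv g (h hg)

/-- Every vector fixed by a compact subgroup `K` is fixed by a compact open subgroup containing
`K`, if `G` has a compact open subgroup. -/
theorem IsSmooth.exists_compact_open [IsTopologicalGroup G] (hρ : IsSmooth ρ) {U₀ : Subgroup G}
    (h₀ : IsOpen (U₀ : Set G)) (h₀' : IsCompact (U₀ : Set G)) {K : Subgroup G}
    (hK : IsCompact (K : Set G)) {F : Set V} (hF : F.Finite) (hfix : ∀ v ∈ F, v ∈ fix ρ K) :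
    ∃ U : Subgroup G, IsOpen (U : Set G) ∧ IsCompact (U : Set G) ∧ K ≤ U ∧
      ∀ v ∈ F, v ∈ fix ρ U := by
  obtain ⟨U₁, h₁, hst⟩ := hρ.exists_open hF
  let V₀ : Subgroup G := U₀ ⊓ U₁
  have hV₀ : IsOpen (V₀ : Set G) := h₀.inter h₁
  let N : Subgroup G :=
    { carrier := {g | ∀ k ∈ K, k * g * k⁻¹ ∈ V₀}
      mul_mem' := by
        intro a b ha hb k hk
        have := V₀.mul_mem (ha k hk) (hb k hk)
        rwa [show k * a * k⁻¹ * (k * b * k⁻¹) = k * (a * b) * k⁻¹ by group] at this
      one_mem' := by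
        intro k hk
        rw [mul_one, mul_inv_cancel]
        exact V₀.one_mem
      inv_mem' := by
        intro a ha k hk
        have := V₀.inv_mem (ha k hk)
        rwa [show (k * a * k⁻¹)⁻¹ = k * a⁻¹ * k⁻¹ by group] at this }
  have hNle : ∀ g ∈ N, g ∈ V₀ := by
    intro g hg
    have := hg 1 K.one_mem
    simpa using this
  have hNconj : ∀ g ∈ N, ∀ k ∈ K, k * g * k⁻¹ ∈ N := by
    intro g hg k hk k' hk'
    have := hg (k' * k) (K.mul_mem hk' hk)
    rwa [show k' * k * g * (k' * k)⁻¹ = k' * (k * g * k⁻¹) * k'⁻¹ by group] at this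
  have hNopen : IsOpen (N : Set G) := by
    have h1 : ∀ᶠ g in 𝓝 (1 : G), ∀ k ∈ (K : Set G), k * g * k⁻¹ ∈ V₀ := by
      apply hK.eventually_forall_of_forall_eventually
      intro k hk
      have hc : Continuous fun z : G × G => z.2 * z.1 * z.2⁻¹ := by fun_prop
      have hm : (fun z : G × G => z.2 * z.1 * z.2⁻¹) (1, k) ∈ (V₀ : Set G) := by
        simp only [mul_one, mul_inv_cancel]
        exact V₀.one_mem
      exact hc.continuousAt.eventually (hV₀.mem_nhds hm)
    exact Subgroup.isOpen_of_mem_nhds N (g := 1) h1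
  have hNcomp : IsCompact (N : Set G) := by
    have hcl : IsClosed (N : Set G) := Subgroup.isClosed_of_isOpen N hNopen
    exact h₀'.of_isClosed_subset hcl (fun g hg => (hNle g hg).1)
  let U : Subgroup G :=
    { carrier := Set.image2 (fun x y => x * y) (K : Set G) (N : Set G)
      mul_mem' := by
        rintro _ _ ⟨k, hk, n, hn, rfl⟩ ⟨k', hk', n', hn', rfl⟩
        refine ⟨k * k', K.mul_mem hk hk', k'⁻¹ * n * k' * n', ?_, ?_⟩
        · have := hNconj n hn k'⁻¹ (K.inv_mem hk')
          rw [inv_inv] at this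
          exact N.mul_mem this hn'
        · simp only
          group
      one_mem' := ⟨1, K.one_mem, 1, N.one_mem, mul_one 1⟩
      inv_mem' := by
        rintro _ ⟨k, hk, n, hn, rfl⟩
        refine ⟨k⁻¹, K.inv_mem hk, k * n⁻¹ * k⁻¹, hNconj n⁻¹ (N.inv_mem hn) k hk, ?_⟩
        simp only
        group }
  refine ⟨U, ?_, ?_, ?_, ?_⟩
  · refine Subgroup.isOpen_mono (H₁ := N) (H₂ := U) ?_ hNopen
    intro g hg
    exact ⟨1, K.one_mem, g, hg, one_mul g⟩
  · have h9 := hK.mul hNcomp
    rw [← Set.image2_mul] at h9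
    exact h9
  · intro g hg
    exact ⟨g, hg, 1, N.one_mem, mul_one g⟩
  · intro v hv g hg
    obtain ⟨k, hk, n, hn, rfl⟩ := hg
    show ρ (k * n) v = v
    rw [rep_mul_apply, hst n (hNle n hn).2 v hv]
    exact hfix v hv k hk

end Top

end Emt
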