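import Pool.Agent.Emt.NLad

/-!
# Emt, module Cent1: quotients of amalgams and of `p`-adic Lie groups

PROOFS.
* `IsAmalgam.quotient`: generation: the image of `K₁ ⊔ K₂`.  Given `f₁`, `f₂` on the images of `K₁`,
  `K₂`, compose with `K_a → K_a.map (mk' N)`; they agree on `K₁ ⊓ K₂`; `lift` gives `f : G → A`,
  trivial on `N` (as `N ≤ K₁`), so it factors through `G ⧸ N` (`QuotientGroup.lift`).
* `padic_quotient`: let `f₀ : U₀ → GL_n(ℤ_p)` be as in the definition and `U₁ = U₀ ⊓ U`.  The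
  restriction of `mk : G → G ⧸ N` to the open subgroup `U₁` is injective, continuous and open, so `U₁`
  is isomorphic as a topological group to the open subgroup `mk(U₁)`; compose the inverse with
  `f₀` restricted to `U₁` (a closed embedding: `U₁` is open, hence closed, in `U₀`).
* `powSub`: the subgroup of the `n`-th powers of elements of `Λ`, for `Λ` central.
-/

open Topology Set

namespace Emt

theorem IsAmalgam.quotient {G : Type} [Group G] {K₁ K₂ N : Subgroup G} [N.Normal]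
    (hN : N ≤ K₁ ⊓ K₂) (h : IsAmalgam K₁ K₂) :
    IsAmalgam (K₁.map (QuotientGroup.mk' N)) (K₂.map (QuotientGroup.mk' N)) := by
  refine ⟨?_, ?_⟩
  · rw [← Subgroup.map_sup, h.gen]
    exact Subgroup.map_top_of_surjective _ (QuotientGroup.mk'_surjective N)
  · intro A _ f₁ f₂ hf
    obtain ⟨f, h1, h2⟩ := h.lift A (f₁.comp ((QuotientGroup.mk' N).subgroupMap K₁))
      (f₂.comp ((QuotientGroup.mk' N).subgroupMap K₂)) (by
        intro g hg1 hg2
        exact hf (QuotientGroup.mk' N g) ⟨g, hg1, rfl⟩ ⟨g, hg2, rfl⟩)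
    have hker : ∀ x ∈ N, f x = 1 := by
      intro x hx
      have hx1 : x ∈ K₁ := (hN hx).1
      have h3 := h1 ⟨x, hx1⟩
      have h4 : (QuotientGroup.mk' N).subgroupMap K₁ ⟨x, hx1⟩ = 1 := by
        apply Subtype.ext
        show QuotientGroup.mk' N x = 1
        exact (QuotientGroup.eq_one_iff x).2 hx
      rw [MonoidHom.comp_apply, h4, map_one] at h3
      exact h3
    refine ⟨QuotientGroup.lift N f hker, ?_, ?_⟩
    · rintro ⟨_, ⟨x, hx, rfl⟩⟩
      exact h1 ⟨x, hx⟩
    · rintro ⟨_, ⟨x, hx, rfl⟩⟩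
      exact h2 ⟨x, hx⟩

theorem padic_quotient {p : ℕ} [Fact p.Prime] {G : Type} [Group G] [TopologicalSpace G]
    [IsTopologicalGroup G] (hG : IsPadicLie p G) {N : Subgroup G} [N.Normal]
    (hd : ∃ U : Subgroup G, IsOpen (U : Set G) ∧ U ⊓ N = ⊥) : IsPadicLie p (G ⧸ N) := by
  obtain ⟨U₀, n, f₀, hU₀, hf₀⟩ := hG
  obtain ⟨U, hU, hUN⟩ := hd
  obtain ⟨U₁, hU₁⟩ : ∃ U₁ : Subgroup G, U₁ = U₀ ⊓ U := ⟨_, rfl⟩
  have hU₁o : IsOpen (U₁ : Set G) := by
    rw [hU₁]
    exact hU₀.inter hU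
  have hle : U₁ ≤ U₀ := by
    rw [hU₁]
    exact inf_le_left
  have hinjN : ∀ x ∈ U₁, ∀ y ∈ U₁, (QuotientGroup.mk' N x) = QuotientGroup.mk' N y → x = y := by
    intro x hx y hy hxy
    have h1 : x⁻¹ * y ∈ N := QuotientGroup.eq.1 hxy
    have h2 : x⁻¹ * y ∈ U₁ := U₁.mul_mem (U₁.inv_mem hx) hy
    have h3 : x⁻¹ * y ∈ U ⊓ N := by
      rw [hU₁] at h2
      exact ⟨h2.2, h1⟩
    rw [hUN, Subgroup.mem_bot] at h3
    exact inv_mul_eq_one.1 h3
  have hbij : Function.Bijective ((QuotientGroup.mk' N).subgroupMap U₁) := by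
    refine ⟨?_, MonoidHom.subgroupMap_surjective _ _⟩
    intro x y hxy
    exact Subtype.ext (hinjN x.1 x.2 y.1 y.2 (congrArg Subtype.val hxy))
  let e : U₁ ≃* (U₁.map (QuotientGroup.mk' N) : Subgroup (G ⧸ N)) := MulEquiv.ofBijective _ hbij
  have he : ∀ x : U₁, ((e x : (U₁.map (QuotientGroup.mk' N) : Subgroup (G ⧸ N))) : G ⧸ N) =
      QuotientGroup.mk' N (x : G) := fun _ => rfl
  have hcont : Continuous e := by
    refine Continuous.subtype_mk ?_ _
    exact QuotientGroup.continuous_mk.comp continuous_subtype_val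
  have hopen : IsOpenMap e := by
    intro O hO
    have h1 : IsOpen (Subtype.val '' O : Set G) := hU₁o.isOpenMap_subtype_val O hO
    have h2 : IsOpen ((QuotientGroup.mk' N) '' (Subtype.val '' O : Set G)) :=
      QuotientGroup.isOpenMap_coe _ h1
    have h3 : e '' O = Subtype.val ⁻¹' ((QuotientGroup.mk' N) '' (Subtype.val '' O : Set G)) := by
      ext y
      constructor
      · rintro ⟨x, hx, rfl⟩
        exact ⟨x, ⟨x, hx, rfl⟩, (he x).symm⟩
      · rintro ⟨_, ⟨x, hx, rfl⟩, hy⟩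
        exact ⟨x, hx, Subtype.ext hy⟩
    rw [h3]
    exact h2.preimage continuous_subtype_val
  let eh : U₁ ≃ₜ (U₁.map (QuotientGroup.mk' N) : Subgroup (G ⧸ N)) :=
    e.toEquiv.toHomeomorphOfContinuousOpen hcont hopen
  have hes : IsClosedEmbedding e.symm := eh.symm.isClosedEmbedding
  have hinc : IsClosedEmbedding (Subgroup.inclusion hle) := by
    refine ⟨Topology.IsEmbedding.inclusion (s := (U₁ : Set G)) (t := (U₀ : Set G)) hle, ?_⟩
    have h1 : Set.range (Subgroup.inclusion hle) = Subtype.val ⁻¹' (U₁ : Set G) := by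
      ext y
      constructor
      · rintro ⟨x, rfl⟩
        exact x.2
      · intro hy
        exact ⟨⟨y, hy⟩, rfl⟩
    rw [h1]
    exact (Subgroup.isClosed_of_isOpen U₁ hU₁o).preimage continuous_subtype_val
  refine ⟨U₁.map (QuotientGroup.mk' N), n,
    (f₀.comp (Subgroup.inclusion hle)).comp e.symm.toMonoidHom, ?_, ?_⟩
  · exact QuotientGroup.isOpenMap_coe _ hU₁o
  · exact (hf₀.comp hinc).comp hes

/-- The subgroup generated by the `n`-th powers of the elements of `Λ`. -/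
def powSub {G : Type} [Group G] (Λ : Subgroup G) (n : ℕ) : Subgroup G :=
  Subgroup.closure {x | ∃ z ∈ Λ, x = z ^ n}

theorem powSub_le {G : Type} [Group G] (Λ : Subgroup G) (n : ℕ) : powSub Λ n ≤ Λ := by
  unfold powSub
  rw [Subgroup.closure_le]
  rintro _ ⟨z, hz, rfl⟩
  exact Λ.pow_mem hz n

theorem mem_powSub {G : Type} [Group G] {Λ : Subgroup G} (hc : Λ ≤ Subgroup.center G) {n : ℕ}
    {x : G} : x ∈ powSub Λ n ↔ ∃ z ∈ Λ, x = z ^ n := by
  constructor
  · intro hx
    unfold powSub at hx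
    induction hx using Subgroup.closure_induction with
    | mem x hx => exact hx
    | one => exact ⟨1, Λ.one_mem, (one_pow n).symm⟩
    | mul x y _ _ hx hy =>
      obtain ⟨z, hz, rfl⟩ := hx
      obtain ⟨w, hw, rfl⟩ := hy
      have hcom : Commute z w := ((Subgroup.mem_center_iff.1 (hc hz)) w).symm
      exact ⟨z * w, Λ.mul_mem hz hw, (hcom.mul_pow n).symm⟩
    | inv x _ hx =>
      obtain ⟨z, hz, rfl⟩ := hx
      exact ⟨z⁻¹, Λ.inv_mem hz, (inv_pow z n).symm⟩
  · intro hx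
    exact Subgroup.subset_closure hx

theorem powSub_normal {G : Type} [Group G] {Λ : Subgroup G} (hc : Λ ≤ Subgroup.center G) (n : ℕ) :
    (powSub Λ n).Normal := by
  refine ⟨?_⟩
  intro x hx g
  have h1 : g * x = x * g := (Subgroup.mem_center_iff.1 (hc (powSub_le Λ n hx))) g
  rw [h1, mul_inv_cancel_right]
  exact hx

private theorem cent_index_aux (L : Type) [CommGroup L] [Group.FG L] (M : Subgroup L) {n : ℕ}
    (hn : n ≠ 0) (h : ∀ z : L, z ^ n ∈ M) : M.index ≠ 0 := by
  have htor : IsMulTorsion (L ⧸ M) := by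
    intro q
    obtain ⟨z, rfl⟩ := QuotientGroup.mk_surjective q
    rw [isOfFinOrder_iff_pow_eq_one]
    refine ⟨n, Nat.pos_of_ne_zero hn, ?_⟩
    rw [← QuotientGroup.mk_pow]
    exact (QuotientGroup.eq_one_iff _).2 (h z)
  have hfin : Finite (L ⧸ M) := CommGroup.finite_of_fg_isMulTorsion _ htor
  exact Subgroup.index_ne_zero_of_finite

/-- A finitely generated central subgroup: the `n`-th powers have finite index. -/
theorem powSub_index {G : Type} [Group G] {Λ : Subgroup G} (hc : Λ ≤ Subgroup.center G)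
    (hfg : Λ.FG) {n : ℕ} (hn : n ≠ 0) : (powSub Λ n).relIndex Λ ≠ 0 := by
  have hfg' : Group.FG Λ := (Group.fg_iff_subgroup_fg Λ).2 hfg
  let inst : CommGroup Λ :=
    { (inferInstance : Group Λ) with
      mul_comm := fun x y => Subtype.ext ((Subgroup.mem_center_iff.1 (hc y.2)) x) }
  exact @cent_index_aux Λ inst hfg' ((powSub Λ n).subgroupOf Λ) n hn
    (fun z => Subgroup.subset_closure ⟨z, z.2, rfl⟩)

end Emt
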