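import Pool.Agent.Emt.Inj

/-!
# Emt, module Eff: effaceability and the restriction property

`Eff C G H`: every locally constant cocycle of `H` in an admissible representation of `G` becomes a
coboundary in a larger locally admissible representation.

PROOFS.
* `van_of_eff`: `π` on `V`, `c : H → V` a cocycle.  `c` has finite image (`H` compact), so its values
  lie in an admissible subrepresentation `M` (`IsLadm.exists_finite`).  Apply `Eff` to
  `subRep π M` and `c : H → M`: `i : M → W`, `e`.  Since `π` is injective the inclusion `M → V` extends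
  along `i` to an equivariant `g : W → V`, and `g e` is as required.
* `ri_of_eff`: `van_of_eff` and `smoothInj_of_van`.
* `eff_of_ri`: embed `ρ` (which is locally admissible) into an injective object `σ`
  (`exists_ladmInj`); `RI` and `van_of_smoothInj` give `e`.
* `RI.mono_closed`: `SmoothInj.res_closed` for the compact group `H` (`IsPadicLie.vproP`,
  `IsPadicLie.openBasis`, `OpenBasis.subgroup`), and `smoothInj_res_subgroupOf`.
* `exists_sylow_sub`: `exists_sylow` for the compact group `H`, and map the subgroup to `G`.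
* `RI.of_index`: `SmoothInj.of_index`, `smoothInj_res_subgroupOf`.
* `RI.conj`: `ρ` restricted to `g H g⁻¹` is isomorphic, via `ρ g`, to the transport of the restriction of
  `ρ` to `H` along `H ≃ g H g⁻¹`.
-/

open Topology Set

namespace Emt

/-- Cocycles of `H` in admissible representations of `G` are effaceable. -/
def Eff (C : Type) [Field C] (G : Type) [Group G] [TopologicalSpace G] (H : Subgroup G) : Prop :=
  ∀ (V : Type) [AddCommGroup V] [Module C V] (ρ : Representation C G V), IsAdm ρ →
    ∀ c : H → V, IsCoc (res ρ H) c →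
    ∃ (W : Type) (_ : AddCommGroup W) (_ : Module C W) (σ : Representation C G W)
      (i : V →ₗ[C] W) (e : W), IsLadm σ ∧ Equi ρ σ i ∧ Function.Injective i ∧
        ∀ h : H, i (c h) = σ h e - e

variable {p : ℕ} [Fact p.Prime] {G : Type} [Group G] [TopologicalSpace G] [IsTopologicalGroup G]
  {C : Type} [Field C] [Finite C] [CharP C p] {V : Type} [AddCommGroup V] [Module C V]
  {π : Representation C G V} {H H' : Subgroup G}

theorem van_of_eff (hG : IsPadicLie p G) (hH : IsCompact (H : Set G)) (h : Eff C G H)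
    (hπ : LadmInj π) : Van (res π H) := by
  intro c hc
  have hHc : CompactSpace H := isCompact_iff_compactSpace.1 hH
  have hF : (Set.range c).Finite := hc.cont.range_finite
  obtain ⟨M, hFM, hM⟩ := IsLadm.exists_finite hG hπ.1 hF
  have hA : IsAdm (subRep π M hM.sub) := isAdm_subRep hπ.1.smooth hM
  obtain ⟨c', hc'⟩ : ∃ c' : H → M, ∀ x, ((c' x : M) : V) = c x :=
    ⟨fun x => ⟨c x, hFM ⟨x, rfl⟩⟩, fun _ => rfl⟩
  have hcoc : IsCoc (res (subRep π M hM.sub) H) c' := by
    refine ⟨?_, ?_⟩
    · intro x y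
      apply Subtype.ext
      have h1 := hc.mul x y
      rw [← hc', ← hc', ← hc'] at h1
      exact h1
    · refine IsLocallyConstant.desc c' (Subtype.val : M → V) ?_ Subtype.val_injective
      have h2 : (Subtype.val : M → V) ∘ c' = c := funext hc'
      rw [h2]
      exact hc.cont
  obtain ⟨W, _, _, σ, i, e, hσ, hi, hinj, he⟩ := h M (subRep π M hM.sub) hA c' hcoc
  obtain ⟨g, hg, hgi⟩ := hπ.2 M W (subRep π M hM.sub) σ hA.isLadm hσ i hi hinj M.subtype
    (equi_subtype M hM.sub)
  refine ⟨g e, ?_⟩
  intro x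
  have h1 := hgi (c' x)
  rw [he x, map_sub, hg] at h1
  rw [← hc' x]
  exact h1.symm

theorem ri_of_eff (hG : IsPadicLie p G) (hH : IsCompact (H : Set G)) (hp : IsProP p H)
    (h : Eff C G H) : RI C G H := by
  intro V _ _ ρ hρ
  have hHc : CompactSpace H := isCompact_iff_compactSpace.1 hH
  exact smoothInj_of_van hp (hρ.1.smooth.res H) (van_of_eff hG hH h hρ)

theorem eff_of_ri (hG : IsPadicLie p G) (h : RI C G H) : Eff C G H := by
  intro V _ _ ρ hρ c hc
  obtain ⟨J, _, _, σ, i, hσ, hi, hinj⟩ := exists_ladmInj hG hρ.isLadm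
  have hV : Van (res σ H) := van_of_smoothInj (h J σ hσ)
  have hcoc : IsCoc (res σ H) (fun x => i (c x)) := by
    refine ⟨?_, ?_⟩
    · intro x y
      show i (c (x * y)) = i (c x) + σ (x : G) (i (c y))
      rw [hc.mul x y, map_add]
      congr 1
      exact hi (x : G) (c y)
    · exact hc.cont.comp i
  obtain ⟨e, he⟩ := hV _ hcoc
  exact ⟨J, _, _, σ, i, e, hσ.1, hi, hinj, he⟩

theorem RI.mono_closed (hG : IsPadicLie p G) (hH : IsCompact (H : Set G)) (h : RI C G H)
    (hle : H' ≤ H) (hcl : IsClosed (H' : Set G)) : RI C G H' := by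
  intro V _ _ ρ hρ
  have hHc : CompactSpace H := isCompact_iff_compactSpace.1 hH
  have h1 : SmoothInj (res (res ρ H) (H'.subgroupOf H)) :=
    SmoothInj.res_closed (p := p) (hG.openBasis.subgroup H) (hG.vproP hH) (h V ρ hρ)
      (hcl.preimage continuous_subtype_val)
  exact (smoothInj_res_subgroupOf hle).1 h1

theorem exists_sylow_sub (hG : IsPadicLie p G) (hH : IsCompact (H : Set G)) :
    ∃ S : Subgroup G, S ≤ H ∧ IsCompact (S : Set G) ∧ IsProP p S ∧ (S.subgroupOf H).index ≠ 0 ∧
      ¬ p ∣ (S.subgroupOf H).index := by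
  have hHc : CompactSpace H := isCompact_iff_compactSpace.1 hH
  obtain ⟨S, hSo, hSp, hS0, hSi⟩ := exists_sylow (hG.vproP hH)
  have hScl : IsClosed (S : Set H) := S.isClosed_of_isOpen hSo
  have h4 : (S.map H.subtype : Subgroup G).subgroupOf H = S :=
    Subgroup.comap_map_eq_self_of_injective H.subtype_injective S
  refine ⟨S.map H.subtype, Subgroup.map_subtype_le S, ?_, ?_, ?_, ?_⟩
  · have h1 : ((S.map H.subtype : Subgroup G) : Set G) = Subtype.val '' (S : Set H) := by
      ext x
      simp
    rw [h1]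
    exact hScl.isCompact.image continuous_subtype_val
  · let f : S →* (S.map H.subtype : Subgroup G) :=
      { toFun := fun x => ⟨x.1.1, ⟨x.1, x.2, rfl⟩⟩
        map_one' := rfl
        map_mul' := fun _ _ => rfl }
    refine hSp.map f ?_ ?_
    · exact Continuous.subtype_mk (continuous_subtype_val.comp continuous_subtype_val) _
    · rintro ⟨_, ⟨y, hy, rfl⟩⟩
      exact ⟨⟨y, hy⟩, rfl⟩
  · rw [h4]
    exact hS0
  · rw [h4]
    exact hSi

theorem RI.of_index (hle : H' ≤ H) (h0 : (H'.subgroupOf H).index ≠ 0)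
    (hp : ¬ p ∣ (H'.subgroupOf H).index) (h : RI C G H') : RI C G H := by
  intro V _ _ ρ hρ
  exact SmoothInj.of_index h0 hp (hρ.1.smooth.res H)
    ((smoothInj_res_subgroupOf hle).2 (h V ρ hρ))

theorem RI.conj (h : RI C G H) (g : G) : RI C G (H.map (MulAut.conj g).toMonoidHom) := by
  intro V _ _ ρ hρ
  have hmem : ∀ x : (H.map (MulAut.conj g).toMonoidHom : Subgroup G), g⁻¹ * (x : G) * g ∈ H := by
    rintro ⟨_, ⟨y, hy, rfl⟩⟩
    show g⁻¹ * (g * y * g⁻¹) * g ∈ H
    rw [show g⁻¹ * (g * y * g⁻¹) * g = y by group]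
    exact hy
  let e : (H.map (MulAut.conj g).toMonoidHom : Subgroup G) ≃* H :=
    { toFun := fun x => ⟨g⁻¹ * (x : G) * g, hmem x⟩
      invFun := fun y => ⟨g * (y : G) * g⁻¹, ⟨y, y.2, rfl⟩⟩
      left_inv := by
        intro x
        apply Subtype.ext
        show g * (g⁻¹ * (x : G) * g) * g⁻¹ = x
        group
      right_inv := by
        intro y
        apply Subtype.ext
        show g⁻¹ * (g * (y : G) * g⁻¹) * g = y
        group
      map_mul' := by
        intro x y
        apply Subtype.ext
        show g⁻¹ * ((x : G) * (y : G)) * g = (g⁻¹ * (x : G) * g) * (g⁻¹ * (y : G) * g)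
        group }
  have he : Continuous e := by
    refine Continuous.subtype_mk ?_ _
    exact (continuous_const.mul continuous_subtype_val).mul continuous_const
  have he' : Continuous e.symm := by
    refine Continuous.subtype_mk ?_ _
    exact (continuous_const.mul continuous_subtype_val).mul continuous_const
  have h1 : SmoothInj ((res ρ H).comp e.toMonoidHom) := SmoothInj.congr e he he' (h V ρ hρ)
  have key : ∀ (x : (H.map (MulAut.conj g).toMonoidHom : Subgroup G)) (v : V),
      ((res ρ H).comp e.toMonoidHom) x (ρ g⁻¹ v) = ρ g⁻¹ (ρ (x : G) v) := by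
    intro x v
    show ρ (g⁻¹ * (x : G) * g) (ρ g⁻¹ v) = ρ g⁻¹ (ρ (x : G) v)
    rw [← rep_mul_apply, ← rep_mul_apply]
    congr 2
    group
  refine ⟨hρ.1.smooth.res _, ?_⟩
  intro A B _ _ _ _ α β hα hβ i hi hinj f hf
  obtain ⟨k, hk, hki⟩ := h1.2 A B α β hα hβ i hi hinj ((ρ g⁻¹) ∘ₗ f) (by
    intro x a
    rw [LinearMap.comp_apply, LinearMap.comp_apply, key, hf x a]
    rfl)
  refine ⟨(ρ g) ∘ₗ k, ?_, ?_⟩
  · intro x b
    rw [LinearMap.comp_apply, LinearMap.comp_apply, hk x b]
    show ρ g (ρ (g⁻¹ * (x : G) * g) (k b)) = ρ (x : G) (ρ g (k b))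
    rw [← rep_mul_apply, ← rep_mul_apply]
    congr 2
    group
  · intro a
    rw [LinearMap.comp_apply, hki a, LinearMap.comp_apply, rep_apply_inv]

end Emt
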