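import Pool.Agent.Emt.Cent1
import Pool.Agent.Emt.Eff

/-!
# Emt, module Cent2: discrete central subgroups

PROOF of `ri_central`.  Let `S ≤ H` be as in `exists_sylow_sub` (compact, pro-`p`, index prime to
`p`); by `RI.of_index` it is enough to prove `RI C G S`, and by `smoothInj_of_van` that
`Van (res π S)` for `π` `LadmInj` on `V`.  Let `c : S → V` be a cocycle; it has finite image `F`.
CLAIM: there is `n ≠ 0` such that `π (z^n) v = v` for all `z ∈ Λ`, `v ∈ F`.  Proof: `F` is contained in an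
admissible subrepresentation `M` (`IsLadm.exists_finite`) and there is a compact open subgroup `U` of `G`
which fixes the elements of `F` (`IsPadicLie.exists_good`, `IsSmooth.exists_open`); the finite
dimensional space `M ⊓ fix π U` over the finite field `C` is a finite set, stable under the central
subgroup `Λ`, which acts on it by permutations; take for `n` the order (or the exponent) of the finite
group of the permutations of this finite set.
Let `N = powSub Λ n`, `V₀ = fix π N`, a subrepresentation of `π` containing `F`.  `G ⧸ N` acts on `V₀`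
(`π₀ (mk g) v = π g v`).  `π₀` is `LadmInj` for `G ⧸ N`:
- it is locally admissible: smooth as `mk` is open; if `v ∈ M` (admissible for `G`), then `M ⊓ V₀` is an
  admissible subrepresentation: for `U''` compact open in `G ⧸ N` the preimage of `U''` is open and
  contains a compact open subgroup of `G`;
- injectivity: for representations `α, β` of `G ⧸ N` consider `α ∘ mk`, `β ∘ mk`; they are locally
  admissible for `G` (if `U` is compact open in `G` then `mk(U)` is compact open in `G ⧸ N`); an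
  extension `B → V` has its image in `V₀` because `N` acts trivially on `B`.
By hypothesis (`h n`) and `RI.mono_closed` for `G ⧸ N` (a `p`-adic Lie group by `padic_quotient`,
`powSub_le`), `SmoothInj (res π₀ S₀)` for `S₀ = mk(S)`, so `Van (res π₀ S₀)`.  The map `S → S₀` is an
isomorphism of topological groups: `S ⊓ N = ⊥`, because `S ⊓ Λ` is a discrete closed subgroup of a compact
group (`hd`), so it is finite, and `Λ` is torsion-free; a continuous bijection of compact Hausdorff spaces
is a homeomorphism.  Transport `c` to `S₀` and conclude.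
-/

open Topology Set

namespace Emt

/-- The action of `G ⧸ N` on the `N`-fixed vectors. -/
def quoFix {C : Type} [Field C] {G : Type} [Group G] {V : Type} [AddCommGroup V] [Module C V]
    (π : Representation C G V) (N : Subgroup G) [N.Normal] :
    Representation C (G ⧸ N) (fix π N) :=
  QuotientGroup.lift N (subRep π (fix π N) (isSub_fix_normal π N)) (by
    intro g hg
    ext v
    exact v.2 g hg)

theorem quoFix_mk {C : Type} [Field C] {G : Type} [Group G] {V : Type} [AddCommGroup V]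
    [Module C V] (π : Representation C G V) (N : Subgroup G) [N.Normal] (g : G) (v : fix π N) :
    ((quoFix π N (g : G ⧸ N) v : fix π N) : V) = π g v := rfl

theorem isAdmSub_comp_mk {C : Type} [Field C] {G : Type} [Group G] [TopologicalSpace G]
    [IsTopologicalGroup G] {N : Subgroup G} [N.Normal] {A : Type} [AddCommGroup A] [Module C A]
    {α : Representation C (G ⧸ N) A} {M : Submodule C A} (hM : IsAdmSub α M) :
    IsAdmSub (α.comp (QuotientGroup.mk' N)) M := by
  refine ⟨fun g v hv => hM.sub _ v hv, fun U hU hUc => ?_⟩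
  have h1 : IsOpen ((U.map (QuotientGroup.mk' N) : Subgroup (G ⧸ N)) : Set (G ⧸ N)) := by
    rw [Subgroup.coe_map]
    exact QuotientGroup.isOpenMap_coe _ hU
  have h2 : IsCompact ((U.map (QuotientGroup.mk' N) : Subgroup (G ⧸ N)) : Set (G ⧸ N)) := by
    rw [Subgroup.coe_map]
    exact hUc.image QuotientGroup.continuous_mk
  have h3 := hM.fin _ h1 h2
  have h4 : M ⊓ fix (α.comp (QuotientGroup.mk' N)) U =
      M ⊓ fix α (U.map (QuotientGroup.mk' N)) := by
    ext v
    constructor
    · rintro ⟨hv1, hv2⟩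
      refine ⟨hv1, ?_⟩
      rintro _ ⟨g, hg, rfl⟩
      exact hv2 g hg
    · rintro ⟨hv1, hv2⟩
      exact ⟨hv1, fun g hg => hv2 _ ⟨g, hg, rfl⟩⟩
  rw [h4]
  exact h3

theorem isLadm_comp_mk {C : Type} [Field C] {G : Type} [Group G] [TopologicalSpace G]
    [IsTopologicalGroup G] {N : Subgroup G} [N.Normal] {A : Type} [AddCommGroup A] [Module C A]
    {α : Representation C (G ⧸ N) A} (hα : IsLadm α) :
    IsLadm (α.comp (QuotientGroup.mk' N)) := by
  refine ⟨fun v => ?_, fun v => ?_⟩
  · exact (hα.smooth v).preimage QuotientGroup.continuous_mk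
  · obtain ⟨M, hv, hM⟩ := hα.loc v
    exact ⟨M, hv, isAdmSub_comp_mk hM⟩

theorem isLadm_quoFix {p : ℕ} [Fact p.Prime] {G : Type} [Group G] [TopologicalSpace G]
    [IsTopologicalGroup G] (hG : IsPadicLie p G) {C : Type} [Field C] [Finite C] [CharP C p]
    {V : Type} [AddCommGroup V] [Module C V] {π : Representation C G V} (hπ : IsLadm π)
    (N : Subgroup G) [N.Normal] : IsLadm (quoFix π N) := by
  obtain ⟨U₀, hU₀, hU₀c, -, -, -⟩ := hG.exists_good C
  refine ⟨fun v => ?_, fun v => ?_⟩
  · have h1 : IsOpen (QuotientGroup.mk ⁻¹' {q : G ⧸ N | quoFix π N q v = v}) := by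
      have h2 : QuotientGroup.mk ⁻¹' {q : G ⧸ N | quoFix π N q v = v} =
          {g : G | π g (v : V) = v} := by
        ext g
        exact ⟨fun h => congrArg Subtype.val h, fun h => Subtype.ext h⟩
      rw [h2]
      exact hπ.smooth v
    exact QuotientGroup.isOpenQuotientMap_mk.isQuotientMap.isOpen_preimage.1 h1
  · obtain ⟨M, hv, hM⟩ := hπ.loc (v : V)
    refine ⟨M.comap (fix π N).subtype, hv, ?_, fun U hU _ => ?_⟩
    · intro q w hw
      obtain ⟨g, rfl⟩ := QuotientGroup.mk_surjective q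
      exact hM.sub g _ hw
    · have hU1 : IsOpen ((U.comap (QuotientGroup.mk' N) : Subgroup G) : Set G) := by
        rw [Subgroup.coe_comap]
        exact hU.preimage QuotientGroup.continuous_mk
      have hU2 : IsOpen ((U₀ ⊓ U.comap (QuotientGroup.mk' N) : Subgroup G) : Set G) := by
        rw [Subgroup.coe_inf]
        exact hU₀.inter hU1
      have hU3 : IsCompact ((U₀ ⊓ U.comap (QuotientGroup.mk' N) : Subgroup G) : Set G) := by
        rw [Subgroup.coe_inf]
        exact hU₀c.inter_right (Subgroup.isClosed_of_isOpen _ hU1)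
      have h3 := hM.fin _ hU2 hU3
      let L : (M.comap (fix π N).subtype ⊓ fix (quoFix π N) U : Submodule C (fix π N)) →ₗ[C]
          (M ⊓ fix π (U₀ ⊓ U.comap (QuotientGroup.mk' N)) : Submodule C V) :=
        ((fix π N).subtype ∘ₗ Submodule.subtype _).codRestrict _ (by
          rintro ⟨w, hw1, hw2⟩
          refine ⟨hw1, ?_⟩
          rintro g ⟨-, hg⟩
          exact congrArg Subtype.val (hw2 _ hg))
      refine FiniteDimensional.of_injective L ?_
      intro x y hxy
      apply Subtype.ext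
      apply Subtype.ext
      have h5 := congrArg Subtype.val hxy
      exact h5

theorem ladmInj_quoFix {p : ℕ} [Fact p.Prime] {G : Type} [Group G] [TopologicalSpace G]
    [IsTopologicalGroup G] (hG : IsPadicLie p G) {C : Type} [Field C] [Finite C] [CharP C p]
    {V : Type} [AddCommGroup V] [Module C V] {π : Representation C G V} (hπ : LadmInj π)
    (N : Subgroup G) [N.Normal] : LadmInj (quoFix π N) := by
  refine ⟨isLadm_quoFix hG hπ.1 N, ?_⟩
  intro A B _ _ _ _ α β hα hβ i hi hinj f hf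
  obtain ⟨g, hg, hgi⟩ := hπ.2 A B (α.comp (QuotientGroup.mk' N)) (β.comp (QuotientGroup.mk' N))
    (isLadm_comp_mk hα) (isLadm_comp_mk hβ) i (fun x a => hi _ a) hinj
    ((fix π N).subtype ∘ₗ f) (fun x a => by
      rw [LinearMap.comp_apply, LinearMap.comp_apply]
      have h1 := hf (x : G ⧸ N) a
      exact congrArg Subtype.val h1)
  have hmem : ∀ b, g b ∈ fix π N := by
    intro b n hn
    have h1 := hg n b
    have h2 : (β.comp (QuotientGroup.mk' N)) n b = b := by
      have h3 : (QuotientGroup.mk' N) n = 1 := (QuotientGroup.eq_one_iff n).2 hn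
      show β ((QuotientGroup.mk' N) n) b = b
      rw [h3]
      exact rep_one_apply β b
    rw [h2] at h1
    exact h1.symm
  refine ⟨g.codRestrict _ hmem, ?_, fun a => Subtype.ext (hgi a)⟩
  intro q b
  obtain ⟨x, rfl⟩ := QuotientGroup.mk_surjective q
  apply Subtype.ext
  exact hg x b

/-- A central subgroup acts with bounded exponent on finitely many vectors. -/
theorem exists_exponent {p : ℕ} [Fact p.Prime] {G : Type} [Group G] [TopologicalSpace G]
    [IsTopologicalGroup G] (hG : IsPadicLie p G) {C : Type} [Field C] [Finite C] [CharP C p]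
    {V : Type} [AddCommGroup V] [Module C V] {π : Representation C G V} (hπ : IsLadm π)
    {Λ : Subgroup G} (hc : Λ ≤ Subgroup.center G) {F : Set V} (hF : F.Finite) :
    ∃ n : ℕ, n ≠ 0 ∧ ∀ z ∈ Λ, ∀ v ∈ F, π (z ^ n) v = v := by
  obtain ⟨U₀, hU₀, hU₀c, -, -, -⟩ := hG.exists_good C
  obtain ⟨M, hFM, hM⟩ := hπ.exists_finite hG hF
  obtain ⟨U₁, hU₁, hfix⟩ := hπ.smooth.exists_open hF
  have hU2 : IsOpen ((U₀ ⊓ U₁ : Subgroup G) : Set G) := by
    rw [Subgroup.coe_inf]
    exact hU₀.inter hU₁
  have hU3 : IsCompact ((U₀ ⊓ U₁ : Subgroup G) : Set G) := by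
    rw [Subgroup.coe_inf]
    exact hU₀c.inter_right (Subgroup.isClosed_of_isOpen _ hU₁)
  have hfd := hM.fin _ hU2 hU3
  have hfin : Finite (M ⊓ fix π (U₀ ⊓ U₁) : Submodule C V) := Module.finite_of_finite C
  have hst : ∀ z ∈ Λ, ∀ v ∈ (M ⊓ fix π (U₀ ⊓ U₁) : Submodule C V),
      π z v ∈ (M ⊓ fix π (U₀ ⊓ U₁) : Submodule C V) := by
    rintro z hz v ⟨hv1, hv2⟩
    refine ⟨hM.sub z v hv1, ?_⟩
    intro g hg
    rw [← rep_mul_apply, Subgroup.mem_center_iff.1 (hc hz) g, rep_mul_apply, hv2 g hg]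
  refine ⟨Nat.card (Equiv.Perm (M ⊓ fix π (U₀ ⊓ U₁) : Submodule C V)), Nat.card_pos.ne', ?_⟩
  intro z hz v hv
  let e : Equiv.Perm (M ⊓ fix π (U₀ ⊓ U₁) : Submodule C V) :=
    { toFun := fun w => ⟨π z w, hst z hz w w.2⟩
      invFun := fun w => ⟨π z⁻¹ w, hst z⁻¹ (Λ.inv_mem hz) w w.2⟩
      left_inv := fun w => Subtype.ext (rep_inv_apply π z w)
      right_inv := fun w => Subtype.ext (rep_apply_inv π z w) }
  have he : ∀ (k : ℕ) (w : (M ⊓ fix π (U₀ ⊓ U₁) : Submodule C V)),
      (((e ^ k) w : (M ⊓ fix π (U₀ ⊓ U₁) : Submodule C V)) : V) = π (z ^ k) w := by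
    intro k
    induction k with
    | zero =>
      intro w
      rw [pow_zero, pow_zero, rep_one_apply]
      rfl
    | succ k ih =>
      intro w
      rw [pow_succ, pow_succ, rep_mul_apply, Equiv.Perm.mul_apply, ih]
      rfl
  have h1 := he (Nat.card (Equiv.Perm (M ⊓ fix π (U₀ ⊓ U₁) : Submodule C V)))
    ⟨v, hFM hv, fun g hg => hfix g hg.2 v hv⟩
  rw [pow_card_eq_one'] at h1
  exact h1.symm

theorem eq_one_of_mem {G : Type} [Group G] [TopologicalSpace G]
    [IsTopologicalGroup G] {Λ : Subgroup G}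
    (htf : ∀ z ∈ Λ, ∀ n : ℕ, n ≠ 0 → z ^ n = 1 → z = 1)
    (hd : ∃ U : Subgroup G, IsOpen (U : Set G) ∧ U ⊓ Λ = ⊥) {S : Subgroup G}
    (hS : IsCompact (S : Set G)) {x : G} (hx : x ∈ S) (hx' : x ∈ Λ) : x = 1 := by
  obtain ⟨U, hU, hUΛ⟩ := hd
  haveI : CompactSpace S := isCompact_iff_compactSpace.1 hS
  have hUS : IsOpen ((U.subgroupOf S : Subgroup S) : Set S) := hU.preimage continuous_subtype_val
  haveI : Finite (S ⧸ U.subgroupOf S) := Subgroup.quotient_finite_of_isOpen _ hUS
  obtain ⟨k, l, hkl, h1⟩ := Finite.exists_ne_map_eq_of_infinite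
    (fun k : ℕ => (((⟨x, hx⟩ : S) ^ k : S) : S ⧸ U.subgroupOf S))
  have h2 : ∀ k l : ℕ, k < l → (((⟨x, hx⟩ : S) ^ k : S) : S ⧸ U.subgroupOf S) =
      (((⟨x, hx⟩ : S) ^ l : S) : S ⧸ U.subgroupOf S) → x = 1 := by
    intro k l hkl h
    rw [QuotientGroup.eq, Subgroup.mem_subgroupOf] at h
    have h3 : (((⟨x, hx⟩ : S) ^ k)⁻¹ * (⟨x, hx⟩ : S) ^ l : S) = (⟨x, hx⟩ : S) ^ (l - k) := by
      rw [inv_mul_eq_iff_eq_mul, ← pow_add]
      congr 1
      omega
    rw [h3, Subgroup.coe_pow] at h
    have h4 : x ^ (l - k) ∈ U ⊓ Λ := ⟨h, Λ.pow_mem hx' _⟩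
    rw [hUΛ, Subgroup.mem_bot] at h4
    exact htf x hx' (l - k) (by omega) h4
  rcases lt_or_gt_of_ne hkl with h | h
  · exact h2 k l h h1
  · exact h2 l k h h1.symm

theorem ri_central {p : ℕ} [Fact p.Prime] {G : Type} [Group G] [TopologicalSpace G]
    [IsTopologicalGroup G] (hG : IsPadicLie p G) {C : Type} [Field C] [Finite C] [CharP C p]
    {Λ : Subgroup G} (hc : Λ ≤ Subgroup.center G)
    (htf : ∀ z ∈ Λ, ∀ n : ℕ, n ≠ 0 → z ^ n = 1 → z = 1)
    (hd : ∃ U : Subgroup G, IsOpen (U : Set G) ∧ U ⊓ Λ = ⊥) {H : Subgroup G}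
    (hH : IsCompact (H : Set G))
    (h : ∀ n : ℕ, n ≠ 0 → ∀ [(powSub Λ n).Normal],
      RI C (G ⧸ powSub Λ n) (H.map (QuotientGroup.mk' (powSub Λ n)))) : RI C G H := by
  obtain ⟨S, hSH, hSc, hSp, hi0, hip⟩ := exists_sylow_sub hG hH
  refine RI.of_index hSH hi0 hip ?_
  intro V _ _ π hπ
  haveI : CompactSpace S := isCompact_iff_compactSpace.1 hSc
  refine smoothInj_of_van hSp (hπ.1.smooth.res S) ?_
  intro c hcoc
  have hF : (Set.range c).Finite := hcoc.cont.range_finite
  obtain ⟨n, hn, hexp⟩ := exists_exponent hG hπ.1 hc hF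
  haveI hnorm : (powSub Λ n).Normal := powSub_normal hc n
  have hGN : IsPadicLie p (G ⧸ powSub Λ n) := by
    refine padic_quotient hG ?_
    obtain ⟨U, hU, hUΛ⟩ := hd
    refine ⟨U, hU, ?_⟩
    rw [eq_bot_iff, ← hUΛ]
    exact inf_le_inf_left _ (powSub_le Λ n)
  haveI : T2Space (G ⧸ powSub Λ n) := hGN.t2
  have hcmem : ∀ x : S, c x ∈ fix π (powSub Λ n) := by
    intro x g hg
    obtain ⟨z, hz, rfl⟩ := (mem_powSub hc).1 hg
    exact hexp z hz _ ⟨x, rfl⟩
  -- the image of `S`
  have hS₀c : IsCompact ((S.map (QuotientGroup.mk' (powSub Λ n)) :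
      Subgroup (G ⧸ powSub Λ n)) : Set (G ⧸ powSub Λ n)) := by
    rw [Subgroup.coe_map]
    exact hSc.image QuotientGroup.continuous_mk
  have hH₀c : IsCompact ((H.map (QuotientGroup.mk' (powSub Λ n)) :
      Subgroup (G ⧸ powSub Λ n)) : Set (G ⧸ powSub Λ n)) := by
    rw [Subgroup.coe_map]
    exact hH.image QuotientGroup.continuous_mk
  have hRI : RI C (G ⧸ powSub Λ n) (S.map (QuotientGroup.mk' (powSub Λ n))) :=
    RI.mono_closed hGN hH₀c (h n hn) (Subgroup.map_mono hSH) hS₀c.isClosed
  have hvan := van_of_smoothInj (hRI _ _ (ladmInj_quoFix hG hπ (powSub Λ n)))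
  -- the isomorphism
  let j : S →* S.map (QuotientGroup.mk' (powSub Λ n)) :=
    (QuotientGroup.mk' (powSub Λ n)).subgroupMap S
  have hjv : ∀ x : S, ((j x : S.map (QuotientGroup.mk' (powSub Λ n))) : G ⧸ powSub Λ n) =
      ((x : G) : G ⧸ powSub Λ n) := fun _ => rfl
  have hjs : Function.Surjective j := MonoidHom.subgroupMap_surjective _ S
  have hji : Function.Injective j := by
    rw [injective_iff_map_eq_one]
    intro x hx
    have h1 : ((x : G) : G ⧸ powSub Λ n) = 1 := by
      rw [← hjv, hx]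
      rfl
    have h2 : (x : G) ∈ powSub Λ n := (QuotientGroup.eq_one_iff _).1 h1
    exact Subtype.ext (eq_one_of_mem htf hd hSc x.2 (powSub_le Λ n h2))
  have hjc : Continuous j :=
    Continuous.subtype_mk (QuotientGroup.continuous_mk.comp continuous_subtype_val) _
  let E : S ≃* S.map (QuotientGroup.mk' (powSub Λ n)) := MulEquiv.ofBijective j ⟨hji, hjs⟩
  have hEc : Continuous E.symm := by
    have h1 : Continuous E.toEquiv := hjc
    exact (h1.homeoOfEquivCompactToT2).symm.continuous
  let c₀ : S.map (QuotientGroup.mk' (powSub Λ n)) → fix π (powSub Λ n) :=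
    fun y => ⟨c (E.symm y), hcmem _⟩
  have hE : ∀ y, (((E.symm y : S) : G) : G ⧸ powSub Λ n) =
      (y : G ⧸ powSub Λ n) := by
    intro y
    rw [← hjv]
    exact congrArg Subtype.val (E.apply_symm_apply y)
  have hc₀ : IsCoc (res (quoFix π (powSub Λ n)) (S.map (QuotientGroup.mk' (powSub Λ n)))) c₀ := by
    refine ⟨fun x y => ?_, ?_⟩
    · apply Subtype.ext
      show c (E.symm (x * y)) = c (E.symm x) + _
      rw [map_mul, hcoc.mul]
      congr 1
      show π ((E.symm x : S) : G) (c (E.symm y)) = _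
      rw [← quoFix_mk π (powSub Λ n) ((E.symm x : S) : G) ⟨c (E.symm y), hcmem _⟩, hE]
      rfl
    · intro s
      have h1 : c₀ ⁻¹' s = E.symm ⁻¹' (c ⁻¹' (Subtype.val '' s)) := by
        ext y
        constructor
        · intro hy
          exact ⟨c₀ y, hy, rfl⟩
        · rintro ⟨w, hw, hw2⟩
          have h2 : c₀ y = w := Subtype.ext hw2.symm
          show c₀ y ∈ s
          rw [h2]
          exact hw
      rw [h1]
      exact (hcoc.cont _).preimage hEc
  obtain ⟨e, he⟩ := hvan c₀ hc₀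
  refine ⟨e, fun x => ?_⟩
  have h1 := congrArg Subtype.val (he (E x))
  have h2 : E.symm (E x) = x := E.symm_apply_apply x
  have h3 : ((c₀ (E x) : fix π (powSub Λ n)) : V) = c x := by
    show c (E.symm (E x)) = c x
    rw [h2]
  rw [h3] at h1
  rw [h1]
  rfl

end Emt
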