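import Pool.Agent.Emt.Glue2
import Pool.Agent.Emt.Eff

/-!
# Emt, module Glue3: the restriction property for subgroups of `K₁` and `K₂`

PROOF.  Let `H ≤ K₁` (or `H ≤ K₂`) be compact.  Let `S ≤ H` be as in `exists_sylow_sub`.  `Eff C G S`:
given an admissible `ρ` and a cocycle `c` of `S`, take `σ`, `i` from `exists_glue`.  `SmoothInj
(res σ K₁)` implies `SmoothInj (res σ S)` (`SmoothInj.res_closed` for the compact group `K₁`,
`smoothInj_res_subgroupOf`; `S` is compact, hence closed, `IsPadicLie.t2`), which implies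
`Van (res σ S)` (`van_of_smoothInj`); apply this to the cocycle `i ∘ c`.  So `RI C G S` by `ri_of_eff`,
and `RI C G H` by `RI.of_index`.
For `H ≤ g K_a g⁻¹` use `RI.conj`: `H = g (g⁻¹ H g) g⁻¹`.
-/

open Topology Set

namespace Emt

theorem Glue3_core {p : ℕ} [Fact p.Prime] {G : Type} [Group G] [TopologicalSpace G]
    [IsTopologicalGroup G] (hG : IsPadicLie p G) (C : Type) [Field C] [Finite C] [CharP C p]
    {K H : Subgroup G} (hK : IsCompact (K : Set G)) (hH : IsCompact (H : Set G)) (hle : H ≤ K)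
    (hglue : ∀ (V : Type) [AddCommGroup V] [Module C V] (ρ : Representation C G V), IsAdm ρ →
      ∃ (Ω : Type) (_ : AddCommGroup Ω) (_ : Module C Ω) (σ : Representation C G Ω)
        (i : V →ₗ[C] Ω), IsAdm σ ∧ Equi ρ σ i ∧ Function.Injective i ∧ SmoothInj (res σ K)) :
    RI C G H := by
  obtain ⟨S, hSH, hSc, hSp, hS0, hSi⟩ := exists_sylow_sub hG hH
  have heff : Eff C G S := by
    intro V _ _ ρ hρ c hc
    obtain ⟨Ω, iΩ, mΩ, σ, i, hσ, hi, hinj, hσK⟩ := hglue V ρ hρ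
    have hT2 : T2Space G := hG.t2
    have hKc : CompactSpace K := isCompact_iff_compactSpace.1 hK
    have hcl : IsClosed ((S.subgroupOf K : Subgroup K) : Set K) :=
      hSc.isClosed.preimage continuous_subtype_val
    have h1 : SmoothInj (res σ S) :=
      (smoothInj_res_subgroupOf (ρ := σ) (hSH.trans hle)).1
        (hσK.res_closed (hG.openBasis.subgroup K) (hG.vproP hK) hcl)
    have h2 : Van (res σ S) := van_of_smoothInj h1
    have h3 : IsCoc (res σ S) (fun s => i (c s)) := by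
      refine ⟨fun g h => ?_, hc.cont.comp i⟩
      rw [hc.mul, map_add]
      congr 1
      exact hi _ _
    obtain ⟨e, he⟩ := h2 _ h3
    exact ⟨Ω, iΩ, mΩ, σ, i, e, hσ.isLadm, hi, hinj, he⟩
  exact RI.of_index hSH hS0 hSi (ri_of_eff hG hSc hSp heff)

theorem ri_amalgam_le {p : ℕ} [Fact p.Prime] {G : Type} [Group G] [TopologicalSpace G]
    [IsTopologicalGroup G] (hG : IsPadicLie p G) (C : Type) [Field C] [Finite C] [CharP C p]
    {K₁ K₂ : Subgroup G} (h₁ : IsOpen (K₁ : Set G)) (h₁' : IsCompact (K₁ : Set G))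
    (h₂ : IsOpen (K₂ : Set G)) (h₂' : IsCompact (K₂ : Set G)) (ham : IsAmalgam K₁ K₂)
    {H : Subgroup G} (hH : IsCompact (H : Set G)) (hle : H ≤ K₁ ∨ H ≤ K₂) : RI C G H := by
  rcases hle with hle | hle
  · refine Glue3_core hG C h₁' hH hle ?_
    intro V _ _ ρ hρ
    obtain ⟨Ω, iΩ, mΩ, σ, i, h3, h4, h5, h6, -⟩ := exists_glue hG h₁ h₁' h₂ h₂' ham hρ
    exact ⟨Ω, iΩ, mΩ, σ, i, h3, h4, h5, h6⟩
  · refine Glue3_core hG C h₂' hH hle ?_
    intro V _ _ ρ hρ
    obtain ⟨Ω, iΩ, mΩ, σ, i, h3, h4, h5, -, h6⟩ := exists_glue hG h₁ h₁' h₂ h₂' ham hρ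
    exact ⟨Ω, iΩ, mΩ, σ, i, h3, h4, h5, h6⟩

theorem ri_amalgam_conj {p : ℕ} [Fact p.Prime] {G : Type} [Group G] [TopologicalSpace G]
    [IsTopologicalGroup G] (hG : IsPadicLie p G) (C : Type) [Field C] [Finite C] [CharP C p]
    {K₁ K₂ : Subgroup G} (h₁ : IsOpen (K₁ : Set G)) (h₁' : IsCompact (K₁ : Set G))
    (h₂ : IsOpen (K₂ : Set G)) (h₂' : IsCompact (K₂ : Set G)) (ham : IsAmalgam K₁ K₂)
    {H : Subgroup G} (hH : IsCompact (H : Set G)) {g : G}
    (hle : H ≤ K₁.map (MulAut.conj g).toMonoidHom ∨ H ≤ K₂.map (MulAut.conj g).toMonoidHom) :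
    RI C G H := by
  have hH' : IsCompact ((H.map (MulAut.conj g⁻¹).toMonoidHom : Subgroup G) : Set G) := by
    rw [Subgroup.coe_map]
    refine hH.image ?_
    change Continuous fun x => g⁻¹ * x * (g⁻¹)⁻¹
    fun_prop
  have hsub : ∀ K : Subgroup G, H ≤ K.map (MulAut.conj g).toMonoidHom →
      H.map (MulAut.conj g⁻¹).toMonoidHom ≤ K := by
    rintro K hK _ ⟨x, hx, rfl⟩
    obtain ⟨k, hk, hkx⟩ := hK hx
    have h3 : (MulAut.conj g⁻¹).toMonoidHom x = k := by
      rw [← hkx]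
      change g⁻¹ * (g * k * g⁻¹) * (g⁻¹)⁻¹ = k
      group
    rw [h3]
    exact hk
  have h4 : RI C G (H.map (MulAut.conj g⁻¹).toMonoidHom) :=
    ri_amalgam_le hG C h₁ h₁' h₂ h₂' ham hH' (hle.imp (hsub K₁) (hsub K₂))
  have h5 := h4.conj g
  have h6 : (H.map (MulAut.conj g⁻¹).toMonoidHom).map (MulAut.conj g).toMonoidHom = H := by
    rw [Subgroup.map_map]
    ext x
    constructor
    · rintro ⟨y, hy, rfl⟩
      have h7 : ((MulAut.conj g).toMonoidHom.comp (MulAut.conj g⁻¹).toMonoidHom) y = y := by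
        change g * (g⁻¹ * y * (g⁻¹)⁻¹) * g⁻¹ = y
        group
      rw [h7]
      exact hy
    · intro hx
      refine ⟨x, hx, ?_⟩
      change g * (g⁻¹ * x * (g⁻¹)⁻¹) * g⁻¹ = x
      group
  rwa [h6] at h5

end Emt
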