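import Pool.Agent.Emt.Defs

/-!
# Emt, module Tree2: the coset graph of an amalgam is a tree

PROOF.  Connected: `K₁ ⊔ K₂ = ⊤`; the set of the `g` such that the vertices `g K₁`, `K₁` are
connected by a path is a subgroup containing `K₁` and `K₂` (for `k ∈ K₂`: `k K₁ - k K₂ = K₂ - K₁`).
Acyclic: KEY: let `g₁, ..., g_n` (`n ≥ 1`) be elements, alternately in `K₁ \ K₂` and in
`K₂ \ K₁`; then the product is not `1` (it is not even in `K₁ ⊓ K₂`).  Proof: by `IsAmalgam.lift` with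
the group `A = Monoid.PushoutI φ` (`Mathlib.GroupTheory.PushoutI`), `ι = Bool` (or `Fin 2`), base
`K₁ ⊓ K₂`, factors `K₁`, `K₂`: there is `f : G → A` whose restrictions to the factors are the canonical
maps `of`; the image of the product is the product of a reduced word
(`Monoid.PushoutI.Reduced.eq_empty_of_mem_range`), so it is not in the base.
A cycle in the coset graph (`SimpleGraph.Walk.IsCycle`), after translation and rotation starting at
`K₁` (or: a walk without backtracking from `x` to `x`, of even length `2m ≥ 2`) has vertices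
`K₁, a₁ K₂, a₁ b₁ K₁, ...` with `a_i ∈ K₁ \ K₂`... : consecutive vertices `g K₁ - g K₂`, next
vertex `g b K₁`, `b ∈ K₂`, different from `g K₁` so `b ∉ K₁`, etc., so the product of
an alternating sequence lies in `K₁`; this contradicts KEY (if the product `g₁ ⋯ g_n`, `n ≥ 2`,
lies in `K₁` then after multiplication with its inverse and merging with the first factor one gets a
shorter relation; choose the set-up such that this is clean, for example prove by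
induction that a non-backtracking walk starting with the edge `(K₁, K₂)` and `n` more edges ends at a
vertex `≠ K₁`: its end point is `b₁ a₁ b₂ ⋯ K_ε` with an alternating product).
Any other proof is welcome (for example: construct the tree of reduced words, or show that
non-backtracking closed walks do not exist and use `SimpleGraph.isAcyclic_iff_path_unique`).
-/

open Topology Set

namespace Emt

/-- The graph with the vertices `g K₁`, `g K₂` and the edges `(g K₁, g K₂)`. -/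
def cosetGraph {G : Type} [Group G] (K₁ K₂ : Subgroup G) : SimpleGraph ((G ⧸ K₁) ⊕ (G ⧸ K₂)) where
  Adj x y := (∃ g : G, x = Sum.inl (g : G ⧸ K₁) ∧ y = Sum.inr (g : G ⧸ K₂)) ∨
    (∃ g : G, y = Sum.inl (g : G ⧸ K₁) ∧ x = Sum.inr (g : G ⧸ K₂))
  symm := ⟨fun _ _ h => h.elim Or.inr Or.inl⟩
  loopless := ⟨by
    intro x h
    rcases h with ⟨g, h1, h2⟩ | ⟨g, h1, h2⟩
    · rw [h1] at h2
      exact absurd h2 (by simp)
    · rw [h1] at h2
      exact absurd h2 (by simp)⟩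


namespace Tree2

variable {G : Type} [Group G]

/-- the translation action on the functions on `G / C` -/
def LL (C : Subgroup G) : G →* Equiv.Perm ((G ⧸ C) → ZMod 2) where
  toFun g :=
    { toFun := fun m x => m (g⁻¹ • x)
      invFun := fun m x => m (g • x)
      left_inv := fun m => by
        funext x
        simp
      right_inv := fun m => by
        funext x
        simp }
  map_one' := by
    ext m x
    simp
  map_mul' g h := by
    ext m x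
    simp [mul_smul]

theorem LL_apply (C : Subgroup G) (g : G) (m : (G ⧸ C) → ZMod 2) (x : G ⧸ C) :
    LL C g m x = m (g⁻¹ • x) := rfl

theorem LL_add (C : Subgroup G) (g : G) (m m' : (G ⧸ C) → ZMod 2) :
    LL C g (m + m') = LL C g m + LL C g m' := rfl

theorem LL_zero (C : Subgroup G) (g : G) : LL C g 0 = 0 := rfl

open Classical in
/-- the indicator function of the coset `C` -/
noncomputable def e0 (C : Subgroup G) : (G ⧸ C) → ZMod 2 :=
  fun x => if x = ((1 : G) : G ⧸ C) then 1 else 0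

open Classical in
theorem LL_e0 (C : Subgroup G) (g h : G) :
    LL C g (e0 C) ((h : G) : G ⧸ C) = if (g : G ⧸ C) = (h : G ⧸ C) then 1 else 0 := by
  rw [LL_apply]
  unfold e0
  have h1 : g⁻¹ • ((h : G) : G ⧸ C) = ((1 : G) : G ⧸ C) ↔ (g : G ⧸ C) = (h : G ⧸ C) := by
    have h2 : g⁻¹ • ((h : G) : G ⧸ C) = ((g⁻¹ * h : G) : G ⧸ C) := rfl
    rw [h2, QuotientGroup.eq, QuotientGroup.eq, mul_one, mul_inv_rev, inv_inv,
      ← C.inv_mem_iff, mul_inv_rev, inv_inv]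
  by_cases h3 : (g : G ⧸ C) = (h : G ⧸ C)
  · rw [if_pos h3, if_pos (h1.2 h3)]
  · rw [if_neg h3, if_neg fun h4 => h3 (h1.1 h4)]

theorem LL_e0_mem (C : Subgroup G) {g : G} (hg : g ∈ C) : LL C g (e0 C) = e0 C := by
  classical
  funext x
  obtain ⟨h, rfl⟩ := QuotientGroup.mk_surjective x
  rw [LL_e0]
  unfold e0
  have h1 : (g : G ⧸ C) = ((1 : G) : G ⧸ C) := by
    rw [QuotientGroup.eq, mul_one]
    exact C.inv_mem hg
  rw [h1]
  by_cases h2 : ((1 : G) : G ⧸ C) = (h : G ⧸ C)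
  · rw [if_pos h2, if_pos h2.symm]
  · rw [if_neg h2, if_neg fun h3 => h2 h3.symm]

/-- the homomorphism given by the amalgam -/
theorem exists_f {K₁ K₂ : Subgroup G} (h : IsAmalgam K₁ K₂) :
    ∃ f : G →* Equiv.Perm ((G ⧸ (K₁ ⊓ K₂)) → ZMod 2),
      (∀ k ∈ K₁, ∀ m, f k m = LL (K₁ ⊓ K₂) k m) ∧
      (∀ k ∈ K₂, ∀ m, f k m = LL (K₁ ⊓ K₂) k (m - e0 (K₁ ⊓ K₂)) + e0 (K₁ ⊓ K₂)) := by
  obtain ⟨C, hC⟩ : ∃ C, C = K₁ ⊓ K₂ := ⟨_, rfl⟩
  rw [← hC]
  obtain ⟨t, ht⟩ : ∃ t : Equiv.Perm ((G ⧸ C) → ZMod 2), t = Equiv.addRight (e0 C) := ⟨_, rfl⟩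
  have ht1 : ∀ m, t m = m + e0 C := fun m => by rw [ht]; rfl
  have ht2 : ∀ m, t⁻¹ m = m - e0 C := by
    intro m
    rw [Equiv.Perm.inv_eq_iff_eq, ht1, sub_add_cancel]
  obtain ⟨f, hf1, hf2⟩ := h.lift (Equiv.Perm ((G ⧸ C) → ZMod 2)) ((LL C).comp K₁.subtype)
    ((MulAut.conj t).toMonoidHom.comp ((LL C).comp K₂.subtype)) (by
      intro g h₁ h₂
      have hg : g ∈ C := by
        rw [hC]
        exact ⟨h₁, h₂⟩
      apply Equiv.ext
      intro m
      show LL C g m = t (LL C g (t⁻¹ m))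
      rw [ht1, ht2]
      have h3 : LL C g (m - e0 C) + LL C g (e0 C) = LL C g m := by
        rw [← LL_add, sub_add_cancel]
      rw [LL_e0_mem C hg] at h3
      exact h3.symm)
  refine ⟨f, ?_, ?_⟩
  · intro k hk m
    have := hf1 ⟨k, hk⟩
    rw [show f k = (LL C).comp K₁.subtype ⟨k, hk⟩ from this]
    rfl
  · intro k hk m
    have := hf2 ⟨k, hk⟩
    rw [show f k = (MulAut.conj t).toMonoidHom.comp ((LL C).comp K₂.subtype) ⟨k, hk⟩ from this]
    show t (LL C k (t⁻¹ m)) = _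
    rw [ht1, ht2]

theorem gen_induction {K₁ K₂ : Subgroup G} (h : IsAmalgam K₁ K₂) (H : Subgroup G) (h1 : K₁ ≤ H)
    (h2 : K₂ ≤ H) (g : G) : g ∈ H := by
  have h3 : K₁ ⊔ K₂ ≤ H := sup_le h1 h2
  rw [h.gen] at h3
  exact h3 (Subgroup.mem_top g)

theorem f_affine {K₁ K₂ : Subgroup G} (h : IsAmalgam K₁ K₂)
    {f : G →* Equiv.Perm ((G ⧸ (K₁ ⊓ K₂)) → ZMod 2)}
    (hf1 : ∀ k ∈ K₁, ∀ m, f k m = LL (K₁ ⊓ K₂) k m)
    (hf2 : ∀ k ∈ K₂, ∀ m, f k m = LL (K₁ ⊓ K₂) k (m - e0 (K₁ ⊓ K₂)) + e0 (K₁ ⊓ K₂)) (g : G) :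
    ∀ m m', f g (m + m') = f g m + LL (K₁ ⊓ K₂) g m' := by
  refine gen_induction h
    { carrier := {g | ∀ m m', f g (m + m') = f g m + LL (K₁ ⊓ K₂) g m'}
      one_mem' := ?_
      mul_mem' := ?_
      inv_mem' := ?_ } ?_ ?_ g
  · intro a b ha hb m m'
    rw [map_mul, map_mul, Equiv.Perm.mul_apply, Equiv.Perm.mul_apply, Equiv.Perm.mul_apply,
      hb, ha]
  · intro m m'
    rw [map_one, map_one]
    rfl
  · intro a ha m m'
    rw [map_inv, map_inv, Equiv.Perm.inv_eq_iff_eq, ha]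
    simp
  · intro k hk m m'
    rw [hf1 k hk, hf1 k hk, LL_add]
  · intro k hk m m'
    rw [hf2 k hk, hf2 k hk]
    have e : m + m' - e0 (K₁ ⊓ K₂) = (m - e0 (K₁ ⊓ K₂)) + m' := by abel
    rw [e, LL_add]
    abel

theorem connected {K₁ K₂ : Subgroup G} (h : IsAmalgam K₁ K₂) :
    (cosetGraph K₁ K₂).Connected := by
  have hadj : ∀ g : G, (cosetGraph K₁ K₂).Adj (Sum.inl (g : G ⧸ K₁)) (Sum.inr (g : G ⧸ K₂)) :=
    fun g => Or.inl ⟨g, rfl, rfl⟩
  have key : ∀ g a : G, (cosetGraph K₁ K₂).Reachable (Sum.inl ((a * g : G) : G ⧸ K₁))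
      (Sum.inl (a : G ⧸ K₁)) := by
    intro g
    refine gen_induction h
      { carrier := {g | ∀ a : G, (cosetGraph K₁ K₂).Reachable (Sum.inl ((a * g : G) : G ⧸ K₁))
          (Sum.inl (a : G ⧸ K₁))}
        one_mem' := ?_
        mul_mem' := ?_
        inv_mem' := ?_ } ?_ ?_ g
    · intro b c hb hc a
      have h1 := hc (a * b)
      rw [mul_assoc] at h1
      exact h1.trans (hb a)
    · intro a
      rw [mul_one]
    · intro b hb a
      have h1 := hb (a * b⁻¹)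
      rw [inv_mul_cancel_right] at h1
      exact h1.symm
    · intro k hk a
      have h1 : ((a * k : G) : G ⧸ K₁) = (a : G ⧸ K₁) := by
        rw [QuotientGroup.eq, mul_inv_rev, inv_mul_cancel_right]
        exact K₁.inv_mem hk
      rw [h1]
    · intro k hk a
      have h1 : ((a * k : G) : G ⧸ K₂) = (a : G ⧸ K₂) := by
        rw [QuotientGroup.eq, mul_inv_rev, inv_mul_cancel_right]
        exact K₂.inv_mem hk
      have h2 := hadj (a * k)
      rw [h1] at h2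
      exact h2.reachable.trans (hadj a).symm.reachable
  have hinl : ∀ g : G, (cosetGraph K₁ K₂).Reachable (Sum.inl (g : G ⧸ K₁))
      (Sum.inl ((1 : G) : G ⧸ K₁)) := by
    intro g
    have := key g 1
    rwa [one_mul] at this
  have hall : ∀ x, (cosetGraph K₁ K₂).Reachable x (Sum.inl ((1 : G) : G ⧸ K₁)) := by
    rintro (x | x)
    · obtain ⟨g, rfl⟩ := QuotientGroup.mk_surjective x
      exact hinl g
    · obtain ⟨g, rfl⟩ := QuotientGroup.mk_surjective x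
      exact (hadj g).symm.reachable.trans (hinl g)
  have : Nonempty ((G ⧸ K₁) ⊕ (G ⧸ K₂)) := ⟨Sum.inl ((1 : G) : G ⧸ K₁)⟩
  exact ⟨fun x y => (hall x).trans (hall y).symm⟩

open Classical in
/-- the potential: its change along an edge is the indicator function of the edge -/
theorem exists_pot {K₁ K₂ : Subgroup G} (h : IsAmalgam K₁ K₂) :
    ∃ F : (G ⧸ K₁) ⊕ (G ⧸ K₂) → (G ⧸ (K₁ ⊓ K₂)) → ZMod 2, ∀ g h : G,
      F (Sum.inr (g : G ⧸ K₂)) (h : G ⧸ (K₁ ⊓ K₂)) =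
        F (Sum.inl (g : G ⧸ K₁)) (h : G ⧸ (K₁ ⊓ K₂)) +
        if (g : G ⧸ (K₁ ⊓ K₂)) = (h : G ⧸ (K₁ ⊓ K₂)) then 1 else 0 := by
  obtain ⟨f, hf1, hf2⟩ := exists_f h
  have haff := f_affine h hf1 hf2
  refine ⟨Sum.elim (fun x => f x.out 0) (fun x => f x.out (e0 (K₁ ⊓ K₂))), ?_⟩
  intro g a
  have h1 : f ((g : G ⧸ K₁).out) 0 = f g 0 := by
    obtain ⟨k, hk⟩ := QuotientGroup.mk_out_eq_mul K₁ g
    rw [hk, map_mul, Equiv.Perm.mul_apply, hf1 k k.2, LL_zero]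
  have h2 : f ((g : G ⧸ K₂).out) (e0 (K₁ ⊓ K₂)) = f g (e0 (K₁ ⊓ K₂)) := by
    obtain ⟨k, hk⟩ := QuotientGroup.mk_out_eq_mul K₂ g
    rw [hk, map_mul, Equiv.Perm.mul_apply, hf2 k k.2, sub_self, LL_zero, zero_add]
  show f ((g : G ⧸ K₂).out) (e0 (K₁ ⊓ K₂)) (a : G ⧸ (K₁ ⊓ K₂)) =
    f ((g : G ⧸ K₁).out) 0 (a : G ⧸ (K₁ ⊓ K₂)) + _
  rw [h1, h2]
  have h3 := haff g 0 (e0 (K₁ ⊓ K₂))
  rw [zero_add] at h3
  rw [h3, Pi.add_apply, LL_e0]

theorem bridge {K₁ K₂ : Subgroup G} (h : IsAmalgam K₁ K₂) (g : G) :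
    ¬ ((cosetGraph K₁ K₂).deleteEdges
      {s(Sum.inl (g : G ⧸ K₁), Sum.inr (g : G ⧸ K₂))}).Reachable
      (Sum.inl (g : G ⧸ K₁)) (Sum.inr (g : G ⧸ K₂)) := by
  obtain ⟨F, hF⟩ := exists_pot h
  have hne : ∀ a : G, s((Sum.inl (a : G ⧸ K₁) : (G ⧸ K₁) ⊕ (G ⧸ K₂)), Sum.inr (a : G ⧸ K₂)) ∉
      ({s(Sum.inl (g : G ⧸ K₁), Sum.inr (g : G ⧸ K₂))} : Set (Sym2 ((G ⧸ K₁) ⊕ (G ⧸ K₂)))) →
      (a : G ⧸ (K₁ ⊓ K₂)) ≠ (g : G ⧸ (K₁ ⊓ K₂)) := by
    intro a ha he
    apply ha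
    rw [QuotientGroup.eq] at he
    have h1 : (a : G ⧸ K₁) = (g : G ⧸ K₁) := QuotientGroup.eq.2 he.1
    have h2 : (a : G ⧸ K₂) = (g : G ⧸ K₂) := QuotientGroup.eq.2 he.2
    rw [h1, h2]
    rfl
  have hstep : ∀ x y, ((cosetGraph K₁ K₂).deleteEdges
      {s(Sum.inl (g : G ⧸ K₁), Sum.inr (g : G ⧸ K₂))}).Adj x y →
      F x (g : G ⧸ (K₁ ⊓ K₂)) = F y (g : G ⧸ (K₁ ⊓ K₂)) := by
    intro x y hxy
    rw [SimpleGraph.deleteEdges_adj] at hxy
    obtain ⟨hadj, hnot⟩ := hxy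
    rcases hadj with ⟨a, rfl, rfl⟩ | ⟨a, rfl, rfl⟩
    · rw [hF, if_neg (hne a hnot), add_zero]
    · have e : s((Sum.inl (a : G ⧸ K₁) : (G ⧸ K₁) ⊕ (G ⧸ K₂)), Sum.inr (a : G ⧸ K₂)) =
          s(Sum.inr (a : G ⧸ K₂), Sum.inl (a : G ⧸ K₁)) := Sym2.eq_swap
      rw [← e] at hnot
      rw [hF, if_neg (hne a hnot), add_zero]
  have hwalk : ∀ x y, ((cosetGraph K₁ K₂).deleteEdges
      {s(Sum.inl (g : G ⧸ K₁), Sum.inr (g : G ⧸ K₂))}).Reachable x y →
      F x (g : G ⧸ (K₁ ⊓ K₂)) = F y (g : G ⧸ (K₁ ⊓ K₂)) := by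
    rintro x y ⟨p⟩
    induction p with
    | nil => rfl
    | cons hadj _ ih => exact (hstep _ _ hadj).trans ih
  intro hr
  have h1 := hwalk _ _ hr
  rw [hF, if_pos rfl] at h1
  have h2 : (1 : ZMod 2) = 0 := by
    have h3 : F (Sum.inl (g : G ⧸ K₁)) (g : G ⧸ (K₁ ⊓ K₂)) + 0 =
      F (Sum.inl (g : G ⧸ K₁)) (g : G ⧸ (K₁ ⊓ K₂)) + 1 := by
      rw [add_zero]
      exact h1
    exact (add_left_cancel h3).symm
  exact one_ne_zero h2

end Tree2

theorem cosetGraph_isTree {G : Type} [Group G] {K₁ K₂ : Subgroup G} (h : IsAmalgam K₁ K₂) :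
    (cosetGraph K₁ K₂).IsTree := by
  refine ⟨Tree2.connected h, ?_⟩
  rw [SimpleGraph.isAcyclic_iff_forall_adj_isBridge]
  rintro v w (⟨g, rfl, rfl⟩ | ⟨g, rfl, rfl⟩)
  · rw [SimpleGraph.isBridge_iff]
    exact Tree2.bridge h g
  · rw [Sym2.eq_swap, SimpleGraph.isBridge_iff]
    exact Tree2.bridge h g

end Emt
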