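import Pool.Agent.Emt.Tree1
import Pool.Agent.Emt.Tree2
import Pool.Agent.Emt.Glue3

/-!
# Emt, module Tree3: compact subgroups of amalgams; the restriction property

PROOFS.
* `compact_le_conj`: `H` acts on the coset graph by left translations (`h • gK₁ = hgK₁`; define the action of
  `H` on the sum type; colours: `inl`, `inr`).  The orbit of the vertex `K₁` is finite: `H` is
  compact and `H ∩ K₁` is an open subgroup of `H`, so of finite index.  So there is a fixed vertex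
  (`exists_fixed_vertex`, `cosetGraph_isTree`): if `h g K_a = g K_a` for all `h ∈ H` then
  `H ≤ g K_a g⁻¹`.
* `ri_amalgam`: `ri_amalgam_conj`.
-/

open Topology Set

namespace Emt

private theorem mem_conj {G : Type} [Group G] {K : Subgroup G} {g h : G}
    (hq : (((h * g : G)) : G ⧸ K) = ((g : G) : G ⧸ K)) :
    h ∈ K.map (MulAut.conj g).toMonoidHom := by
  have h1 : g⁻¹ * (h * g) ∈ K := QuotientGroup.eq.1 hq.symm
  refine ⟨g⁻¹ * (h * g), h1, ?_⟩
  show (MulAut.conj g) (g⁻¹ * (h * g)) = h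
  rw [MulAut.conj_apply]
  group

theorem compact_le_conj {G : Type} [Group G] [TopologicalSpace G] [IsTopologicalGroup G]
    {K₁ K₂ : Subgroup G} (h₁ : IsOpen (K₁ : Set G)) (ham : IsAmalgam K₁ K₂) {H : Subgroup G}
    (hH : IsCompact (H : Set G)) :
    ∃ g : G, H ≤ K₁.map (MulAut.conj g).toMonoidHom ∨
      H ≤ K₂.map (MulAut.conj g).toMonoidHom := by
  have hdis : DiscreteTopology (G ⧸ K₁) := QuotientGroup.discreteTopology h₁
  have hfin1 : ((QuotientGroup.mk : G → G ⧸ K₁) '' (H : Set G)).Finite :=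
    isCompact_iff_finite.1 (hH.image QuotientGroup.continuous_mk)
  obtain ⟨x, hx⟩ := exists_fixed_vertex (X := (G ⧸ K₁) ⊕ (G ⧸ K₂)) (H := H)
    (cosetGraph_isTree ham)
    (by
      rintro h x y (⟨g, rfl, rfl⟩ | ⟨g, rfl, rfl⟩)
      · exact Or.inl ⟨(h : G) * g, rfl, rfl⟩
      · exact Or.inr ⟨(h : G) * g, rfl, rfl⟩)
    (Sum.elim (fun _ => true) (fun _ => false))
    (by
      rintro x y (⟨g, rfl, rfl⟩ | ⟨g, rfl, rfl⟩)
      · simp
      · simp)
    (by
      rintro h (x | x)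
      · rfl
      · rfl)
    (Sum.inl ((1 : G) : G ⧸ K₁))
    (by
      refine (hfin1.image Sum.inl).subset ?_
      rintro _ ⟨h, rfl⟩
      refine ⟨((h : G) : G ⧸ K₁), ⟨(h : G), h.2, rfl⟩, ?_⟩
      show (Sum.inl (((h : G)) : G ⧸ K₁) : (G ⧸ K₁) ⊕ (G ⧸ K₂)) =
        Sum.inl (((h : G) * 1 : G) : G ⧸ K₁)
      rw [mul_one])
  rcases x with x | x
  · obtain ⟨g, rfl⟩ := QuotientGroup.mk_surjective x
    refine ⟨g, Or.inl fun h hh => mem_conj ?_⟩
    have h2 : (Sum.inl ((h * g : G) : G ⧸ K₁) : (G ⧸ K₁) ⊕ (G ⧸ K₂)) =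
      Sum.inl ((g : G) : G ⧸ K₁) := hx ⟨h, hh⟩
    exact Sum.inl_injective h2
  · obtain ⟨g, rfl⟩ := QuotientGroup.mk_surjective x
    refine ⟨g, Or.inr fun h hh => mem_conj ?_⟩
    have h2 : (Sum.inr ((h * g : G) : G ⧸ K₂) : (G ⧸ K₁) ⊕ (G ⧸ K₂)) =
      Sum.inr ((g : G) : G ⧸ K₂) := hx ⟨h, hh⟩
    exact Sum.inr_injective h2

theorem ri_amalgam {p : ℕ} [Fact p.Prime] {G : Type} [Group G] [TopologicalSpace G]
    [IsTopologicalGroup G] (hG : IsPadicLie p G) (C : Type) [Field C] [Finite C] [CharP C p]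
    {K₁ K₂ : Subgroup G} (h₁ : IsOpen (K₁ : Set G)) (h₁' : IsCompact (K₁ : Set G))
    (h₂ : IsOpen (K₂ : Set G)) (h₂' : IsCompact (K₂ : Set G)) (ham : IsAmalgam K₁ K₂)
    {H : Subgroup G} (hH : IsCompact (H : Set G)) : RI C G H := by
  obtain ⟨g, hg⟩ := compact_le_conj h₁ ham hH
  exact ri_amalgam_conj hG C h₁ h₁' h₂ h₂' ham hH hg

end Emt
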