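import Pool.Agent.Emt.Cent2
import Pool.Agent.Emt.Tree3

/-!
# Emt, module Cent3: amalgams of subgroups which are compact modulo a discrete central subgroup

PROOF.  `ri_central`; for `n ≠ 0` let `N = powSub Λ n`.  `G ⧸ N` is a `p`-adic Lie group
(`padic_quotient`; `U ⊓ N ≤ U ⊓ Λ = ⊥`).  `K_a.map (mk' N)` is open (`mk` is open) and compact:
`K_a = (X_a ∩ K_a ...)`: `K_a ⊆ X_a Λ`, `Λ` is a finite union of cosets `z_j N` (`powSub_index`), so
`mk(K_a) ⊆ ⋃_j mk(X_a z_j)`, a finite union of compact sets, and `mk(K_a)` is closed (open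
subgroups are closed).  `IsAmalgam` by `IsAmalgam.quotient`.  Conclude with `ri_amalgam` (the image of
`H` is compact).
-/

open Topology Set
open scoped Pointwise

namespace Emt

private theorem powSub_map_compact {G : Type} [Group G] [TopologicalSpace G]
    [IsTopologicalGroup G] {Λ : Subgroup G} (hc : Λ ≤ Subgroup.center G) (hfg : Λ.FG)
    {n : ℕ} (hn : n ≠ 0) [(powSub Λ n).Normal] {K : Subgroup G}
    (hK : IsOpen (K : Set G))
    (hX : ∃ X : Set G, IsCompact X ∧ (K : Set G) ⊆ X * (Λ : Set G)) :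
    IsCompact ((K.map (QuotientGroup.mk' (powSub Λ n)) : Subgroup (G ⧸ powSub Λ n)) :
      Set (G ⧸ powSub Λ n)) := by
  obtain ⟨X, hXc, hKX⟩ := hX
  have hopen : IsOpen ((K.map (QuotientGroup.mk' (powSub Λ n)) : Subgroup (G ⧸ powSub Λ n)) :
      Set (G ⧸ powSub Λ n)) := by
    rw [Subgroup.coe_map]
    exact QuotientGroup.isOpenMap_coe _ hK
  have hclosed := Subgroup.isClosed_of_isOpen _ hopen
  -- finite set of representatives
  have hidx : ((powSub Λ n).subgroupOf Λ).index ≠ 0 := powSub_index hc hfg hn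
  have hfi : ((powSub Λ n).subgroupOf Λ).FiniteIndex := ⟨hidx⟩
  have hfin : Finite (Λ ⧸ (powSub Λ n).subgroupOf Λ) := inferInstance
  let F : Set G := Set.range (fun q : Λ ⧸ (powSub Λ n).subgroupOf Λ => ((q.out : Λ) : G))
  have hF : F.Finite := Set.finite_range _
  have hcomp : IsCompact (X * F) := hXc.mul hF.isCompact
  have himg : IsCompact ((QuotientGroup.mk' (powSub Λ n)) '' (X * F)) :=
    hcomp.image QuotientGroup.continuous_mk
  refine himg.of_isClosed_subset hclosed ?_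
  rintro _ ⟨k, hk, rfl⟩
  obtain ⟨x, hx, z, hz, rfl⟩ := hKX hk
  have hq : ((Quotient.out (QuotientGroup.mk (s := (powSub Λ n).subgroupOf Λ) ⟨z, hz⟩) : Λ) : G)⁻¹
      * z ∈ powSub Λ n := by
    have h1 : (QuotientGroup.mk (s := (powSub Λ n).subgroupOf Λ)
        (Quotient.out (QuotientGroup.mk (s := (powSub Λ n).subgroupOf Λ) (⟨z, hz⟩ : Λ)) : Λ)) =
        QuotientGroup.mk (⟨z, hz⟩ : Λ) := QuotientGroup.out_eq' _
    have h2 := QuotientGroup.eq.1 h1
    exact Subgroup.mem_subgroupOf.1 h2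
  refine ⟨x * ((Quotient.out (QuotientGroup.mk (s := (powSub Λ n).subgroupOf Λ) ⟨z, hz⟩) : Λ) : G),
    ⟨x, hx, _, ⟨_, rfl⟩, rfl⟩, ?_⟩
  show QuotientGroup.mk _ = QuotientGroup.mk _
  rw [QuotientGroup.eq]
  simpa [mul_assoc] using hq

theorem ri_amalgam_central {p : ℕ} [Fact p.Prime] {G : Type} [Group G] [TopologicalSpace G]
    [IsTopologicalGroup G] (hG : IsPadicLie p G) (C : Type) [Field C] [Finite C] [CharP C p]
    {Λ : Subgroup G} (hc : Λ ≤ Subgroup.center G) (hfg : Λ.FG)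
    (htf : ∀ z ∈ Λ, ∀ n : ℕ, n ≠ 0 → z ^ n = 1 → z = 1)
    (hd : ∃ U : Subgroup G, IsOpen (U : Set G) ∧ U ⊓ Λ = ⊥) {K₁ K₂ : Subgroup G}
    (h₁ : IsOpen (K₁ : Set G)) (h₂ : IsOpen (K₂ : Set G)) (hΛ : Λ ≤ K₁ ⊓ K₂)
    (hX₁ : ∃ X : Set G, IsCompact X ∧ (K₁ : Set G) ⊆ X * (Λ : Set G))
    (hX₂ : ∃ X : Set G, IsCompact X ∧ (K₂ : Set G) ⊆ X * (Λ : Set G)) (ham : IsAmalgam K₁ K₂)
    {H : Subgroup G} (hH : IsCompact (H : Set G)) : RI C G H := by
  refine ri_central hG hc htf hd hH fun n hn _ => ?_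
  have hle : powSub Λ n ≤ Λ := powSub_le Λ n
  have hGN : IsPadicLie p (G ⧸ powSub Λ n) := by
    obtain ⟨U, hU, hUb⟩ := hd
    refine padic_quotient hG ⟨U, hU, ?_⟩
    exact le_bot_iff.1 ((inf_le_inf_left U hle).trans hUb.le)
  refine ri_amalgam hGN C (K₁ := K₁.map (QuotientGroup.mk' (powSub Λ n)))
    (K₂ := K₂.map (QuotientGroup.mk' (powSub Λ n))) ?_ (powSub_map_compact hc hfg hn h₁ hX₁) ?_
    (powSub_map_compact hc hfg hn h₂ hX₂) (ham.quotient (hle.trans hΛ)) ?_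
  · rw [Subgroup.coe_map]
    exact QuotientGroup.isOpenMap_coe _ h₁
  · rw [Subgroup.coe_map]
    exact QuotientGroup.isOpenMap_coe _ h₂
  · rw [Subgroup.coe_map]
    exact hH.image QuotientGroup.continuous_mk

end Emt
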