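import Pool.Agent.Emt.Fn1

/-!
# Emt, module Fn2: the functions on a compact group are cohomologically trivial for subgroups

PROOF of `fn_van`.  Let `c : H → Fn C K W` be a locally constant cocycle for the action of `H` by
right translations.  `H` is a closed subgroup of the compact group `K`, so compact: `c` has finite
image and, since `c 1 = 0`, it vanishes on an open subgroup of `H` (`exists_open_right`).  By
`fn_smooth` and `exists_normal_le` there is an open normal subgroup `N` of `K` such that
`c h` is right-`N`-invariant for all `h ∈ H` and `c h = 0` for all `h ∈ H ∩ N`; so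
`c (h n) = c h + h c n = c h` and `c (n h) = c n + n c h = c h` for `n ∈ H ∩ N` (the `c h` are
right `N`-invariant).  For `x ∈ K` let `r x ∈ K` be a representative of the left coset of `x` modulo
the open subgroup `H N` (`H ⊔ N`, as sets `H N = N H` because `N` is normal,
`Subgroup.mul_normal`): `r (x y) = r x` for `y ∈ H N` (`Quotient.out` in `K ⧸ (H ⊔ N)`), and
`(r x)⁻¹ x ∈ H N`; choose `q x ∈ H` with `(r x)⁻¹ x ∈ (q x) N`.  Put `e x = (c (q x)) (r x)`.
* `e (x n) = e x` for `n ∈ N`: `r (x n) = r x` and `q (x n) ∈ (q x) (H ∩ N)`.  So `e` is locally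
  constant.
* for `h ∈ H`: `r (x h) = r x`, `(r x)⁻¹ x h ∈ (q x) N h = (q x) h N`, so
  `q (x h) ∈ (q x) h (H ∩ N)` and
  `e (x h) = c ((q x) h) (r x) = c (q x) (r x) + (c h) ((r x) (q x)) = e x + (c h) (x)`, since
  `x ∈ (r x) (q x) N` and `c h` is right-`N`-invariant.
So `c h = h e - e`.
-/

open Topology Set

namespace Emt

variable {C : Type} [Field C] {K : Type} [Group K] [TopologicalSpace K] [IsTopologicalGroup K]
  [CompactSpace K] {W : Type} [AddCommGroup W] [Module C W]

theorem fn_van (hb : OpenBasis K) {H : Subgroup K} (hH : IsClosed (H : Set K)) :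
    Van (res (fnRep C K W) H) := by
  intro c hc
  have : CompactSpace H := isCompact_iff_compactSpace.mp hH.isCompact
  have hmul : ∀ g h : H, c (g * h) = c g + fnRep C K W (g : K) (c h) := fun g h => hc.mul g h
  have hc1 : c 1 = 0 := by
    have h := hmul 1 1
    rw [mul_one, Subgroup.coe_one, rep_one_apply] at h
    exact left_eq_add.mp h
  have hfin : (range c).Finite := hc.cont.range_finite
  obtain ⟨U, hU, hUf⟩ := (fn_smooth (C := C) (W := W) hb).exists_open hfin
  -- `c` vanishes near `1`
  have hnear : ∃ U' : Subgroup K, IsOpen (U' : Set K) ∧ ∀ h : H, (h : K) ∈ U' → c h = 0 := by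
    have h1 : {h : H | c h = 0} ∈ 𝓝 (1 : H) := by
      have h2 : IsOpen (c ⁻¹' {0}) := hc.cont {0}
      exact h2.mem_nhds (by simpa using hc1)
    rw [nhds_subtype_eq_comap, Filter.mem_comap] at h1
    obtain ⟨t, ht, hts⟩ := h1
    obtain ⟨U', hU', hU't⟩ := hb t (by simpa using ht)
    exact ⟨U', hU', fun h hh => hts (hU't hh)⟩
  obtain ⟨U', hU', hU'c⟩ := hnear
  have hUU : IsOpen ((U ⊓ U' : Subgroup K) : Set K) := hU.inter hU'
  obtain ⟨N, hN, hNo, hNle⟩ := exists_normal_le hUU
  have := hN
  have hinv : ∀ (h : H) (x : K), ∀ n ∈ N, (c h).1 (x * n) = (c h).1 x := by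
    intro h x n hn
    have h1 := hUf n (hNle hn).1 (c h) (mem_range_self h)
    have h2 : (fnRep C K W n (c h)).1 x = (c h).1 x := by rw [h1]
    rwa [fnRep_apply] at h2
  have hzero : ∀ h : H, (h : K) ∈ N → c h = 0 := fun h hh => hU'c h (hNle hh).2
  set L : Subgroup K := H ⊔ N with hL
  have hLmem : ∀ y ∈ L, ∃ q : H, ∃ n ∈ N, y = q * n := by
    intro y hy
    obtain ⟨q, hq, n, hn, rfl⟩ := Subgroup.mem_sup_of_normal_right.mp hy
    exact ⟨⟨q, hq⟩, n, hn, rfl⟩
  let r : K → K := fun x => (QuotientGroup.mk (s := L) x).out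
  have hr : ∀ x, (r x)⁻¹ * x ∈ L := by
    intro x
    rw [← QuotientGroup.eq]
    exact Quotient.out_eq' _
  have hrL : ∀ x, ∀ y ∈ L, r (x * y) = r x := by
    intro x y hy
    have h1 : (QuotientGroup.mk (s := L) (x * y)) = QuotientGroup.mk (s := L) x := by
      rw [QuotientGroup.mk_mul_of_mem _ hy]
    show (QuotientGroup.mk (s := L) (x * y)).out = _
    rw [h1]
  have hdec : ∀ x, ∃ q : H, ∃ n ∈ N, x = r x * q * n := by
    intro x
    obtain ⟨q, n, hn, h⟩ := hLmem _ (hr x)
    refine ⟨q, n, hn, ?_⟩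
    rw [mul_assoc, ← h]
    group
  choose q n hn hx using hdec
  -- independence of the decomposition
  have hind : ∀ x, ∀ q' : H, ∀ n' ∈ N, x = r x * q' * n' → c q' = c (q x) := by
    intro x q' n' hn' hx'
    have h1 : (q x : K) * n x = q' * n' := by
      have h2 : r x * (q x : K) * n x = r x * q' * n' := (hx x).symm.trans hx'
      rw [mul_assoc, mul_assoc] at h2
      exact mul_left_cancel h2
    have h3 : (((q x)⁻¹ * q' : H) : K) = n x * n'⁻¹ := by
      rw [Subgroup.coe_mul, Subgroup.coe_inv, eq_mul_inv_iff_mul_eq, mul_assoc, ← h1]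
      group
    have h4 : c ((q x)⁻¹ * q') = 0 := by
      apply hzero
      rw [h3]
      exact N.mul_mem (hn x) (N.inv_mem hn')
    have h5 := hmul (q x) ((q x)⁻¹ * q')
    rw [h4, map_zero, add_zero, mul_inv_cancel_left] at h5
    exact h5
  let e : K → W := fun x => (c (q x)).1 (r x)
  have heN : ∀ x, ∀ m ∈ N, e (x * m) = e x := by
    intro x m hm
    have h1 : r (x * m) = r x := hrL x m ((le_sup_right : N ≤ L) hm)
    have h2 : c (q x) = c (q (x * m)) := by
      apply hind (x * m) (q x) (n x * m) (N.mul_mem (hn x) hm)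
      rw [h1]
      conv_lhs => rw [hx x]
      rw [mul_assoc]
    show (c (q (x * m))).1 (r (x * m)) = (c (q x)).1 (r x)
    rw [← h2, h1]
  have heH : ∀ x, ∀ h : H, e (x * h) = e x + (c h).1 x := by
    intro x h
    have h1 : r (x * h) = r x := hrL x h ((le_sup_left : H ≤ L) h.2)
    have h2 : c (q x * h) = c (q (x * h)) := by
      apply hind (x * h) (q x * h) ((h : K)⁻¹ * n x * h)
      · have := hN.conj_mem (n x) (hn x) (h : K)⁻¹
        simpa using this
      · rw [h1]
        conv_lhs => rw [hx x]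
        rw [Subgroup.coe_mul]
        group
    have h3 : (c h).1 x = (c h).1 (r x * q x) := by
      conv_lhs => rw [hx x]
      exact hinv h _ _ (hn x)
    show (c (q (x * h))).1 (r (x * h)) = (c (q x)).1 (r x) + (c h).1 x
    rw [← h2, h1, hmul, h3]
    rfl
  have helc : IsLocallyConstant e := by
    rw [IsLocallyConstant.iff_exists_open]
    intro x
    refine ⟨(fun y => x⁻¹ * y) ⁻¹' (N : Set K), hNo.preimage (continuous_const_mul _), ?_, ?_⟩
    · simp
    · intro y hy
      have h1 := heN x (x⁻¹ * y) hy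
      rwa [mul_inv_cancel_left] at h1
  refine ⟨⟨e, helc⟩, fun h => ?_⟩
  apply Subtype.ext
  funext x
  have h1 := heH x h
  show (c h).1 x = e (x * h) - e x
  rw [h1]
  abel

/-- Transport of the vanishing along an equivariant isomorphism, or to a direct summand: if
`r ∘ i = id` with `i`, `r` equivariant then the vanishing for `σ` implies that for `ρ`. -/
theorem Van.retract {G : Type} [Group G] [TopologicalSpace G] {V V' : Type} [AddCommGroup V]
    [Module C V] [AddCommGroup V'] [Module C V'] {ρ : Representation C G V}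
    {σ : Representation C G V'} (h : Van σ) {i : V →ₗ[C] V'} (hi : Equi ρ σ i) {r : V' →ₗ[C] V}
    (hr : Equi σ ρ r) (hri : ∀ v, r (i v) = v) : Van ρ := by
  intro c hc
  obtain ⟨e, he⟩ := h (fun g => i (c g))
    ⟨fun g g' => by rw [hc.mul, map_add, hi], hc.cont.comp i⟩
  refine ⟨r e, fun g => ?_⟩
  rw [← hr, ← map_sub, ← he, hri]

theorem Van.prod {G : Type} [Group G] [TopologicalSpace G] {V V' : Type} [AddCommGroup V]
    [Module C V] [AddCommGroup V'] [Module C V'] {ρ : Representation C G V}
    {σ : Representation C G V'} (h : Van ρ) (h' : Van σ) : Van (prodRep ρ σ) := by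
  intro c hc
  obtain ⟨e, he⟩ := h (fun g => (c g).1)
    ⟨fun g g' => by rw [hc.mul]; rfl, hc.cont.comp Prod.fst⟩
  obtain ⟨e', he'⟩ := h' (fun g => (c g).2)
    ⟨fun g g' => by rw [hc.mul]; rfl, hc.cont.comp Prod.snd⟩
  refine ⟨(e, e'), fun g => ?_⟩
  exact Prod.ext (he g) (he' g)

end Emt
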