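import Pool.Agent.Emt.Pro1

/-!
# Emt, module Syl: passage to an open pro-`p` subgroup of index prime to `p`

PROOFS.
* `exists_sylow`: `N` open normal pro-`p`; `K ⧸ N` is finite (`K` compact, `N` open); let `P` be a
  Sylow `p`-subgroup of `K ⧸ N` and `S` its preimage in `K`.  `S` is open (it contains `N`), its
  index is the index of `P`, prime to `p` (`Sylow.not_dvd_index` or
  `IsPGroup...card_coprime_index`).  `S` is pro-`p`: for an open subgroup `M` of `S` (as a type)
  `M ∩ N` has `p`-power index in `N` and `index_S M` divides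
  `index_S (M ∩ N) = [S : N] [N : M ∩ N]`, a power of `p`.
* `SmoothInj.of_index`: given `α, β, i, f` for `K`, extend `f` to an `S`-equivariant map
  `g : B → V` and put `ḡ b = [K : S]⁻¹ ∑_{q ∈ K ⧸ S} ρ q (g (β q⁻¹ b))` (well defined, as `g` is
  `S`-equivariant; use `Quotient.out` as representatives); `ḡ` is `K`-equivariant and extends `f`.
  `([K : S] : C) ≠ 0` since `p` does not divide it (`CharP.cast_eq_zero_iff`).
* `SmoothInj.congr`: transport of structure along an isomorphism of topological groups.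
* `SmoothInj.summand`, `Van.summand`: direct summands.
-/

open Topology Set

namespace Emt

/-- The compact group `K` has an open normal pro-`p` subgroup. -/
def VProP (p : ℕ) (K : Type) [Group K] [TopologicalSpace K] : Prop :=
  ∃ N : Subgroup K, N.Normal ∧ IsOpen (N : Set K) ∧ IsProP p N

variable {C : Type} [Field C] {K : Type} [Group K] [TopologicalSpace K] [IsTopologicalGroup K]
  {V : Type} [AddCommGroup V] [Module C V] {ρ : Representation C K V}

theorem exists_sylow {p : ℕ} [Fact p.Prime] [CompactSpace K] (h : VProP p K) :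
    ∃ S : Subgroup K, IsOpen (S : Set K) ∧ IsProP p S ∧ S.index ≠ 0 ∧ ¬ p ∣ S.index := by
  obtain ⟨N, hN, hNo, hNp⟩ := h
  have hfin : Finite (K ⧸ N) := Subgroup.quotient_finite_of_isOpen N hNo
  obtain ⟨P⟩ : Nonempty (Sylow p (K ⧸ N)) := inferInstance
  obtain ⟨π, hπ⟩ : ∃ π : K →* K ⧸ N, π = QuotientGroup.mk' N := ⟨_, rfl⟩
  have hπs : Function.Surjective π := by
    rw [hπ]
    exact QuotientGroup.mk'_surjective N
  have hπk : π.ker = N := by
    rw [hπ]
    exact QuotientGroup.ker_mk' N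
  obtain ⟨S, hS⟩ : ∃ S : Subgroup K, S = (P : Subgroup (K ⧸ N)).comap π := ⟨_, rfl⟩
  have hNS : N ≤ S := by
    rw [hS]
    intro x hx
    rw [← hπk] at hx
    rw [Subgroup.mem_comap, MonoidHom.mem_ker.1 hx]
    exact Subgroup.one_mem _
  have hidx : S.index = (P : Subgroup (K ⧸ N)).index := by
    rw [hS]
    exact Subgroup.index_comap_of_surjective _ hπs
  refine ⟨S, Subgroup.isOpen_mono hNS hNo, ?_, ?_, ?_⟩
  · intro M hM
    -- the index of `M` in `N`
    have hM1 : IsOpen ((M.comap (Subgroup.inclusion hNS) : Subgroup N) : Set N) := by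
      have hc : Continuous (Subgroup.inclusion hNS) := by
        refine Continuous.subtype_mk continuous_subtype_val _
      exact hM.preimage hc
    obtain ⟨k, hk⟩ := hNp _ hM1
    rw [Subgroup.index_comap, Subgroup.inclusion_range] at hk
    -- the index of `N` in `S`
    obtain ⟨φ, hφ⟩ : ∃ φ : S →* K ⧸ N, φ = π.comp S.subtype := ⟨_, rfl⟩
    have hφk : φ.ker = N.subgroupOf S := by
      rw [hφ, ← MonoidHom.comap_ker, hπk]
      rfl
    have hφr : φ.range = (P : Subgroup (K ⧸ N)) := by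
      rw [hφ, MonoidHom.range_comp, Subgroup.range_subtype, hS,
        Subgroup.map_comap_eq_self_of_surjective hπs]
    obtain ⟨l, hl⟩ := (IsPGroup.iff_card (p := p)).1 P.isPGroup'
    have h1 : (N.subgroupOf S).index = p ^ l := by
      rw [← hφk, Subgroup.index_ker, hφr]
      exact hl
    have h2 : (M ⊓ N.subgroupOf S).index = p ^ k * p ^ l := by
      rw [← Subgroup.relIndex_mul_index (inf_le_right : M ⊓ N.subgroupOf S ≤ N.subgroupOf S),
        Subgroup.inf_relIndex_right, hk, h1]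
    have h3 : M.index ∣ (M ⊓ N.subgroupOf S).index := Subgroup.index_dvd_of_le inf_le_left
    rw [h2, ← pow_add] at h3
    exact pro_pow_of_dvd h3
  · rw [hidx]
    exact Subgroup.index_ne_zero_of_finite
  · rw [hidx]
    exact P.not_dvd_index

theorem SmoothInj.of_index {p : ℕ} [Fact p.Prime] [CharP C p] {S : Subgroup K}
    (hS : S.index ≠ 0) (hp : ¬ p ∣ S.index) (hρ : IsSmooth ρ) (h : SmoothInj (res ρ S)) :
    SmoothInj ρ := by
  refine ⟨hρ, ?_⟩
  intro A B _ _ _ _ α β hα hβ i hi hinj f hf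
  obtain ⟨g, hg, hgf⟩ := h.2 A B (res α S) (res β S) (hα.res S) (hβ.res S) i
    (fun s a => hi s a) hinj f (fun s a => hf s a)
  have hfin : Finite (K ⧸ S) := Subgroup.index_ne_zero_iff_finite.1 hS
  have hft : Fintype (K ⧸ S) := Fintype.ofFinite _
  have hc0 : (S.index : C) ≠ 0 := by
    intro h0
    exact hp ((CharP.cast_eq_zero_iff C p _).1 h0)
  obtain ⟨Φ, hΦ⟩ : ∃ Φ : K → B →ₗ[C] V, ∀ x b, Φ x b = ρ x (g (β x⁻¹ b)) :=
    ⟨fun x => ρ x ∘ₗ g ∘ₗ β x⁻¹, fun _ _ => rfl⟩
  have hΦs : ∀ (x : K) (s : K), s ∈ S → ∀ b, Φ (x * s) b = Φ x b := by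
    intro x s hs b
    have h1 : g (β s⁻¹ (β x⁻¹ b)) = ρ s⁻¹ (g (β x⁻¹ b)) :=
      hg ⟨s⁻¹, S.inv_mem hs⟩ (β x⁻¹ b)
    rw [hΦ, hΦ, mul_inv_rev, rep_mul_apply, rep_mul_apply, h1, rep_apply_inv]
  have hΦq : ∀ (x : K) b, Φ ((x : K ⧸ S).out) b = Φ x b := by
    intro x b
    obtain ⟨s, hs⟩ := QuotientGroup.mk_out_eq_mul S x
    rw [hs]
    exact hΦs x s s.2 b
  have hΦk : ∀ (k x : K) b, Φ x (β k b) = ρ k (Φ (k⁻¹ * x) b) := by
    intro k x b
    rw [hΦ, hΦ, ← rep_mul_apply ρ, mul_inv_cancel_left, mul_inv_rev, inv_inv, rep_mul_apply]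
  refine ⟨(S.index : C)⁻¹ • ∑ q : K ⧸ S, Φ q.out, ?_, ?_⟩
  · intro k b
    rw [LinearMap.smul_apply, LinearMap.smul_apply, LinearMap.sum_apply, LinearMap.sum_apply,
      map_smul, map_sum]
    congr 1
    have h2 : ∀ q : K ⧸ S, Φ q.out (β k b) = ρ k (Φ (k⁻¹ • q).out b) := by
      intro q
      rw [hΦk, ← hΦq (k⁻¹ * q.out)]
      congr 3
      have h3 : ((k⁻¹ * q.out : K) : K ⧸ S) = k⁻¹ • ((q.out : K) : K ⧸ S) := rfl
      rw [h3, QuotientGroup.out_eq']
    rw [Finset.sum_congr rfl fun q _ => h2 q]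
    exact Fintype.sum_equiv (MulAction.toPerm k⁻¹) _ _ fun q => rfl
  · intro a
    have h2 : ∀ q : K ⧸ S, Φ q.out (i a) = f a := by
      intro q
      rw [hΦ, ← hi, hgf, hf, rep_apply_inv]
    rw [LinearMap.smul_apply, LinearMap.sum_apply, Finset.sum_congr rfl fun q _ => h2 q,
      Finset.sum_const, Finset.card_univ, ← Nat.card_eq_fintype_card,
      ← Subgroup.index_eq_card, ← Nat.cast_smul_eq_nsmul C, smul_smul, inv_mul_cancel₀ hc0,
      one_smul]

theorem SmoothInj.congr {K' : Type} [Group K'] [TopologicalSpace K'] [IsTopologicalGroup K']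
    (e : K' ≃* K) (he : Continuous e) (he' : Continuous e.symm) (h : SmoothInj ρ) :
    SmoothInj (ρ.comp e.toMonoidHom) := by
  refine ⟨fun v => (h.1 v).preimage he, ?_⟩
  intro A B _ _ _ _ α β hα hβ i hi hinj f hf
  obtain ⟨g, hg, hgf⟩ := h.2 A B (α.comp e.symm.toMonoidHom) (β.comp e.symm.toMonoidHom)
    (fun v => (hα v).preimage he') (fun v => (hβ v).preimage he') i
    (fun k a => hi (e.symm k) a) hinj f (fun k a => by
      have h1 := hf (e.symm k) a
      have h2 : (ρ.comp e.toMonoidHom) (e.symm k) (f a) = ρ k (f a) := by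
        show ρ (e (e.symm k)) (f a) = ρ k (f a)
        rw [MulEquiv.apply_symm_apply]
      rw [h2] at h1
      exact h1)
  refine ⟨g, ?_, hgf⟩
  intro k b
  have h1 := hg (e k) b
  have h2 : (β.comp e.symm.toMonoidHom) (e k) b = β k b := by
    show β (e.symm (e k)) b = β k b
    rw [MulEquiv.symm_apply_apply]
  rw [h2] at h1
  exact h1

/-- Restriction of a smooth representation of `G` to `H` and to a subgroup of `H`: the two ways
agree. -/
theorem smoothInj_res_subgroupOf {H H' : Subgroup K} (h : H' ≤ H) :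
    SmoothInj (res (res ρ H) (H'.subgroupOf H)) ↔ SmoothInj (res ρ H') := by
  have c1 : Continuous (Subgroup.subgroupOfEquivOfLe h) :=
    Continuous.subtype_mk (continuous_subtype_val.comp continuous_subtype_val) _
  have c2 : Continuous (Subgroup.subgroupOfEquivOfLe h).symm :=
    Continuous.subtype_mk (Continuous.subtype_mk continuous_subtype_val _) _
  constructor
  · intro h1
    exact SmoothInj.congr (Subgroup.subgroupOfEquivOfLe h).symm c2 c1 h1
  · intro h1
    exact SmoothInj.congr (Subgroup.subgroupOfEquivOfLe h) c1 c2 h1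

end Emt
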