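import Pool.Agent.Emt.Coc
import Pool.Agent.Emt.Syl
import Pool.Agent.Emt.Fn2

/-!
# Emt, module Clo: restriction to closed subgroups of compact groups

PROOFS.
* `van_res`: `ρ` embeds into `fnRep C K V` by `v ↦ (x ↦ ρ x v)` (`exists_emb` with `l = id`), this
  is injective; since `ρ` is an injective object there is an equivariant retraction `r`
  (extend the identity of `V`).  `Van (res (fnRep C K V) H)` is `fn_van`; conclude with
  `Van.retract`.
* `SmoothInj.res_closed`: let `H` be a closed subgroup of `K`.  By `VProP.subgroup` and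
  `exists_sylow` (for the compact group `H`) there is an open pro-`p` subgroup `S` of `H` of index
  prime to `p`; `S` is the intersection of `H` with a closed subgroup `S'` (the image of `S` in
  `K`, a compact subgroup).  By `van_res` for `S'` and `smoothInj_of_van` the restriction to
  `S'`, hence to `S` (`SmoothInj.congr`, `smoothInj_res_subgroupOf`) is an injective object;
  conclude with `SmoothInj.of_index`.
* `VProP.subgroup`: `N ∩ H` is an open normal subgroup of `H`; it is pro-`p` by `IsProP.subgroup`
  (for the compact group `N`).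
-/

open Topology Set

namespace Emt

variable {p : ℕ} [Fact p.Prime] {C : Type} [Field C] [Finite C] [CharP C p] {K : Type} [Group K]
  [TopologicalSpace K] [IsTopologicalGroup K] [CompactSpace K] {V : Type} [AddCommGroup V]
  [Module C V] {ρ : Representation C K V}

theorem OpenBasis.subgroup {G : Type} [Group G] [TopologicalSpace G] (hb : OpenBasis G)
    (H : Subgroup G) : OpenBasis H := by
  intro s hs
  obtain ⟨t, ht, hts⟩ := (mem_nhds_induced (Subtype.val : H → G) 1 s).1 hs
  obtain ⟨U, hU, hUt⟩ := hb t ht
  refine ⟨U.subgroupOf H, hU.preimage continuous_subtype_val, fun x hx => hts ?_⟩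
  exact hUt hx

theorem VProP.subgroup (hb : OpenBasis K) (hK : VProP p K) {H : Subgroup K}
    (hH : IsClosed (H : Set K)) : VProP p H := by
  obtain ⟨N, hN, hNo, hNp⟩ := hK
  refine ⟨N.subgroupOf H, inferInstance, hNo.preimage continuous_subtype_val, ?_⟩
  have hNc : IsClosed (N : Set K) := N.isClosed_of_isOpen hNo
  have : CompactSpace N := isCompact_iff_compactSpace.1 hNc.isCompact
  have h1 : IsProP p (H.subgroupOf N) := hNp.subgroup (hb.subgroup N) (H.subgroupOf N)
  let f : (H.subgroupOf N) →* (N.subgroupOf H) :=
    { toFun := fun x => ⟨⟨x.1.1, x.2⟩, x.1.2⟩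
      map_one' := rfl
      map_mul' := fun _ _ => rfl }
  refine h1.map f ?_ ?_
  · exact Continuous.subtype_mk (Continuous.subtype_mk
      (continuous_subtype_val.comp continuous_subtype_val) _) _
  · intro y
    exact ⟨⟨⟨y.1.1, y.2⟩, y.1.2⟩, rfl⟩

theorem van_res (hb : OpenBasis K) (h : SmoothInj ρ) {H : Subgroup K}
    (hH : IsClosed (H : Set K)) : Van (res ρ H) := by
  obtain ⟨i, hi, hi1⟩ := exists_emb (W := V) h.1 (LinearMap.id)
  have hinj : Function.Injective i := by
    intro v w hvw
    have h1 := hi1 v 1
    have h2 := hi1 w 1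
    rw [hvw, h2] at h1
    rw [rep_one_apply, rep_one_apply] at h1
    exact h1.symm
  obtain ⟨r, hr, hri⟩ := h.2 V (Fn C K V) ρ (fnRep C K V) h.1 (fn_smooth hb) i hi hinj
    LinearMap.id (Equi.id ρ)
  have h3 : Van (res (fnRep C K V) H) := fn_van hb hH
  exact h3.retract (ρ := res ρ H) (i := i) (fun g v => hi g v) (r := r) (fun g v => hr g v) hri

theorem SmoothInj.res_closed (hb : OpenBasis K) (hK : VProP p K) (h : SmoothInj ρ)
    {H : Subgroup K} (hH : IsClosed (H : Set K)) : SmoothInj (res ρ H) := by
  have hHc : CompactSpace H := isCompact_iff_compactSpace.1 hH.isCompact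
  obtain ⟨S, hSo, hSp, hS0, hSi⟩ := exists_sylow (VProP.subgroup hb hK hH)
  refine SmoothInj.of_index hS0 hSi (h.1.res H) ?_
  have hScl : IsClosed (S : Set H) := S.isClosed_of_isOpen hSo
  have hS' : IsClosed ((S.map H.subtype : Subgroup K) : Set K) := by
    have h1 : ((S.map H.subtype : Subgroup K) : Set K) = Subtype.val '' (S : Set H) := by
      ext x
      simp
    rw [h1]
    exact hH.isClosedEmbedding_subtypeVal.isClosedMap _ hScl
  have hcomp : CompactSpace (S.map H.subtype : Subgroup K) :=
    isCompact_iff_compactSpace.1 hS'.isCompact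
  have hle : (S.map H.subtype : Subgroup K) ≤ H := Subgroup.map_subtype_le S
  have hpro : IsProP p (S.map H.subtype : Subgroup K) := by
    let f : S →* (S.map H.subtype : Subgroup K) :=
      { toFun := fun x => ⟨x.1.1, ⟨x.1, x.2, rfl⟩⟩
        map_one' := rfl
        map_mul' := fun _ _ => rfl }
    refine hSp.map f ?_ ?_
    · exact Continuous.subtype_mk (continuous_subtype_val.comp continuous_subtype_val) _
    · rintro ⟨_, ⟨y, hy, rfl⟩⟩
      exact ⟨⟨y, hy⟩, rfl⟩
  have h2 : SmoothInj (res ρ (S.map H.subtype : Subgroup K)) :=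
    smoothInj_of_van hpro (h.1.res _) (van_res hb h hS')
  have h3 := (smoothInj_res_subgroupOf (ρ := ρ) hle).2 h2
  have h4 : (S.map H.subtype : Subgroup K).subgroupOf H = S :=
    Subgroup.comap_map_eq_self_of_injective H.subtype_injective S
  have h5 : ∀ T : Subgroup H, T = S → SmoothInj (res (res ρ H) T) →
      SmoothInj (res (res ρ H) S) := by
    rintro T rfl h
    exact h
  exact h5 _ h4 h3

end Emt
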