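import Pool.Agent.Emt.Pro1

/-!
# Emt, module Coc: injectivity and first cohomology

PROOFS.
* `van_of_smoothInj`: let `c` be a locally constant cocycle.  On `B = V × C` let `g` act by
  `g (v, t) = (ρ g v + t c(g), t)` (a representation by the cocycle identity; smooth: the stabiliser
  of `(v, t)` contains the intersection of the stabiliser of `v` with `{g | c g = c 1 = 0}`, which is
  an open set containing `1`; a subgroup which is a neighbourhood of `1` is open,
  `Subgroup.isOpen_of_mem_nhds`; `c 1 = 0`).  `i v = (v, 0)`, `f = id`.  The extension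
  `φ : B → V` gives `e = -φ(0, 1)`?  `φ(g (0,1)) = φ(c g, 1) = c g + φ(0,1)` and it equals
  `ρ g φ(0,1)`; so `c g = ρ g e - e` with `e = φ (0, 1)`.
* `smoothInj_of_van`: let `G` be compact and pro-`p`.  Given `i : A → B` injective (regard `A` as the
  subrepresentation `range i` of `B`), `f : A → V`.  Zorn's lemma on the pairs `(M, g)`, `M` a
  subrepresentation of `B` containing `range i`, `g : M → V` equivariant extending `f` (one may use
  `LinearPMap` `B →ₗ.[C] V`, whose order is the extension order: `LinearPMap.sSup` gives the upper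
  bounds of chains).  Let `(M, g)` be maximal.  If `M ≠ ⊤` then `B / M` (`quotRep`, smooth) is
  nontrivial, so it has a non-zero fixed vector (`exists_fixed`): there is `b ∉ M` with
  `β x b - b ∈ M` for all `x`.  `c x = g (β x b - b)` is a locally constant cocycle
  (`β (x y) b - b = β x (β y b - b) + (β x b - b)`; it is locally constant since `x ↦ β x b` is:
  `β (x u) b = β x b` for `u` in the open stabiliser of `b`).  By `hV` there is `e` with
  `c x = ρ x e - e`; extend `g` to `M + C b` by `b ↦ e` (`LinearPMap.supSpanSingleton`), this is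
  equivariant.  Contradiction to the maximality.
-/

open Topology Set

namespace Emt

variable {C : Type} [Field C] {G : Type} [Group G] [TopologicalSpace G] [IsTopologicalGroup G]
  {V : Type} [AddCommGroup V] [Module C V] {ρ : Representation C G V}

theorem IsCoc.one {c : G → V} (hc : IsCoc ρ c) : c 1 = 0 := by
  have h := hc.mul 1 1
  rw [mul_one, rep_one_apply] at h
  exact left_eq_add.1 h

/-- The extension of `C` by `V` defined by a cocycle. -/
def cocRep (ρ : Representation C G V) (c : G → V) (hc : IsCoc ρ c) :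
    Representation C G (V × C) where
  toFun g := LinearMap.prod (ρ g ∘ₗ LinearMap.fst C V C + (LinearMap.snd C V C).smulRight (c g))
    (LinearMap.snd C V C)
  map_one' := by
    refine LinearMap.ext fun x => ?_
    apply Prod.ext
    · simp [hc.one]
    · simp
  map_mul' g h := by
    refine LinearMap.ext fun x => ?_
    apply Prod.ext
    · simp [hc.mul, smul_add, add_assoc, add_comm (x.2 • c g)]
    · simp

theorem cocRep_apply (c : G → V) (hc : IsCoc ρ c) (g : G) (v : V) (t : C) :
    cocRep ρ c hc g (v, t) = (ρ g v + t • c g, t) := rfl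

theorem van_of_smoothInj (h : SmoothInj ρ) : Van ρ := by
  intro c hc
  have hsm : IsSmooth (cocRep ρ c hc) := by
    rintro ⟨v, t⟩
    have h1 : IsOpen ({g : G | ρ g v = v} ∩ {g : G | c g = 0}) :=
      (h.1 v).inter (hc.cont.isOpen_fiber 0)
    let U : Subgroup G :=
      { carrier := {g : G | cocRep ρ c hc g (v, t) = (v, t)}
        mul_mem' := by
          intro a b ha hb
          show cocRep ρ c hc (a * b) (v, t) = (v, t)
          rw [rep_mul_apply]
          have hb' : cocRep ρ c hc b (v, t) = (v, t) := hb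
          have ha' : cocRep ρ c hc a (v, t) = (v, t) := ha
          rw [hb', ha']
        one_mem' := rep_one_apply _ _
        inv_mem' := by
          intro a ha
          show cocRep ρ c hc a⁻¹ (v, t) = (v, t)
          have ha' : cocRep ρ c hc a (v, t) = (v, t) := ha
          conv_lhs => rw [← ha']
          rw [rep_inv_apply] }
    have h2 : (U : Set G) ∈ 𝓝 (1 : G) := by
      refine Filter.mem_of_superset (h1.mem_nhds ⟨rep_one_apply ρ v, hc.one⟩) ?_
      rintro g ⟨hg1, hg2⟩
      show cocRep ρ c hc g (v, t) = (v, t)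
      have hg1' : ρ g v = v := hg1
      have hg2' : c g = 0 := hg2
      rw [cocRep_apply, hg1', hg2', smul_zero, add_zero]
    exact Subgroup.isOpen_of_mem_nhds U h2
  obtain ⟨φ, hφ, hφi⟩ := h.2 V (V × C) ρ (cocRep ρ c hc) h.1 hsm (LinearMap.inl C V C)
    (by
      intro g v
      show (ρ g v, (0 : C)) = cocRep ρ c hc g (v, 0)
      rw [cocRep_apply, zero_smul, add_zero])
    LinearMap.inl_injective LinearMap.id (fun _ _ => rfl)
  refine ⟨φ (0, 1), fun g => ?_⟩
  have h3 := hφ g (0, 1)
  rw [cocRep_apply, map_zero, zero_add, one_smul] at h3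
  have h4 : ((c g, (1 : C)) : V × C) = LinearMap.inl C V C (c g) + (0, 1) := by
    apply Prod.ext <;> simp
  rw [h4, map_add, hφi] at h3
  rw [← h3]
  simp

theorem smoothInj_of_van {p : ℕ} [Fact p.Prime] [Finite C] [CharP C p] [CompactSpace G]
    (hG : IsProP p G) (hρ : IsSmooth ρ) (hV : Van ρ) : SmoothInj ρ := by
  refine ⟨hρ, ?_⟩
  intro A B _ _ _ _ α β hα hβ i hi hinj f hf
  let S : Set (Submodule C (B × V)) :=
    {Γ | IsSub (prodRep β ρ) Γ ∧ ∀ v, ((0 : B), v) ∈ Γ → v = 0}
  have h0 : LinearMap.range (i.prod f) ∈ S := by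
    constructor
    · rintro g _ ⟨a, rfl⟩
      refine ⟨α g a, ?_⟩
      show (i (α g a), f (α g a)) = (β g (i a), ρ g (f a))
      rw [hi, hf]
    · rintro v ⟨a, ha⟩
      have h1 : i a = 0 := congrArg Prod.fst ha
      have h2 : f a = v := congrArg Prod.snd ha
      have h3 : a = 0 := hinj (by rw [h1, map_zero])
      rw [← h2, h3, map_zero]
  obtain ⟨Γ, hle, hmax⟩ := zorn_le_nonempty₀ S (by
    intro c hc hch y hy
    have hne : c.Nonempty := ⟨y, hy⟩
    have hdir : DirectedOn (· ≤ ·) c := hch.directedOn
    refine ⟨sSup c, ⟨?_, ?_⟩, fun z hz => le_sSup hz⟩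
    · intro g v hv
      rw [Submodule.mem_sSup_of_directed hne hdir] at hv ⊢
      obtain ⟨Δ, hΔ, hvΔ⟩ := hv
      exact ⟨Δ, hΔ, (hc hΔ).1 g v hvΔ⟩
    · intro v hv
      rw [Submodule.mem_sSup_of_directed hne hdir] at hv
      obtain ⟨Δ, hΔ, hvΔ⟩ := hv
      exact (hc hΔ).2 v hvΔ) _ h0
  obtain ⟨hsub, hfun⟩ := hmax.prop
  have huniq : ∀ m v w, (m, v) ∈ Γ → (m, w) ∈ Γ → v = w := by
    intro m v w hv hw
    have h1 := Γ.sub_mem hv hw
    rw [Prod.mk_sub_mk, sub_self] at h1
    exact sub_eq_zero.1 (hfun _ h1)
  have hM : IsSub β (Γ.map (LinearMap.fst C B V)) := by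
    rintro g _ ⟨⟨m, v⟩, hmv, rfl⟩
    exact ⟨(β g m, ρ g v), hsub g _ hmv, rfl⟩
  have hmem : ∀ m, m ∈ Γ.map (LinearMap.fst C B V) → ∃ v, (m, v) ∈ Γ := by
    rintro _ ⟨⟨m, v⟩, hmv, rfl⟩
    exact ⟨v, hmv⟩
  have htop : Γ.map (LinearMap.fst C B V) = ⊤ := by
    by_contra hne
    have hnt : Nontrivial (B ⧸ Γ.map (LinearMap.fst C B V)) :=
      Submodule.Quotient.nontrivial_iff.2 hne
    obtain ⟨q, hq, hqf⟩ := exists_fixed hG (hβ.quot _ hM)
    obtain ⟨b, rfl⟩ := Submodule.mkQ_surjective _ q
    have hb : b ∉ Γ.map (LinearMap.fst C B V) := by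
      intro hb
      exact hq ((Submodule.Quotient.mk_eq_zero _).2 hb)
    have hxb : ∀ x : G, β x b - b ∈ Γ.map (LinearMap.fst C B V) := by
      intro x
      have h1 := hqf x
      rw [quotRep_mk] at h1
      exact (Submodule.Quotient.eq _).1 h1
    choose c hc using fun x => hmem _ (hxb x)
    have hcoc : IsCoc ρ c := by
      refine ⟨fun x y => ?_, ?_⟩
      · have h1 := Γ.add_mem (hc x) (hsub x _ (hc y))
        rw [prodRep_apply, Prod.mk_add_mk] at h1
        have h2 : β x b - b + β x (β y b - b) = β (x * y) b - b := by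
          rw [map_sub, rep_mul_apply]
          abel
        rw [h2] at h1
        exact huniq _ _ _ (hc (x * y)) h1
      · rw [IsLocallyConstant.iff_eventually_eq]
        intro x
        have h1 : IsOpen ((fun y => x⁻¹ * y) ⁻¹' {g : G | β g b = b}) :=
          (hβ b).preimage (continuous_const_mul _)
        have h2 : x ∈ (fun y => x⁻¹ * y) ⁻¹' {g : G | β g b = b} := by
          show β (x⁻¹ * x) b = b
          rw [inv_mul_cancel, rep_one_apply]
        filter_upwards [h1.mem_nhds h2] with y hy
        have hy' : β (x⁻¹ * y) b = b := hy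
        have h3 : β y b = β x b := by
          conv_rhs => rw [← hy', ← rep_mul_apply, mul_inv_cancel_left]
        refine huniq (β y b - b) _ _ (hc y) ?_
        rw [h3]
        exact hc x
    obtain ⟨e, he⟩ := hV c hcoc
    have h1 : Γ ⊔ Submodule.span C {(b, e)} ∈ S := by
      constructor
      · intro g z hz
        obtain ⟨γ, hγ, s, hs, rfl⟩ := Submodule.mem_sup.1 hz
        obtain ⟨t, rfl⟩ := Submodule.mem_span_singleton.1 hs
        rw [map_add, map_smul]
        refine add_mem (Submodule.mem_sup_left (hsub g _ hγ)) (Submodule.smul_mem _ _ ?_)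
        have h2 : prodRep β ρ g (b, e) = (β g b - b, c g) + (b, e) := by
          rw [prodRep_apply, he, Prod.mk_add_mk, sub_add_cancel, sub_add_cancel]
        rw [h2]
        exact add_mem (Submodule.mem_sup_left (hc g))
          (Submodule.mem_sup_right (Submodule.mem_span_singleton_self _))
      · intro v hv
        obtain ⟨⟨m, w⟩, hγ, s, hs, hsum⟩ := Submodule.mem_sup.1 hv
        obtain ⟨t, rfl⟩ := Submodule.mem_span_singleton.1 hs
        have h2 : m + t • b = 0 := congrArg Prod.fst hsum
        have h3 : w + t • e = v := congrArg Prod.snd hsum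
        by_cases ht : t = 0
        · rw [ht, zero_smul, add_zero] at h2 h3
          rw [← h3]
          rw [h2] at hγ
          exact hfun _ hγ
        · exfalso
          apply hb
          have h4 : b = -(t⁻¹ • m) := by
            have h5 : m = -(t • b) := eq_neg_of_add_eq_zero_left h2
            rw [h5, smul_neg, neg_neg, smul_smul, inv_mul_cancel₀ ht, one_smul]
          rw [h4]
          exact Submodule.neg_mem _ (Submodule.smul_mem _ _ ⟨(m, w), hγ, rfl⟩)
    have h2 : Γ ⊔ Submodule.span C {(b, e)} ≤ Γ := hmax.le_of_ge h1 le_sup_left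
    exact hb ⟨(b, e), h2 (Submodule.mem_sup_right (Submodule.mem_span_singleton_self _)), rfl⟩
  choose g hg using fun b : B => hmem b (by rw [htop]; exact Submodule.mem_top)
  let gl : B →ₗ[C] V :=
    { toFun := g
      map_add' := fun x y => huniq _ _ _ (hg (x + y)) (by
        have := Γ.add_mem (hg x) (hg y)
        rwa [Prod.mk_add_mk] at this)
      map_smul' := fun t x => huniq _ _ _ (hg (t • x)) (by
        have := Γ.smul_mem t (hg x)
        rwa [Prod.smul_mk] at this) }
  refine ⟨gl, fun x b => ?_, fun a => ?_⟩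
  · exact huniq _ _ _ (hg (β x b)) (hsub x _ (hg b))
  · exact huniq _ _ _ (hg (i a)) (hle ⟨a, rfl⟩)

end Emt
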