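import Mathlib

/-!
# Emt (MP_64e98e_al): definitions

`C` is a field (finite, of characteristic `p` in the theorems), `G` a topological group.
Representations of `G` on `C`-vector spaces are `Representation C G V` (the group need not be
compact, the action is abstract; smoothness is a predicate).

* `IsSmooth ρ`: every vector has an open stabiliser;
* `IsAdm ρ`: smooth, and the fixed vectors of every compact open subgroup are finite dimensional;
* `IsLadm ρ` (locally admissible): smooth, and every vector lies in an admissible subrepresentation;
* `SmoothInj ρ`: injective object of the category of the smooth representations;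
* `LadmInj ρ`: injective object of the category of the locally admissible representations;
* `RI C G H`: every injective object of the category of the locally admissible representations of
  `G` restricts to an injective object of the category of the smooth representations of `H`;
* `IsPadicLie p G`: `G` has an open subgroup which is topologically isomorphic to a closed subgroup
  of `GL_n(ℤ_p)` (by Lazard and Ado this means that `G` is a `p`-adic Lie group);
* `IsAmalgam K₁ K₂`: `G` is the amalgamated product of `K₁` and `K₂` over `K₁ ∩ K₂`.
-/

open Topology Set

namespace Emt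

section Basic

variable {C : Type} [Field C] {G : Type} [Group G] {V W : Type} [AddCommGroup V] [Module C V]
  [AddCommGroup W] [Module C W]

/-- The subspace of the vectors fixed by the subgroup `U`. -/
def fix (ρ : Representation C G V) (U : Subgroup G) : Submodule C V where
  carrier := {v | ∀ g ∈ U, ρ g v = v}
  add_mem' := by
    intro a b ha hb g hg
    rw [map_add, ha g hg, hb g hg]
  zero_mem' := by
    intro g _
    rw [map_zero]
  smul_mem' := by
    intro k a ha g hg
    rw [map_smul, ha g hg]

theorem mem_fix {ρ : Representation C G V} {U : Subgroup G} {v : V} :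
    v ∈ fix ρ U ↔ ∀ g ∈ U, ρ g v = v := Iff.rfl

/-- `M` is a subrepresentation of `ρ`. -/
def IsSub (ρ : Representation C G V) (M : Submodule C V) : Prop := ∀ g, ∀ v ∈ M, ρ g v ∈ M

/-- Equivariant linear maps. -/
def Equi (ρ : Representation C G V) (σ : Representation C G W) (f : V →ₗ[C] W) : Prop :=
  ∀ g v, f (ρ g v) = σ g (f v)

/-- Restriction to a subgroup. -/
def res (ρ : Representation C G V) (H : Subgroup G) : Representation C H V := ρ.comp H.subtype

@[simp] theorem res_apply (ρ : Representation C G V) (H : Subgroup G) (h : H) (v : V) :
    res ρ H h v = ρ (h : G) v := rfl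

/-- The subrepresentation on the stable subspace `M`. -/
def subRep (ρ : Representation C G V) (M : Submodule C V) (hM : IsSub ρ M) :
    Representation C G M where
  toFun g := (ρ g).restrict (hM g)
  map_one' := by
    ext v
    simp
  map_mul' g h := by
    ext v
    simp

@[simp] theorem subRep_apply (ρ : Representation C G V) (M : Submodule C V) (hM : IsSub ρ M)
    (g : G) (v : M) : ((subRep ρ M hM g v : M) : V) = ρ g v := rfl

/-- The quotient by the stable subspace `M`. -/
def quotRep (ρ : Representation C G V) (M : Submodule C V) (hM : IsSub ρ M) :
    Representation C G (V ⧸ M) where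
  toFun g := M.mapQ M (ρ g) (hM g)
  map_one' := by
    ext v
    simp
  map_mul' g h := by
    ext v
    simp

@[simp] theorem quotRep_mk (ρ : Representation C G V) (M : Submodule C V) (hM : IsSub ρ M)
    (g : G) (v : V) : quotRep ρ M hM g (M.mkQ v) = M.mkQ (ρ g v) := rfl

/-- The direct sum of two representations. -/
def prodRep (ρ : Representation C G V) (σ : Representation C G W) :
    Representation C G (V × W) where
  toFun g := LinearMap.prodMap (ρ g) (σ g)
  map_one' := by
    ext v <;> simp
  map_mul' g h := by
    ext v <;> simp

@[simp] theorem prodRep_apply (ρ : Representation C G V) (σ : Representation C G W) (g : G)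
    (v : V) (w : W) : prodRep ρ σ g (v, w) = (ρ g v, σ g w) := rfl

/-- The external tensor product of representations of two groups. -/
noncomputable def tensRep {G' : Type} [Group G'] (ρ : Representation C G V)
    (σ : Representation C G' W) : Representation C (G × G') (TensorProduct C V W) where
  toFun g := TensorProduct.map (ρ g.1) (σ g.2)
  map_one' := by
    ext v w
    simp
  map_mul' g h := by
    ext v w
    simp

@[simp] theorem tensRep_tmul {G' : Type} [Group G'] (ρ : Representation C G V)
    (σ : Representation C G' W) (g : G × G') (v : V) (w : W) :
    tensRep ρ σ g (TensorProduct.tmul C v w) = TensorProduct.tmul C (ρ g.1 v) (σ g.2 w) := rfl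

end Basic

section Top

variable {C : Type} [Field C] {G : Type} [Group G] [TopologicalSpace G] {V : Type}
  [AddCommGroup V] [Module C V]

/-- Every vector has an open stabiliser. -/
def IsSmooth (ρ : Representation C G V) : Prop := ∀ v : V, IsOpen {g : G | ρ g v = v}

/-- Admissible representations. -/
structure IsAdm (ρ : Representation C G V) : Prop where
  smooth : IsSmooth ρ
  fin : ∀ U : Subgroup G, IsOpen (U : Set G) → IsCompact (U : Set G) →
    FiniteDimensional C (fix ρ U)

/-- `M` is an admissible subrepresentation of the smooth representation `ρ`. -/
structure IsAdmSub (ρ : Representation C G V) (M : Submodule C V) : Prop where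
  sub : IsSub ρ M
  fin : ∀ U : Subgroup G, IsOpen (U : Set G) → IsCompact (U : Set G) →
    FiniteDimensional C (M ⊓ fix ρ U : Submodule C V)

/-- Locally admissible representations: smooth, and every vector lies in an admissible
subrepresentation. -/
structure IsLadm (ρ : Representation C G V) : Prop where
  smooth : IsSmooth ρ
  loc : ∀ v : V, ∃ M : Submodule C V, v ∈ M ∧ IsAdmSub ρ M

/-- Injective objects of the category of the smooth representations of `G`. -/
def SmoothInj (ρ : Representation C G V) : Prop :=
  IsSmooth ρ ∧ ∀ (A B : Type) [AddCommGroup A] [Module C A] [AddCommGroup B] [Module C B]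
    (α : Representation C G A) (β : Representation C G B), IsSmooth α → IsSmooth β →
    ∀ i : A →ₗ[C] B, Equi α β i → Function.Injective i →
    ∀ f : A →ₗ[C] V, Equi α ρ f → ∃ g : B →ₗ[C] V, Equi β ρ g ∧ ∀ a, g (i a) = f a

/-- Injective objects of the category of the locally admissible representations of `G`. -/
def LadmInj (ρ : Representation C G V) : Prop :=
  IsLadm ρ ∧ ∀ (A B : Type) [AddCommGroup A] [Module C A] [AddCommGroup B] [Module C B]
    (α : Representation C G A) (β : Representation C G B), IsLadm α → IsLadm β →
    ∀ i : A →ₗ[C] B, Equi α β i → Function.Injective i →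
    ∀ f : A →ₗ[C] V, Equi α ρ f → ∃ g : B →ₗ[C] V, Equi β ρ g ∧ ∀ a, g (i a) = f a

end Top

/-- The restriction property: every injective object of the category of the locally admissible
representations of `G` restricts to an injective object of the category of the smooth
representations of the subgroup `H`. -/
def RI (C : Type) [Field C] (G : Type) [Group G] [TopologicalSpace G] (H : Subgroup G) : Prop :=
  ∀ (V : Type) [AddCommGroup V] [Module C V] (ρ : Representation C G V),
    LadmInj ρ → SmoothInj (res ρ H)

/-- `G` has an open subgroup which is topologically isomorphic to a closed subgroup of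
`GL_n(ℤ_p)`. -/
def IsPadicLie (p : ℕ) [Fact p.Prime] (G : Type) [Group G] [TopologicalSpace G] : Prop :=
  ∃ (U : Subgroup G) (n : ℕ) (f : U →* (Matrix (Fin n) (Fin n) ℤ_[p])ˣ),
    IsOpen (U : Set G) ∧ IsClosedEmbedding f

/-- `G` is the amalgamated product of its subgroups `K₁` and `K₂` over `K₁ ∩ K₂`. -/
structure IsAmalgam {G : Type} [Group G] (K₁ K₂ : Subgroup G) : Prop where
  gen : K₁ ⊔ K₂ = ⊤
  lift : ∀ (A : Type) [Group A] (f₁ : K₁ →* A) (f₂ : K₂ →* A),
    (∀ (g : G) (h₁ : g ∈ K₁) (h₂ : g ∈ K₂), f₁ ⟨g, h₁⟩ = f₂ ⟨g, h₂⟩) →
    ∃ f : G →* A, (∀ k : K₁, f k = f₁ k) ∧ (∀ k : K₂, f k = f₂ k)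

/-! ### Auxiliary notions (not used in the final statement) -/

section Aux

variable {C : Type} [Field C] {G : Type} [Group G] [TopologicalSpace G] {V : Type}
  [AddCommGroup V] [Module C V]

/-- Locally constant 1-cocycles. -/
structure IsCoc (ρ : Representation C G V) (c : G → V) : Prop where
  mul : ∀ g h, c (g * h) = c g + ρ g (c h)
  cont : IsLocallyConstant c

/-- The first cohomology vanishes: every locally constant cocycle is a coboundary. -/
def Van (ρ : Representation C G V) : Prop := ∀ c : G → V, IsCoc ρ c → ∃ e : V, ∀ g, c g = ρ g e - e

/-- The index of every open subgroup is a power of `p`. -/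
def IsProP (p : ℕ) (G : Type) [Group G] [TopologicalSpace G] : Prop :=
  ∀ U : Subgroup G, IsOpen (U : Set G) → ∃ k, U.index = p ^ k

/-- The locally constant functions from `K` to the vector space `W`. -/
def Fn (C : Type) [Field C] (K : Type) [TopologicalSpace K] (W : Type) [AddCommGroup W]
    [Module C W] : Submodule C (K → W) where
  carrier := {f | IsLocallyConstant f}
  add_mem' := fun hf hg => hf.add hg
  zero_mem' := IsLocallyConstant.const 0
  smul_mem' := by
    intro k f hf
    exact hf.comp (fun w => k • w)

theorem mem_Fn {K : Type} [TopologicalSpace K] {W : Type} [AddCommGroup W] [Module C W]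
    {f : K → W} : f ∈ Fn C K W ↔ IsLocallyConstant f := Iff.rfl

/-- The group `K` acts on `Fn C K W` by right translations. -/
def fnRep (C : Type) [Field C] (K : Type) [Group K] [TopologicalSpace K] [IsTopologicalGroup K]
    (W : Type) [AddCommGroup W] [Module C W] : Representation C K (Fn C K W) where
  toFun g :=
    { toFun := fun f => ⟨fun x => f.1 (x * g), f.2.comp_continuous (continuous_mul_const g)⟩
      map_add' := fun _ _ => rfl
      map_smul' := fun _ _ => rfl }
  map_one' := by
    ext f x
    simp
  map_mul' g h := by
    ext f x
    simp [mul_assoc]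

@[simp] theorem fnRep_apply {K : Type} [Group K] [TopologicalSpace K] [IsTopologicalGroup K]
    {W : Type} [AddCommGroup W] [Module C W] (g : K) (f : Fn C K W) (x : K) :
    (fnRep C K W g f : Fn C K W).1 x = f.1 (x * g) := rfl

end Aux

end Emt
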