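import Pool.Agent.Emt.NLad

/-!
# Emt, module Ind1: induction from an open subgroup of finite index

`G'` is an open subgroup of finite index of `G`, `α` a representation of `G'` on `A`;
`indSp α = {F : G → A | F (h x) = α h (F x) for h ∈ G', x ∈ G}`, with `G` acting by right
translations (`indRep`).

PROOFS.
* `ind_ladm`: let `F ∈ indSp α`, `α` locally admissible.  The representatives `x_q` of the right cosets
  `G' x` form a finite set; the values `F x_q` lie in an admissible subrepresentation `M` of `A`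
  (`IsLadm.exists_finite` for the `p`-adic Lie group `G'`, hypothesis `hG'`), and then all
  the values of `F` are in `M`.  `N = {F' ∈ indSp α | all values in M}` is a subrepresentation,
  and it is admissible: if `U` is a compact open subgroup of `G` and `F' ∈ N` is fixed by `U`, then
  `F' x_q` is fixed by `G' ∩ x_q U x_q⁻¹`, a compact open subgroup of `G'`
  (`F' (h x_q) = F' (x_q x_q⁻¹ h x_q) = F' x_q`), and `F'` is determined by
  its values at the `x_q`.  Smoothness: `F x_q` is fixed by an open subgroup `O` of `G'`; `F` is fixed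
  by the open subgroup `⋂_q x_q⁻¹ O x_q` (and `F (x y) = F x` for all `x = h x_q`).
* `res_ladmInj`: let `π` be `LadmInj` for `G` on `V`.  `res π G'` is locally admissible: an admissible
  subrepresentation for `G` is one for `G'` (compact open subgroups of `G'` are compact open in `G`).
  Given `i : A → B` and `f : A → V` for `G'`, put `f♯ : indSp α → V`,
  `f♯ F = ∑_q π x_q⁻¹ (f (F x_q))`, independent of the choice of the representatives, hence
  `G`-equivariant; `i_* : indSp α → indSp β`, `F ↦ i ∘ F`, injective.  `LadmInj` gives `h : indSp β → V`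
  with `h (i ∘ F) = f♯ F`.  For `b ∈ B` let `δ_b x = β x b` for `x ∈ G'`, `0` for `x ∉ G'`; this is
  in `indSp β`, and `indRep β g δ_b = δ_{β g b}` for `g ∈ G'`.  `g b = h δ_b` is `G'`-equivariant, and
  `g (i a) = h (i ∘ δ_a) = f♯ δ_a = f a` (only the trivial coset contributes; take any representative
  `x₀ ∈ G'` of it: `π x₀⁻¹ (f (α x₀ a)) = f a`).
-/

open Topology Set

namespace Emt

/-- The space of the induced representation. -/
def indSp {C : Type} [Field C] {G : Type} [Group G] {G' : Subgroup G} {A : Type}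
    [AddCommGroup A] [Module C A] (α : Representation C G' A) : Submodule C (G → A) where
  carrier := {F | ∀ (h : G') (x : G), F (h * x) = α h (F x)}
  add_mem' := by
    intro F F' hF hF' h x
    rw [Pi.add_apply, Pi.add_apply, hF, hF', map_add]
  zero_mem' := by
    intro h x
    simp
  smul_mem' := by
    intro k F hF h x
    rw [Pi.smul_apply, Pi.smul_apply, hF, map_smul]

/-- The induced representation. -/
def indRep {C : Type} [Field C] {G : Type} [Group G] {G' : Subgroup G} {A : Type}
    [AddCommGroup A] [Module C A] (α : Representation C G' A) :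
    Representation C G (indSp α) where
  toFun g :=
    { toFun := fun F => ⟨fun x => F.1 (x * g), fun h x => by
        show F.1 (h * x * g) = α h (F.1 (x * g))
        rw [mul_assoc]
        exact F.2 h (x * g)⟩
      map_add' := fun _ _ => rfl
      map_smul' := fun _ _ => rfl }
  map_one' := by
    ext F x
    simp
  map_mul' g h := by
    ext F x
    simp [mul_assoc]

@[simp] private theorem indRep_val {C : Type} [Field C] {G : Type} [Group G] {G' : Subgroup G}
    {A : Type} [AddCommGroup A] [Module C A] (α : Representation C G' A) (g : G) (F : indSp α)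
    (x : G) : (indRep α g F : indSp α).1 x = F.1 (x * g) := rfl

private theorem ind_mul {C : Type} [Field C] {G : Type} [Group G] {G' : Subgroup G}
    {A : Type} [AddCommGroup A] [Module C A] {α : Representation C G' A} (F : indSp α)
    (h : G') (x : G) : F.1 (h * x) = α h (F.1 x) := F.2 h x

/-- Representatives of the right cosets. -/
private noncomputable def rr {G : Type} [Group G] {G' : Subgroup G} (q : G ⧸ G') : G :=
  (Quotient.out q)⁻¹

private theorem exists_rr {G : Type} [Group G] (G' : Subgroup G) (x : G) :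
    ∃ (h : G') (q : G ⧸ G'), x = h * rr q := by
  have h1 : (QuotientGroup.mk (Quotient.out (QuotientGroup.mk x⁻¹ : G ⧸ G')) : G ⧸ G') =
      QuotientGroup.mk x⁻¹ := QuotientGroup.out_eq' _
  have h2 := QuotientGroup.eq.1 h1
  refine ⟨⟨_, h2⟩⁻¹, QuotientGroup.mk x⁻¹, ?_⟩
  unfold rr
  simp

/-- The preimage in `G'` of a conjugate of `U`. -/
private def cj {G : Type} [Group G] (G' : Subgroup G) (U : Subgroup G) (y : G) : Subgroup G' where
  carrier := {h | y⁻¹ * (h : G) * y ∈ U}
  mul_mem' := by
    intro a b ha hb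
    have := U.mul_mem ha hb
    show y⁻¹ * ((a * b : G') : G) * y ∈ U
    rw [Subgroup.coe_mul]
    rwa [show y⁻¹ * (a : G) * y * (y⁻¹ * b * y) = y⁻¹ * (a * b) * y by group] at this
  one_mem' := by
    show y⁻¹ * ((1 : G') : G) * y ∈ U
    rw [Subgroup.coe_one, mul_one, inv_mul_cancel]
    exact U.one_mem
  inv_mem' := by
    intro a ha
    have := U.inv_mem ha
    show y⁻¹ * ((a⁻¹ : G') : G) * y ∈ U
    rw [Subgroup.coe_inv]
    rwa [show (y⁻¹ * (a : G) * y)⁻¹ = y⁻¹ * (a : G)⁻¹ * y by group] at this

private theorem cj_open {G : Type} [Group G] [TopologicalSpace G] [IsTopologicalGroup G]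
    (G' : Subgroup G) {U : Subgroup G} (hU : IsOpen (U : Set G)) (y : G) :
    IsOpen (cj G' U y : Set G') := by
  have hc : Continuous (fun h : G' => y⁻¹ * (h : G) * y) := by fun_prop
  exact hU.preimage hc

private theorem cj_compact {G : Type} [Group G] [TopologicalSpace G] [IsTopologicalGroup G]
    {G' : Subgroup G} (ho : IsOpen (G' : Set G)) {U : Subgroup G} (hU : IsCompact (U : Set G))
    (y : G) : IsCompact (cj G' U y : Set G') := by
  have hcl : IsClosed (G' : Set G) := Subgroup.isClosed_of_isOpen G' ho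
  have h1 : IsCompact ((fun x : G => y * x * y⁻¹) '' (U : Set G)) :=
    hU.image (by fun_prop)
  have h2 : (cj G' U y : Set G') =
      (Subtype.val : G' → G) ⁻¹' ((fun x : G => y * x * y⁻¹) '' (U : Set G)) := by
    ext h
    constructor
    · intro hh
      refine ⟨y⁻¹ * (h : G) * y, hh, ?_⟩
      show y * (y⁻¹ * (h : G) * y) * y⁻¹ = h
      group
    · rintro ⟨u, hu, hh⟩
      show y⁻¹ * (h : G) * y ∈ U
      have hh' : y * u * y⁻¹ = (h : G) := hh
      rw [← hh', show y⁻¹ * (y * u * y⁻¹) * y = u by group]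
      exact hu
  rw [h2]
  exact hcl.isClosedEmbedding_subtypeVal.isCompact_preimage h1

private theorem ind_smooth {G : Type} [Group G] [TopologicalSpace G]
    [IsTopologicalGroup G] {C : Type} [Field C] {G' : Subgroup G}
    (ho : IsOpen (G' : Set G)) (hfi : G'.index ≠ 0) {A : Type}
    [AddCommGroup A] [Module C A] {α : Representation C G' A} (hα : IsSmooth α) :
    IsSmooth (indRep α) := by
  have : G'.FiniteIndex := ⟨hfi⟩
  have hfin : Finite (G ⧸ G') := inferInstance
  intro F
  obtain ⟨O, hO, hst⟩ := hα.exists_open (Set.finite_range (fun q : G ⧸ G' => F.1 (rr q)))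
  let W : Subgroup G := ⨅ q : G ⧸ G', (O.map G'.subtype).comap (MulAut.conj (rr q)).toMonoidHom
  have hO' : IsOpen ((O.map G'.subtype : Subgroup G) : Set G) := by
    rw [Subgroup.coe_map]
    exact ho.isOpenMap_subtype_val _ hO
  have hW : IsOpen (W : Set G) := by
    have h1 : (W : Set G) = ⋂ q : G ⧸ G', (fun x : G => rr q * x * (rr q)⁻¹) ⁻¹'
        ((O.map G'.subtype : Subgroup G) : Set G) := by
      simp only [W, Subgroup.coe_iInf]
      rfl
    rw [h1]
    refine isOpen_iInter_of_finite fun q => hO'.preimage ?_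
    fun_prop
  refine isOpen_stab_of_le hW ?_
  intro g hg
  apply Subtype.ext
  funext x
  rw [indRep_val]
  obtain ⟨h, q, rfl⟩ := exists_rr G' x
  have hgq : g ∈ (O.map G'.subtype).comap (MulAut.conj (rr q)).toMonoidHom :=
    (Subgroup.mem_iInf.1 hg) q
  obtain ⟨o, ho1, ho2⟩ := hgq
  have ho3 : (o : G) = rr q * g * (rr q)⁻¹ := ho2
  have h3 : (h : G) * rr q * g = h * (o * rr q) := by
    rw [ho3]
    group
  rw [h3, ind_mul, ind_mul, ind_mul, hst o ho1 _ ⟨q, rfl⟩]

private def indN {C : Type} [Field C] {G : Type} [Group G] {G' : Subgroup G} {A : Type}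
    [AddCommGroup A] [Module C A] (α : Representation C G' A) (M : Submodule C A) :
    Submodule C (indSp α) where
  carrier := {F | ∀ x, F.1 x ∈ M}
  add_mem' := fun hF hF' x => M.add_mem (hF x) (hF' x)
  zero_mem' := fun _ => M.zero_mem
  smul_mem' := fun k _ hF x => M.smul_mem k (hF x)

private theorem indN_adm {G : Type} [Group G] [TopologicalSpace G]
    [IsTopologicalGroup G] {C : Type} [Field C] {G' : Subgroup G}
    (ho : IsOpen (G' : Set G)) (hfi : G'.index ≠ 0) {A : Type}
    [AddCommGroup A] [Module C A] {α : Representation C G' A} {M : Submodule C A}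
    (hM : IsAdmSub α M) : IsAdmSub (indRep α) (indN α M) := by
  have : G'.FiniteIndex := ⟨hfi⟩
  have hfin : Finite (G ⧸ G') := inferInstance
  refine ⟨fun g F hF x => hF (x * g), ?_⟩
  intro U hU hU'
  have hq : ∀ q : G ⧸ G', FiniteDimensional C (M ⊓ fix α (cj G' U (rr q)) : Submodule C A) :=
    fun q => hM.fin _ (cj_open G' hU _) (cj_compact ho hU' _)
  have hmem : ∀ (F : (indN α M ⊓ fix (indRep α) U : Submodule C (indSp α))) (q : G ⧸ G'),
      F.1.1 (rr q) ∈ (M ⊓ fix α (cj G' U (rr q)) : Submodule C A) := by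
    rintro ⟨F, hF1, hF2⟩ q
    refine ⟨hF1 _, fun h hh => ?_⟩
    have hh' : (rr q)⁻¹ * (h : G) * rr q ∈ U := hh
    have h1 := congrFun (congrArg Subtype.val (hF2 _ hh')) (rr q)
    rw [indRep_val, show rr q * ((rr q)⁻¹ * (h : G) * rr q) = h * rr q by group, ind_mul] at h1
    exact h1
  let ev : (indN α M ⊓ fix (indRep α) U : Submodule C (indSp α)) →ₗ[C]
      (∀ q : G ⧸ G', (M ⊓ fix α (cj G' U (rr q)) : Submodule C A)) :=
    { toFun := fun F q => ⟨F.1.1 (rr q), hmem F q⟩
      map_add' := fun _ _ => rfl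
      map_smul' := fun _ _ => rfl }
  have hev : Function.Injective ev := by
    intro F F' hFF
    apply Subtype.ext
    apply Subtype.ext
    funext x
    obtain ⟨h, q, rfl⟩ := exists_rr G' x
    rw [ind_mul, ind_mul]
    have : F.1.1 (rr q) = F'.1.1 (rr q) := congrArg Subtype.val (congrFun hFF q)
    rw [this]
  exact FiniteDimensional.of_injective ev hev

theorem ind_ladm {p : ℕ} [Fact p.Prime] {G : Type} [Group G] [TopologicalSpace G]
    [IsTopologicalGroup G] {C : Type} [Field C] [Finite C] [CharP C p] {G' : Subgroup G}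
    (hG' : IsPadicLie p G') (ho : IsOpen (G' : Set G)) (hfi : G'.index ≠ 0) {A : Type}
    [AddCommGroup A] [Module C A] {α : Representation C G' A} (hα : IsLadm α) :
    IsLadm (indRep α) := by
  have : G'.FiniteIndex := ⟨hfi⟩
  have hfin : Finite (G ⧸ G') := inferInstance
  refine ⟨ind_smooth ho hfi hα.smooth, fun F => ?_⟩
  obtain ⟨M, hM1, hM2⟩ := hα.exists_finite hG' (Set.finite_range (fun q : G ⧸ G' => F.1 (rr q)))
  refine ⟨indN α M, ?_, indN_adm ho hfi hM2⟩
  intro x
  obtain ⟨h, q, rfl⟩ := exists_rr G' x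
  rw [ind_mul]
  exact hM2.sub h _ (hM1 ⟨q, rfl⟩)

section Term

variable {G : Type} [Group G] {C : Type} [Field C] {G' : Subgroup G} {V A B : Type}
  [AddCommGroup V] [Module C V] [AddCommGroup A] [Module C A] [AddCommGroup B] [Module C B]
  (π : Representation C G V) {α : Representation C G' A} {β : Representation C G' B}

private def tm (f : A →ₗ[C] V) (y : G) : indSp α →ₗ[C] V where
  toFun F := π y (f (F.1 y⁻¹))
  map_add' F F' := by
    show π y (f (F.1 y⁻¹ + F'.1 y⁻¹)) = _
    rw [map_add, map_add]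
  map_smul' k F := by
    show π y (f (k • F.1 y⁻¹)) = _
    rw [map_smul, map_smul]
    rfl

private theorem tm_apply (f : A →ₗ[C] V) (y : G) (F : indSp α) :
    tm π f y F = π y (f (F.1 y⁻¹)) := rfl

private theorem tm_coset {f : A →ₗ[C] V} (hf : Equi α (res π G') f) {y y' : G}
    (h : (QuotientGroup.mk y : G ⧸ G') = QuotientGroup.mk y') (F : indSp α) :
    tm π f y F = tm π f y' F := by
  have h1 := QuotientGroup.eq.1 h
  have h2 : y'⁻¹ = ((⟨_, h1⟩⁻¹ : G') : G) * y⁻¹ := by
    rw [Subgroup.coe_inv]
    group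
  rw [tm_apply, tm_apply, h2, ind_mul, hf, res_apply, Subgroup.coe_inv, ← rep_mul_apply]
  congr 2
  group

private theorem tm_equi (f : A →ₗ[C] V) (y g : G) (F : indSp α) :
    tm π f y (indRep α g F) = π g (tm π f (g⁻¹ * y) F) := by
  rw [tm_apply, tm_apply, indRep_val, ← rep_mul_apply]
  rw [show g * (g⁻¹ * y) = y by group, show (g⁻¹ * y)⁻¹ = y⁻¹ * g by group]

/-- The map induced on the induced representations. -/
private def ist {i : A →ₗ[C] B} (hi : Equi α β i) : indSp α →ₗ[C] indSp β where
  toFun F := ⟨fun x => i (F.1 x), fun h x => by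
    show i (F.1 (h * x)) = β h (i (F.1 x))
    rw [ind_mul, hi]⟩
  map_add' F F' := by
    apply Subtype.ext
    funext x
    exact map_add i _ _
  map_smul' k F := by
    apply Subtype.ext
    funext x
    exact map_smul i _ _

open Classical in
/-- The functions supported on the trivial coset. -/
private noncomputable def dlt (β : Representation C G' B) : B →ₗ[C] indSp β where
  toFun b := ⟨fun x => if hx : x ∈ G' then β ⟨x, hx⟩ b else 0, fun h x => by
    show (if hx : (h : G) * x ∈ G' then β ⟨(h : G) * x, hx⟩ b else 0) =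
      β h (if hx : x ∈ G' then β ⟨x, hx⟩ b else 0)
    by_cases hx : x ∈ G'
    · have hhx : (h : G) * x ∈ G' := G'.mul_mem h.2 hx
      rw [dif_pos hx, dif_pos hhx, ← rep_mul_apply]
      rfl
    · have hhx : (h : G) * x ∉ G' := fun hh => hx ((G'.mul_mem_cancel_left h.2).1 hh)
      rw [dif_neg hx, dif_neg hhx, map_zero]⟩
  map_add' b b' := by
    apply Subtype.ext
    funext x
    show (if hx : x ∈ G' then β ⟨x, hx⟩ (b + b') else 0) =
      (if hx : x ∈ G' then β ⟨x, hx⟩ b else 0) + (if hx : x ∈ G' then β ⟨x, hx⟩ b' else 0)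
    by_cases hx : x ∈ G'
    · rw [dif_pos hx, dif_pos hx, dif_pos hx, map_add]
    · rw [dif_neg hx, dif_neg hx, dif_neg hx, add_zero]
  map_smul' k b := by
    apply Subtype.ext
    funext x
    show (if hx : x ∈ G' then β ⟨x, hx⟩ (k • b) else 0) =
      k • (if hx : x ∈ G' then β ⟨x, hx⟩ b else 0)
    by_cases hx : x ∈ G'
    · rw [dif_pos hx, dif_pos hx, map_smul]
    · rw [dif_neg hx, dif_neg hx, smul_zero]

private theorem dlt_pos (β : Representation C G' B) (b : B) {x : G} (hx : x ∈ G') :
    (dlt β b).1 x = β ⟨x, hx⟩ b := dif_pos hx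

private theorem dlt_neg (β : Representation C G' B) (b : B) {x : G} (hx : x ∉ G') :
    (dlt β b).1 x = 0 := dif_neg hx

private theorem dlt_equi (β : Representation C G' B) (g : G') (b : B) :
    indRep β (g : G) (dlt β b) = dlt β (β g b) := by
  apply Subtype.ext
  funext x
  rw [indRep_val]
  by_cases hx : x ∈ G'
  · have hxg : x * (g : G) ∈ G' := G'.mul_mem hx g.2
    rw [dlt_pos _ _ hx, dlt_pos _ _ hxg, ← rep_mul_apply]
    rfl
  · have hxg : x * (g : G) ∉ G' := fun hh => hx ((G'.mul_mem_cancel_right g.2).1 hh)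
    rw [dlt_neg _ _ hx, dlt_neg _ _ hxg]

private theorem dlt_ist {i : A →ₗ[C] B} (hi : Equi α β i) (a : A) :
    ist hi (dlt α a) = dlt β (i a) := by
  apply Subtype.ext
  funext x
  show i ((dlt α a).1 x) = _
  by_cases hx : x ∈ G'
  · rw [dlt_pos _ _ hx, dlt_pos _ _ hx, hi]
  · rw [dlt_neg _ _ hx, dlt_neg _ _ hx, map_zero]

end Term

private theorem res_ladm {G : Type} [Group G] [TopologicalSpace G]
    [IsTopologicalGroup G] {C : Type} [Field C] {G' : Subgroup G}
    (ho : IsOpen (G' : Set G)) {V : Type}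
    [AddCommGroup V] [Module C V] {π : Representation C G V} (hπ : IsLadm π) :
    IsLadm (res π G') := by
  refine ⟨hπ.smooth.res G', fun v => ?_⟩
  obtain ⟨M, hM, hM'⟩ := hπ.loc v
  refine ⟨M, hM, fun g w hw => hM'.sub g w hw, ?_⟩
  intro U hU hU'
  have h1 : IsOpen ((U.map G'.subtype : Subgroup G) : Set G) := by
    rw [Subgroup.coe_map]
    exact ho.isOpenMap_subtype_val _ hU
  have h2 : IsCompact ((U.map G'.subtype : Subgroup G) : Set G) := by
    rw [Subgroup.coe_map]
    exact hU'.image continuous_subtype_val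
  have h3 := hM'.fin _ h1 h2
  have h4 : (M ⊓ fix (res π G') U : Submodule C V) ≤
      (M ⊓ fix π (U.map G'.subtype) : Submodule C V) := by
    rintro w ⟨hw1, hw2⟩
    refine ⟨hw1, ?_⟩
    rintro _ ⟨u, hu, rfl⟩
    exact hw2 u hu
  exact Submodule.finiteDimensional_of_le h4

theorem res_ladmInj {p : ℕ} [Fact p.Prime] {G : Type} [Group G] [TopologicalSpace G]
    [IsTopologicalGroup G] {C : Type} [Field C] [Finite C] [CharP C p] {G' : Subgroup G}
    (hG' : IsPadicLie p G') (ho : IsOpen (G' : Set G)) (hfi : G'.index ≠ 0) {V : Type}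
    [AddCommGroup V] [Module C V] {π : Representation C G V} (hπ : LadmInj π) :
    LadmInj (res π G') := by
  have : G'.FiniteIndex := ⟨hfi⟩
  have hfin : Fintype (G ⧸ G') := Fintype.ofFinite _
  refine ⟨res_ladm ho hπ.1, ?_⟩
  intro A B _ _ _ _ α β hα hβ i hi hinj f hf
  let fs : indSp α →ₗ[C] V := ∑ q : G ⧸ G', tm π f (Quotient.out q)
  have hfs : ∀ F, fs F = ∑ q : G ⧸ G', tm π f (Quotient.out q) F := fun F => by
    simp only [fs, LinearMap.sum_apply]
  have hfs' : Equi (indRep α) π fs := by
    intro g F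
    rw [hfs, hfs, map_sum]
    rw [← Equiv.sum_comp (MulAction.toPerm (g⁻¹ : G) : Equiv.Perm (G ⧸ G'))
      (fun q => π g (tm π f (Quotient.out q) F))]
    refine Finset.sum_congr rfl fun q _ => ?_
    rw [tm_equi]
    congr 1
    refine tm_coset π hf ?_ F
    rw [QuotientGroup.out_eq', MulAction.toPerm_apply]
    conv_rhs => rw [← QuotientGroup.out_eq' q]
    rfl
  obtain ⟨h, hh1, hh2⟩ := hπ.2 (indSp α) (indSp β) (indRep α) (indRep β)
    (ind_ladm hG' ho hfi hα) (ind_ladm hG' ho hfi hβ) (ist hi) (by
      intro g F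
      rfl) (by
      intro F F' hFF
      apply Subtype.ext
      funext x
      exact hinj (congrFun (congrArg Subtype.val hFF) x)) fs hfs'
  refine ⟨h ∘ₗ dlt β, ?_, ?_⟩
  · intro g b
    rw [LinearMap.comp_apply, LinearMap.comp_apply, ← dlt_equi, hh1, res_apply]
  · intro a
    rw [LinearMap.comp_apply, ← dlt_ist hi, hh2, hfs]
    rw [Finset.sum_eq_single (QuotientGroup.mk 1 : G ⧸ G')]
    · have h1 : tm π f (Quotient.out (QuotientGroup.mk 1 : G ⧸ G')) (dlt α a) =
          tm π f 1 (dlt α a) := tm_coset π hf (QuotientGroup.out_eq' _) _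
      rw [h1, tm_apply, rep_one_apply, inv_one, dlt_pos _ _ G'.one_mem]
      exact congrArg f (rep_one_apply α a)
    · intro q _ hq
      rw [tm_apply, dlt_neg, map_zero, map_zero]
      intro hmem
      apply hq
      rw [← QuotientGroup.out_eq' q, QuotientGroup.eq, mul_one]
      exact hmem
    · intro hn
      exact (hn (Finset.mem_univ _)).elim

end Emt
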