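import Pool.Agent.Emt.Padic
import Pool.Agent.Emt.Eff

/-!
# Emt, module Quo: quotients by compact normal subgroups

PROOF of `RI.map`.  `H = φ(H')` is compact.  Let `S ≤ H` be as in `exists_sylow_sub` (compact, pro-`p`,
index prime to `p`); it is enough to prove `Eff C G S` (`ri_of_eff`, `RI.of_index`).
`S' = φ⁻¹(S)` is a closed subgroup of `G'`; it is contained in `H'` (if `φ x ∈ S ≤ φ(H')` then
`x ∈ H' ker φ = H'`), so it is compact and `RI C G' S'` (`RI.mono_closed`), `Eff C G' S'`
(`eff_of_ri`).  Let `ρ` be an admissible representation of `G` on `V`, `c : S → V` a cocycle.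
`ρ ∘ φ` is an admissible representation of `G'` (smooth: `φ` is continuous; if `U` is compact open
in `G'` then `φ(U)` is compact open in `G` and the fixed vectors are the same).  `c ∘ φ : S' → V` is a
locally constant cocycle; so there are `W`, `σ` (locally admissible representation of `G'`),
`i`, `e` with `i (c (φ s)) = σ s e - e` for `s ∈ S'`.  For `s ∈ ker φ ≤ S'` this says `σ s e = e`
(`c 1 = 0`).  Let `W₀ = fix σ (ker φ)`, a subrepresentation (`isSub_fix_normal`), it contains `e` and the
image of `i`.  `G` acts on `W₀`: `σ₀ (φ x) w = σ x w` (well defined; `φ` is surjective).  It is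
locally admissible as a representation of `G`: smooth since `φ` is open; a vector `w` of `W₀` lies
in an admissible subrepresentation `M` of `σ`, and `M ⊓ W₀` is stable, and for `U` compact open in `G`
the subgroup `φ⁻¹(U)` is open, and compact because `ker φ` is compact (`φ⁻¹(U) = U₁ ker φ` for a
compact set `U₁`... : `ker φ ≤ H'` is compact (closed in the compact `H'`), `φ` is
open and surjective with compact kernel so the preimage of a compact set is compact; alternatively avoid this: let
`U'` be a compact open subgroup of `G'` (`IsPadicLie.exists_good`); then the vectors of `M ⊓ W₀` fixed by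
`U` are fixed by `φ⁻¹(U) ⊓ U'`, a compact open subgroup of `G'`).
`i : V → W₀` is equivariant for `G` and injective.
-/

open Topology Set

namespace Emt

section descend

variable {G G' : Type} [Group G] [Group G'] {C : Type} [Field C] {W : Type} [AddCommGroup W]
  [Module C W] (σ : Representation C G' W) {φ : G' →* G} (hs : Function.Surjective φ)

private theorem descend_wd {x y : G'} (h : φ x = φ y) {w : W} (hw : w ∈ fix σ φ.ker) :
    σ x w = σ y w := by
  have h1 : y⁻¹ * x ∈ φ.ker := by
    rw [MonoidHom.mem_ker, map_mul, map_inv, h, inv_mul_cancel]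
  have h2 := hw _ h1
  have h3 : σ x w = σ (y * (y⁻¹ * x)) w := by rw [mul_inv_cancel_left]
  rw [h3, rep_mul_apply, h2]

/-- The action of `G` on the vectors fixed by the kernel of `φ : G' → G`. -/
noncomputable def descend : Representation C G (fix σ φ.ker) where
  toFun g := subRep σ (fix σ φ.ker) (isSub_fix_normal σ φ.ker) (Function.surjInv hs g)
  map_one' := by
    ext w
    rw [subRep_apply, descend_wd σ (y := 1) ?_ w.2, rep_one_apply]
    · rfl
    · rw [Function.surjInv_eq hs, map_one]
  map_mul' g h := by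
    ext w
    rw [subRep_apply, Module.End.mul_apply, subRep_apply, subRep_apply, ← rep_mul_apply]
    apply descend_wd σ _ w.2
    rw [map_mul, Function.surjInv_eq hs, Function.surjInv_eq hs, Function.surjInv_eq hs]

theorem descend_apply (x : G') (w : fix σ φ.ker) :
    ((descend σ hs (φ x) w : fix σ φ.ker) : W) = σ x w := by
  show ((subRep σ (fix σ φ.ker) (isSub_fix_normal σ φ.ker) (Function.surjInv hs (φ x)) w :
    fix σ φ.ker) : W) = _
  rw [subRep_apply]
  exact descend_wd σ (Function.surjInv_eq hs _) w.2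

end descend

theorem descend_isLadm {G G' : Type} [Group G] [TopologicalSpace G]
    [IsTopologicalGroup G] [Group G'] [TopologicalSpace G'] [IsTopologicalGroup G']
    {C : Type} [Field C] {W : Type} [AddCommGroup W] [Module C W]
    {σ : Representation C G' W} (hσ : IsLadm σ) {φ : G' →* G} (hφ : Continuous φ)
    (ho : IsOpenMap φ) (hs : Function.Surjective φ) {U' : Subgroup G'}
    (hU' : IsOpen (U' : Set G')) (hU'c : IsCompact (U' : Set G')) :
    IsLadm (descend σ hs) := by
  refine ⟨fun w => ?_, fun w => ?_⟩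
  · have h1 : {g : G | descend σ hs g w = w} = φ '' {x : G' | σ x w = w} := by
      ext g
      obtain ⟨x, rfl⟩ := hs g
      constructor
      · intro h
        refine ⟨x, ?_, rfl⟩
        show σ x w = w
        rw [← descend_apply σ hs x w]
        exact congrArg Subtype.val h
      · rintro ⟨y, hy, hyx⟩
        apply Subtype.ext
        rw [← hyx, descend_apply]
        exact hy
    rw [h1]
    exact ho _ (hσ.smooth w)
  · obtain ⟨M, hwM, hM⟩ := hσ.loc w
    refine ⟨M.comap (fix σ φ.ker).subtype, hwM, ?_, ?_⟩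
    · intro g v hv
      obtain ⟨x, rfl⟩ := hs g
      show ((descend σ hs (φ x) v : fix σ φ.ker) : W) ∈ M
      rw [descend_apply]
      exact hM.sub x _ hv
    · intro U hU hUc
      have hcl : IsClosed ((U.comap φ : Subgroup G') : Set G') :=
        (Subgroup.isClosed_of_isOpen U hU).preimage hφ
      have hop : IsOpen ((U.comap φ ⊓ U' : Subgroup G') : Set G') := (hU.preimage hφ).inter hU'
      have hcp : IsCompact ((U.comap φ ⊓ U' : Subgroup G') : Set G') :=
        hU'c.inter_left hcl
      refine emb_finDim (hM.fin _ hop hcp) (fix σ φ.ker).subtype ?_ ?_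
      · intro v _ h0
        exact Subtype.ext h0
      · rintro v ⟨hv1, hv2⟩
        refine ⟨hv1, ?_⟩
        intro x hx
        have h1 := congrArg Subtype.val (hv2 (φ x) hx.1)
        rw [descend_apply] at h1
        exact h1

theorem comp_isAdm {G G' : Type} [Group G] [TopologicalSpace G]
    [Group G'] [TopologicalSpace G']
    {C : Type} [Field C] {V : Type} [AddCommGroup V] [Module C V]
    {ρ : Representation C G V} (hρ : IsAdm ρ) {φ : G' →* G} (hφ : Continuous φ)
    (ho : IsOpenMap φ) : IsAdm (ρ.comp φ : Representation C G' V) := by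
  refine ⟨fun v => (hρ.smooth v).preimage hφ, fun U hU hUc => ?_⟩
  have h1 : IsOpen ((U.map φ : Subgroup G) : Set G) := by
    rw [Subgroup.coe_map]
    exact ho _ hU
  have h2 : IsCompact ((U.map φ : Subgroup G) : Set G) := by
    rw [Subgroup.coe_map]
    exact hUc.image hφ
  refine emb_finDim (hρ.fin _ h1 h2) LinearMap.id (fun v _ h => h) ?_
  rintro v hv _ ⟨x, hx, rfl⟩
  exact hv x hx

theorem RI.map {p : ℕ} [Fact p.Prime] {G G' : Type} [Group G] [TopologicalSpace G]
    [IsTopologicalGroup G] [Group G'] [TopologicalSpace G'] [IsTopologicalGroup G']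
    {C : Type} [Field C] [Finite C] [CharP C p] (hG : IsPadicLie p G) (hG' : IsPadicLie p G')
    {φ : G' →* G} (hφ : Continuous φ) (ho : IsOpenMap φ) (hs : Function.Surjective φ)
    {H' : Subgroup G'} (hH' : IsCompact (H' : Set G')) (hker : φ.ker ≤ H') (h : RI C G' H') :
    RI C G (H'.map φ) := by
  have hH : IsCompact ((H'.map φ : Subgroup G) : Set G) := by
    rw [Subgroup.coe_map]
    exact hH'.image hφ
  obtain ⟨S, hSH, hSc, hSp, hS0, hSi⟩ := exists_sylow_sub hG hH
  refine RI.of_index hSH hS0 hSi (ri_of_eff hG hSc hSp ?_)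
  have := hG.t2
  have hSle : S.comap φ ≤ H' := by
    intro x hx
    obtain ⟨y, hy, hyx⟩ := hSH hx
    have h1 : y⁻¹ * x ∈ φ.ker := by
      rw [MonoidHom.mem_ker, map_mul, map_inv, hyx, inv_mul_cancel]
    have h2 := H'.mul_mem hy (hker h1)
    rwa [mul_inv_cancel_left] at h2
  have hScl : IsClosed ((S.comap φ : Subgroup G') : Set G') := hSc.isClosed.preimage hφ
  have hE : Eff C G' (S.comap φ) := eff_of_ri hG' (RI.mono_closed hG' hH' h hSle hScl)
  intro V _ _ ρ hρ c hc
  have hc1 : c 1 = 0 := by
    have h := hc.mul 1 1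
    rw [mul_one, res_apply, Subgroup.coe_one, rep_one_apply] at h
    exact left_eq_add.mp h
  let ρ' : Representation C G' V := ρ.comp φ
  have hρ' : ∀ x v, ρ' x v = ρ (φ x) v := fun _ _ => rfl
  let c' : ↥(S.comap φ) → V := fun s => c ⟨φ s, s.2⟩
  have hc' : IsCoc (res ρ' (S.comap φ)) c' := by
    refine ⟨fun g g' => ?_, ?_⟩
    · have h1 := hc.mul ⟨φ g, g.2⟩ ⟨φ g', g'.2⟩
      refine Eq.trans ?_ h1
      show c _ = c _
      congr 1
      apply Subtype.ext
      show φ ((g : G') * g') = φ g * φ g'
      rw [map_mul]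
    · refine hc.cont.comp_continuous ?_
      exact (hφ.comp continuous_subtype_val).subtype_mk _
  obtain ⟨W, iW1, iW2, σ, i, e, hσ, hi, hinj, he⟩ := hE V ρ' (comp_isAdm hρ hφ ho) c' hc'
  obtain ⟨U', hU', hU'c, -⟩ := hG'.exists_good C
  have hL := descend_isLadm hσ hφ ho hs hU' hU'c
  have hiW : ∀ v, i v ∈ fix σ φ.ker := by
    intro v k hk
    rw [← hi, hρ', MonoidHom.mem_ker.mp hk, rep_one_apply]
  have heW : e ∈ fix σ φ.ker := by
    intro k hk
    have hk1 : φ k = 1 := MonoidHom.mem_ker.mp hk
    have hkS : k ∈ S.comap φ := by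
      rw [Subgroup.mem_comap, hk1]
      exact S.one_mem
    have h1 := he ⟨k, hkS⟩
    have h2 : c' ⟨k, hkS⟩ = 0 := by
      rw [← hc1]
      show c _ = c _
      congr 1
      exact Subtype.ext hk1
    rw [h2, map_zero] at h1
    exact (sub_eq_zero.mp h1.symm)
  refine ⟨fix σ φ.ker, inferInstance, inferInstance, descend σ hs, i.codRestrict _ hiW, ⟨e, heW⟩,
    hL, ?_, ?_, ?_⟩
  · intro g v
    obtain ⟨x, rfl⟩ := hs g
    apply Subtype.ext
    rw [descend_apply]
    exact hi x v
  · intro v v' hv
    exact hinj (congrArg Subtype.val hv)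
  · rintro ⟨g, hg⟩
    obtain ⟨x, rfl⟩ := hs g
    apply Subtype.ext
    have h1 := he ⟨x, hg⟩
    show i (c ⟨φ x, hg⟩) = ((descend σ hs (φ x) ⟨e, heW⟩ : fix σ φ.ker) : W) - e
    rw [descend_apply]
    exact h1

end Emt
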