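import Pool.Agent.Emt.Prod2
import Pool.Agent.Emt.Quo
import Pool.Agent.Emt.Ind1
import Pool.Agent.Emt.Tree3

/-!
# Emt, module Final: open homomorphisms with compact kernel and image of finite index

PROOFS.
* `RI.of_subgroup`: `G'` open of finite index in `G`, `H` a subgroup of `G'`:  `res_ladmInj`,
  and transport along the isomorphism of topological groups `H ≃ H.map G'.subtype`
  (`SmoothInj.congr`).  `G'` is a `p`-adic Lie group by `IsPadicLie.subgroup` (open subgroups are closed).
* `RI.map_open`: `φ` factors as a surjective open homomorphism `G' → range φ` and the inclusion of the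
  open subgroup `range φ` of finite index: `RI.map` and `RI.of_subgroup`.
-/

open Topology Set

namespace Emt

theorem RI.of_subgroup {p : ℕ} [Fact p.Prime] {G : Type} [Group G] [TopologicalSpace G]
    [IsTopologicalGroup G] {C : Type} [Field C] [Finite C] [CharP C p] (hG : IsPadicLie p G)
    {G' : Subgroup G} (ho : IsOpen (G' : Set G)) (hfi : G'.index ≠ 0) {H : Subgroup G'}
    (h : RI C G' H) : RI C G (H.map G'.subtype) := by
  have hG' : IsPadicLie p G' := hG.subgroup (Subgroup.isClosed_of_isOpen G' ho)
  intro V _ _ ρ hρ
  have h1 : SmoothInj (res (res ρ G') H) := h V (res ρ G') (res_ladmInj hG' ho hfi hρ)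
  let e : H ≃* ↥(H.map G'.subtype) := H.equivMapOfInjective G'.subtype
    G'.subtype_injective
  have he1 : ∀ x : H, ((e x : ↥(H.map G'.subtype)) : G) = ((x : G') : G) :=
    fun x => rfl
  have he2 : ∀ y : ↥(H.map G'.subtype), (((e.symm y : H) : G') : G) = (y : G) := by
    intro y
    rw [← he1, MulEquiv.apply_symm_apply]
  have he : Continuous e := by
    refine Continuous.subtype_mk ?_ _
    exact continuous_subtype_val.comp continuous_subtype_val
  have he' : Continuous e.symm := by
    rw [continuous_induced_rng, continuous_induced_rng]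
    have h2 : ((Subtype.val : G' → G) ∘ (Subtype.val : H → G') ∘ e.symm) =
        (Subtype.val : ↥(H.map G'.subtype) → G) := by
      funext y
      exact he2 y
    rw [h2]
    exact continuous_subtype_val
  have h3 := SmoothInj.congr e.symm he' he h1
  have h4 : (res (res ρ G') H).comp e.symm.toMonoidHom = res ρ (H.map G'.subtype) := by
    refine MonoidHom.ext fun y => ?_
    show ρ (((e.symm y : H) : G') : G) = ρ (y : G)
    rw [he2]
  rw [h4] at h3
  exact h3

theorem RI.map_open {p : ℕ} [Fact p.Prime] {G G' : Type} [Group G] [TopologicalSpace G]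
    [IsTopologicalGroup G] [Group G'] [TopologicalSpace G'] [IsTopologicalGroup G']
    {C : Type} [Field C] [Finite C] [CharP C p] (hG : IsPadicLie p G) (hG' : IsPadicLie p G')
    {φ : G' →* G} (hφ : Continuous φ) (ho : IsOpenMap φ) (hfi : φ.range.index ≠ 0)
    {H' : Subgroup G'} (hH' : IsCompact (H' : Set G')) (hker : φ.ker ≤ H') (h : RI C G' H') :
    RI C G (H'.map φ) := by
  have hro : IsOpen (φ.range : Set G) := by
    rw [MonoidHom.coe_range]
    exact ho.isOpen_range
  have hR : IsPadicLie p φ.range := hG.subgroup (Subgroup.isClosed_of_isOpen _ hro)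
  have hφ' : Continuous φ.rangeRestrict := Continuous.subtype_mk hφ _
  have ho' : IsOpenMap φ.rangeRestrict := by
    intro U hU
    have h1 : (φ.rangeRestrict '' U : Set φ.range) = Subtype.val ⁻¹' (φ '' U) := by
      ext y
      constructor
      · rintro ⟨x, hx, rfl⟩
        exact ⟨x, hx, rfl⟩
      · rintro ⟨x, hx, hxy⟩
        exact ⟨x, hx, Subtype.ext hxy⟩
    rw [h1]
    exact (ho U hU).preimage continuous_subtype_val
  have hker' : φ.rangeRestrict.ker ≤ H' := by
    rw [MonoidHom.ker_rangeRestrict]
    exact hker
  have h1 : RI C φ.range (H'.map φ.rangeRestrict) :=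
    RI.map hR hG' hφ' ho' φ.rangeRestrict_surjective hH' hker' h
  have h2 := RI.of_subgroup hG hro hfi h1
  rw [Subgroup.map_map, MonoidHom.subtype_comp_rangeRestrict] at h2
  exact h2

end Emt
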