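import Pool.Agent.Emt.Pro1

/-!
# Emt, module Fn1: locally constant functions on a compact group

PROOFS.  `K` is a compact group.
* `exists_open_right`: a locally constant function `f` on the compact group `K` is invariant under
  right translations by an open subgroup (hypothesis `hb`: the open subgroups form a neighbourhood
  basis of `1`): for every `x` there is an open subgroup `U_x` with `f` constant on `x U_x`
  (`(x * ·)⁻¹ (f⁻¹ {f x})` is a neighbourhood of `1`); by compactness `K` is covered by finitely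
  many `x_i U_{x_i}`; `U = ⋂ U_{x_i}`: if `x ∈ x_i U_{x_i}` then `x u ∈ x_i U_{x_i}`.
  `exists_open_left` similarly (or apply the first to `x ↦ f x⁻¹`).
* `fn_smooth`: `exists_open_right`.
* `fn_extend` (Frobenius reciprocity): an equivariant map `f : A → Fn C K W` is determined by the
  linear map `l a = (f a) 1`: `(f a) x = (f (α x a)) 1 = l (α x a)`.  Extend `l` along the injective
  map `i` to a linear map `l' : B → W` (`LinearMap.exists_extend` or
  `LinearMap.exists_leftInverse_of_injective`), and put `(g b) x = l' (β x b)`, locally constant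
  since `β` is smooth.
* `emb`: `v ↦ (x ↦ l (ρ x v))` for a linear map `l : V → W`; it is equivariant; injective if `U` is
  an open pro-`p` subgroup and `l` is injective on the `U`-fixed vectors: the kernel is a
  subrepresentation; a non-zero subrepresentation has non-zero `U`-fixed vectors `v`
  (`exists_fixed_sub` for the compact group `U` and `res ρ U`; the open subgroup `U` is closed, so
  compact), and then `l v = l (ρ 1 v) = 0`, a contradiction.
* `fn_fix_fin`: the functions fixed by the open subgroup `U` are functions on the finite set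
  `K ⧸ U`.
* `fn_surj` : composition with a linear map.
-/

open Topology Set

namespace Emt

variable {C : Type} [Field C] {K : Type} [Group K] [TopologicalSpace K] [IsTopologicalGroup K]
  [CompactSpace K] {W : Type} [AddCommGroup W] [Module C W]

/-- The open subgroups form a neighbourhood basis of `1`. -/
def OpenBasis (K : Type) [Group K] [TopologicalSpace K] : Prop :=
  ∀ s ∈ 𝓝 (1 : K), ∃ U : Subgroup K, IsOpen (U : Set K) ∧ (U : Set K) ⊆ s

theorem exists_open_right (hb : OpenBasis K) {X : Type} {f : K → X} (hf : IsLocallyConstant f) :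
    ∃ U : Subgroup K, IsOpen (U : Set K) ∧ ∀ x, ∀ u ∈ U, f (x * u) = f x := by
  have h1 : ∀ x : K, ∃ U : Subgroup K, IsOpen (U : Set K) ∧ ∀ u ∈ U, f (x * u) = f x := by
    intro x
    have ho : IsOpen ((fun u : K => x * u) ⁻¹' (f ⁻¹' {f x})) :=
      (hf.isOpen_fiber (f x)).preimage (continuous_const.mul continuous_id)
    have hm : (1 : K) ∈ ((fun u : K => x * u) ⁻¹' (f ⁻¹' {f x})) := by
      simp
    obtain ⟨U, hU, hUs⟩ := hb _ (ho.mem_nhds hm)
    exact ⟨U, hU, fun u hu => hUs hu⟩
  choose U hU hUf using h1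
  have hn : ∀ x : K, ((fun y : K => x⁻¹ * y) ⁻¹' (U x : Set K)) ∈ 𝓝 x := by
    intro x
    have ho : IsOpen ((fun y : K => x⁻¹ * y) ⁻¹' (U x : Set K)) :=
      (hU x).preimage (continuous_const.mul continuous_id)
    apply ho.mem_nhds
    show x⁻¹ * x ∈ U x
    rw [inv_mul_cancel]
    exact (U x).one_mem
  obtain ⟨t, ht⟩ := CompactSpace.elim_nhds_subcover _ hn
  refine ⟨⨅ x ∈ t, U x, ?_, ?_⟩
  · have e : ((⨅ x ∈ t, U x : Subgroup K) : Set K) = ⋂ x ∈ t, (U x : Set K) := by
      simp
    rw [e]
    exact isOpen_biInter_finset fun x _ => hU x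
  · intro x u hu
    have hx : x ∈ ⋃ y ∈ t, ((fun z : K => y⁻¹ * z) ⁻¹' (U y : Set K)) := by
      rw [ht]
      exact Set.mem_univ x
    simp only [Set.mem_iUnion] at hx
    obtain ⟨y, hy, hxy⟩ := hx
    have h2 : y⁻¹ * x ∈ U y := hxy
    have h3 : u ∈ U y := by
      have := hu
      rw [Subgroup.mem_iInf] at this
      have h4 := this y
      rw [Subgroup.mem_iInf] at h4
      exact h4 hy
    have h5 := hUf y _ h2
    have h6 := hUf y _ ((U y).mul_mem h2 h3)
    rw [mul_inv_cancel_left] at h5
    rw [← mul_assoc, mul_inv_cancel_left] at h6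
    rw [h6, h5]

theorem exists_open_left (hb : OpenBasis K) {X : Type} {f : K → X} (hf : IsLocallyConstant f) :
    ∃ U : Subgroup K, IsOpen (U : Set K) ∧ ∀ x, ∀ u ∈ U, f (u * x) = f x := by
  obtain ⟨U, hU, h⟩ := exists_open_right hb (hf.comp_continuous continuous_inv)
  refine ⟨U, hU, fun x u hu => ?_⟩
  have h1 := h x⁻¹ u⁻¹ (U.inv_mem hu)
  simp only [Function.comp_apply, mul_inv_rev, inv_inv] at h1
  exact h1

/-- In a compact group with a basis of open subgroups every open subgroup contains an open normal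
subgroup. -/
theorem exists_normal_le {U : Subgroup K} (hU : IsOpen (U : Set K)) :
    ∃ N : Subgroup K, N.Normal ∧ IsOpen (N : Set K) ∧ N ≤ U :=
  ⟨U.normalCore, Subgroup.normalCore_normal U, pro_core_open U hU, Subgroup.normalCore_le U⟩

theorem fn_smooth (hb : OpenBasis K) : IsSmooth (fnRep C K W) := by
  intro f
  obtain ⟨U, hU, h⟩ := exists_open_right hb f.2
  refine isOpen_stab_of_le hU ?_
  intro g hg
  apply Subtype.ext
  funext x
  exact h x g hg

omit [CompactSpace K] in
private theorem smooth_lc {V : Type} [AddCommGroup V] [Module C V] {ρ : Representation C K V}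
    (hρ : IsSmooth ρ) (v : V) : IsLocallyConstant fun g : K => ρ g v := by
  rw [IsLocallyConstant.iff_eventually_eq]
  intro g
  have hc : Continuous fun h : K => g⁻¹ * h := continuous_const.mul continuous_id
  have ho : IsOpen {h : K | ρ (g⁻¹ * h) v = v} := (hρ v).preimage hc
  have hg : g ∈ {h : K | ρ (g⁻¹ * h) v = v} := by
    show ρ (g⁻¹ * g) v = v
    rw [inv_mul_cancel, map_one]
    rfl
  filter_upwards [ho.mem_nhds hg] with h hh
  have h1 : ρ (g⁻¹ * h) v = v := hh
  have h2 : ρ h v = ρ g (ρ (g⁻¹ * h) v) := by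
    rw [← Module.End.mul_apply, ← map_mul, mul_inv_cancel_left]
  rw [h2, h1]

omit [CompactSpace K] in
private theorem exists_emb' {V : Type} [AddCommGroup V] [Module C V] {ρ : Representation C K V}
    (hρ : IsSmooth ρ) (l : V →ₗ[C] W) :
    ∃ i : V →ₗ[C] Fn C K W, Equi ρ (fnRep C K W) i ∧ ∀ v x, (i v).1 x = l (ρ x v) := by
  refine ⟨{ toFun := fun v => ⟨fun x => l (ρ x v), (smooth_lc hρ v).comp l⟩
            map_add' := ?_
            map_smul' := ?_ }, ?_, ?_⟩
  · intro a b
    apply Subtype.ext
    funext x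
    show l (ρ x (a + b)) = l (ρ x a) + l (ρ x b)
    rw [map_add, map_add]
  · intro k a
    apply Subtype.ext
    funext x
    show l (ρ x (k • a)) = k • l (ρ x a)
    rw [map_smul, map_smul]
  · intro g v
    apply Subtype.ext
    funext x
    show l (ρ x (ρ g v)) = l (ρ (x * g) v)
    rw [rep_mul_apply]
  · intro v x
    rfl

theorem fn_extend {A B : Type} [AddCommGroup A] [Module C A] [AddCommGroup B] [Module C B]
    {α : Representation C K A} {β : Representation C K B} (hβ : IsSmooth β) {i : A →ₗ[C] B}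
    (hi : Equi α β i) (hinj : Function.Injective i) {f : A →ₗ[C] Fn C K W}
    (hf : Equi α (fnRep C K W) f) :
    ∃ g : B →ₗ[C] Fn C K W, Equi β (fnRep C K W) g ∧ ∀ a, g (i a) = f a := by
  obtain ⟨r, hr⟩ := LinearMap.exists_leftInverse_of_injective i (LinearMap.ker_eq_bot.2 hinj)
  let l : A →ₗ[C] W := (LinearMap.proj (1 : K)) ∘ₗ (Fn C K W).subtype ∘ₗ f
  obtain ⟨g, hg, hgx⟩ := exists_emb' hβ (l ∘ₗ r)
  refine ⟨g, hg, ?_⟩
  intro a
  apply Subtype.ext
  funext x
  rw [hgx, ← hi]
  have h1 : r (i (α x a)) = α x a := by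
    have := LinearMap.congr_fun hr (α x a)
    simpa using this
  show l (r (i (α x a))) = (f a).1 x
  rw [h1]
  show (f (α x a)).1 1 = (f a).1 x
  rw [hf]
  show (f a).1 (1 * x) = (f a).1 x
  rw [one_mul]

theorem fn_smoothInj (hb : OpenBasis K) : SmoothInj (fnRep C K W) :=
  ⟨fn_smooth hb, fun _ _ _ _ _ _ _ _ _ hβ _ hi hinj _ hf => fn_extend hβ hi hinj hf⟩

/-- The map `v ↦ (x ↦ l (ρ x v))`. -/
theorem exists_emb {V : Type} [AddCommGroup V] [Module C V] {ρ : Representation C K V}
    (hρ : IsSmooth ρ) (l : V →ₗ[C] W) :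
    ∃ i : V →ₗ[C] Fn C K W, Equi ρ (fnRep C K W) i ∧ ∀ v x, (i v).1 x = l (ρ x v) :=
  exists_emb' hρ l

/-- An admissible representation embeds into `Fn C K (X → C)` as soon as the cardinality of `X` is
at least the dimension of the space of the vectors fixed by an open pro-`p` subgroup. -/
theorem exists_emb_adm {p : ℕ} [Fact p.Prime] [Finite C] [CharP C p] {V : Type} [AddCommGroup V]
    [Module C V] {ρ : Representation C K V} (hρ : IsSmooth ρ) {U : Subgroup K}
    (hU : IsOpen (U : Set K)) (hUp : IsProP p U) [FiniteDimensional C (fix ρ U)] {X : Type}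
    [Fintype X] (hX : Module.finrank C (fix ρ U) ≤ Fintype.card X) :
    ∃ i : V →ₗ[C] Fn C K (X → C), Equi ρ (fnRep C K (X → C)) i ∧ Function.Injective i := by
  classical
  have hcl : IsClosed (U : Set K) := Subgroup.isClosed_of_isOpen U hU
  haveI : CompactSpace U := isCompact_iff_compactSpace.1 hcl.isCompact
  obtain ⟨e⟩ : Nonempty (Fin (Module.finrank C (fix ρ U)) ↪ X) :=
    Function.Embedding.nonempty_of_card_le (by simpa using hX)
  let j : fix ρ U →ₗ[C] (X → C) :=
    (Function.ExtendByZero.linearMap C e) ∘ₗ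
      (Module.finBasis C (fix ρ U)).equivFun.toLinearMap
  have hj : ∀ w, j w = 0 → w = 0 := by
    intro w hw
    have h1 : (Module.finBasis C (fix ρ U)).equivFun w = 0 := by
      funext k
      have h2 := congrFun hw (e k)
      have h3 : j w (e k) = (Module.finBasis C (fix ρ U)).equivFun w k := by
        show Function.extend e ((Module.finBasis C (fix ρ U)).equivFun w) 0 (e k) = _
        exact e.injective.extend_apply _ _ k
      rw [h3] at h2
      exact h2
    exact (LinearEquiv.map_eq_zero_iff _).1 h1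
  obtain ⟨l, hl⟩ := LinearMap.exists_extend j
  obtain ⟨i, hi, hix⟩ := exists_emb hρ l
  refine ⟨i, hi, ?_⟩
  rw [← LinearMap.ker_eq_bot]
  by_contra hne
  have hsub : IsSub (res ρ U) (LinearMap.ker i) := fun g v hv => isSub_ker hi (g : K) v hv
  obtain ⟨v, hv, hv0, hfix⟩ := exists_fixed_sub hUp (hρ.res U) hsub hne
  have hvU : v ∈ fix ρ U := fun g hg => hfix ⟨g, hg⟩
  have h1 : l v = 0 := by
    have h2 := hix v 1
    rw [rep_one_apply] at h2
    rw [← h2, LinearMap.mem_ker.1 hv]
    rfl
  have h2 : j ⟨v, hvU⟩ = 0 := by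
    rw [← hl]
    exact h1
  exact hv0 (congrArg Subtype.val (hj _ h2))

theorem fn_fix_fin [FiniteDimensional C W] {U : Subgroup K} (hU : IsOpen (U : Set K)) :
    FiniteDimensional C (fix (fnRep C K W) U) := by
  haveI hf : Finite (K ⧸ U) := Subgroup.quotient_finite_of_isOpen U hU
  let φ : Fn C K W →ₗ[C] ((K ⧸ U) → W) :=
    { toFun := fun f q => f.1 q.out
      map_add' := fun _ _ => rfl
      map_smul' := fun _ _ => rfl }
  have hB : FiniteDimensional C (⊤ : Submodule C ((K ⧸ U) → W)) := inferInstance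
  refine emb_finDim hB φ ?_ (fun _ _ => Submodule.mem_top)
  intro f hf h0
  apply Subtype.ext
  funext x
  obtain ⟨h, hh⟩ := QuotientGroup.mk_out_eq_mul U x
  have h1 : f.1 (QuotientGroup.mk (s := U) x).out = 0 := congrFun h0 (QuotientGroup.mk x)
  rw [hh] at h1
  have h2 := hf (h : K) h.2
  have h3 : f.1 (x * h) = f.1 x := congrFun (congrArg Subtype.val h2) x
  rw [h3] at h1
  exact h1

end Emt
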