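import Pool.Agent.Emt.Defs

/-!
# Emt, module Ping: ping-pong criterion for amalgams

PROOF.  Let `P = Monoid.PushoutI φ` (`Mathlib.GroupTheory.PushoutI`; `ι = Bool` or `Fin 2`, base group
`K₁ ⊓ K₂`, factors `K₁`, `K₂`, `φ` the inclusions, injective), and `ψ : P → G` the homomorphism
induced by the inclusions (`PushoutI.lift`).  `ψ` is surjective (`hgen`).
CLAIM: let `g₁, ..., g_n`, `n ≥ 1`, be alternately in `K₁ \ K₂` and `K₂ \ K₁`.  Then
`g₁ ⋯ g_n ∉ K₁ ⊓ K₂`; in particular it is `≠ 1`.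
(i) `n` odd, `g₁, g_n ∈ K₁ \ K₂`: the product maps `X₂` into `X₁`, elements of `K₁ ⊓ K₂` map `X₂` into
`X₂`, and `X₁`, `X₂` are disjoint, `X₂` nonempty.  (ii) `n` odd, `g₁, g_n ∈ K₂ \ K₁`: maps `X₁` into
`X₂`, the same (`X₁` is nonempty: for `k ∈ K₁ \ K₂`, which exists by `h₅` with `g = 1`, `k X₂ ⊆ X₁`).
(iii) `n` even: let `i = g₁ ⋯ g_n ∈ K₁ ⊓ K₂`.  If `g₁ ∈ K₁ \ K₂`, `g_n ∈ K₂ \ K₁`: by `h₅` there is
`k ∈ K₁ \ K₂` with `k⁻¹ g₁ ∉ K₂`; the element `k⁻¹ i k = (k⁻¹ g₁) g₂ ⋯ g_n k` maps `X₂` into `X₁`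
(alternating of odd length), but then `i k` maps `X₂` into `k X₁`...: better: `(k⁻¹ g₁) g₂ ⋯ g_n k` maps
`X₂` into `X₁` and equals `k⁻¹ (i k)`, where `i k ∈ K₁`, so `k⁻¹ i k ∈ K₁`; hmm, this does not
contradict anything if `i ≠ 1`.  So prove only `g₁ ⋯ g_n ≠ 1` for `n` even: then `k⁻¹ 1 k = 1` maps `X₂`
into `X₁`, a contradiction.  If `g₁ ∈ K₂ \ K₁`, `g_n ∈ K₁ \ K₂`: take inverses.
So (iv): no alternating product of length `n ≥ 1` equals `1`; and if an alternating product of even length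
`n ≥ 2` were `i ∈ K₁ ⊓ K₂` then `(i⁻¹ g₁) g₂ ⋯ g_n = 1` is again alternating.
Injectivity of `ψ`: let `ψ x = 1`, `x` has a normal form (`PushoutI.NormalWord`), i.e. `x = base(b) *
(reduced word)`; if the word is nonempty then `b` can be absorbed in the first letter, and
`ψ x` is an alternating product `≠ 1`; if it is empty then `ψ x = b = 1`.
So `ψ` is an isomorphism; for `f₁, f₂` as in `IsAmalgam.lift` put `f = PushoutI.lift (f₁, f₂) ∘ ψ⁻¹`.
-/

open Set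

namespace Emt

section Ping

variable {G : Type} [Group G]

/-- `g` is an alternating product of letters in `K i \ K (!i)`, first letter of type `i`, last
letter of type `j` -/
inductive PAlt (K : Bool → Subgroup G) : Bool → Bool → G → Prop
  | one (i : Bool) (x : G) (h1 : x ∈ K i) (h2 : x ∉ K (!i)) : PAlt K i i x
  | cons (i j : Bool) (x g : G) (h1 : x ∈ K i) (h2 : x ∉ K (!i)) (h3 : PAlt K (!i) j g) :
      PAlt K i j (x * g)

theorem PAlt.snoc {K : Bool → Subgroup G} {i j : Bool} {g : G} (h : PAlt K i j g) {y : G}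
    (h1 : y ∈ K (!j)) (h2 : y ∉ K j) : PAlt K i (!j) (g * y) := by
  induction h with
  | one i x a1 a2 =>
    refine PAlt.cons i (!i) x y a1 a2 (PAlt.one (!i) y h1 ?_)
    rw [Bool.not_not]
    exact h2
  | cons i j x g a1 a2 _ ih =>
    rw [mul_assoc]
    exact PAlt.cons i (!j) x (g * y) a1 a2 (ih h1 h2)

theorem PAlt.inv {K : Bool → Subgroup G} {i j : Bool} {g : G} (h : PAlt K i j g) :
    PAlt K j i g⁻¹ := by
  induction h with
  | one i x a1 a2 =>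
    exact PAlt.one i x⁻¹ ((K i).inv_mem a1) (fun h => a2 ((K (!i)).inv_mem_iff.1 h))
  | cons i j x g a1 a2 _ ih =>
    rw [mul_inv_rev]
    have h1 := ih.snoc (y := x⁻¹) (by rw [Bool.not_not]; exact (K i).inv_mem a1)
      (fun h => a2 ((K (!i)).inv_mem_iff.1 h))
    rw [Bool.not_not] at h1
    exact h1

theorem PAlt.play {K : Bool → Subgroup G} {Y : Type} {a : G →* Equiv.Perm Y} {X : Bool → Set Y}
    (hX : ∀ i, ∀ x ∈ K i, x ∉ K (!i) → ∀ y ∈ X (!i), a x y ∈ X i) {i j : Bool} {g : G}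
    (h : PAlt K i j g) : ∀ y ∈ X (!j), a g y ∈ X i := by
  induction h with
  | one i x a1 a2 => exact hX i x a1 a2
  | cons i j x g a1 a2 _ ih =>
    intro y hy
    rw [map_mul]
    exact hX i x a1 a2 _ (ih y hy)

/-- `g` is an alternating product and `α` is the corresponding product in `A` -/
inductive AltR {A : Type} [Group A] (K : Bool → Subgroup G) (e : Bool → G → A) :
    Bool → G → A → Prop
  | one (i : Bool) (x : G) (h1 : x ∈ K i) (h2 : x ∉ K (!i)) : AltR K e i x (e i x)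
  | cons (i : Bool) (x g : G) (α : A) (h1 : x ∈ K i) (h2 : x ∉ K (!i))
      (h3 : AltR K e (!i) g α) : AltR K e i (x * g) (e i x * α)

variable {A : Type} [Group A] {K : Bool → Subgroup G} {e : Bool → G → A}

theorem AltR.palt {i : Bool} {g : G} {α : A} (h : AltR K e i g α) : ∃ j, PAlt K i j g := by
  induction h with
  | one i x a1 a2 => exact ⟨i, PAlt.one i x a1 a2⟩
  | cons i x g α a1 a2 _ ih =>
    obtain ⟨j, hj⟩ := ih
    exact ⟨j, PAlt.cons i j x g a1 a2 hj⟩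

theorem AltR.absorb (he : ∀ i, ∀ x ∈ K i, ∀ y ∈ K i, e i (x * y) = e i x * e i y) {z : G}
    (hz : ∀ i, z ∈ K i) {i : Bool} {g : G} {α : A} (h : AltR K e i g α) :
    AltR K e i (z * g) (e i z * α) := by
  cases h with
  | one _ x a1 a2 =>
    rw [← he i z (hz i) g a1]
    exact AltR.one i (z * g) ((K i).mul_mem (hz i) a1)
      (fun h => a2 (((K (!i)).mul_mem_cancel_left (hz (!i))).1 h))
  | cons _ x g α a1 a2 h3 =>
    rw [← mul_assoc, ← mul_assoc, ← he i z (hz i) x a1]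
    exact AltR.cons i (z * x) g α ((K i).mul_mem (hz i) a1)
      (fun h => a2 (((K (!i)).mul_mem_cancel_left (hz (!i))).1 h)) h3

theorem all_of_both {z : G} {i : Bool} (h1 : z ∈ K i) (h2 : z ∈ K (!i)) : ∀ k, z ∈ K k := by
  intro k
  cases i <;> cases k
  · exact h1
  · exact h2
  · exact h2
  · exact h1

theorem AltR.step (he : ∀ i, ∀ x ∈ K i, ∀ y ∈ K i, e i (x * y) = e i x * e i y)
    (hag : ∀ z, (∀ k, z ∈ K k) → ∀ i j, e i z = e j z) {y : G} {i : Bool} (hy : y ∈ K i)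
    {j : Bool} {g : G} {α : A} (h : AltR K e j g α) :
    (∃ z, (∀ k, z ∈ K k) ∧ y * g = z ∧ e i y * α = e true z) ∨
      ∃ k, AltR K e k (y * g) (e i y * α) := by
  by_cases hy2 : y ∈ K (!i)
  · have hall := all_of_both hy hy2
    right
    refine ⟨j, ?_⟩
    rw [hag y hall i j]
    exact h.absorb he hall
  · by_cases hij : j = i
    · subst hij
      cases h with
      | one _ x a1 a2 =>
        have h1 : y * g ∈ K j := (K j).mul_mem hy a1
        by_cases h2 : y * g ∈ K (!j)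
        · left
          refine ⟨y * g, all_of_both h1 h2, rfl, ?_⟩
          rw [← he j y hy g a1]
          exact hag _ (all_of_both h1 h2) _ _
        · right
          refine ⟨j, ?_⟩
          rw [← he j y hy g a1]
          exact AltR.one j _ h1 h2
      | cons _ x g α a1 a2 h3 =>
        have h1 : y * x ∈ K j := (K j).mul_mem hy a1
        right
        rw [← mul_assoc, ← mul_assoc, ← he j y hy x a1]
        by_cases h2 : y * x ∈ K (!j)
        · have hall := all_of_both h1 h2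
          refine ⟨!j, ?_⟩
          rw [hag _ hall j (!j)]
          exact h3.absorb he hall
        · exact ⟨j, AltR.cons j _ g α h1 h2 h3⟩
    · have hj : j = !i := by
        cases i <;> cases j <;> simp_all
      subst hj
      right
      exact ⟨i, AltR.cons i y g α hy hy2 h⟩

end Ping

theorem isAmalgam_of_pingpong {G : Type} [Group G] {K₁ K₂ : Subgroup G} (hgen : K₁ ⊔ K₂ = ⊤)
    {Y : Type} (a : G →* Equiv.Perm Y) (X₁ X₂ : Set Y) (hd : Disjoint X₁ X₂)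
    (hne : X₂.Nonempty) (h₁ : ∀ g ∈ K₁, g ∉ K₂ → ∀ y ∈ X₂, a g y ∈ X₁)
    (h₂ : ∀ g ∈ K₂, g ∉ K₁ → ∀ y ∈ X₁, a g y ∈ X₂)
    (h₃ : ∀ g ∈ K₁, g ∈ K₂ → ∀ y ∈ X₁, a g y ∈ X₁)
    (h₄ : ∀ g ∈ K₁, g ∈ K₂ → ∀ y ∈ X₂, a g y ∈ X₂)
    (h₅ : ∀ g ∈ K₁, ∃ k ∈ K₁, k ∉ K₂ ∧ k⁻¹ * g ∉ K₂) : IsAmalgam K₁ K₂ := by
  classical
  obtain ⟨K, hKt, hKf⟩ : ∃ K : Bool → Subgroup G, K true = K₁ ∧ K false = K₂ :=
    ⟨fun b => cond b K₁ K₂, rfl, rfl⟩
  obtain ⟨X, hXt, hXf⟩ : ∃ X : Bool → Set Y, X true = X₁ ∧ X false = X₂ :=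
    ⟨fun b => cond b X₁ X₂, rfl, rfl⟩
  have hX : ∀ i, ∀ x ∈ K i, x ∉ K (!i) → ∀ y ∈ X (!i), a x y ∈ X i := by
    intro i
    cases i
    · show ∀ x ∈ K false, x ∉ K true → ∀ y ∈ X true, a x y ∈ X false
      rw [hKt, hKf, hXt, hXf]
      exact h₂
    · show ∀ x ∈ K true, x ∉ K false → ∀ y ∈ X false, a x y ∈ X true
      rw [hKt, hKf, hXt, hXf]
      exact h₁
  obtain ⟨y₂, hy₂⟩ := hne
  obtain ⟨k₁, hk₁, hk₁', -⟩ := h₅ 1 K₁.one_mem
  have hy₁ : a k₁ y₂ ∈ X₁ := h₁ k₁ hk₁ hk₁' y₂ hy₂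
  have hdis : ∀ y, y ∈ X₁ → y ∈ X₂ → False := fun y h h' => Set.disjoint_left.1 hd h h'
  -- even length, first letter in `K₁`
  have htf : ∀ g, PAlt K true false g → g ≠ 1 := by
    intro g hg h1
    cases hg with
    | cons _ _ x g b1 b2 h3 =>
      rw [hKt] at b1
      obtain ⟨k, c1, c2, c3⟩ := h₅ x b1
      have d1 : a k y₂ ∈ X true := by
        rw [hXt]
        exact h₁ k c1 c2 y₂ hy₂
      have d2 : a g (a k y₂) ∈ X₂ := by
        have := h3.play (a := a) hX (a k y₂) d1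
        rw [Bool.not_true, hXf] at this
        exact this
      have d3 : a (k⁻¹ * x) (a g (a k y₂)) ∈ X₁ :=
        h₁ _ (K₁.mul_mem (K₁.inv_mem c1) b1) c3 _ d2
      have d4 : a (k⁻¹ * x) (a g (a k y₂)) = y₂ := by
        rw [← Equiv.Perm.mul_apply, ← Equiv.Perm.mul_apply, ← map_mul, ← map_mul]
        have d5 : k⁻¹ * x * g * k = 1 := by
          rw [mul_assoc k⁻¹ x g, h1, mul_one, inv_mul_cancel]
        rw [d5, map_one]
        rfl
      rw [d4] at d3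
      exact hdis _ d3 hy₂
  have hno : ∀ i j g, PAlt K i j g → g ≠ 1 := by
    intro i j g hg h1
    cases i <;> cases j
    · have h2 := hg.play (a := a) hX (a k₁ y₂)
      rw [Bool.not_false, hXt, hXf, h1, map_one] at h2
      exact hdis _ hy₁ (h2 hy₁)
    · exact htf g⁻¹ hg.inv (by rw [h1, inv_one])
    · exact htf g hg h1
    · have h2 := hg.play (a := a) hX y₂
      rw [Bool.not_true, hXt, hXf, h1, map_one] at h2
      exact hdis _ (h2 hy₂) hy₂
  refine ⟨hgen, ?_⟩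
  intro A _ f₁ f₂ hf
  obtain ⟨E₁, hE₁⟩ : ∃ E : G → A, ∀ (g : G) (h : g ∈ K₁), E g = f₁ ⟨g, h⟩ :=
    ⟨fun g => if h : g ∈ K₁ then f₁ ⟨g, h⟩ else 1, fun g h => dif_pos h⟩
  obtain ⟨E₂, hE₂⟩ : ∃ E : G → A, ∀ (g : G) (h : g ∈ K₂), E g = f₂ ⟨g, h⟩ :=
    ⟨fun g => if h : g ∈ K₂ then f₂ ⟨g, h⟩ else 1, fun g h => dif_pos h⟩
  obtain ⟨e, het, hef⟩ : ∃ e : Bool → G → A, e true = E₁ ∧ e false = E₂ :=
    ⟨fun b => cond b E₁ E₂, rfl, rfl⟩
  have he : ∀ i, ∀ x ∈ K i, ∀ y ∈ K i, e i (x * y) = e i x * e i y := by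
    intro i x hx y hy
    cases i
    · rw [hKf] at hx hy
      rw [hef, hE₂ _ (K₂.mul_mem hx hy), hE₂ _ hx, hE₂ _ hy, ← map_mul]
      rfl
    · rw [hKt] at hx hy
      rw [het, hE₁ _ (K₁.mul_mem hx hy), hE₁ _ hx, hE₁ _ hy, ← map_mul]
      rfl
  have hag0 : ∀ z, (∀ k, z ∈ K k) → e true z = e false z := by
    intro z hz
    have z1 := hz true
    have z2 := hz false
    rw [hKt] at z1
    rw [hKf] at z2
    rw [het, hef, hE₁ _ z1, hE₂ _ z2]
    exact hf z z1 z2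
  have hag : ∀ z, (∀ k, z ∈ K k) → ∀ i j, e i z = e j z := by
    intro z hz i j
    cases i <;> cases j
    · rfl
    · exact (hag0 z hz).symm
    · exact hag0 z hz
    · rfl
  have heone : e true 1 = 1 := by
    rw [het, hE₁ 1 K₁.one_mem]
    exact map_one f₁
  obtain ⟨Ψ, hΨ1, hΨ2⟩ : ∃ Ψ : Monoid.Coprod K₁ K₂ →* G,
      (∀ x, Ψ (Monoid.Coprod.inl x) = x) ∧ (∀ x, Ψ (Monoid.Coprod.inr x) = x) :=
    ⟨Monoid.Coprod.lift K₁.subtype K₂.subtype, fun x => Monoid.Coprod.lift_apply_inl _ _ x,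
      fun x => Monoid.Coprod.lift_apply_inr _ _ x⟩
  obtain ⟨F, hF1, hF2⟩ : ∃ F : Monoid.Coprod K₁ K₂ →* A,
      (∀ x, F (Monoid.Coprod.inl x) = f₁ x) ∧ (∀ x, F (Monoid.Coprod.inr x) = f₂ x) :=
    ⟨Monoid.Coprod.lift f₁ f₂, fun x => Monoid.Coprod.lift_apply_inl _ _ x,
      fun x => Monoid.Coprod.lift_apply_inr _ _ x⟩
  have hstep : ∀ (i : Bool) (y : G), y ∈ K i → ∀ (g : G) (α : A),
      ((∃ z, (∀ k, z ∈ K k) ∧ g = z ∧ α = e true z) ∨ ∃ k, AltR K e k g α) →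
      ((∃ z, (∀ k, z ∈ K k) ∧ y * g = z ∧ e i y * α = e true z) ∨
        ∃ k, AltR K e k (y * g) (e i y * α)) := by
    intro i y hy g α h
    rcases h with ⟨z, hz, rfl, rfl⟩ | ⟨k, hk⟩
    · have h1 : y * g ∈ K i := (K i).mul_mem hy (hz i)
      have h2 : e i y * e true g = e i (y * g) := by
        rw [he i y hy g (hz i), hag g hz true i]
      rw [h2]
      by_cases h3 : y * g ∈ K (!i)
      · left
        exact ⟨y * g, all_of_both h1 h3, rfl, hag _ (all_of_both h1 h3) _ _⟩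
      · right
        exact ⟨i, AltR.one i _ h1 h3⟩
    · exact AltR.step he hag hy hk
  have hall : ∀ x : Monoid.Coprod K₁ K₂,
      (∃ z, (∀ k, z ∈ K k) ∧ Ψ x = z ∧ F x = e true z) ∨ ∃ k, AltR K e k (Ψ x) (F x) := by
    intro x
    induction x using Monoid.Coprod.induction_on' with
    | one =>
      left
      refine ⟨1, fun k => (K k).one_mem, map_one _, ?_⟩
      rw [map_one, heone]
    | inl_mul m x ih =>
      have h1 := hstep true m (by rw [hKt]; exact m.2) _ _ ih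
      rw [map_mul, map_mul, hΨ1, hF1]
      rw [het, hE₁ _ m.2] at h1
      rw [het]
      exact h1
    | inr_mul m x ih =>
      have h1 := hstep false m (by rw [hKf]; exact m.2) _ _ ih
      rw [map_mul, map_mul, hΨ2, hF2]
      rw [hef, hE₂ _ m.2] at h1
      exact h1
  have hker : Ψ.ker ≤ F.ker := by
    intro x hx
    rw [MonoidHom.mem_ker] at hx ⊢
    rcases hall x with ⟨z, hz, h1, h2⟩ | ⟨k, hk⟩
    · rw [h2, ← h1, hx, heone]
    · obtain ⟨j, hj⟩ := hk.palt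
      exact (hno k j _ hj hx).elim
  have hsurj : Function.Surjective Ψ := by
    rw [← MonoidHom.range_eq_top, eq_top_iff, ← hgen]
    refine sup_le ?_ ?_
    · intro x hx
      exact ⟨Monoid.Coprod.inl ⟨x, hx⟩, hΨ1 _⟩
    · intro x hx
      exact ⟨Monoid.Coprod.inr ⟨x, hx⟩, hΨ2 _⟩
  obtain ⟨f, hfΨ⟩ : ∃ f : G →* A, ∀ x, f (Ψ x) = F x := by
    have hinv := Function.rightInverse_surjInv hsurj
    refine ⟨MonoidHom.liftOfRightInverse Ψ _ hinv ⟨F, hker⟩, fun x => ?_⟩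
    exact MonoidHom.liftOfRightInverse_comp_apply Ψ _ hinv ⟨F, hker⟩ x
  refine ⟨f, ?_, ?_⟩
  · intro k
    rw [← hΨ1 k, hfΨ, hF1]
  · intro k
    rw [← hΨ2 k, hfΨ, hF2]

end Emt
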