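import Pool.Agent.Emt.GLDefs
import Pool.Agent.Emt.Ping

/-!
# Emt, module GLA: `GL₂(D)` is the amalgam of `KV` and `KE`

`r = ‖π‖⁻¹ > 1`.  `X₁ = {v ≠ 0 | ‖v 0‖ ≤ ‖v 1‖}`, `X₂ = {v | ‖v 1‖ < ‖v 0‖}`.
PROOFS.
* `n₁_of_mem₂`: `v ∈ X₂`: `n₀ v = ‖v 0‖`, and `‖v 1‖ ≤ ‖π‖ ‖v 0‖` (apply `IsUnif.le` to
  `v 1 * (v 0)⁻¹`), so `n₁ v = ‖v 0‖ = n₀ v`.  `n₁_of_mem₁`: `v ∈ X₁`: `n₀ v = ‖v 1‖`,
  `n₁ v = r ‖v 1‖ = r n₀ v`.  As `r > 1` and every `v ≠ 0` is in exactly one of `X₁`, `X₂`, the ratio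
  `n₁ v / n₀ v` (`1` or `r`) decides.
* `ping₁`: let `g ∈ KV`, `n₀ (g v) = c n₀ v`, entries `a, b, c', d`.  With `v = (1, 0)`:
  `max ‖a‖ ‖c'‖ = c`; with `v = (0, 1)`: `max ‖b‖ ‖d‖ = c`.
  If `‖c'‖ = c` then for `v ∈ X₂`: `‖c' v 0‖ = c ‖v 0‖ > ‖d v 1‖`, so `‖(g v) 1‖ = c ‖v 0‖ = n₀ (g v)` and
  `g v ∈ X₁` (ultrametric inequality, `IsUltrametricDist`, norm of a sum with different norms).
  If `‖c'‖ < c` then `‖a‖ = c`, and for `v ∈ X₂`: `‖(g v) 1‖ < c ‖v 0‖` and `‖(g v) 0‖ = c ‖v 0‖`, so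
  `g v ∈ X₂`.  CLAIM: in this case `g ∈ KE` (first alternative).  `g⁻¹ ∈ KV` also belongs to one of the two
  cases; if `g⁻¹` were in the first case then `g⁻¹ X₂ ⊆ X₁`, but for `v ∈ X₂` `g v ∈ X₂` and
  `g⁻¹ (g v) = v ∈ X₂`, a contradiction; so `g⁻¹ X₂ ⊆ X₂`, hence `g X₁ ⊆ X₁`.  So `g` preserves the
  ratio `n₁ / n₀`, and `n₁ (g v) = c n₁ v`.  So for `g ∈ KV`, `g ∉ KE` one has `g X₂ ⊆ X₁`.
* `ping₂`: let `g ∈ KE`.  If the second alternative holds, `n₁ (g v) / n₀ (g v) = r n₀ v / n₁ v`, so `g`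
  exchanges `X₁` and `X₂`.  If the first holds `g ∈ KV` and `g` preserves `X₁` and `X₂`.  In the second
  case `g ∉ KV` (`n₀` and `n₁` are not proportional).
* `h₅`: `w = (0 1; 1 0)` and `w' = (1 0; 1 1)` are in `KV` and map `(1, 0) ∈ X₂` to
  `(0, 1)`, `(1, 1) ∈ X₁`, so they are not in `KE` (elements of `KV ⊓ KE` preserve `X₂`), and
  `w⁻¹ w' = (1 1; 1 0)` maps `(1, 0)` to `(1, 1)`, so it is not in `KE`.  Given `g ∈ KV`: if
  `w⁻¹ g ∉ KE` take `k = w`; otherwise `w'⁻¹ g = (w'⁻¹ w) (w⁻¹ g) ∉ KE`, take `k = w'`.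
* `gen_GL2`: `KV ⊔ KE = ⊤`.  The subgroup `L = KV ⊔ KE` contains `w`, the elements `diag(a, b)` with
  `‖a‖ = ‖b‖` (in `KV`), `τ = (0 1; π 0)` (in `KE`, second alternative with `c = ‖π‖`:
  `τ v = (v 1, π v 0)`), so `diag(π, 1) = w⁻¹ τ ∈ L`, hence all `diag(a, b)`, `a, b ≠ 0` (the value
  group of `D` is generated by `‖π‖`: for `x ≠ 0` there is `n ∈ ℤ` with `‖x‖ = ‖π‖ ^ n`, from
  `IsUnif.le`), all upper triangular unipotent matrices `(1 x; 0 1) =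
  diag(x, 1) (1 1; 0 1) diag(x, 1)⁻¹` (`x ≠ 0`), and their conjugates by `w`, so everything (Gaussian
  elimination: if the entry `g 1 0 ≠ 0` then `g` is a product of an upper triangular unipotent matrix, a
  diagonal matrix times `w`, and an upper triangular unipotent one; if `g 1 0 = 0` then `g` is upper
  triangular).
* `isAmalgam_GL2`: `isAmalgam_of_pingpong` with `Y = Fin 2 → D`.
-/

open Topology Set

namespace Emt

variable {D : Type} [NormedDivisionRing D] [IsUltrametricDist D] {π : D}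

theorem IsUnif.inv_pos (hπ : IsUnif π) : 0 < ‖π‖⁻¹ :=
  _root_.inv_pos.2 (norm_pos_iff.2 hπ.ne)


namespace GLA

omit [IsUltrametricDist D] in
theorem r_gt (hπ : IsUnif π) : 1 < ‖π‖⁻¹ := (one_lt_inv₀ (norm_pos_iff.2 hπ.ne)).2 hπ.lt

/-- the vectors with the large second coordinate -/
def X1 (D : Type) [NormedDivisionRing D] : Set (Fin 2 → D) := {v | v ≠ 0 ∧ ‖v 0‖ ≤ ‖v 1‖}

/-- the vectors with the large first coordinate -/
def X2 (D : Type) [NormedDivisionRing D] : Set (Fin 2 → D) := {v | ‖v 1‖ < ‖v 0‖}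

omit [IsUltrametricDist D] in
theorem n0_pos {v : Fin 2 → D} (hv : v ≠ 0) : 0 < n₀ v := by
  by_contra h
  rw [not_lt] at h
  apply hv
  funext i
  have h0 : ‖v 0‖ ≤ 0 := (le_max_left _ _).trans h
  have h1 : ‖v 1‖ ≤ 0 := (le_max_right _ _).trans h
  fin_cases i
  · exact norm_le_zero_iff.1 h0
  · exact norm_le_zero_iff.1 h1

omit [IsUltrametricDist D] in
theorem X2_ne {v : Fin 2 → D} (hv : v ∈ X2 D) : v ≠ 0 := by
  rintro rfl
  have : ‖(0 : D)‖ < ‖(0 : D)‖ := hv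
  exact lt_irrefl _ this

omit [IsUltrametricDist D] in
theorem mem12 {v : Fin 2 → D} (hv : v ≠ 0) : v ∈ X1 D ∨ v ∈ X2 D := by
  rcases le_or_gt ‖v 0‖ ‖v 1‖ with h | h
  · exact Or.inl ⟨hv, h⟩
  · exact Or.inr h

omit [IsUltrametricDist D] in
theorem not_both {v : Fin 2 → D} (h1 : v ∈ X1 D) (h2 : v ∈ X2 D) : False :=
  absurd h1.2 (not_le.2 h2)

omit [IsUltrametricDist D] in
theorem n0_X2 {v : Fin 2 → D} (hv : v ∈ X2 D) : n₀ v = ‖v 0‖ := max_eq_left (le_of_lt hv)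

omit [IsUltrametricDist D] in
theorem n1_X2 (hπ : IsUnif π) {v : Fin 2 → D} (hv : v ∈ X2 D) : n₁ ‖π‖⁻¹ v = n₀ v := by
  have hlt : ‖v 1‖ < ‖v 0‖ := hv
  have h0 : 0 < ‖v 0‖ := (norm_nonneg _).trans_lt hlt
  have h1 : ‖v 1 * (v 0)⁻¹‖ < 1 := by
    rw [norm_mul, norm_inv, ← div_eq_mul_inv, div_lt_one h0]
    exact hlt
  have h2 := hπ.le _ h1
  rw [norm_mul, norm_inv, ← div_eq_mul_inv, div_le_iff₀ h0] at h2
  rw [n0_X2 hv]
  unfold n₁
  apply max_eq_left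
  rw [inv_mul_le_iff₀ (norm_pos_iff.2 hπ.ne)]
  exact h2

omit [IsUltrametricDist D] in
theorem n1_X1 (hπ : IsUnif π) {v : Fin 2 → D} (hv : v ∈ X1 D) :
    n₁ ‖π‖⁻¹ v = ‖π‖⁻¹ * n₀ v := by
  have h1 := hv.2
  have h2 : n₀ v = ‖v 1‖ := max_eq_right h1
  rw [h2]
  unfold n₁
  apply max_eq_right
  have h3 := r_gt hπ
  nlinarith [norm_nonneg (v 1)]

omit [IsUltrametricDist D] in
theorem X2_of (hπ : IsUnif π) {v : Fin 2 → D} (hv : v ≠ 0) (h : n₁ ‖π‖⁻¹ v = n₀ v) :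
    v ∈ X2 D := by
  rcases mem12 hv with h1 | h1
  · exfalso
    rw [n1_X1 hπ h1] at h
    have h3 := r_gt hπ
    have h4 := n0_pos hv
    nlinarith
  · exact h1

omit [IsUltrametricDist D] in
theorem X1_of (hπ : IsUnif π) {v : Fin 2 → D} (hv : v ≠ 0)
    (h : n₁ ‖π‖⁻¹ v = ‖π‖⁻¹ * n₀ v) : v ∈ X1 D := by
  rcases mem12 hv with h1 | h1
  · exact h1
  · exfalso
    rw [n1_X2 hπ h1] at h
    have h3 := r_gt hπ
    have h4 := n0_pos hv
    nlinarith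

omit [IsUltrametricDist D] in
theorem vact_zero (g : GL2 D) : vact g 0 = 0 := by
  unfold vact
  rw [Matrix.mulVec_zero]

omit [IsUltrametricDist D] in
theorem vact_ne (g : GL2 D) {v : Fin 2 → D} (hv : v ≠ 0) : vact g v ≠ 0 := by
  intro h
  apply hv
  rw [← vact_inv' g v, h, vact_zero]

omit [IsUltrametricDist D] in
theorem n0_zero : n₀ (0 : Fin 2 → D) = 0 := by
  simp [n₀]

omit [IsUltrametricDist D] in
theorem n1_zero (r : ℝ) : n₁ r (0 : Fin 2 → D) = 0 := by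
  simp [n₁]

/-- first alternative -/
def Fst (r : ℝ) (g : GL2 D) : Prop :=
  ∃ c : ℝ, 0 < c ∧ ∀ v, n₀ (vact g v) = c * n₀ v ∧ n₁ r (vact g v) = c * n₁ r v

/-- second alternative -/
def Snd (r : ℝ) (g : GL2 D) : Prop :=
  ∃ c : ℝ, 0 < c ∧ ∀ v, n₀ (vact g v) = c * n₁ r v ∧ n₁ r (vact g v) = c * r * n₀ v

omit [IsUltrametricDist D] in
theorem mem_KE {r : ℝ} {hr : 0 < r} {g : GL2 D} : g ∈ KE D r hr ↔ Fst r g ∨ Snd r g := Iff.rfl

omit [IsUltrametricDist D] in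
theorem mem_KV {g : GL2 D} : g ∈ KV D ↔ ∃ c : ℝ, 0 < c ∧ ∀ v, n₀ (vact g v) = c * n₀ v :=
  Iff.rfl

omit [IsUltrametricDist D] in
theorem fst_KV {r : ℝ} {g : GL2 D} (h : Fst r g) : g ∈ KV D := by
  obtain ⟨c, hc, h1⟩ := h
  exact mem_KV.2 ⟨c, hc, fun v => (h1 v).1⟩

omit [IsUltrametricDist D] in
theorem fst_X2 (hπ : IsUnif π) {g : GL2 D} (h : Fst ‖π‖⁻¹ g) {v : Fin 2 → D} (hv : v ∈ X2 D) :
    vact g v ∈ X2 D := by
  obtain ⟨c, hc, h1⟩ := h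
  apply X2_of hπ (vact_ne g (X2_ne hv))
  rw [(h1 v).1, (h1 v).2, n1_X2 hπ hv]

omit [IsUltrametricDist D] in
theorem fst_X1 (hπ : IsUnif π) {g : GL2 D} (h : Fst ‖π‖⁻¹ g) {v : Fin 2 → D} (hv : v ∈ X1 D) :
    vact g v ∈ X1 D := by
  obtain ⟨c, hc, h1⟩ := h
  apply X1_of hπ (vact_ne g hv.1)
  rw [(h1 v).1, (h1 v).2, n1_X1 hπ hv]
  ring

omit [IsUltrametricDist D] in
theorem snd_X1 (hπ : IsUnif π) {g : GL2 D} (h : Snd ‖π‖⁻¹ g) {v : Fin 2 → D} (hv : v ∈ X1 D) :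
    vact g v ∈ X2 D := by
  obtain ⟨c, hc, h1⟩ := h
  apply X2_of hπ (vact_ne g hv.1)
  rw [(h1 v).1, (h1 v).2, n1_X1 hπ hv]
  ring

omit [IsUltrametricDist D] in
theorem n0_e0 : n₀ (![1, 0] : Fin 2 → D) = 1 := by
  simp [n₀]

omit [IsUltrametricDist D] in
theorem n0_e1 : n₀ (![0, 1] : Fin 2 → D) = 1 := by
  simp [n₀]

omit [IsUltrametricDist D] in
theorem e0_mem : (![1, 0] : Fin 2 → D) ∈ X2 D := by
  show ‖(![1, 0] : Fin 2 → D) 1‖ < ‖(![1, 0] : Fin 2 → D) 0‖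
  simp

omit [IsUltrametricDist D] in
theorem e1_mem : (![0, 1] : Fin 2 → D) ∈ X1 D := by
  refine ⟨?_, ?_⟩
  · intro h
    have := congrFun h 1
    simp at this
  · simp

theorem KVE_fst (hπ : IsUnif π) {g : GL2 D} (h1 : g ∈ KV D)
    (h2 : g ∈ KE D ‖π‖⁻¹ hπ.inv_pos) : Fst ‖π‖⁻¹ g := by
  rcases mem_KE.1 h2 with h | ⟨c, hc, h⟩
  · exact h
  · exfalso
    obtain ⟨d, hd, h3⟩ := mem_KV.1 h1
    have e0 := (h ![1, 0]).1
    have e1 := (h ![0, 1]).1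
    rw [h3, n0_e0, n1_X2 hπ e0_mem, n0_e0] at e0
    rw [h3, n0_e1, n1_X1 hπ e1_mem, n0_e1] at e1
    have h4 := r_gt hπ
    have h5 : d = c := by linarith
    rw [h5] at e1
    nlinarith

theorem KV_dich {g : GL2 D} (h : g ∈ KV D) :
    (∀ v ∈ X2 D, vact g v ∈ X1 D) ∨ (∀ v ∈ X2 D, vact g v ∈ X2 D) := by
  obtain ⟨c, hc, hg⟩ := mem_KV.1 h
  obtain ⟨A, hA⟩ : ∃ A, A = (g : Matrix (Fin 2) (Fin 2) D) 1 0 := ⟨_, rfl⟩
  obtain ⟨B, hB⟩ : ∃ B, B = (g : Matrix (Fin 2) (Fin 2) D) 1 1 := ⟨_, rfl⟩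
  have hs : ∀ v, vact g v 1 = A * v 0 + B * v 1 := by
    intro v
    rw [vact_snd, hA, hB]
  have hA1 : ‖A‖ ≤ c := by
    have h1 := hg ![1, 0]
    rw [n0_e0, mul_one] at h1
    have h2 : ‖vact g ![1, 0] 1‖ ≤ n₀ (vact g ![1, 0]) := le_max_right _ _
    rw [h1, hs] at h2
    simpa using h2
  have hB1 : ‖B‖ ≤ c := by
    have h1 := hg ![0, 1]
    rw [n0_e1, mul_one] at h1
    have h2 : ‖vact g ![0, 1] 1‖ ≤ n₀ (vact g ![0, 1]) := le_max_right _ _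
    rw [h1, hs] at h2
    simpa using h2
  rcases hA1.eq_or_lt with hAc | hAc
  · left
    intro v hv
    have hlt : ‖v 1‖ < ‖v 0‖ := hv
    refine ⟨vact_ne g (X2_ne hv), ?_⟩
    have h1 : ‖A * v 0‖ = c * ‖v 0‖ := by rw [norm_mul, hAc]
    have h2 : ‖B * v 1‖ < ‖A * v 0‖ := by
      rw [h1, norm_mul]
      calc ‖B‖ * ‖v 1‖ ≤ c * ‖v 1‖ := by gcongr
        _ < c * ‖v 0‖ := by gcongr
    have h3 : ‖vact g v 1‖ = c * ‖v 0‖ := by
      rw [hs, IsUltrametricDist.norm_add_eq_max_of_norm_ne_norm h2.ne', max_eq_left h2.le, h1]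
    have h4 : ‖vact g v 0‖ ≤ n₀ (vact g v) := le_max_left _ _
    rw [hg, n0_X2 hv] at h4
    rw [h3]
    exact h4
  · right
    intro v hv
    have hlt : ‖v 1‖ < ‖v 0‖ := hv
    have h0 : 0 < ‖v 0‖ := (norm_nonneg _).trans_lt hlt
    have h1 : ‖vact g v 1‖ < c * ‖v 0‖ := by
      rw [hs]
      refine (IsUltrametricDist.norm_add_le_max _ _).trans_lt (max_lt ?_ ?_)
      · rw [norm_mul]
        gcongr
      · rw [norm_mul]
        calc ‖B‖ * ‖v 1‖ ≤ c * ‖v 1‖ := by gcongr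
          _ < c * ‖v 0‖ := by gcongr
    have h2 := hg v
    rw [n0_X2 hv] at h2
    rw [← h2] at h1
    rcases lt_max_iff.1 h1 with h3 | h3
    · exact h3
    · exact absurd h3 (lt_irrefl _)

theorem KV_fst (hπ : IsUnif π) {g : GL2 D} (h : g ∈ KV D)
    (h2 : ∀ v ∈ X2 D, vact g v ∈ X2 D) : Fst ‖π‖⁻¹ g := by
  have h3 : ∀ v ∈ X2 D, vact g⁻¹ v ∈ X2 D := by
    rcases KV_dich ((KV D).inv_mem h) with h4 | h4
    · exfalso
      have h5 := h4 _ (h2 _ e0_mem)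
      rw [vact_inv'] at h5
      exact not_both h5 e0_mem
    · exact h4
  have h4 : ∀ v ∈ X1 D, vact g v ∈ X1 D := by
    intro v hv
    rcases mem12 (vact_ne g hv.1) with h5 | h5
    · exact h5
    · exfalso
      have h6 := h3 _ h5
      rw [vact_inv'] at h6
      exact not_both hv h6
  obtain ⟨c, hc, hg⟩ := mem_KV.1 h
  refine ⟨c, hc, fun v => ⟨hg v, ?_⟩⟩
  by_cases hv : v = 0
  · rw [hv, vact_zero, n1_zero, mul_zero]
  · rcases mem12 hv with h5 | h5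
    · rw [n1_X1 hπ (h4 v h5), n1_X1 hπ h5, hg]
      ring
    · rw [n1_X2 hπ (h2 v h5), n1_X2 hπ h5, hg]

/-- the action -/
def act (D : Type) [NormedDivisionRing D] : GL2 D →* Equiv.Perm (Fin 2 → D) where
  toFun g := ⟨vact g, vact g⁻¹, vact_inv' g, vact_inv g⟩
  map_one' := by
    apply Equiv.ext
    intro v
    exact vact_one v
  map_mul' g h := by
    apply Equiv.ext
    intro v
    exact vact_mul g h v

/-- the permutation matrix -/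
def ww (D : Type) [NormedDivisionRing D] : GL2 D where
  val := !![0, 1; 1, 0]
  inv := !![0, 1; 1, 0]
  val_inv := by
    ext i j
    fin_cases i <;> fin_cases j <;> simp
  inv_val := by
    ext i j
    fin_cases i <;> fin_cases j <;> simp

/-- upper triangular unipotent matrices -/
def uu (x : D) : GL2 D where
  val := !![1, x; 0, 1]
  inv := !![1, -x; 0, 1]
  val_inv := by
    ext i j
    fin_cases i <;> fin_cases j <;> simp
  inv_val := by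
    ext i j
    fin_cases i <;> fin_cases j <;> simp

/-- the element of `KE` which exchanges the vertices -/
def tt (hπ : IsUnif π) : GL2 D where
  val := !![0, 1; π, 0]
  inv := !![0, π⁻¹; 1, 0]
  val_inv := by
    have := hπ.ne
    ext i j
    fin_cases i <;> fin_cases j <;> simp [this]
  inv_val := by
    have := hπ.ne
    ext i j
    fin_cases i <;> fin_cases j <;> simp [this]

/-- the diagonal matrices with entries `a`, `1` -/
def dm (D : Type) [NormedDivisionRing D] : D →* Matrix (Fin 2) (Fin 2) D where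
  toFun a := !![a, 0; 0, 1]
  map_one' := by
    ext i j
    fin_cases i <;> fin_cases j <;> simp
  map_mul' a b := by
    ext i j
    fin_cases i <;> fin_cases j <;> simp

omit [IsUltrametricDist D] in
theorem vact_ww (v : Fin 2 → D) : vact (ww D) v = ![v 1, v 0] := by
  funext i
  fin_cases i
  · show vact (ww D) v 0 = v 1
    rw [vact_fst]
    simp [ww]
  · show vact (ww D) v 1 = v 0
    rw [vact_snd]
    simp [ww]

omit [IsUltrametricDist D] in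
theorem vact_uu (x : D) (v : Fin 2 → D) : vact (uu x) v = ![v 0 + x * v 1, v 1] := by
  funext i
  fin_cases i
  · show vact (uu x) v 0 = v 0 + x * v 1
    rw [vact_fst]
    simp [uu]
  · show vact (uu x) v 1 = v 1
    rw [vact_snd]
    simp [uu]

omit [IsUltrametricDist D] in
theorem vact_tt (hπ : IsUnif π) (v : Fin 2 → D) : vact (tt hπ) v = ![v 1, π * v 0] := by
  funext i
  fin_cases i
  · show vact (tt hπ) v 0 = v 1
    rw [vact_fst]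
    simp [tt]
  · show vact (tt hπ) v 1 = π * v 0
    rw [vact_snd]
    simp [tt]

omit [IsUltrametricDist D] in
theorem vact_dm (u : Dˣ) (v : Fin 2 → D) :
    vact (Units.map (dm D) u) v = ![(u : D) * v 0, v 1] := by
  funext i
  fin_cases i
  · show vact (Units.map (dm D) u) v 0 = (u : D) * v 0
    rw [vact_fst]
    simp [dm]
  · show vact (Units.map (dm D) u) v 1 = v 1
    rw [vact_snd]
    simp [dm]

omit [IsUltrametricDist D] in
theorem ww_KV : ww D ∈ KV D := by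
  refine mem_KV.2 ⟨1, one_pos, fun v => ?_⟩
  rw [vact_ww, one_mul]
  exact max_comm _ _

theorem uu_KV : uu (1 : D) ∈ KV D := by
  refine mem_KV.2 ⟨1, one_pos, fun v => ?_⟩
  rw [vact_uu, one_mul, one_mul]
  show max ‖v 0 + v 1‖ ‖v 1‖ = max ‖v 0‖ ‖v 1‖
  apply le_antisymm
  · exact max_le (IsUltrametricDist.norm_add_le_max _ _) (le_max_right _ _)
  · refine max_le ?_ (le_max_right _ _)
    have h1 := IsUltrametricDist.norm_add_le_max (v 0 + v 1) (-v 1)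
    rwa [add_neg_cancel_right, norm_neg] at h1

omit [IsUltrametricDist D] in
theorem dm_KV {u : Dˣ} (hu : ‖(u : D)‖ = 1) : Units.map (dm D) u ∈ KV D := by
  refine mem_KV.2 ⟨1, one_pos, fun v => ?_⟩
  rw [vact_dm, one_mul]
  show max ‖(u : D) * v 0‖ ‖v 1‖ = max ‖v 0‖ ‖v 1‖
  rw [norm_mul, hu, one_mul]

theorem tt_KE (hπ : IsUnif π) : tt hπ ∈ KE D ‖π‖⁻¹ hπ.inv_pos := by
  have hp : 0 < ‖π‖ := norm_pos_iff.2 hπ.ne
  refine mem_KE.2 (Or.inr ⟨‖π‖, hp, fun v => ⟨?_, ?_⟩⟩)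
  · rw [vact_tt]
    show max ‖v 1‖ ‖π * v 0‖ = ‖π‖ * max ‖v 0‖ (‖π‖⁻¹ * ‖v 1‖)
    rw [mul_max_of_nonneg _ _ hp.le, norm_mul, mul_inv_cancel_left₀ hp.ne', max_comm]
  · rw [vact_tt]
    show max ‖v 1‖ (‖π‖⁻¹ * ‖π * v 0‖) = ‖π‖ * ‖π‖⁻¹ * max ‖v 0‖ ‖v 1‖
    rw [mul_inv_cancel₀ hp.ne', norm_mul, inv_mul_cancel_left₀ hp.ne', one_mul, max_comm]

omit [IsUltrametricDist D] in
theorem exists_pow (hπ : IsUnif π) {x : D} (hx : x ≠ 0) : ∃ n : ℤ, ‖π ^ n * x‖ = 1 := by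
  have hp : 0 < ‖π‖ := norm_pos_iff.2 hπ.ne
  have hx0 : 0 < ‖x‖ := norm_pos_iff.2 hx
  obtain ⟨n, hn1, hn2⟩ := exists_mem_Ico_zpow hx0 (r_gt hπ)
  refine ⟨n, ?_⟩
  have hpn : 0 < ‖π‖ ^ n := zpow_pos hp n
  have h1 : 1 ≤ ‖π ^ n * x‖ := by
    rw [norm_mul, norm_zpow]
    rw [inv_zpow, inv_le_iff_one_le_mul₀' hpn] at hn1
    exact hn1
  have h2 : ‖π ^ n * x‖ < ‖π‖⁻¹ := by
    rw [norm_mul, norm_zpow]
    rw [inv_zpow, zpow_add_one₀ hp.ne', mul_inv, ← div_eq_inv_mul, lt_div_iff₀ hpn,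
      mul_comm] at hn2
    exact hn2
  by_contra h3
  have h4 : 1 < ‖π ^ n * x‖ := lt_of_le_of_ne h1 (Ne.symm h3)
  have h5 : ‖(π ^ n * x)⁻¹‖ < 1 := by
    rw [norm_inv]
    exact inv_lt_one_of_one_lt₀ h4
  have h6 := hπ.le _ h5
  rw [norm_inv, inv_le_comm₀ (by linarith) hp] at h6
  linarith

omit [IsUltrametricDist D] in
theorem row0 (g : GL2 D) : ¬ ((g : Matrix (Fin 2) (Fin 2) D) 0 0 = 0 ∧
    (g : Matrix (Fin 2) (Fin 2) D) 0 1 = 0) := by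
  rintro ⟨h1, h2⟩
  have h3 := congrFun (vact_inv g ![1, 0]) 0
  rw [vact_fst, h1, h2] at h3
  simp at h3

omit [IsUltrametricDist D] in
theorem row1 (g : GL2 D) : ¬ ((g : Matrix (Fin 2) (Fin 2) D) 1 0 = 0 ∧
    (g : Matrix (Fin 2) (Fin 2) D) 1 1 = 0) := by
  rintro ⟨h1, h2⟩
  have h3 := congrFun (vact_inv g ![0, 1]) 1
  rw [vact_snd, h1, h2] at h3
  simp at h3

omit [IsUltrametricDist D] in
theorem col0 (g : GL2 D) : ¬ ((g : Matrix (Fin 2) (Fin 2) D) 0 0 = 0 ∧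
    (g : Matrix (Fin 2) (Fin 2) D) 1 0 = 0) := by
  rintro ⟨h1, h2⟩
  apply vact_ne g (X2_ne e0_mem : (![1, 0] : Fin 2 → D) ≠ 0)
  funext i
  fin_cases i
  · show vact g ![1, 0] 0 = 0
    rw [vact_fst, h1]
    simp
  · show vact g ![1, 0] 1 = 0
    rw [vact_snd, h2]
    simp

end GLA

open GLA in
theorem gla_gen (L : Subgroup (GL2 D)) (hw : ww D ∈ L) (hu : uu (1 : D) ∈ L)
    (hd : ∀ u : Dˣ, Units.map (dm D) u ∈ L) (g : GL2 D) : g ∈ L := by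
  have hun : ∀ x : D, uu x ∈ L := by
    intro x
    by_cases hx : x = 0
    · have e : uu x = 1 := by
        apply Units.ext
        rw [hx]
        ext i j
        fin_cases i <;> fin_cases j <;> simp [uu]
      rw [e]
      exact L.one_mem
    · have e : uu x = Units.map (dm D) (Units.mk0 x hx) * uu 1 *
          Units.map (dm D) (Units.mk0 x hx)⁻¹ := by
        apply Units.ext
        rw [Units.val_mul, Units.val_mul]
        ext i j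
        fin_cases i <;> fin_cases j <;> simp [uu, dm, hx]
      rw [e]
      exact L.mul_mem (L.mul_mem (hd _) hu) (hd _)
  have hdd : ∀ a b : Dˣ, Units.map (dm D) a * ww D * Units.map (dm D) b * ww D ∈ L :=
    fun a b => L.mul_mem (L.mul_mem (L.mul_mem (hd a) hw) (hd b)) hw
  obtain ⟨A, hA⟩ : ∃ A, A = (g : Matrix (Fin 2) (Fin 2) D) 0 0 := ⟨_, rfl⟩
  obtain ⟨B, hB⟩ : ∃ B, B = (g : Matrix (Fin 2) (Fin 2) D) 0 1 := ⟨_, rfl⟩
  obtain ⟨C, hC⟩ : ∃ C, C = (g : Matrix (Fin 2) (Fin 2) D) 1 0 := ⟨_, rfl⟩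
  obtain ⟨E, hE⟩ : ∃ E, E = (g : Matrix (Fin 2) (Fin 2) D) 1 1 := ⟨_, rfl⟩
  have hg : (g : Matrix (Fin 2) (Fin 2) D) = !![A, B; C, E] := by
    ext i j
    fin_cases i <;> fin_cases j
    · exact hA.symm
    · exact hB.symm
    · exact hC.symm
    · exact hE.symm
  by_cases hC0 : C = 0
  · have hA0 : A ≠ 0 := by
      intro h
      exact col0 g ⟨hA ▸ h, hC ▸ hC0⟩
    have hE0 : E ≠ 0 := by
      intro h
      exact row1 g ⟨hC ▸ hC0, hE ▸ h⟩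
    have e : g = Units.map (dm D) (Units.mk0 A hA0) * ww D *
        Units.map (dm D) (Units.mk0 E hE0) * ww D * uu (A⁻¹ * B) := by
      apply Units.ext
      rw [hg]
      simp only [Units.val_mul]
      ext i j
      fin_cases i <;> fin_cases j <;> simp [uu, dm, ww, hC0, hA0]
    rw [e]
    exact L.mul_mem (hdd _ _) (hun _)
  · have e1 : ((uu (-(A * C⁻¹)) * g : GL2 D) : Matrix (Fin 2) (Fin 2) D) =
        !![0, B - A * C⁻¹ * E; C, E] := by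
      rw [Units.val_mul, hg]
      ext i j
      fin_cases i <;> fin_cases j <;> simp [uu, hC0, sub_eq_add_neg, add_comm]
    have hF0 : B - A * C⁻¹ * E ≠ 0 := by
      intro h
      apply row0 (uu (-(A * C⁻¹)) * g)
      rw [e1]
      exact ⟨rfl, h⟩
    have e2 : uu (-(A * C⁻¹)) * g = Units.map (dm D) (Units.mk0 _ hF0) * ww D *
        Units.map (dm D) (Units.mk0 C hC0) * ww D * ww D * uu (C⁻¹ * E) := by
      apply Units.ext
      rw [e1]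
      simp only [Units.val_mul]
      ext i j
      fin_cases i <;> fin_cases j <;> simp [uu, dm, ww, hC0]
    have h3 : uu (-(A * C⁻¹)) * g ∈ L := by
      rw [e2]
      exact L.mul_mem (L.mul_mem (hdd _ _) hw) (hun _)
    have h4 : g = (uu (-(A * C⁻¹)))⁻¹ * (uu (-(A * C⁻¹)) * g) := by group
    rw [h4]
    exact L.mul_mem (L.inv_mem (hun _)) h3

theorem gen_GL2 (hπ : IsUnif π) : KV D ⊔ KE D ‖π‖⁻¹ hπ.inv_pos = ⊤ := by
  rw [eq_top_iff]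
  intro g _
  have hV : KV D ≤ KV D ⊔ KE D ‖π‖⁻¹ hπ.inv_pos := le_sup_left
  have hE : KE D ‖π‖⁻¹ hπ.inv_pos ≤ KV D ⊔ KE D ‖π‖⁻¹ hπ.inv_pos := le_sup_right
  refine gla_gen _ (hV GLA.ww_KV) (hV GLA.uu_KV) ?_ g
  have hpi : Units.map (GLA.dm D) (Units.mk0 π hπ.ne) ∈ KV D ⊔ KE D ‖π‖⁻¹ hπ.inv_pos := by
    have e : Units.map (GLA.dm D) (Units.mk0 π hπ.ne) = GLA.ww D * GLA.tt hπ := by
      apply Units.ext
      rw [Units.val_mul]
      ext i j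
      fin_cases i <;> fin_cases j <;> simp [GLA.dm, GLA.ww, GLA.tt]
    rw [e]
    exact Subgroup.mul_mem _ (hV GLA.ww_KV) (hE (GLA.tt_KE hπ))
  intro u
  obtain ⟨n, hn⟩ := GLA.exists_pow hπ u.ne_zero
  have h1 : u = (Units.mk0 π hπ.ne ^ n)⁻¹ * (Units.mk0 π hπ.ne ^ n * u) := by group
  have h2 : ‖((Units.mk0 π hπ.ne ^ n * u : Dˣ) : D)‖ = 1 := by
    rw [Units.val_mul, Units.val_zpow_eq_zpow_val]
    exact hn
  rw [h1, map_mul, map_inv, map_zpow]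
  exact Subgroup.mul_mem _ (Subgroup.inv_mem _ (Subgroup.zpow_mem _ hpi n)) (hV (GLA.dm_KV h2))

theorem isAmalgam_GL2 (hπ : IsUnif π) : IsAmalgam (KV D) (KE D ‖π‖⁻¹ hπ.inv_pos) := by
  have hw : GLA.ww D ∉ KE D ‖π‖⁻¹ hπ.inv_pos := by
    intro h
    have h1 := GLA.fst_X2 hπ (GLA.KVE_fst hπ GLA.ww_KV h) (GLA.e0_mem (D := D))
    rw [GLA.vact_ww] at h1
    have h2 : ‖(1 : D)‖ < ‖(0 : D)‖ := h1
    rw [norm_zero] at h2
    exact absurd h2 (not_lt.2 (norm_nonneg _))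
  have hKV' : GLA.ww D * GLA.uu (1 : D) * GLA.ww D ∈ KV D :=
    (KV D).mul_mem ((KV D).mul_mem GLA.ww_KV GLA.uu_KV) GLA.ww_KV
  have hbad : ∀ k : GL2 D, k ∈ KV D → vact k ![1, 0] = ![1, 1] →
      k ∉ KE D ‖π‖⁻¹ hπ.inv_pos := by
    intro k hk h0 h
    have h1 := GLA.fst_X2 hπ (GLA.KVE_fst hπ hk h) (GLA.e0_mem (D := D))
    rw [h0] at h1
    have h2 : ‖(1 : D)‖ < ‖(1 : D)‖ := h1
    exact lt_irrefl _ h2
  have hw' : GLA.ww D * GLA.uu (1 : D) * GLA.ww D ∉ KE D ‖π‖⁻¹ hπ.inv_pos := by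
    apply hbad _ hKV'
    rw [vact_mul, vact_mul, GLA.vact_ww, GLA.vact_uu, GLA.vact_ww]
    simp
  have hww : (GLA.ww D)⁻¹ * (GLA.ww D * GLA.uu (1 : D) * GLA.ww D) ∉
      KE D ‖π‖⁻¹ hπ.inv_pos := by
    have e : (GLA.ww D)⁻¹ * (GLA.ww D * GLA.uu (1 : D) * GLA.ww D) =
        GLA.uu (1 : D) * GLA.ww D := by group
    rw [e]
    apply hbad _ ((KV D).mul_mem GLA.uu_KV GLA.ww_KV)
    rw [vact_mul, GLA.vact_ww, GLA.vact_uu]
    simp
  refine isAmalgam_of_pingpong (gen_GL2 hπ) (GLA.act D) (GLA.X1 D) (GLA.X2 D) ?_ ?_ ?_ ?_ ?_ ?_ ?_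
  · rw [Set.disjoint_left]
    exact fun v h1 h2 => GLA.not_both h1 h2
  · exact ⟨_, GLA.e0_mem⟩
  · intro g h1 h2 v hv
    rcases GLA.KV_dich h1 with h3 | h3
    · exact h3 v hv
    · exact absurd (GLA.mem_KE.2 (Or.inl (GLA.KV_fst hπ h1 h3))) h2
  · intro g h1 h2 v hv
    rcases GLA.mem_KE.1 h1 with h3 | h3
    · exact absurd (GLA.fst_KV h3) h2
    · exact GLA.snd_X1 hπ h3 hv
  · intro g h1 h2 v hv
    exact GLA.fst_X1 hπ (GLA.KVE_fst hπ h1 h2) hv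
  · intro g h1 h2 v hv
    exact GLA.fst_X2 hπ (GLA.KVE_fst hπ h1 h2) hv
  · intro g hg
    by_cases h1 : (GLA.ww D)⁻¹ * g ∈ KE D ‖π‖⁻¹ hπ.inv_pos
    · refine ⟨GLA.ww D * GLA.uu (1 : D) * GLA.ww D, hKV', hw', fun h2 => hww ?_⟩
      have h3 := (KE D ‖π‖⁻¹ hπ.inv_pos).mul_mem h1
        ((KE D ‖π‖⁻¹ hπ.inv_pos).inv_mem h2)
      have e : (GLA.ww D)⁻¹ * g * ((GLA.ww D * GLA.uu (1 : D) * GLA.ww D)⁻¹ * g)⁻¹ =
          (GLA.ww D)⁻¹ * (GLA.ww D * GLA.uu (1 : D) * GLA.ww D) := by group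
      rwa [e] at h3
    · exact ⟨GLA.ww D, GLA.ww_KV, hw, h1⟩

end Emt
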