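import Pool.Agent.Emt.Defs

/-!
# Emt, module GLDefs: the group `GL₂(D)`, `D` a division algebra over `ℚ_p`

`D` is a division ring with a multiplicative ultrametric norm, finite dimensional over `ℚ_p`.
`π` is a uniformizer: `‖π‖ < 1` and `‖x‖ ≤ ‖π‖` for all `x` with `‖x‖ < 1`; `r = ‖π‖⁻¹`.
`n₀ v = max ‖v 0‖ ‖v 1‖` and `n₁ v = max ‖v 0‖ (r ‖v 1‖)` are the norms on `D²` corresponding to two
adjacent vertices of the tree; `KV` is the stabiliser of the homothety class of `n₀`, `KE` the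
stabiliser of the edge `{n₀, n₁}`.
-/

open Topology Set

namespace Emt

/-- `GL₂(D)`. -/
abbrev GL2 (D : Type) [NormedDivisionRing D] := (Matrix (Fin 2) (Fin 2) D)ˣ

section

variable {D : Type} [NormedDivisionRing D]

/-- The action of `GL₂(D)` on the column vectors. -/
def vact (g : GL2 D) (v : Fin 2 → D) : Fin 2 → D := (g : Matrix (Fin 2) (Fin 2) D).mulVec v

theorem vact_one (v : Fin 2 → D) : vact (1 : GL2 D) v = v := by
  unfold vact
  rw [Units.val_one, Matrix.one_mulVec]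

theorem vact_mul (g h : GL2 D) (v : Fin 2 → D) : vact (g * h) v = vact g (vact h v) := by
  unfold vact
  rw [Units.val_mul, Matrix.mulVec_mulVec]

theorem vact_inv (g : GL2 D) (v : Fin 2 → D) : vact g (vact g⁻¹ v) = v := by
  rw [← vact_mul, mul_inv_cancel, vact_one]

theorem vact_inv' (g : GL2 D) (v : Fin 2 → D) : vact g⁻¹ (vact g v) = v := by
  rw [← vact_mul, inv_mul_cancel, vact_one]

theorem vact_fst (g : GL2 D) (v : Fin 2 → D) :
    vact g v 0 = (g : Matrix (Fin 2) (Fin 2) D) 0 0 * v 0 +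
      (g : Matrix (Fin 2) (Fin 2) D) 0 1 * v 1 := by
  simp [vact, Matrix.mulVec, dotProduct, Fin.sum_univ_two]

theorem vact_snd (g : GL2 D) (v : Fin 2 → D) :
    vact g v 1 = (g : Matrix (Fin 2) (Fin 2) D) 1 0 * v 0 +
      (g : Matrix (Fin 2) (Fin 2) D) 1 1 * v 1 := by
  simp [vact, Matrix.mulVec, dotProduct, Fin.sum_univ_two]

/-- The norm of the first vertex. -/
noncomputable def n₀ (v : Fin 2 → D) : ℝ := max ‖v 0‖ ‖v 1‖

/-- The norm of the second vertex (`r = ‖π‖⁻¹`). -/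
noncomputable def n₁ (r : ℝ) (v : Fin 2 → D) : ℝ := max ‖v 0‖ (r * ‖v 1‖)

variable (D)

/-- The stabiliser of the first vertex. -/
def KV : Subgroup (GL2 D) where
  carrier := {g | ∃ c : ℝ, 0 < c ∧ ∀ v, n₀ (vact g v) = c * n₀ v}
  one_mem' := ⟨1, one_pos, fun v => by rw [vact_one, one_mul]⟩
  mul_mem' := by
    rintro g h ⟨c, hc, h1⟩ ⟨d, hd, h2⟩
    refine ⟨c * d, mul_pos hc hd, fun v => ?_⟩
    rw [vact_mul, h1, h2]
    ring
  inv_mem' := by
    rintro g ⟨c, hc, h1⟩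
    refine ⟨c⁻¹, inv_pos.2 hc, fun v => ?_⟩
    have h2 := h1 (vact g⁻¹ v)
    rw [vact_inv] at h2
    rw [h2]
    field_simp

/-- The stabiliser of the edge. -/
def KE (r : ℝ) (hr : 0 < r) : Subgroup (GL2 D) where
  carrier := {g | (∃ c : ℝ, 0 < c ∧ ∀ v, n₀ (vact g v) = c * n₀ v ∧
      n₁ r (vact g v) = c * n₁ r v) ∨
    (∃ c : ℝ, 0 < c ∧ ∀ v, n₀ (vact g v) = c * n₁ r v ∧ n₁ r (vact g v) = c * r * n₀ v)}
  one_mem' := Or.inl ⟨1, one_pos, fun v => by rw [vact_one, one_mul, one_mul]; exact ⟨rfl, rfl⟩⟩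
  mul_mem' := by
    rintro g h (⟨c, hc, h1⟩ | ⟨c, hc, h1⟩) (⟨d, hd, h2⟩ | ⟨d, hd, h2⟩)
    · left
      refine ⟨c * d, mul_pos hc hd, fun v => ⟨?_, ?_⟩⟩
      · rw [vact_mul, (h1 _).1, (h2 _).1]; ring
      · rw [vact_mul, (h1 _).2, (h2 _).2]; ring
    · right
      refine ⟨c * d, mul_pos hc hd, fun v => ⟨?_, ?_⟩⟩
      · rw [vact_mul, (h1 _).1, (h2 _).1]; ring
      · rw [vact_mul, (h1 _).2, (h2 _).2]; ring
    · right
      refine ⟨c * d, mul_pos hc hd, fun v => ⟨?_, ?_⟩⟩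
      · rw [vact_mul, (h1 _).1, (h2 _).2]; ring
      · rw [vact_mul, (h1 _).2, (h2 _).1]; ring
    · left
      refine ⟨c * d * r, by positivity, fun v => ⟨?_, ?_⟩⟩
      · rw [vact_mul, (h1 _).1, (h2 _).2]; ring
      · rw [vact_mul, (h1 _).2, (h2 _).1]; ring
  inv_mem' := by
    rintro g (⟨c, hc, h1⟩ | ⟨c, hc, h1⟩)
    · left
      refine ⟨c⁻¹, inv_pos.2 hc, fun v => ?_⟩
      have h2 := h1 (vact g⁻¹ v)
      rw [vact_inv] at h2
      rw [h2.1, h2.2]
      constructor <;> field_simp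
    · right
      refine ⟨(c * r)⁻¹, by positivity, fun v => ?_⟩
      have h2 := h1 (vact g⁻¹ v)
      rw [vact_inv] at h2
      rw [h2.1, h2.2]
      constructor <;> field_simp

variable {D}

/-- `π` is a uniformizer. -/
structure IsUnif (π : D) : Prop where
  ne : π ≠ 0
  lt : ‖π‖ < 1
  le : ∀ x : D, ‖x‖ < 1 → ‖x‖ ≤ ‖π‖

end

end Emt
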