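import Pool.Agent.Emt.NMat1

/-!
# Emt, module PUnits: the unit group of a finite dimensional `ℚ_p`-algebra is a `p`-adic Lie group

PROOF.  Let `b` be a basis of `S` over `ℚ_p`, indexed by `Fin n`, and `Ψ = Algebra.leftMulMatrix b :
S →ₐ M_n(ℚ_p)`, an injective algebra homomorphism, continuous (`LinearMap.continuous_of_finiteDimensional`)
with closed range and a closed embedding (`LinearMap.isClosedEmbedding_of_injective`; finite dimensional
Hausdorff).  `U = {u ∈ Sˣ | all entries of Ψ u and Ψ u⁻¹ are in ℤ_p}` is a subgroup, open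
(`{x : ℚ_[p] | ‖x‖ ≤ 1}` is open).  `f : U → GL_n(ℤ_p)`, the matrix with the entries
`⟨(Ψ u) i j, _⟩`, is an injective homomorphism; it is continuous (`Units.continuous_iff`), and a closed
embedding: `U` is compact (closed subset of `S × Sᵐᵒᵖ` via `Units.embedProduct`, contained in the compact
set of the pairs with entries in `ℤ_p`), so `Continuous.isClosedEmbedding` applies.
-/

open Topology Set

namespace Emt

section

variable {p : ℕ} [Fact p.Prime] {n : ℕ}

/-- The integral matrix with the entries of a matrix with entries of norm at most one. -/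
private def toInt (M : Matrix (Fin n) (Fin n) ℚ_[p]) (h : ∀ i j, ‖M i j‖ ≤ 1) :
    Matrix (Fin n) (Fin n) ℤ_[p] := fun i j => ⟨M i j, h i j⟩

private theorem toInt_map (M : Matrix (Fin n) (Fin n) ℚ_[p]) (h : ∀ i j, ‖M i j‖ ≤ 1) :
    (PadicInt.Coe.ringHom (p := p)).mapMatrix (toInt M h) = M := by
  ext i j
  rfl

private theorem mapMatrix_inj :
    Function.Injective ((PadicInt.Coe.ringHom (p := p)).mapMatrix (m := Fin n)) := by
  intro A B h
  ext i j
  exact Subtype.coe_injective (congrFun (congrFun h i) j)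

private theorem norm_mul_le {M N : Matrix (Fin n) (Fin n) ℚ_[p]} (hM : ∀ i j, ‖M i j‖ ≤ 1)
    (hN : ∀ i j, ‖N i j‖ ≤ 1) (i j : Fin n) : ‖(M * N) i j‖ ≤ 1 := by
  rw [← PadicInt.mem_subring_iff, Matrix.mul_apply]
  exact Subring.sum_mem _ fun k _ => Subring.mul_mem _ (hM i k) (hN k j)

private theorem norm_one_le (i j : Fin n) : ‖(1 : Matrix (Fin n) (Fin n) ℚ_[p]) i j‖ ≤ 1 := by
  rw [Matrix.one_apply]
  split_ifs
  · rw [norm_one]
  · rw [norm_zero]
    exact zero_le_one

end

theorem padic_units {p : ℕ} [Fact p.Prime] (S : Type) [Ring S] [Algebra ℚ_[p] S]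
    [FiniteDimensional ℚ_[p] S] [TopologicalSpace S] [IsTopologicalRing S]
    [ContinuousSMul ℚ_[p] S] [T2Space S] : IsPadicLie p Sˣ := by
  classical
  let b := Module.finBasis ℚ_[p] S
  set n := Module.finrank ℚ_[p] S with hn
  let Ψ : S →ₐ[ℚ_[p]] Matrix (Fin n) (Fin n) ℚ_[p] := Algebra.leftMulMatrix b
  have hΨi : Function.Injective Ψ := Algebra.leftMulMatrix_injective b
  have hΨc : IsClosedEmbedding Ψ :=
    LinearMap.isClosedEmbedding_of_injective (f := Ψ.toLinearMap) (LinearMap.ker_eq_bot.2 hΨi)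
  have hcont : Continuous Ψ := hΨc.continuous
  let U : Subgroup Sˣ :=
    { carrier := {u | (∀ i j, ‖Ψ (u : S) i j‖ ≤ 1) ∧ ∀ i j, ‖Ψ ((u⁻¹ : Sˣ) : S) i j‖ ≤ 1}
      mul_mem' := by
        rintro a c ⟨ha, ha'⟩ ⟨hc, hc'⟩
        refine ⟨fun i j => ?_, fun i j => ?_⟩
        · rw [Units.val_mul, map_mul]
          exact norm_mul_le ha hc i j
        · rw [mul_inv_rev, Units.val_mul, map_mul]
          exact norm_mul_le hc' ha' i j
      one_mem' := by
        refine ⟨fun i j => ?_, fun i j => ?_⟩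
        · rw [Units.val_one, map_one]
          exact norm_one_le i j
        · rw [inv_one, Units.val_one, map_one]
          exact norm_one_le i j
      inv_mem' := by
        rintro a ⟨ha, ha'⟩
        refine ⟨ha', ?_⟩
        rw [inv_inv]
        exact ha }
  have hU1 : ∀ u : U, ∀ i j, ‖Ψ ((u : Sˣ) : S) i j‖ ≤ 1 := fun u => u.2.1
  have hU2 : ∀ u : U, ∀ i j, ‖Ψ (((u : Sˣ)⁻¹ : Sˣ) : S) i j‖ ≤ 1 := fun u => u.2.2
  let fv : U → (Matrix (Fin n) (Fin n) ℤ_[p])ˣ := fun u =>
    { val := toInt (Ψ ((u : Sˣ) : S)) (hU1 u)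
      inv := toInt (Ψ (((u : Sˣ)⁻¹ : Sˣ) : S)) (hU2 u)
      val_inv := by
        apply mapMatrix_inj
        rw [map_mul, toInt_map, toInt_map, ← map_mul, Units.mul_inv, map_one, map_one]
      inv_val := by
        apply mapMatrix_inj
        rw [map_mul, toInt_map, toInt_map, ← map_mul, Units.inv_mul, map_one, map_one] }
  let f : U →* (Matrix (Fin n) (Fin n) ℤ_[p])ˣ := MonoidHom.mk' fv (by
    intro a c
    apply Units.ext
    apply mapMatrix_inj
    rw [Units.val_mul, map_mul]
    show (PadicInt.Coe.ringHom (p := p)).mapMatrix (toInt (Ψ (((a * c : U) : Sˣ) : S)) (hU1 (a * c)))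
      = (PadicInt.Coe.ringHom (p := p)).mapMatrix (toInt (Ψ ((a : Sˣ) : S)) (hU1 a)) *
        (PadicInt.Coe.ringHom (p := p)).mapMatrix (toInt (Ψ ((c : Sˣ) : S)) (hU1 c))
    rw [toInt_map, toInt_map, toInt_map, ← map_mul]
    rfl)
  have hball : IsOpen {x : ℚ_[p] | ‖x‖ ≤ 1} := by
    have h1 : {x : ℚ_[p] | ‖x‖ ≤ 1} = Metric.closedBall 0 1 := by
      ext x
      simp
    rw [h1]
    exact IsUltrametricDist.isOpen_closedBall _ one_ne_zero
  have hUo : IsOpen (U : Set Sˣ) := by
    have h1 : (U : Set Sˣ) = (⋂ i, ⋂ j, (fun u : Sˣ => Ψ (u : S) i j) ⁻¹' {x : ℚ_[p] | ‖x‖ ≤ 1}) ∩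
        (⋂ i, ⋂ j, (fun u : Sˣ => Ψ ((u⁻¹ : Sˣ) : S) i j) ⁻¹' {x : ℚ_[p] | ‖x‖ ≤ 1}) := by
      ext u
      simp only [Set.mem_inter_iff, Set.mem_iInter, Set.mem_preimage, Set.mem_ofPred_eq]
      rfl
    rw [h1]
    refine IsOpen.inter ?_ ?_
    · refine isOpen_iInter_of_finite fun i => isOpen_iInter_of_finite fun j => ?_
      exact hball.preimage ((hcont.comp Units.continuous_val).matrix_elem i j)
    · refine isOpen_iInter_of_finite fun i => isOpen_iInter_of_finite fun j => ?_
      exact hball.preimage ((hcont.comp (Units.continuous_val.comp continuous_inv)).matrix_elem i j)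
  have hKm : IsCompact {M : Matrix (Fin n) (Fin n) ℚ_[p] | ∀ i j, ‖M i j‖ ≤ 1} := by
    have h1 : {M : Matrix (Fin n) (Fin n) ℚ_[p] | ∀ i j, ‖M i j‖ ≤ 1} =
        Set.pi Set.univ (fun _ : Fin n => Set.pi Set.univ (fun _ : Fin n =>
          Metric.closedBall (0 : ℚ_[p]) 1)) := by
      ext M
      constructor
      · intro hM i _ j _
        rw [mem_closedBall_zero_iff]
        exact hM i j
      · intro hM i j
        have h2 := hM i (Set.mem_univ i) j (Set.mem_univ j)
        rw [mem_closedBall_zero_iff] at h2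
        exact h2
    rw [h1]
    exact isCompact_univ_pi fun _ => isCompact_univ_pi fun _ => isCompact_closedBall _ _
  have hK : IsCompact (Ψ ⁻¹' {M : Matrix (Fin n) (Fin n) ℚ_[p] | ∀ i j, ‖M i j‖ ≤ 1}) :=
    hΨc.isCompact_preimage hKm
  have hUc : IsCompact (U : Set Sˣ) := by
    have h1 : (U : Set Sˣ) = Units.embedProduct S ⁻¹'
        ((Ψ ⁻¹' {M : Matrix (Fin n) (Fin n) ℚ_[p] | ∀ i j, ‖M i j‖ ≤ 1}) ×ˢ
          (MulOpposite.unop ⁻¹' (Ψ ⁻¹' {M : Matrix (Fin n) (Fin n) ℚ_[p] | ∀ i j, ‖M i j‖ ≤ 1}))) := by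
      ext u
      rfl
    rw [h1]
    refine Units.isClosedEmbedding_embedProduct.isCompact_preimage ?_
    exact hK.prod (MulOpposite.opHomeomorph.symm.isClosedEmbedding.isCompact_preimage hK)
  have : CompactSpace U := isCompact_iff_compactSpace.1 hUc
  have hfc : Continuous f := by
    rw [Units.continuous_iff]
    constructor
    · refine continuous_matrix fun i j => ?_
      exact Continuous.subtype_mk
        ((hcont.comp (Units.continuous_val.comp continuous_subtype_val)).matrix_elem i j) _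
    · refine continuous_matrix fun i j => ?_
      exact Continuous.subtype_mk
        ((hcont.comp (Units.continuous_val.comp
          (continuous_inv.comp continuous_subtype_val))).matrix_elem i j) _
  have hfi : Function.Injective f := by
    intro a c h
    apply Subtype.ext
    apply Units.ext
    apply hΨi
    have h1 : toInt (Ψ ((a : Sˣ) : S)) (hU1 a) = toInt (Ψ ((c : Sˣ) : S)) (hU1 c) :=
      congrArg Units.val h
    have h2 := congrArg ((PadicInt.Coe.ringHom (p := p)).mapMatrix) h1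
    rw [toInt_map, toInt_map] at h2
    exact h2
  exact ⟨U, n, f, hUo, hfc.isClosedEmbedding hfi⟩

end Emt
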