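import Pool.Agent.Emt.Prod2
import Pool.Agent.Emt.Final

/-!
# Emt, module Pi: finite products

PROOFS.
* `RI.equiv`: `RI.map_open` for an isomorphism of topological groups.
* `padic_pi`, `RI.pi_fin`: induction on `n`, with the isomorphism of topological groups
  `(∀ i : Fin (n+1), G i) ≃ G 0 × (∀ i : Fin n, G i.succ)` (`Fin.consEquiv`, `MulEquiv.piFinSucc...` or
  by hand), `IsPadicLie.prod`, `RI.prod`; for `n = 0` the group is trivial: `RI` holds
  since every linear map extends along an injective one (vector spaces), and `IsPadicLie` since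
  the group is isomorphic to a closed subgroup of `GL_0(ℤ_p)`.
* `RI.pi`: `Fintype.equivFin`.
* `RI.pi_all`: if for all `i` and all compact subgroups `H i` of `G i` the restriction property
  holds, then it holds for every compact subgroup `H` of the product: `H` is contained in the product of its
  projections, which are compact; `RI.mono_closed`.
-/

set_option linter.all false

open Topology Set

namespace Emt

private theorem padic_equiv {p : ℕ} [Fact p.Prime] {G G' : Type} [Group G] [TopologicalSpace G]
    [Group G'] [TopologicalSpace G'] (hG' : IsPadicLie p G') (e : G' ≃* G) (he : Continuous e)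
    (he' : Continuous e.symm) : IsPadicLie p G := by
  obtain ⟨U, n, f, hU, hf⟩ := hG'
  have hmem : ∀ u : U, e u ∈ U.comap e.symm.toMonoidHom := by
    intro u
    show e.symm (e (u : G')) ∈ U
    rw [MulEquiv.symm_apply_apply]
    exact u.2
  let φ : U.comap e.symm.toMonoidHom ≃ₜ U :=
    { toFun := fun g => ⟨e.symm g, g.2⟩
      invFun := fun u => ⟨e u, hmem u⟩
      left_inv := fun g => Subtype.ext (MulEquiv.apply_symm_apply e (g : G))
      right_inv := fun u => Subtype.ext (MulEquiv.symm_apply_apply e (u : G'))
      continuous_toFun := Continuous.subtype_mk (he'.comp continuous_subtype_val) _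
      continuous_invFun := Continuous.subtype_mk (he.comp continuous_subtype_val) hmem }
  let ψ : U.comap e.symm.toMonoidHom →* U :=
    { toFun := φ
      map_one' := Subtype.ext (map_one e.symm)
      map_mul' := fun a b => Subtype.ext (map_mul e.symm (a : G) (b : G)) }
  refine ⟨U.comap e.symm.toMonoidHom, n, f.comp ψ, hU.preimage he', ?_⟩
  exact hf.comp φ.isClosedEmbedding

private theorem RI_equiv {p : ℕ} [Fact p.Prime] {G G' : Type} [Group G] [TopologicalSpace G]
    [IsTopologicalGroup G] [Group G'] [TopologicalSpace G'] [IsTopologicalGroup G']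
    {C : Type} [Field C] [Finite C] [CharP C p] (hG' : IsPadicLie p G')
    (e : G' ≃* G) (he : Continuous e) (he' : Continuous e.symm)
    {H' : Subgroup G'} (hH' : IsCompact (H' : Set G')) (h : RI C G' H') :
    RI C G (H'.map e.toMonoidHom) := by
  refine RI.map (p := p) (padic_equiv hG' e he he') hG' (φ := e.toMonoidHom) he ?_ e.surjective hH'
    ?_ h
  · exact (Homeomorph.mk e.toEquiv he he').isOpenMap
  · intro x hx
    have h1 : e x = 1 := hx
    have h2 : x = 1 := by
      rw [← map_one e] at h1
      exact e.injective h1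
    rw [h2]
    exact H'.one_mem

section succ

variable {n : ℕ} (G : Fin (n + 1) → Type) [∀ i, Group (G i)] [∀ i, TopologicalSpace (G i)]

/-- Splitting off the first factor. -/
private def splitE : (G 0 × (∀ i : Fin n, G i.succ)) ≃* (∀ i, G i) where
  toFun x := Fin.cons x.1 x.2
  invFun y := (y 0, fun i => y i.succ)
  left_inv x := rfl
  right_inv y := by
    funext i
    refine Fin.cases ?_ (fun j => ?_) i
    · rfl
    · rfl
  map_mul' x y := by
    funext i
    refine Fin.cases ?_ (fun j => ?_) i
    · rfl
    · rfl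

private theorem splitE_cont : Continuous (splitE G) :=
  Continuous.finCons continuous_fst continuous_snd

private theorem splitE_symm_cont : Continuous (splitE G).symm :=
  (continuous_apply 0).prodMk (continuous_pi fun i => continuous_apply i.succ)

end succ

section reindex

variable {ι ι' : Type} (G : ι' → Type) [∀ i, Group (G i)] [∀ i, TopologicalSpace (G i)] (e : ι ≃ ι')

private def reE : (∀ i : ι, G (e i)) ≃* (∀ j : ι', G j) :=
  MulEquiv.symm
    { (Equiv.piCongrLeft G e).symm with
      map_mul' := fun _ _ => rfl }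

private theorem reE_symm_apply (x : ∀ j : ι', G j) (i : ι) : (reE G e).symm x i = x (e i) := rfl

private theorem reE_cont : Continuous (reE G e) := (Homeomorph.piCongrLeft (Y := G) e).continuous

private theorem reE_symm_cont : Continuous (reE G e).symm :=
  continuous_pi fun i => continuous_apply (e i)

end reindex

private theorem padic_fin {p : ℕ} [Fact p.Prime] : ∀ (n : ℕ) (G : Fin n → Type)
    [∀ i, Group (G i)] [∀ i, TopologicalSpace (G i)] [∀ i, IsTopologicalGroup (G i)],
    (∀ i, IsPadicLie p (G i)) → IsPadicLie p (∀ i, G i) := by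
  intro n
  induction n with
  | zero =>
    intro G _ _ _ _
    refine ⟨⊤, 0, 1, isOpen_univ, ?_⟩
    have h1 : Subsingleton (Matrix (Fin 0) (Fin 0) ℤ_[p])ˣ :=
      ⟨fun a b => Units.ext (Subsingleton.elim _ _)⟩
    have h2 : DiscreteTopology (Matrix (Fin 0) (Fin 0) ℤ_[p])ˣ := Subsingleton.discreteTopology
    refine IsClosedEmbedding.of_continuous_injective_isClosedMap ?_ ?_ ?_
    · exact continuous_const
    · intro a b _
      exact Subsingleton.elim _ _
    · intro K _
      exact isClosed_discrete _
  | succ n ih =>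
    intro G _ _ _ hG
    exact padic_equiv ((hG 0).prod (ih (fun i => G i.succ) fun i => hG i.succ)) (splitE G)
      (splitE_cont G) (splitE_symm_cont G)

theorem padic_pi {p : ℕ} [Fact p.Prime] {ι : Type} [Fintype ι] {G : ι → Type}
    [∀ i, Group (G i)] [∀ i, TopologicalSpace (G i)] [∀ i, IsTopologicalGroup (G i)]
    (hG : ∀ i, IsPadicLie p (G i)) : IsPadicLie p (∀ i, G i) := by
  have e := (Fintype.equivFin ι).symm
  exact padic_equiv (padic_fin _ (fun i => G (e i)) fun i => hG (e i)) (reE G e) (reE_cont G e)
    (reE_symm_cont G e)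

private theorem compact_pi {ι : Type} {G : ι → Type} [∀ i, Group (G i)]
    [∀ i, TopologicalSpace (G i)] {H : ∀ i, Subgroup (G i)}
    (hH : ∀ i, IsCompact (H i : Set (G i))) :
    IsCompact ((Subgroup.pi Set.univ H : Subgroup (∀ i, G i)) : Set (∀ i, G i)) := by
  rw [Subgroup.coe_pi]
  exact isCompact_univ_pi hH

private theorem RI_triv {C : Type} [Field C] {G : Type} [Group G] [TopologicalSpace G]
    [Subsingleton G] (H : Subgroup G) : RI C G H := by
  intro V _ _ ρ _
  have h2 : DiscreteTopology H := Subsingleton.discreteTopology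
  refine ⟨fun v => isOpen_discrete _, ?_⟩
  intro A B _ _ _ _ α β _ _ i _ hi f _
  obtain ⟨g, hg⟩ := LinearMap.exists_leftInverse_of_injective i (LinearMap.ker_eq_bot.2 hi)
  refine ⟨f ∘ₗ g, ?_, ?_⟩
  · intro h b
    have h1 : h = 1 := Subsingleton.elim _ _
    rw [h1, rep_one_apply, rep_one_apply]
  · intro a
    have h1 : g (i a) = a := LinearMap.congr_fun hg a
    rw [LinearMap.comp_apply, h1]

private theorem RI_fin {p : ℕ} [Fact p.Prime] {C : Type} [Field C] [Finite C] [CharP C p] :
    ∀ (n : ℕ) (G : Fin n → Type)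
    [∀ i, Group (G i)] [∀ i, TopologicalSpace (G i)] [∀ i, IsTopologicalGroup (G i)],
    (∀ i, IsPadicLie p (G i)) → ∀ H : ∀ i, Subgroup (G i),
    (∀ i, IsCompact (H i : Set (G i))) → (∀ i, RI C (G i) (H i)) →
    RI C (∀ i, G i) (Subgroup.pi Set.univ H) := by
  intro n
  induction n with
  | zero =>
    intro G _ _ _ _ H _ _
    exact RI_triv _
  | succ n ih =>
    intro G _ _ _ hG H hH h
    have h1 : RI C (∀ i : Fin n, G i.succ) (Subgroup.pi Set.univ fun i => H i.succ) :=
      ih (fun i => G i.succ) (fun i => hG i.succ) (fun i => H i.succ) (fun i => hH i.succ)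
        fun i => h i.succ
    have hp := padic_fin n (fun i => G i.succ) fun i => hG i.succ
    have hc : IsCompact ((Subgroup.pi Set.univ fun i : Fin n => H i.succ :
        Subgroup (∀ i : Fin n, G i.succ)) : Set (∀ i : Fin n, G i.succ)) :=
      compact_pi fun i => hH i.succ
    have h2 := RI.prod (hG 0) hp (hH 0) hc (h 0) h1
    have hc2 : IsCompact (((H 0).prod (Subgroup.pi Set.univ fun i : Fin n => H i.succ) :
        Subgroup (G 0 × ∀ i : Fin n, G i.succ)) : Set (G 0 × ∀ i : Fin n, G i.succ)) := by
      rw [Subgroup.coe_prod]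
      exact (hH 0).prod hc
    have h3 := RI_equiv ((hG 0).prod hp) (splitE G) (splitE_cont G) (splitE_symm_cont G) hc2 h2
    have h4 : ((H 0).prod (Subgroup.pi Set.univ fun i : Fin n => H i.succ)).map
        (splitE G).toMonoidHom = Subgroup.pi Set.univ H := by
      ext x
      rw [Subgroup.mem_pi]
      constructor
      · rintro ⟨y, ⟨hy1, hy2⟩, rfl⟩ i _
        refine Fin.cases ?_ (fun j => ?_) i
        · exact hy1
        · exact hy2 j (Set.mem_univ _)
      · intro hx
        exact ⟨(splitE G).symm x, ⟨hx 0 (Set.mem_univ _), fun j _ => hx j.succ (Set.mem_univ _)⟩,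
          (splitE G).apply_symm_apply x⟩
    rwa [h4] at h3

theorem RI.pi {p : ℕ} [Fact p.Prime] {C : Type} [Field C] [Finite C] [CharP C p] {ι : Type}
    [Fintype ι] {G : ι → Type} [∀ i, Group (G i)] [∀ i, TopologicalSpace (G i)]
    [∀ i, IsTopologicalGroup (G i)] (hG : ∀ i, IsPadicLie p (G i)) {H : ∀ i, Subgroup (G i)}
    (hH : ∀ i, IsCompact (H i : Set (G i))) (h : ∀ i, RI C (G i) (H i)) :
    RI C (∀ i, G i) (Subgroup.pi Set.univ H) := by
  have e := (Fintype.equivFin ι).symm
  have h1 := RI_fin (p := p) _ (fun i => G (e i)) (fun i => hG (e i)) (fun i => H (e i))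
    (fun i => hH (e i)) fun i => h (e i)
  have h3 := RI_equiv (padic_fin _ (fun i => G (e i)) fun i => hG (e i)) (reE G e) (reE_cont G e)
    (reE_symm_cont G e) (compact_pi fun i => hH (e i)) h1
  have h4 : (Subgroup.pi Set.univ fun i => H (e i)).map (reE G e).toMonoidHom =
      Subgroup.pi Set.univ H := by
    ext x
    rw [Subgroup.mem_pi]
    constructor
    · rintro ⟨y, hy, rfl⟩ j _
      obtain ⟨i, rfl⟩ := e.surjective j
      have h5 : (reE G e).symm ((reE G e) y) i = (reE G e) y (e i) := rfl
      rw [MulEquiv.symm_apply_apply] at h5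
      show (reE G e) y (e i) ∈ H (e i)
      rw [← h5]
      exact hy i (Set.mem_univ _)
    · intro hx
      exact ⟨(reE G e).symm x, fun i _ => hx (e i) (Set.mem_univ _),
        (reE G e).apply_symm_apply x⟩
  rwa [h4] at h3

theorem RI.pi_all {p : ℕ} [Fact p.Prime] {C : Type} [Field C] [Finite C] [CharP C p] {ι : Type}
    [Fintype ι] {G : ι → Type} [∀ i, Group (G i)] [∀ i, TopologicalSpace (G i)]
    [∀ i, IsTopologicalGroup (G i)] (hG : ∀ i, IsPadicLie p (G i))
    (h : ∀ i, ∀ H : Subgroup (G i), IsCompact (H : Set (G i)) → RI C (G i) H)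
    {H : Subgroup (∀ i, G i)} (hH : IsCompact (H : Set (∀ i, G i))) : RI C (∀ i, G i) H := by
  have hP : ∀ i, IsCompact ((H.map (Pi.evalMonoidHom G i) : Subgroup (G i)) : Set (G i)) := by
    intro i
    rw [Subgroup.coe_map]
    exact hH.image (continuous_apply i)
  have hpi := padic_pi hG
  haveI := hpi.t2
  refine RI.mono_closed hpi (compact_pi hP) (RI.pi hG hP fun i => h i _ (hP i)) ?_ hH.isClosed
  intro x hx
  rw [Subgroup.mem_pi]
  intro i _
  exact ⟨x, hx, rfl⟩

end Emt
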