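import Pool.Agent.Emt.GLT
import Pool.Agent.Emt.PUnits
import Pool.Agent.Emt.Cent3
import Pool.Agent.Emt.Pi

/-!
# Emt, module GLR: the restriction property for products of groups `GL₂(D)`

PROOFS.
* `padic_GL2`: `padic_units` for `S = Matrix (Fin 2) (Fin 2) D` (check that the topology of `GL2 D` is the
  topology of the units of the matrix ring; finite dimensional, Hausdorff, continuous scalar
  multiplication).
* `ri_GL2`: `ri_amalgam_central` with `Λ = zpowers zp` and module GLT, `isAmalgam_GL2`.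
* `ri_pi_GL2`: `RI.pi_all`.
-/

open Topology Set

namespace Emt

theorem padic_GL2 (p : ℕ) [Fact p.Prime] (D : Type) [NormedDivisionRing D]
    [NormedAlgebra ℚ_[p] D] [FiniteDimensional ℚ_[p] D] : IsPadicLie p (GL2 D) :=
  padic_units (p := p) (Matrix (Fin 2) (Fin 2) D)

theorem ri_GL2 (p : ℕ) [Fact p.Prime] (C : Type) [Field C] [Finite C] [CharP C p] (D : Type)
    [NormedDivisionRing D] [NormedAlgebra ℚ_[p] D] [FiniteDimensional ℚ_[p] D]
    [IsUltrametricDist D] {H : Subgroup (GL2 D)} (hH : IsCompact (H : Set (GL2 D))) :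
    RI C (GL2 D) H := by
  obtain ⟨π, hπ⟩ := exists_isUnif (D := D) p
  have hfg : (Subgroup.zpowers (zp p D)).FG :=
    ⟨{zp p D}, by rw [Finset.coe_singleton, Subgroup.zpowers_eq_closure]⟩
  exact ri_amalgam_central (padic_GL2 p D) C zp_center hfg zp_tf zp_discrete isOpen_KV
    (isOpen_KE hπ) (zp_mem hπ) compact_mod_KV (compact_mod_KE hπ) (isAmalgam_GL2 hπ) hH

theorem ri_pi_GL2 (p : ℕ) [Fact p.Prime] (C : Type) [Field C] [Finite C] [CharP C p] {ι : Type}
    [Fintype ι] (D : ι → Type) [∀ i, NormedDivisionRing (D i)]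
    [∀ i, NormedAlgebra ℚ_[p] (D i)] [∀ i, FiniteDimensional ℚ_[p] (D i)]
    [∀ i, IsUltrametricDist (D i)] {H : Subgroup (∀ i, GL2 (D i))}
    (hH : IsCompact (H : Set (∀ i, GL2 (D i)))) : RI C (∀ i, GL2 (D i)) H :=
  RI.pi_all (fun i => padic_GL2 p (D i)) (fun i _ hK => ri_GL2 p C (D i) hK) hH

end Emt
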