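import Pool.Agent.Emt.GLDefs
import Pool.Agent.Emt.GLA

/-!
# Emt, module GLT: topology of `GL₂(D)`

PROOFS.  `D` is a proper metric space (finite dimensional over `ℚ_p`, `FiniteDimensional.proper`).
* `exists_isUnif`: the ball `{‖x‖ < 1}` is closed (ultrametric, `IsUltrametricDist.isClosed_ball`) and
  bounded, so compact; the norm attains its maximum on it at some `π`, and `‖π‖ ≥ ‖p‖ > 0` for
  `p ∈ D`.
* `U₁ = {g | ∀ v, n₀ (g v) = n₀ v}` is an open subgroup: it contains the neighbourhood of `1`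
  consisting of the `g` for which all the entries of `g - 1` have norm `< 1`:
  `n₀ (g v - v) < n₀ v`
  for `v ≠ 0`, so `n₀ (g v) = n₀ v` (ultrametric); a subgroup which is a neighbourhood of `1` is
  open (`Subgroup.isOpen_of_mem_nhds`).  `U₁ ≤ KV`.  Similarly `{g | ∀ v, n₀ (g v) = n₀ v ∧
  n₁ (g v) = n₁ v} ≤ KE` is open (`‖g i j - 1 i j‖ < ‖π‖ ^ 2`).
* `zp` is the scalar matrix `p`; it is central; `n₀ (zp^k v) = ‖p‖^k n₀ v`.
* `discrete`: `U₁ ⊓ zpowers zp = ⊥` since `‖p‖^k = 1` only for `k = 0`.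
* `compact_mod`: `X = {g ∈ KV | ‖p‖ ≤ c ≤ 1}`, where `c` is the constant of `g`
  (`c = n₀ (g (1, 0))`): `X` is compact: the entries of `g` and `g⁻¹` are bounded by `1` and
  `‖p‖⁻¹`, and `X` is closed in `Mat × Mat^op` (via the closed embedding of the units,
  `Units.embedProduct`; closed conditions `∀ v, n₀ (g v) = n₀ (g (1,0)) n₀ v`).  For `g ∈ KV` with the
  constant `c` there is `k` with `‖p‖ ≤ ‖p‖^k c ≤ 1`, so `g ∈ X (zp^k)⁻¹`.  Similarly for `KE` with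
  `X = {g ∈ KE | ‖p‖ ≤ n₀ (g (1, 0)) ≤ 1}` (in the second alternative `n₀ (g (1,0)) = c n₁ (1,0) = c`).
-/

open Topology Set
open scoped Pointwise

namespace Emt

variable {p : ℕ} [Fact p.Prime] {D : Type} [NormedDivisionRing D] [NormedAlgebra ℚ_[p] D]
  [FiniteDimensional ℚ_[p] D] [IsUltrametricDist D] {π : D}

/-- The scalar matrix `p`. -/
noncomputable def zp (p : ℕ) [Fact p.Prime] (D : Type) [NormedDivisionRing D]
    [NormedAlgebra ℚ_[p] D] : GL2 D :=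
  Units.map (algebraMap ℚ_[p] (Matrix (Fin 2) (Fin 2) D)).toMonoidHom
    (Units.mk0 (p : ℚ_[p]) (Nat.cast_ne_zero.2 (Fact.out : p.Prime).ne_zero))

/-! ### Norm lemmas -/

private theorem glt_n0_eq (v : Fin 2 → D) : n₀ v = n₁ 1 v := by
  simp [n₀, n₁]

private theorem glt_n1_nonneg {r : ℝ} (v : Fin 2 → D) : 0 ≤ n₁ r v :=
  le_trans (norm_nonneg _) (le_max_left _ _)

private theorem glt_n1_add {r : ℝ} (hr : 0 < r) (v w : Fin 2 → D) :
    n₁ r (v + w) ≤ max (n₁ r v) (n₁ r w) := by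
  have h0 := IsUltrametricDist.norm_add_le_max (v 0) (w 0)
  have h1 := IsUltrametricDist.norm_add_le_max (v 1) (w 1)
  unfold n₁
  refine max_le ?_ ?_
  · rw [Pi.add_apply]
    refine le_trans h0 (max_le_max (le_max_left _ _) (le_max_left _ _))
  · rw [Pi.add_apply]
    refine le_trans (mul_le_mul_of_nonneg_left h1 hr.le) ?_
    rw [mul_max_of_nonneg _ _ hr.le]
    exact max_le_max (le_max_right _ _) (le_max_right _ _)

private theorem glt_n1_neg {r : ℝ} (v : Fin 2 → D) : n₁ r (-v) = n₁ r v := by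
  simp [n₁]

private theorem glt_n1_add_eq {r : ℝ} (hr : 0 < r) {v w : Fin 2 → D} (h : n₁ r w < n₁ r v) :
    n₁ r (v + w) = n₁ r v := by
  apply le_antisymm
  · exact le_trans (glt_n1_add hr v w) (max_le le_rfl h.le)
  · have h1 := glt_n1_add hr (v + w) (-w)
    rw [add_neg_cancel_right, glt_n1_neg] at h1
    rcases le_max_iff.1 h1 with h2 | h2
    · exact h2
    · exact absurd h (not_lt.2 h2)

private theorem glt_n1_pos {r : ℝ} (hr : 0 < r) {v : Fin 2 → D} (h : v ≠ 0) : 0 < n₁ r v := by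
  by_contra hc
  have h0 := glt_n1_nonneg (r := r) v
  have h1 : n₁ r v = 0 := le_antisymm (not_lt.1 hc) h0
  apply h
  have h2 : ‖v 0‖ ≤ 0 := by rw [← h1]; exact le_max_left _ _
  have h3 : r * ‖v 1‖ ≤ 0 := by rw [← h1]; exact le_max_right _ _
  have h4 : ‖v 1‖ ≤ 0 := by
    by_contra h5
    exact absurd (mul_pos hr (not_le.1 h5)) (not_lt.2 h3)
  funext i
  fin_cases i
  · exact norm_le_zero_iff.1 h2
  · exact norm_le_zero_iff.1 h4

omit [FiniteDimensional ℚ_[p] D] [IsUltrametricDist D] in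
private theorem glt_n1_smul {r : ℝ} (hr : 0 < r) (c : ℚ_[p]) (v : Fin 2 → D) :
    n₁ r (c • v) = ‖c‖ * n₁ r v := by
  unfold n₁
  rw [mul_max_of_nonneg _ _ (norm_nonneg c), Pi.smul_apply, Pi.smul_apply, norm_smul, norm_smul]
  congr 1
  ring

/-! ### Open subgroups -/

private theorem glt_pres {r δ : ℝ} (hr : 0 < r) (h1 : δ ≤ 1) (h2 : δ ≤ r) (h3 : r * δ ≤ 1)
    (g : GL2 D)
    (hg : ∀ i j, ‖(g : Matrix (Fin 2) (Fin 2) D) i j - (1 : Matrix (Fin 2) (Fin 2) D) i j‖ < δ)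
    (v : Fin 2 → D) : n₁ r (vact g v) = n₁ r v := by
  by_cases hv : v = 0
  · rw [hv]
    congr 1
    simp [vact]
  have hpos := glt_n1_pos hr hv
  have hv0 : ‖v 0‖ ≤ n₁ r v := le_max_left _ _
  have hv1 : r * ‖v 1‖ ≤ n₁ r v := le_max_right _ _
  set w : Fin 2 → D := vact g v - v with hw
  have hgv : vact g v = v + w := by rw [hw]; abel
  have hδ : 0 < δ := lt_of_le_of_lt (norm_nonneg _) (hg 0 0)
  have h00 := hg 0 0
  have h01 := hg 0 1
  have h10 := hg 1 0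
  have h11 := hg 1 1
  have e00 : (1 : Matrix (Fin 2) (Fin 2) D) 0 0 = 1 := by simp
  have e01 : (1 : Matrix (Fin 2) (Fin 2) D) 0 1 = 0 := by simp
  have e10 : (1 : Matrix (Fin 2) (Fin 2) D) 1 0 = 0 := by simp
  have e11 : (1 : Matrix (Fin 2) (Fin 2) D) 1 1 = 1 := by simp
  rw [e00] at h00
  rw [e01, sub_zero] at h01
  rw [e10, sub_zero] at h10
  rw [e11] at h11
  have key : ∀ (a b t : ℝ), 0 ≤ a → a < δ → 0 ≤ b → b * δ ≤ t → 0 < t → a * b < t := by
    intro a b t ha haδ hb hbt ht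
    rcases eq_or_lt_of_le hb with h | h
    · rw [← h, mul_zero]; exact ht
    · calc a * b < δ * b := mul_lt_mul_of_pos_right haδ h
        _ = b * δ := mul_comm _ _
        _ ≤ t := hbt
  have w0 : w 0 = ((g : Matrix (Fin 2) (Fin 2) D) 0 0 - 1) * v 0 +
      (g : Matrix (Fin 2) (Fin 2) D) 0 1 * v 1 := by
    rw [hw, Pi.sub_apply, vact_fst]
    rw [sub_mul, one_mul]
    abel
  have w1 : w 1 = (g : Matrix (Fin 2) (Fin 2) D) 1 0 * v 0 +
      ((g : Matrix (Fin 2) (Fin 2) D) 1 1 - 1) * v 1 := by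
    rw [hw, Pi.sub_apply, vact_snd]
    rw [sub_mul, one_mul]
    abel
  have hv0δ : ‖v 0‖ * δ ≤ n₁ r v :=
    le_trans (mul_le_of_le_one_right (norm_nonneg _) h1) hv0
  have hv1δ : ‖v 1‖ * δ ≤ n₁ r v := by
    refine le_trans ?_ hv1
    rw [mul_comm]
    exact mul_le_mul_of_nonneg_right h2 (norm_nonneg _)
  have hlt : n₁ r w < n₁ r v := by
    have b0 : ‖w 0‖ < n₁ r v := by
      rw [w0]
      refine lt_of_le_of_lt (IsUltrametricDist.norm_add_le_max _ _) (max_lt ?_ ?_)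
      · rw [norm_mul]
        exact key _ _ _ (norm_nonneg _) h00 (norm_nonneg _) hv0δ hpos
      · rw [norm_mul]
        exact key _ _ _ (norm_nonneg _) h01 (norm_nonneg _) hv1δ hpos
    have b1 : r * ‖w 1‖ < n₁ r v := by
      rw [w1]
      refine lt_of_le_of_lt (mul_le_mul_of_nonneg_left
        (IsUltrametricDist.norm_add_le_max _ _) hr.le) ?_
      rw [mul_max_of_nonneg _ _ hr.le]
      refine max_lt ?_ ?_
      · rw [norm_mul]
        have : r * (‖(g : Matrix (Fin 2) (Fin 2) D) 1 0‖ * ‖v 0‖) =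
            ‖(g : Matrix (Fin 2) (Fin 2) D) 1 0‖ * (r * ‖v 0‖) := by ring
        rw [this]
        refine key _ _ _ (norm_nonneg _) h10 (mul_nonneg hr.le (norm_nonneg _)) ?_ hpos
        calc r * ‖v 0‖ * δ = (r * δ) * ‖v 0‖ := by ring
          _ ≤ 1 * ‖v 0‖ := mul_le_mul_of_nonneg_right h3 (norm_nonneg _)
          _ ≤ n₁ r v := by rw [one_mul]; exact hv0
      · rw [norm_mul]
        have : r * (‖(g : Matrix (Fin 2) (Fin 2) D) 1 1 - 1‖ * ‖v 1‖) =
            ‖(g : Matrix (Fin 2) (Fin 2) D) 1 1 - 1‖ * (r * ‖v 1‖) := by ring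
        rw [this]
        refine key _ _ _ (norm_nonneg _) h11 (mul_nonneg hr.le (norm_nonneg _)) ?_ hpos
        exact le_trans (mul_le_of_le_one_right (mul_nonneg hr.le (norm_nonneg _)) h1) hv1
    exact max_lt b0 b1
  rw [hgv, glt_n1_add_eq hr hlt]

private theorem glt_entry_cont (i j : Fin 2) :
    Continuous fun g : GL2 D => (g : Matrix (Fin 2) (Fin 2) D) i j :=
  (Units.continuous_val).matrix_elem i j

private theorem glt_nhds {r : ℝ} (hr : 0 < r) :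
    {g : GL2 D | ∀ v, n₁ r (vact g v) = n₁ r v} ∈ 𝓝 (1 : GL2 D) := by
  set δ : ℝ := min 1 (min r r⁻¹) with hδ
  have hδ0 : 0 < δ := lt_min one_pos (lt_min hr (inv_pos.2 hr))
  have h1 : δ ≤ 1 := min_le_left _ _
  have h2 : δ ≤ r := le_trans (min_le_right _ _) (min_le_left _ _)
  have h3 : r * δ ≤ 1 := by
    have h4 : δ ≤ r⁻¹ := le_trans (min_le_right _ _) (min_le_right _ _)
    calc r * δ ≤ r * r⁻¹ := mul_le_mul_of_nonneg_left h4 hr.le
      _ = 1 := mul_inv_cancel₀ hr.ne'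
  have hopen : IsOpen {g : GL2 D | ∀ i j,
      ‖(g : Matrix (Fin 2) (Fin 2) D) i j - (1 : Matrix (Fin 2) (Fin 2) D) i j‖ < δ} := by
    simp only [Set.ofPred_forall]
    refine isOpen_iInter_of_finite fun i => isOpen_iInter_of_finite fun j => ?_
    exact isOpen_lt (continuous_norm.comp ((glt_entry_cont i j).sub continuous_const))
      continuous_const
  refine Filter.mem_of_superset (hopen.mem_nhds ?_) fun g hg v => glt_pres hr h1 h2 h3 g hg v
  intro i j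
  rw [Units.val_one, sub_self, norm_zero]
  exact hδ0

/-- The subgroup preserving `n₀`. -/
private def glt_U (D : Type) [NormedDivisionRing D] : Subgroup (GL2 D) where
  carrier := {g | ∀ v, n₁ 1 (vact g v) = n₁ 1 v}
  one_mem' := fun v => by rw [vact_one]
  mul_mem' := by
    intro g h h1 h2 v
    rw [vact_mul, h1, h2]
  inv_mem' := by
    intro g h1 v
    have h2 := h1 (vact g⁻¹ v)
    rw [vact_inv] at h2
    exact h2.symm

private theorem glt_U_open : IsOpen (glt_U D : Set (GL2 D)) :=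
  Subgroup.isOpen_of_mem_nhds (glt_U D) (glt_nhds one_pos)

/-! ### The scalar matrix -/

omit [FiniteDimensional ℚ_[p] D] [IsUltrametricDist D] in
private theorem glt_zp_val (k : ℤ) :
    ((zp p D ^ k : GL2 D) : Matrix (Fin 2) (Fin 2) D) =
      algebraMap ℚ_[p] (Matrix (Fin 2) (Fin 2) D) ((p : ℚ_[p]) ^ k) := by
  unfold zp
  rw [← map_zpow, Units.coe_map, Units.val_zpow_eq_zpow_val]
  rfl

omit [FiniteDimensional ℚ_[p] D] [IsUltrametricDist D] in
private theorem glt_zp_vact (k : ℤ) (v : Fin 2 → D) :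
    vact (zp p D ^ k : GL2 D) v = ((p : ℚ_[p]) ^ k) • v := by
  unfold vact
  rw [glt_zp_val, Algebra.algebraMap_eq_smul_one, Matrix.smul_mulVec, Matrix.one_mulVec]

omit [FiniteDimensional ℚ_[p] D] [IsUltrametricDist D] in
private theorem glt_zp_n1 {r : ℝ} (hr : 0 < r) (k : ℤ) (v : Fin 2 → D) :
    n₁ r (vact (zp p D ^ k : GL2 D) v) = (p : ℝ) ^ (-k) * n₁ r v := by
  rw [glt_zp_vact, glt_n1_smul hr, Padic.norm_p_zpow]

private theorem glt_zpow_eq_one (p : ℕ) [Fact p.Prime] {k : ℤ} (h : (p : ℝ) ^ k = 1) : k = 0 := by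
  have hp : (1 : ℝ) < p := by exact_mod_cast (Fact.out : p.Prime).one_lt
  have h1 : (p : ℝ) ^ k = (p : ℝ) ^ (0 : ℤ) := by rw [h, zpow_zero]
  exact (zpow_right_strictMono₀ hp).injective h1

/-- The first basis vector. -/
private def glt_e (D : Type) [NormedDivisionRing D] : Fin 2 → D := Pi.single 0 1

omit [IsUltrametricDist D] in
private theorem glt_n1_e : n₁ 1 (glt_e D) = 1 := by
  simp [n₁, glt_e]

omit [FiniteDimensional ℚ_[p] D] [IsUltrametricDist D] in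
private theorem glt_zp_one {k : ℤ}
    (h : ∀ v : Fin 2 → D, n₁ 1 (vact (zp p D ^ k : GL2 D) v) = n₁ 1 v) : k = 0 := by
  have h1 := h (glt_e D)
  rw [glt_zp_n1 one_pos, glt_n1_e, mul_one] at h1
  have h2 := glt_zpow_eq_one p h1
  omega

omit [IsUltrametricDist D] in
theorem zp_center : Subgroup.zpowers (zp p D) ≤ Subgroup.center (GL2 D) := by
  intro z hz
  obtain ⟨k, rfl⟩ := Subgroup.mem_zpowers_iff.1 hz
  rw [Subgroup.mem_center_iff]
  intro g
  ext1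
  rw [Units.val_mul, Units.val_mul, glt_zp_val]
  exact (Algebra.commutes _ _).symm

omit [IsUltrametricDist D] in
theorem zp_tf : ∀ z ∈ Subgroup.zpowers (zp p D), ∀ n : ℕ, n ≠ 0 → z ^ n = 1 → z = 1 := by
  intro z hz n hn h
  obtain ⟨k, rfl⟩ := Subgroup.mem_zpowers_iff.1 hz
  have h1 : zp p D ^ (k * n) = 1 := by
    rw [zpow_mul, zpow_natCast, h]
  have h2 : k * (n : ℤ) = 0 := by
    apply glt_zp_one (p := p) (D := D)
    intro v
    rw [h1, vact_one]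
  have h3 : k = 0 := by
    rcases mul_eq_zero.1 h2 with h4 | h4
    · exact h4
    · exact absurd (by exact_mod_cast h4) hn
  rw [h3, zpow_zero]

theorem zp_discrete : ∃ U : Subgroup (GL2 D), IsOpen (U : Set (GL2 D)) ∧
    U ⊓ Subgroup.zpowers (zp p D) = ⊥ := by
  refine ⟨glt_U D, glt_U_open, ?_⟩
  rw [Subgroup.eq_bot_iff_forall]
  intro z hz
  obtain ⟨hz1, hz2⟩ := Subgroup.mem_inf.1 hz
  obtain ⟨k, rfl⟩ := Subgroup.mem_zpowers_iff.1 hz2
  have h1 : ∀ v : Fin 2 → D, n₁ 1 (vact (zp p D ^ k : GL2 D) v) = n₁ 1 v := hz1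
  rw [glt_zp_one h1, zpow_zero]

theorem zp_mem (hπ : IsUnif π) :
    Subgroup.zpowers (zp p D) ≤ KV D ⊓ KE D ‖π‖⁻¹ hπ.inv_pos := by
  have hp : (0 : ℝ) < p := by exact_mod_cast (Fact.out : p.Prime).pos
  rw [Subgroup.zpowers_le, ← zpow_one (zp p D)]
  refine Subgroup.mem_inf.2 ⟨⟨(p : ℝ) ^ (-1 : ℤ), zpow_pos hp _, fun v => ?_⟩,
    Or.inl ⟨(p : ℝ) ^ (-1 : ℤ), zpow_pos hp _, fun v => ⟨?_, ?_⟩⟩⟩
  · rw [glt_n0_eq, glt_n0_eq, glt_zp_n1 one_pos]
  · rw [glt_n0_eq, glt_n0_eq, glt_zp_n1 one_pos]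
  · rw [glt_zp_n1 hπ.inv_pos]

variable (p) in
include p in
theorem exists_isUnif : ∃ π : D, IsUnif π := by
  have : ProperSpace D := FiniteDimensional.proper ℚ_[p] D
  have hc : IsCompact (Metric.ball (0 : D) 1) :=
    (isCompact_closedBall (0 : D) 1).of_isClosed_subset
      (IsUltrametricDist.isClosed_ball (0 : D) 1) Metric.ball_subset_closedBall
  obtain ⟨π, hπ, hmax⟩ := hc.exists_isMaxOn ⟨0, by simp⟩
    (continuous_norm (E := D)).continuousOn
  have hp : ‖algebraMap ℚ_[p] D (p : ℚ_[p])‖ = (p : ℝ)⁻¹ := by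
    rw [norm_algebraMap', Padic.norm_p]
  have hp1 : (1 : ℝ) < p := by exact_mod_cast (Fact.out : p.Prime).one_lt
  have hp2 : algebraMap ℚ_[p] D (p : ℚ_[p]) ∈ Metric.ball (0 : D) 1 := by
    rw [mem_ball_zero_iff, hp]
    exact inv_lt_one_of_one_lt₀ hp1
  have h1 : (p : ℝ)⁻¹ ≤ ‖π‖ := by
    rw [← hp]
    exact hmax hp2
  refine ⟨π, ?_, mem_ball_zero_iff.1 hπ, fun x hx => hmax (mem_ball_zero_iff.2 hx)⟩
  intro h0
  rw [h0, norm_zero] at h1
  exact absurd (inv_pos.2 (lt_trans one_pos hp1)) (not_lt.2 h1)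

variable (p) in
theorem isOpen_KV : IsOpen (KV D : Set (GL2 D)) := by
  apply Subgroup.isOpen_of_mem_nhds (KV D) (g := 1)
  refine Filter.mem_of_superset (glt_nhds one_pos) fun g hg => ?_
  exact ⟨1, one_pos, fun v => by rw [glt_n0_eq, glt_n0_eq, one_mul]; exact hg v⟩

variable (p) in
theorem isOpen_KE (hπ : IsUnif π) : IsOpen (KE D ‖π‖⁻¹ hπ.inv_pos : Set (GL2 D)) := by
  apply Subgroup.isOpen_of_mem_nhds (KE D ‖π‖⁻¹ hπ.inv_pos) (g := 1)
  refine Filter.mem_of_superset (Filter.inter_mem (glt_nhds one_pos) (glt_nhds hπ.inv_pos))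
    fun g hg => ?_
  exact Or.inl ⟨1, one_pos, fun v => ⟨by rw [glt_n0_eq, glt_n0_eq, one_mul]; exact hg.1 v,
    by rw [one_mul]; exact hg.2 v⟩⟩

/-! ### Compactness -/

variable (p) in
include p in
private theorem glt_compact (R : ℝ) : IsCompact {g : GL2 D |
    (∀ i j, ‖(g : Matrix (Fin 2) (Fin 2) D) i j‖ ≤ R) ∧
      ∀ i j, ‖((g⁻¹ : GL2 D) : Matrix (Fin 2) (Fin 2) D) i j‖ ≤ R} := by
  have : ProperSpace D := FiniteDimensional.proper ℚ_[p] D
  set B : Set (Matrix (Fin 2) (Fin 2) D) :=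
    Set.univ.pi fun _ : Fin 2 => Set.univ.pi fun _ : Fin 2 => Metric.closedBall (0 : D) R with hB
  have hBc : IsCompact B :=
    isCompact_univ_pi fun _ => isCompact_univ_pi fun _ => isCompact_closedBall (0 : D) R
  have hBm : ∀ m : Matrix (Fin 2) (Fin 2) D, m ∈ B ↔ ∀ i j, ‖m i j‖ ≤ R := by
    intro m
    constructor
    · intro h i j
      exact mem_closedBall_zero_iff.1 (h i (Set.mem_univ i) j (Set.mem_univ j))
    · intro h i _ j _
      exact mem_closedBall_zero_iff.2 (h i j)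
  set K : Set (Matrix (Fin 2) (Fin 2) D × Matrix (Fin 2) (Fin 2) D) :=
    (B ×ˢ B) ∩ {q | q.1 * q.2 = 1 ∧ q.2 * q.1 = 1} with hK
  have hKc : IsCompact K := by
    refine (hBc.prod hBc).inter_right ?_
    refine IsClosed.inter (isClosed_eq ?_ continuous_const) (isClosed_eq ?_ continuous_const)
    · exact continuous_fst.mul continuous_snd
    · exact continuous_snd.mul continuous_fst
  have : CompactSpace K := isCompact_iff_compactSpace.1 hKc
  let φ : K → GL2 D := fun q => ⟨q.1.1, q.1.2, q.2.2.1, q.2.2.2⟩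
  have hφ : Continuous φ := by
    rw [Units.continuous_iff]
    exact ⟨continuous_fst.comp continuous_subtype_val, continuous_snd.comp continuous_subtype_val⟩
  have hr := isCompact_range hφ
  convert hr using 1
  ext g
  constructor
  · rintro ⟨h1, h2⟩
    refine ⟨⟨((g : Matrix (Fin 2) (Fin 2) D), ((g⁻¹ : GL2 D) : Matrix (Fin 2) (Fin 2) D)),
      ⟨⟨(hBm _).2 h1, (hBm _).2 h2⟩, ⟨g.mul_inv, g.inv_mul⟩⟩⟩, ?_⟩
    ext1
    rfl
  · rintro ⟨q, rfl⟩
    exact ⟨(hBm _).1 q.2.1.1, (hBm _).1 q.2.1.2⟩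

omit [IsUltrametricDist D] in
private theorem glt_entry_le (g : GL2 D) {R : ℝ} (h : ∀ j : Fin 2, n₀ (vact g (Pi.single j 1)) ≤ R)
    (i j : Fin 2) : ‖(g : Matrix (Fin 2) (Fin 2) D) i j‖ ≤ R := by
  have h1 : vact g (Pi.single j 1) = (g : Matrix (Fin 2) (Fin 2) D).col j := by
    unfold vact
    rw [Matrix.mulVec_single_one]
  have h2 := h j
  rw [h1] at h2
  refine le_trans ?_ h2
  unfold n₀
  fin_cases i
  · exact le_max_left _ _
  · exact le_max_right _ _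

private theorem glt_n1_single {r : ℝ} (hr : 1 ≤ r) (j : Fin 2) :
    n₁ r (Pi.single j 1 : Fin 2 → D) ≤ r ∧ n₀ (Pi.single j 1 : Fin 2 → D) = 1 := by
  unfold n₁ n₀
  fin_cases j
  · simp [hr]
  · simp
    linarith

private theorem glt_exists_k (p : ℕ) [Fact p.Prime] {c : ℝ} (hc : 0 < c) :
    ∃ k : ℤ, (p : ℝ) ^ (-k) * c ≤ 1 ∧ ((p : ℝ) ^ (-k) * c)⁻¹ ≤ p := by
  have hp : (1 : ℝ) < p := by exact_mod_cast (Fact.out : p.Prime).one_lt
  have hp0 : (0 : ℝ) < p := lt_trans one_pos hp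
  obtain ⟨n, h1, h2⟩ := exists_mem_Ioc_zpow hc hp
  refine ⟨n + 1, ?_, ?_⟩
  · rw [zpow_neg, inv_mul_le_iff₀ (zpow_pos hp0 _), mul_one]
    exact h2
  · rw [zpow_neg, mul_inv, inv_inv, zpow_add_one₀ hp0.ne']
    have h3 : (p : ℝ) ^ n * c⁻¹ ≤ 1 := by
      rw [← div_eq_mul_inv, div_le_one hc]
      exact h1.le
    calc (p : ℝ) ^ n * p * c⁻¹ = ((p : ℝ) ^ n * c⁻¹) * p := by ring
      _ ≤ 1 * p := mul_le_mul_of_nonneg_right h3 hp0.le
      _ = p := one_mul _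

theorem compact_mod_KV : ∃ X : Set (GL2 D), IsCompact X ∧
    (KV D : Set (GL2 D)) ⊆ X * (Subgroup.zpowers (zp p D) : Set (GL2 D)) := by
  have hp : (1 : ℝ) < p := by exact_mod_cast (Fact.out : p.Prime).one_lt
  refine ⟨_, glt_compact p (D := D) (p : ℝ), ?_⟩
  rintro g ⟨c, hc, hg⟩
  obtain ⟨k, hk1, hk2⟩ := glt_exists_k p hc
  have hpos : 0 < (p : ℝ) ^ (-k) * c := mul_pos (zpow_pos (by linarith) _) hc
  refine Set.mem_mul.2 ⟨g * zp p D ^ k, ⟨?_, ?_⟩, zp p D ^ (-k), ?_, ?_⟩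
  · apply glt_entry_le
    intro j
    rw [vact_mul, hg, glt_n0_eq, glt_zp_n1 one_pos, ← glt_n0_eq,
      (glt_n1_single (D := D) le_rfl j).2]
    calc c * ((p : ℝ) ^ (-k) * 1) = (p : ℝ) ^ (-k) * c := by ring
      _ ≤ 1 := hk1
      _ ≤ p := hp.le
  · have hinv : ∀ v : Fin 2 → D, n₀ (vact (g * zp p D ^ k)⁻¹ v) =
        ((p : ℝ) ^ (-k) * c)⁻¹ * n₀ v := by
      intro v
      have h1 : n₀ (vact (g * zp p D ^ k) (vact (g * zp p D ^ k)⁻¹ v)) =
          (p : ℝ) ^ (-k) * c * n₀ (vact (g * zp p D ^ k)⁻¹ v) := by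
        rw [vact_mul g, hg, glt_n0_eq, glt_zp_n1 one_pos, ← glt_n0_eq]
        ring
      rw [vact_inv] at h1
      rw [h1, inv_mul_cancel_left₀ hpos.ne']
    apply glt_entry_le
    intro j
    rw [hinv, (glt_n1_single (D := D) le_rfl j).2, mul_one]
    exact hk2
  · exact Subgroup.zpow_mem_zpowers _ _
  · rw [mul_assoc, ← zpow_add, add_neg_cancel, zpow_zero, mul_one]

theorem compact_mod_KE (hπ : IsUnif π) : ∃ X : Set (GL2 D), IsCompact X ∧
    (KE D ‖π‖⁻¹ hπ.inv_pos : Set (GL2 D)) ⊆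
      X * (Subgroup.zpowers (zp p D) : Set (GL2 D)) := by
  have hp : (1 : ℝ) < p := by exact_mod_cast (Fact.out : p.Prime).one_lt
  have hr0 := hπ.inv_pos
  have hr1 : 1 ≤ ‖π‖⁻¹ := (one_le_inv₀ (norm_pos_iff.2 hπ.ne)).2 hπ.lt.le
  refine ⟨_, glt_compact p (D := D) (max (p : ℝ) ‖π‖⁻¹), ?_⟩
  rintro g (⟨c, hc, hg⟩ | ⟨c, hc, hg⟩)
  · obtain ⟨k, hk1, hk2⟩ := glt_exists_k p hc
    have hpos : 0 < (p : ℝ) ^ (-k) * c := mul_pos (zpow_pos (by linarith) _) hc
    refine Set.mem_mul.2 ⟨g * zp p D ^ k, ⟨?_, ?_⟩, zp p D ^ (-k), ?_, ?_⟩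
    · apply glt_entry_le
      intro j
      rw [vact_mul, (hg _).1, glt_n0_eq, glt_zp_n1 one_pos, ← glt_n0_eq,
        (glt_n1_single (D := D) le_rfl j).2]
      calc c * ((p : ℝ) ^ (-k) * 1) = (p : ℝ) ^ (-k) * c := by ring
        _ ≤ 1 := hk1
        _ ≤ max (p : ℝ) ‖π‖⁻¹ := le_trans hp.le (le_max_left _ _)
    · have hinv : ∀ v : Fin 2 → D, n₀ (vact (g * zp p D ^ k)⁻¹ v) =
          ((p : ℝ) ^ (-k) * c)⁻¹ * n₀ v := by
        intro v
        have h1 : n₀ (vact (g * zp p D ^ k) (vact (g * zp p D ^ k)⁻¹ v)) =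
            (p : ℝ) ^ (-k) * c * n₀ (vact (g * zp p D ^ k)⁻¹ v) := by
          rw [vact_mul g, (hg _).1, glt_n0_eq, glt_zp_n1 one_pos, ← glt_n0_eq]
          ring
        rw [vact_inv] at h1
        rw [h1, inv_mul_cancel_left₀ hpos.ne']
      apply glt_entry_le
      intro j
      rw [hinv, (glt_n1_single (D := D) le_rfl j).2, mul_one]
      exact le_trans hk2 (le_max_left _ _)
    · exact Subgroup.zpow_mem_zpowers _ _
    · rw [mul_assoc, ← zpow_add, add_neg_cancel, zpow_zero, mul_one]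
  · obtain ⟨k, hk1, hk2⟩ := glt_exists_k p hc
    have hpos : 0 < (p : ℝ) ^ (-k) * c := mul_pos (zpow_pos (by linarith) _) hc
    refine Set.mem_mul.2 ⟨g * zp p D ^ k, ⟨?_, ?_⟩, zp p D ^ (-k), ?_, ?_⟩
    · apply glt_entry_le
      intro j
      rw [vact_mul, (hg _).1, glt_zp_n1 hr0]
      calc c * ((p : ℝ) ^ (-k) * n₁ ‖π‖⁻¹ (Pi.single j 1 : Fin 2 → D))
          = (p : ℝ) ^ (-k) * c * n₁ ‖π‖⁻¹ (Pi.single j 1 : Fin 2 → D) := by ring
        _ ≤ 1 * ‖π‖⁻¹ := mul_le_mul hk1 (glt_n1_single hr1 j).1 (glt_n1_nonneg _) one_pos.le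
        _ ≤ max (p : ℝ) ‖π‖⁻¹ := by rw [one_mul]; exact le_max_right _ _
    · have hinv : ∀ v : Fin 2 → D, n₀ (vact (g * zp p D ^ k)⁻¹ v) =
          ((p : ℝ) ^ (-k) * c)⁻¹ * ‖π‖ * n₁ ‖π‖⁻¹ v := by
        intro v
        have h1 : n₁ ‖π‖⁻¹ (vact (g * zp p D ^ k) (vact (g * zp p D ^ k)⁻¹ v)) =
            (p : ℝ) ^ (-k) * c * ‖π‖⁻¹ * n₀ (vact (g * zp p D ^ k)⁻¹ v) := by
          rw [vact_mul g, (hg _).2, glt_n0_eq, glt_zp_n1 one_pos, ← glt_n0_eq]
          ring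
        rw [vact_inv] at h1
        have hπ0 : ‖π‖ ≠ 0 := norm_ne_zero_iff.2 hπ.ne
        rw [h1]
        field_simp
      apply glt_entry_le
      intro j
      rw [hinv]
      have h2 := (glt_n1_single (D := D) hr1 j).1
      have hπ0 : 0 < ‖π‖ := norm_pos_iff.2 hπ.ne
      calc ((p : ℝ) ^ (-k) * c)⁻¹ * ‖π‖ * n₁ ‖π‖⁻¹ (Pi.single j 1 : Fin 2 → D)
          ≤ ((p : ℝ) ^ (-k) * c)⁻¹ * ‖π‖ * ‖π‖⁻¹ :=
            mul_le_mul_of_nonneg_left h2 (mul_nonneg (inv_nonneg.2 hpos.le) hπ0.le)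
        _ = ((p : ℝ) ^ (-k) * c)⁻¹ := by field_simp
        _ ≤ max (p : ℝ) ‖π‖⁻¹ := le_trans hk2 (le_max_left _ _)
    · exact Subgroup.zpow_mem_zpowers _ _
    · rw [mul_assoc, ← zpow_add, add_neg_cancel, zpow_zero, mul_one]

end Emt
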