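import Pool.Agent.Emt.Fn1

/-!
# Emt, module Glue1: restriction of function spaces to open subgroups; an automorphism

PROOFS.
* `fn_res_iso`: `f ↦ (i ↦ (q ↦ f (q.out * j i)))`, `q ∈ K ⧸ range j`.  The inverse maps `F` to
  `x ↦ F i q`, `q` the class of `x`, `j i = q.out⁻¹ x`.  The functions are locally constant since
  `j` is an open embedding and the cosets are open (there are finitely many cosets, `K` is
  compact).
* `exists_common`: `Q₁ = K₁ ⧸ range j₁`, `Q₂ = K₂ ⧸ range j₂` are finite; `X₁ = Fin N × Q₂`,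
  `X₂ = Fin N × Q₁`; both sides are isomorphic over `I` to
  `Fn C I ((Q₁ × Fin N × Q₂) → C)` (`fn_res_iso` and reindexing).  (`Q₁`, `Q₂` nonempty, so the
  cardinalities are at least `N`.)
* `exists_auto`: by injectivity there are equivariant `b, a : E → E` with `b (α v) = β v` and
  `a (β v) = α v` (extend `β` along `α` and `α` along `β`).  `θ` is the composition of
  `(x, y) ↦ (x, y + b x)` and `(x, y) ↦ (x - a y, y)`:
  `(α v, 0) ↦ (α v, β v) ↦ (0, β v)`.
-/

open Topology Set

namespace Emt

/-- a function with values in a finite product is locally constant as soon as its coordinates are -/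
theorem isLocallyConstant_pi {X Q Y : Type} [TopologicalSpace X] [Finite Q] {f : X → Q → Y}
    (h : ∀ q, IsLocallyConstant fun x => f x q) : IsLocallyConstant f := by
  rw [IsLocallyConstant.iff_eventually_eq]
  intro x
  have h1 : ∀ᶠ y in 𝓝 x, ∀ q, f y q = f x q :=
    Filter.eventually_all.mpr fun q => (IsLocallyConstant.iff_eventually_eq _).mp (h q) x
  filter_upwards [h1] with y hy
  exact funext hy

theorem finite_quot_range {K I : Type} [Group K] [TopologicalSpace K]
    [IsTopologicalGroup K] [CompactSpace K] [Group I] [TopologicalSpace I] {j : I →* K}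
    (hj : IsOpenEmbedding j) : Finite (K ⧸ j.range) := by
  apply Subgroup.quotient_finite_of_isOpen
  rw [MonoidHom.coe_range]
  exact hj.isOpen_range

theorem fn_res_iso {C : Type} [Field C] {K I : Type} [Group K] [TopologicalSpace K]
    [IsTopologicalGroup K] [CompactSpace K] [Group I] [TopologicalSpace I] [IsTopologicalGroup I] (j : I →* K)
    (hj : IsOpenEmbedding j) (W : Type) [AddCommGroup W] [Module C W] :
    ∃ e : Fn C K W ≃ₗ[C] Fn C I ((K ⧸ j.range) → W),
      ∀ i f, e (fnRep C K W (j i) f) = fnRep C I ((K ⧸ j.range) → W) i (e f) := by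
  have hfin : Finite (K ⧸ j.range) := finite_quot_range hj
  -- the linear map
  obtain ⟨E, hE⟩ : ∃ E : Fn C K W →ₗ[C] Fn C I ((K ⧸ j.range) → W),
      ∀ f i q, (E f).1 i q = f.1 (q.out * j i) := by
    refine ⟨{ toFun := fun f => ⟨fun i q => f.1 (q.out * j i), ?_⟩
              map_add' := fun _ _ => rfl
              map_smul' := fun _ _ => rfl }, fun _ _ _ => rfl⟩
    exact isLocallyConstant_pi fun q => f.2.comp_continuous
      ((continuous_const_mul q.out).comp hj.continuous)
  -- the decomposition of the elements of `K`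
  have hr : ∀ x : K, ∃ i : I, x = (QuotientGroup.mk x : K ⧸ j.range).out * j i := by
    intro x
    have h1 : (QuotientGroup.mk (QuotientGroup.mk x : K ⧸ j.range).out : K ⧸ j.range) =
        QuotientGroup.mk x := QuotientGroup.out_eq' _
    rw [QuotientGroup.eq] at h1
    obtain ⟨i, hi⟩ := h1
    exact ⟨i, by rw [hi, mul_inv_cancel_left]⟩
  have hmk : ∀ (q : K ⧸ j.range) (i : I), (QuotientGroup.mk (q.out * j i) : K ⧸ j.range) = q := by
    intro q i
    have h1 : (QuotientGroup.mk q.out : K ⧸ j.range) = q := QuotientGroup.out_eq' q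
    conv_rhs => rw [← h1]
    rw [eq_comm, QuotientGroup.eq, inv_mul_cancel_left]
    exact ⟨i, rfl⟩
  choose r hr using hr
  have hrj : ∀ (q : K ⧸ j.range) (i : I), r (q.out * j i) = i := by
    intro q i
    have h1 := hr (q.out * j i)
    rw [hmk] at h1
    exact (hj.injective (mul_left_cancel h1)).symm
  have hinj : Function.Injective E := by
    rw [injective_iff_map_eq_zero]
    intro f hf
    apply Subtype.ext
    funext x
    have h1 : (E f).1 (r x) (QuotientGroup.mk x) = 0 := by rw [hf]; rfl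
    rw [hE, ← hr] at h1
    exact h1
  have hsurj : Function.Surjective E := by
    intro F
    have hlc : IsLocallyConstant fun x : K => F.1 (r x) (QuotientGroup.mk x) := by
      rw [IsLocallyConstant.iff_eventually_eq]
      intro x
      have hU : IsOpen {i | F.1 i = F.1 (r x)} := F.2 {y | y = F.1 (r x)}
      have hV : IsOpen ((fun y => (QuotientGroup.mk x : K ⧸ j.range).out * y) '' (j '' {i | F.1 i = F.1 (r x)})) :=
        (isOpenMap_mul_left _) _ (hj.isOpenMap _ hU)
      have hx : x ∈ (fun y => (QuotientGroup.mk x : K ⧸ j.range).out * y) ''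
          (j '' {i | F.1 i = F.1 (r x)}) :=
        ⟨j (r x), ⟨r x, rfl, rfl⟩, (hr x).symm⟩
      filter_upwards [hV.mem_nhds hx] with y hy
      obtain ⟨_, ⟨i, hi, rfl⟩, rfl⟩ := hy
      have hi' : F.1 i = F.1 (r x) := hi
      simp only [hrj, hmk]
      rw [hi']
    refine ⟨⟨fun x => F.1 (r x) (QuotientGroup.mk x), hlc⟩, ?_⟩
    apply Subtype.ext
    funext i q
    rw [hE]
    simp only [hrj, hmk]
  refine ⟨LinearEquiv.ofBijective E ⟨hinj, hsurj⟩, fun i f => ?_⟩
  apply Subtype.ext
  funext i' q
  show (E (fnRep C K W (j i) f)).1 i' q = (E f).1 (i' * i) q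
  rw [hE, hE, fnRep_apply, map_mul, mul_assoc]

/-- composition with a linear equivalence -/
theorem fn_comp_iso {C : Type} [Field C] {I : Type} [Group I] [TopologicalSpace I]
    [IsTopologicalGroup I] {A B : Type} [AddCommGroup A] [Module C A] [AddCommGroup B] [Module C B]
    (φ : A ≃ₗ[C] B) : ∃ e : Fn C I A ≃ₗ[C] Fn C I B,
      ∀ i f, e (fnRep C I A i f) = fnRep C I B i (e f) := by
  refine ⟨{ toFun := fun f => ⟨fun x => φ (f.1 x), f.2.comp φ⟩
            invFun := fun f => ⟨fun x => φ.symm (f.1 x), f.2.comp φ.symm⟩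
            map_add' := ?_
            map_smul' := ?_
            left_inv := ?_
            right_inv := ?_ }, fun i f => rfl⟩
  · intro a b
    apply Subtype.ext
    funext x
    exact map_add φ _ _
  · intro c a
    apply Subtype.ext
    funext x
    exact map_smul φ c _
  · intro a
    apply Subtype.ext
    funext x
    exact φ.symm_apply_apply _
  · intro a
    apply Subtype.ext
    funext x
    exact φ.apply_symm_apply _

theorem exists_common {C : Type} [Field C] {K₁ K₂ I : Type} [Group K₁] [TopologicalSpace K₁]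
    [IsTopologicalGroup K₁] [CompactSpace K₁] [Group K₂] [TopologicalSpace K₂]
    [IsTopologicalGroup K₂] [CompactSpace K₂] [Group I] [TopologicalSpace I]
    [IsTopologicalGroup I] (j₁ : I →* K₁) (hj₁ : IsOpenEmbedding j₁) (j₂ : I →* K₂)
    (hj₂ : IsOpenEmbedding j₂) (N : ℕ) :
    ∃ (X₁ X₂ : Type) (_ : Fintype X₁) (_ : Fintype X₂)
      (ε : Fn C K₁ (X₁ → C) ≃ₗ[C] Fn C K₂ (X₂ → C)),
      N ≤ Fintype.card X₁ ∧ N ≤ Fintype.card X₂ ∧
      ∀ i f, ε (fnRep C K₁ (X₁ → C) (j₁ i) f) = fnRep C K₂ (X₂ → C) (j₂ i) (ε f) := by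
  have hf₁ : Finite (K₁ ⧸ j₁.range) := finite_quot_range hj₁
  have hf₂ : Finite (K₂ ⧸ j₂.range) := finite_quot_range hj₂
  let i₁ : Fintype (K₁ ⧸ j₁.range) := Fintype.ofFinite _
  let i₂ : Fintype (K₂ ⧸ j₂.range) := Fintype.ofFinite _
  obtain ⟨e₁, he₁⟩ := fn_res_iso (C := C) j₁ hj₁ (Fin N × (K₂ ⧸ j₂.range) → C)
  obtain ⟨e₂, he₂⟩ := fn_res_iso (C := C) j₂ hj₂ (Fin N × (K₁ ⧸ j₁.range) → C)
  obtain ⟨e₃, he₃⟩ := fn_comp_iso (C := C) (I := I)
    (A := (K₁ ⧸ j₁.range) → Fin N × (K₂ ⧸ j₂.range) → C)
    (B := (K₂ ⧸ j₂.range) → Fin N × (K₁ ⧸ j₁.range) → C)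
    { toFun := fun F q p => F p.2 (p.1, q)
      invFun := fun F q p => F p.2 (p.1, q)
      map_add' := fun _ _ => rfl
      map_smul' := fun _ _ => rfl
      left_inv := fun _ => rfl
      right_inv := fun _ => rfl }
  refine ⟨Fin N × (K₂ ⧸ j₂.range), Fin N × (K₁ ⧸ j₁.range), inferInstance, inferInstance,
    (e₁.trans e₃).trans e₂.symm, ?_, ?_, ?_⟩
  · rw [Fintype.card_prod, Fintype.card_fin]
    exact Nat.le_mul_of_pos_right N Fintype.card_pos
  · rw [Fintype.card_prod, Fintype.card_fin]
    exact Nat.le_mul_of_pos_right N Fintype.card_pos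
  · intro i f
    apply e₂.injective
    rw [he₂]
    simp only [LinearEquiv.trans_apply, LinearEquiv.apply_symm_apply]
    rw [he₁, he₃]

theorem exists_auto {C : Type} [Field C] {I : Type} [Group I] [TopologicalSpace I]
    [IsTopologicalGroup I] {V E : Type} [AddCommGroup V] [Module C V] [AddCommGroup E]
    [Module C E] {ρ : Representation C I V} {η : Representation C I E} (hρ : IsSmooth ρ)
    (hη : SmoothInj η) {α β : V →ₗ[C] E} (hα : Equi ρ η α) (hβ : Equi ρ η β)
    (hαi : Function.Injective α) (hβi : Function.Injective β) :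
    ∃ θ : (E × E) ≃ₗ[C] (E × E), (∀ i x, θ (prodRep η η i x) = prodRep η η i (θ x)) ∧
      ∀ v, θ (α v, 0) = (0, β v) := by
  obtain ⟨b, hb, hb'⟩ := hη.2 V E ρ η hρ hη.1 α hα hαi β hβ
  obtain ⟨a, ha, ha'⟩ := hη.2 V E ρ η hρ hη.1 β hβ hβi α hα
  refine ⟨{ toFun := fun x => (x.1 - a (x.2 + b x.1), x.2 + b x.1)
            invFun := fun x => (x.1 + a x.2, x.2 - b (x.1 + a x.2))
            map_add' := ?_
            map_smul' := ?_
            left_inv := ?_
            right_inv := ?_ }, ?_, ?_⟩
  · intro x y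
    ext
    · simp only [Prod.fst_add, Prod.snd_add, map_add]
      abel
    · simp only [Prod.fst_add, Prod.snd_add, map_add]
      abel
  · intro c x
    ext
    · simp only [Prod.smul_fst, Prod.smul_snd, map_smul, RingHom.id_apply, map_add, smul_sub,
        smul_add]
    · simp only [Prod.smul_fst, Prod.smul_snd, map_smul, RingHom.id_apply, smul_add]
  · intro x
    ext
    · simp
    · simp
  · intro x
    ext
    · simp
    · simp
  · intro i x
    show ((η i x.1) - a (η i x.2 + b (η i x.1)), η i x.2 + b (η i x.1)) =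
      (η i (x.1 - a (x.2 + b x.1)), η i (x.2 + b x.1))
    rw [hb, ← map_add, ha, ← map_sub]
  · intro v
    show (α v - a (0 + b (α v)), 0 + b (α v)) = (0, β v)
    rw [zero_add, hb', ha', sub_self]

end Emt
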