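import Pool.Agent.Emt.NDefs
import Pool.Agent.Emt.Fn1

/-!
# Emt, module NInd: the property `QFin` passes to closed subgroups

PROOF of `QFin.subgroup`.  Let `ρ` be a smooth representation of `H` on `V` with finite dimensional
space of fixed vectors, `W` a subrepresentation, `Q = V / W`.  Let
`I(V) = {F : K → V | F locally constant, F (h x) = ρ h (F x) for h ∈ H, x ∈ K}`, with `K` acting
by right translations: a smooth representation (`fn_smooth`: `I(V)` is a subrepresentation of
`fnRep C K V`).  Its `K`-fixed vectors are the constant functions with values in `V^H`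
(`F x = F 1`), so `F ↦ F 1` embeds them in `V^H`, finite dimensional.  `I(W) = {F ∈ I(V) | F x ∈ W}`
is a subrepresentation, so by `QFin C K` the space `(I(V)/I(W))^K` is finite dimensional.  The linear
map `I(V)/I(W) → Q`, `F ↦ F 1 mod W`, maps `(I(V)/I(W))^K` onto a finite dimensional space, and it is
enough to show that this space contains `Q^H`.  Let `q ∈ Q^H`, `v ∈ V` a lift.  There is an open
normal subgroup `N` of `K` such that `H ∩ N` fixes `v` (`hb`, `exists_normal_le`).  `HN` is a
subgroup; for `x ∈ K` let `s x` be a representative of the right coset `(HN) x`; `x (s x)⁻¹ ∈ HN`;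
choose `h x ∈ H` with `x (s x)⁻¹ ∈ (h x) N` and put `F x = ρ (h x) v`.  As `h x` is determined
modulo `H ∩ N`, `F (h' x) = ρ h' (F x)` and `F (x n) = F x` for `n ∈ N` (`N` is normal:
`x n (s x)⁻¹ = x (s x)⁻¹ n'`).  So `F ∈ I(V)`, and `F x mod W = (h x) q = q` for all `x`; so
`F mod I(W)` is `K`-fixed (`F (x g) - F x ∈ W`), and it maps to `q`.
* `QFin.congr`: transport along an isomorphism of topological groups.
-/

open Topology Set

namespace Emt

variable {C : Type} [Field C] {K : Type} [Group K] [TopologicalSpace K] [IsTopologicalGroup K]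
  [CompactSpace K]

private theorem fin_fix_of_inj {H : Type} [Group H] {V A : Type} [AddCommGroup V] [Module C V]
    [AddCommGroup A] [Module C A] {ρ : Representation C H V} {τ : Representation C K A}
    (f : A →ₗ[C] V) (hf : ∀ a ∈ fix τ ⊤, f a ∈ fix ρ ⊤) (hinj : ∀ a ∈ fix τ ⊤, f a = 0 → a = 0)
    [FiniteDimensional C (fix ρ ⊤)] : FiniteDimensional C (fix τ ⊤) := by
  let g : fix τ ⊤ →ₗ[C] fix ρ ⊤ := (f.comp (fix τ ⊤).subtype).codRestrict (fix ρ ⊤)
    (fun a => hf a.1 a.2)
  refine FiniteDimensional.of_injective g ?_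
  rw [← LinearMap.ker_eq_bot, LinearMap.ker_eq_bot']
  intro a ha
  exact Subtype.ext (hinj a.1 a.2 (congrArg Subtype.val ha))

private theorem fin_of_lift {H : Type} [Group H] {V A : Type} [AddCommGroup V] [Module C V]
    [AddCommGroup A] [Module C A] {ρ : Representation C H V} {τ : Representation C K A}
    (e : A →ₗ[C] V) {W : Submodule C V} (hW : IsSub ρ W) {I : Submodule C A} (hI : IsSub τ I)
    (hle : ∀ a ∈ I, e a ∈ W)
    (hs : ∀ v, (∀ h, ρ h v - v ∈ W) → ∃ a : A, (∀ g, τ g a - a ∈ I) ∧ e a - v ∈ W)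
    (hfin : FiniteDimensional C (fix (quotRep τ I hI) ⊤)) :
    FiniteDimensional C (fix (quotRep ρ W hW) ⊤) := by
  have hker : I ≤ LinearMap.ker (W.mkQ.comp e) := by
    intro a ha
    rw [LinearMap.mem_ker, LinearMap.comp_apply, Submodule.mkQ_apply,
      Submodule.Quotient.mk_eq_zero]
    exact hle a ha
  have hle2 : fix (quotRep ρ W hW) ⊤ ≤ (fix (quotRep τ I hI) ⊤).map (I.liftQ (W.mkQ.comp e) hker) := by
    intro q hq
    obtain ⟨v, rfl⟩ := W.mkQ_surjective q
    have hv : ∀ h, ρ h v - v ∈ W := by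
      intro h
      rw [← Submodule.Quotient.mk_eq_zero, ← Submodule.mkQ_apply, map_sub, sub_eq_zero]
      exact hq h trivial
    obtain ⟨a, ha, hav⟩ := hs v hv
    refine ⟨I.mkQ a, ?_, ?_⟩
    · intro g _
      rw [quotRep_mk, ← sub_eq_zero, ← map_sub, Submodule.mkQ_apply,
        Submodule.Quotient.mk_eq_zero]
      exact ha g
    · show W.mkQ (e a) = W.mkQ v
      rw [← sub_eq_zero, ← map_sub, Submodule.mkQ_apply, Submodule.Quotient.mk_eq_zero]
      exact hav
  exact Submodule.finiteDimensional_of_le hle2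

/-- The induced representation: the `H`-equivariant functions. -/
private def ind {H : Subgroup K} {V : Type} [AddCommGroup V] [Module C V]
    (ρ : Representation C H V) : Submodule C (Fn C K V) where
  carrier := {F | ∀ (h : H) (x : K), F.1 ((h : K) * x) = ρ h (F.1 x)}
  add_mem' := by
    intro a b ha hb h x
    show a.1 ((h : K) * x) + b.1 ((h : K) * x) = ρ h (a.1 x + b.1 x)
    rw [map_add, ha h x, hb h x]
  zero_mem' := by
    intro h x
    show (0 : V) = ρ h 0
    rw [map_zero]
  smul_mem' := by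
    intro k a ha h x
    show k • a.1 ((h : K) * x) = ρ h (k • a.1 x)
    rw [map_smul, ha h x]

private theorem isSub_ind {H : Subgroup K} {V : Type} [AddCommGroup V] [Module C V]
    (ρ : Representation C H V) : IsSub (fnRep C K V) (ind ρ) := by
  intro g F hF h x
  rw [fnRep_apply, fnRep_apply, mul_assoc]
  exact hF h (x * g)

/-- the functions with values in `W` -/
private def indW {H : Subgroup K} {V : Type} [AddCommGroup V] [Module C V]
    (ρ : Representation C H V) (W : Submodule C V) : Submodule C (ind (K := K) ρ) where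
  carrier := {F | ∀ x, F.1.1 x ∈ W}
  add_mem' := fun ha hb x => W.add_mem (ha x) (hb x)
  zero_mem' := fun _ => W.zero_mem
  smul_mem' := fun k _ ha x => W.smul_mem k (ha x)

private theorem isSub_indW {H : Subgroup K} {V : Type} [AddCommGroup V] [Module C V]
    (ρ : Representation C H V) (W : Submodule C V) :
    IsSub (V := ind (K := K) ρ) (subRep (fnRep C K V) (ind ρ) (isSub_ind ρ)) (indW ρ W) := by
  intro g F hF x
  rw [subRep_apply, fnRep_apply]
  exact hF (x * g)

/-- evaluation at `1` -/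
private def ev {H : Subgroup K} {V : Type} [AddCommGroup V] [Module C V]
    (ρ : Representation C H V) : ind (K := K) ρ →ₗ[C] V where
  toFun F := F.1.1 1
  map_add' _ _ := rfl
  map_smul' _ _ := rfl

private theorem ind_key {H : Subgroup K} {V : Type} [AddCommGroup V] [Module C V]
    (ρ : Representation C H V) :
    ∀ F ∈ fix (V := ind (K := K) ρ) (subRep (fnRep C K V) (ind ρ) (isSub_ind ρ)) ⊤,
      ∀ x : K, F.1.1 x = F.1.1 1 := by
  intro F hF x
  have h1 := hF x trivial
  have h2 := congrArg (fun G : ind (K := K) ρ => G.1.1 1) h1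
  have h3 : F.1.1 (1 * x) = F.1.1 1 := h2
  rwa [one_mul] at h3

private theorem ind_key1 {H : Subgroup K} {V : Type} [AddCommGroup V] [Module C V]
    (ρ : Representation C H V) :
    ∀ F ∈ fix (V := ind (K := K) ρ) (subRep (fnRep C K V) (ind ρ) (isSub_ind ρ)) ⊤,
      ev ρ F ∈ fix ρ ⊤ := by
  intro F hF h _
  show ρ h (F.1.1 1) = F.1.1 1
  have h1 := F.2 h 1
  rw [mul_one, ind_key ρ F hF] at h1
  exact h1.symm

private theorem ind_key2 {H : Subgroup K} {V : Type} [AddCommGroup V] [Module C V]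
    (ρ : Representation C H V) :
    ∀ F ∈ fix (V := ind (K := K) ρ) (subRep (fnRep C K V) (ind ρ) (isSub_ind ρ)) ⊤,
      ev ρ F = 0 → F = 0 := by
  intro F hF h0
  apply Subtype.ext
  apply Subtype.ext
  funext x
  rw [ind_key ρ F hF]
  exact h0

/-- The construction of the lift. -/
private theorem exists_lift (hb : OpenBasis K) {H : Subgroup K} {V : Type} [AddCommGroup V]
    [Module C V] {ρ : Representation C H V} (hρ : IsSmooth ρ) {W : Submodule C V} (v : V)
    (hv : ∀ h, ρ h v - v ∈ W) :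
    ∃ F : ind (K := K) ρ, (∀ x, F.1.1 x - v ∈ W) := by
  -- the open normal subgroup `N`
  obtain ⟨t, ht, ht'⟩ := isOpen_induced_iff.1 (hρ v)
  have h1t : (1 : K) ∈ t := by
    have : (1 : H) ∈ (Subtype.val ⁻¹' t : Set H) := by
      rw [ht']
      show ρ 1 v = v
      exact rep_one_apply ρ v
    exact this
  obtain ⟨U, hU, hUt⟩ := hb t (ht.mem_nhds h1t)
  obtain ⟨N, hN, hNo, hNU⟩ := exists_normal_le hU
  have hstab : ∀ h : H, (h : K) ∈ N → ρ h v = v := by
    intro h hh
    have : h ∈ (Subtype.val ⁻¹' t : Set H) := hUt (hNU hh)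
    rw [ht'] at this
    exact this
  -- representatives
  let r : K → K := fun x =>
    Quotient.out (Quotient.mk (QuotientGroup.rightRel (H ⊔ N)) x)
  have hr1 : ∀ x, x * (r x)⁻¹ ∈ H ⊔ N := by
    intro x
    have h1 : (QuotientGroup.rightRel (H ⊔ N)).r (r x) x := Quotient.exact (Quotient.out_eq _)
    exact QuotientGroup.rightRel_apply.1 h1
  have hr2 : ∀ x y, y ∈ H ⊔ N → r (y * x) = r x := by
    intro x y hy
    have h1 : (Quotient.mk (QuotientGroup.rightRel (H ⊔ N)) (y * x)) =
        Quotient.mk (QuotientGroup.rightRel (H ⊔ N)) x := by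
      apply Quotient.sound
      show (QuotientGroup.rightRel (H ⊔ N)).r (y * x) x
      apply QuotientGroup.rightRel_apply.2
      rw [mul_inv_rev, ← mul_assoc, mul_inv_cancel, one_mul]
      exact inv_mem hy
    exact congrArg Quotient.out h1
  have hdec : ∀ x, ∃ a : H, ∃ n ∈ N, x * (r x)⁻¹ = (a : K) * n := by
    intro x
    have h1 : x * (r x)⁻¹ ∈ ((H ⊔ N : Subgroup K) : Set K) := hr1 x
    rw [Subgroup.mul_normal] at h1
    obtain ⟨a, ha, n, hn, han⟩ := h1
    exact ⟨⟨a, ha⟩, n, hn, han.symm⟩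
  choose a n hn han using hdec
  have key : ∀ (x : K) (b : H) (m : K), m ∈ N → x * (r x)⁻¹ = (b : K) * m →
      ρ (a x) v = ρ b v := by
    intro x b m hm hbm
    have h1 : (a x : K) * n x = b * m := by rw [← han, hbm]
    have h2 : (((a x)⁻¹ * b : H) : K) = n x * m⁻¹ := by
      push_cast
      rw [eq_mul_inv_iff_mul_eq, mul_assoc, ← h1, ← mul_assoc, inv_mul_cancel, one_mul]
    have h3 : ρ ((a x)⁻¹ * b) v = v := by
      apply hstab
      rw [h2]
      exact N.mul_mem (hn x) (N.inv_mem hm)
    calc ρ (a x) v = ρ (a x) (ρ ((a x)⁻¹ * b) v) := by rw [h3]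
      _ = ρ (a x * ((a x)⁻¹ * b)) v := (rep_mul_apply ρ _ _ v).symm
      _ = ρ b v := by rw [mul_inv_cancel_left]
  have hright : ∀ x, ∀ m ∈ N, ρ (a (x * m)) v = ρ (a x) v := by
    intro x m hm
    have h1 : x * m = (x * m * x⁻¹) * x := by group
    have h2 : r (x * m) = r x := by
      rw [h1]
      exact hr2 x _ (Subgroup.mem_sup_right (hN.conj_mem m hm x))
    apply key (x * m) (a x) (n x * (r x * m * (r x)⁻¹))
    · exact N.mul_mem (hn x) (hN.conj_mem m hm _)
    · rw [h2, ← mul_assoc, ← han]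
      group
  have hleft : ∀ (b : H) (x : K), ρ (a ((b : K) * x)) v = ρ b (ρ (a x) v) := by
    intro b x
    have h2 : r ((b : K) * x) = r x := hr2 x _ (Subgroup.mem_sup_left b.2)
    rw [← rep_mul_apply]
    apply key ((b : K) * x) (b * a x) (n x) (hn x)
    rw [h2, mul_assoc, han]
    push_cast
    rw [mul_assoc]
  have hlc : IsLocallyConstant (fun x : K => ρ (a x) v) := by
    rw [IsLocallyConstant.iff_eventually_eq]
    intro x
    have h1 : (fun y => x⁻¹ * y) ⁻¹' (N : Set K) ∈ 𝓝 x := by
      apply (hNo.preimage (continuous_const_mul x⁻¹)).mem_nhds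
      show x⁻¹ * x ∈ N
      rw [inv_mul_cancel]
      exact N.one_mem
    filter_upwards [h1] with y hy
    have h2 := hright x (x⁻¹ * y) hy
    rwa [mul_inv_cancel_left] at h2
  exact ⟨⟨⟨fun x => ρ (a x) v, hlc⟩, hleft⟩, fun x => hv (a x)⟩

theorem QFin.subgroup (hb : OpenBasis K) (h : QFin C K) {H : Subgroup K}
    (hH : IsClosed (H : Set K)) : QFin C H := by
  have _ := hH
  intro V _ _ ρ hρ hfin W hW
  have hI := h (ind (K := K) ρ) (subRep (fnRep C K V) (ind ρ) (isSub_ind ρ))
    ((fn_smooth hb).sub _ _) (fin_fix_of_inj (A := ind (K := K) ρ) (ρ := ρ) (ev ρ)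
      (ind_key1 ρ) (ind_key2 ρ)) (indW ρ W) (isSub_indW ρ W)
  refine fin_of_lift (A := ind (K := K) ρ) (ev ρ) hW (isSub_indW ρ W) (fun F hF => hF 1) ?_ hI
  intro v hv
  obtain ⟨F, hF⟩ := exists_lift hb hρ v hv
  refine ⟨F, ?_, hF 1⟩
  intro g x
  show F.1.1 (x * g) - F.1.1 x ∈ W
  have h1 := W.sub_mem (hF (x * g)) (hF x)
  rwa [sub_sub_sub_cancel_right] at h1

theorem QFin.congr {G G' : Type} [Group G] [TopologicalSpace G] [Group G'] [TopologicalSpace G']
    (e : G ≃* G') (he : Continuous e) (he' : Continuous e.symm) (h : QFin C G) : QFin C G' := by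
  have _ := he'
  intro V _ _ ρ hρ hfin W hW
  let ρ' : Representation C G V := ρ.comp e.toMonoidHom
  have hap : ∀ g v, ρ' g v = ρ (e g) v := fun _ _ => rfl
  have hs : IsSmooth ρ' := fun v => (hρ v).preimage he
  have hfix : fix ρ' ⊤ = fix ρ ⊤ := by
    apply le_antisymm
    · intro v hv g _
      have h1 := hv (e.symm g) trivial
      rwa [hap, MulEquiv.apply_symm_apply] at h1
    · intro v hv g _
      exact hv (e g) trivial
  have hW' : IsSub ρ' W := fun g v hv => hW (e g) v hv
  have h2 : FiniteDimensional C (fix ρ' ⊤) := by rw [hfix]; exact hfin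
  have h3 := h V ρ' hs h2 W hW'
  have h4 : fix (quotRep ρ W hW) ⊤ ≤ fix (quotRep ρ' W hW') ⊤ := by
    intro q hq g _
    obtain ⟨v, rfl⟩ := W.mkQ_surjective q
    exact hq (e g) trivial
  exact Submodule.finiteDimensional_of_le h4

end Emt
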