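import Pool.Agent.Emt.NMat2

/-!
# Emt, module NMat3: the group `1 + p² M_n(ℤ_p)` satisfies `Unif`

PROOFS.
* `exists_unit`: for `X` and `k ≥ 1` the matrix `1 + p^k X` is invertible: its determinant is
  `≡ 1 mod p` (`Matrix.det` is a polynomial in the entries; reduce modulo `p` by
  `RingHom.map_det` with `PadicInt.toZMod`), so a unit of `ℤ_p`
  (`Matrix.isUnit_iff_isUnit_det`).
* `pow_mod`: for `j ≥ 2`: if `u ∈ GL`, `u = 1 + p^j Y` then `u^p = 1 + p^(j+1) Y + p^(j+2) Z`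
  for some `Z`: `u^p = 1 + p p^j Y + ∑_{l ≥ 2} C(p,l) p^(jl) Y^l`, and `jl ≥ 2j ≥ j + 2` for
  `l ≥ 2` (binomial theorem for the commuting elements `1` and `p^j Y`: `Commute.add_pow`;
  or `u^p - 1 = (u - 1) (∑_{l<p} u^l)` and `u^l = 1 + p^j (...)`, so that
  `∑_{l<p} u^l = p + p^j (∑ l) Y + p^(2j)(...)`, hmm for `p = 2`: `u + 1 = 2 + 2^j Y`, the
  product with `2^j Y` is `2^(j+1) Y + 2^(2j) Y^2`, fine as `2j ≥ j+2`; in general
  `∑_{l<p} u^l ≡ p mod p^j`, `p^j (Y) (p + p^j Z') = p^(j+1) Y + p^(2j) Y Z'` and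
  `2j ≥ j + 2`).
* `pow_pow_mod`: by induction on `s`: if `u = 1 + p^2 Y` then
  `u^(p^s) = 1 + p^(2+s) Y + p^(3+s) Z`.
* the elements `g_ij = 1 + p^2 E_ij` (`E_ij = Matrix.single i j 1`, `d = n * n`,
  `finProdFinEquiv`).  KEY (`cong_le`): let `U` be an open subgroup of `cong p n 2` (as a type) or a
  subgroup `U` of `GL` containing some `cong p n m` and all the `g_ij^(p^s)`.  Then
  `cong p n (2 + s) ≤ U`.  Proof: downward induction: suppose `cong (k+1) ≤ U` with `k ≥ 2 + s`.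
  Let `u = 1 + p^k X ∈ cong k`, choose natural numbers `a_ij` with `a_ij ≡ X_ij mod p`
  (`PadicInt.appr` or `toZMod` and `ZMod.val`).
  `g_ij^(p^(k-2)) = 1 + p^k E_ij + p^(k+1)(...)`, so the product over `(i,j)` (in any order, a list
  product) of the `(g_ij^(p^(k-2)))^(a_ij)` is `≡ 1 + p^k ∑ a_ij E_ij ≡ u mod p^(k+1)`, so it differs
  from `u` by an element of `cong (k+1)`; and it is in `U` as `k - 2 ≥ s`.
* `comm_cong`: the commutators of elements of `cong 2` are in `cong 4`: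
  `g h - h g = (g-1)(h-1) - (h-1)(g-1)` is divisible by `p^4`, and
  `g h g⁻¹ h⁻¹ - 1 = (g h - h g) g⁻¹ h⁻¹`.
* `unif_cong`: `gen` is `cong_le` with `s = 0`, `comm` is `cong_le` with `s = 2` and `comm_cong`.
-/

open Topology Set

namespace Emt

variable (p : ℕ) [Fact p.Prime] (n : ℕ)

theorem NMat3_cong_iff {k : ℕ} {u : (Matrix (Fin n) (Fin n) ℤ_[p])ˣ} :
    u ∈ cong p n k ↔ ∃ X : Matrix (Fin n) (Fin n) ℤ_[p],
      (u : Matrix (Fin n) (Fin n) ℤ_[p]) = 1 + (p : ℤ_[p]) ^ k • X := by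
  rw [mem_cong]
  constructor
  · intro h
    choose X hX using h
    refine ⟨Matrix.of X, ?_⟩
    ext i j
    have h1 := hX i j
    rw [Matrix.sub_apply] at h1
    rw [Matrix.add_apply, Matrix.smul_apply, Matrix.of_apply, smul_eq_mul, ← h1]
    ring
  · rintro ⟨X, hX⟩ i j
    refine ⟨X i j, ?_⟩
    rw [hX, add_sub_cancel_left, Matrix.smul_apply, smul_eq_mul]

theorem exists_unit {k : ℕ} (hk : 1 ≤ k) (X : Matrix (Fin n) (Fin n) ℤ_[p]) :
    ∃ u : (Matrix (Fin n) (Fin n) ℤ_[p])ˣ,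
      (u : Matrix (Fin n) (Fin n) ℤ_[p]) = 1 + (p : ℤ_[p]) ^ k • X := by
  have hdet : IsUnit (1 + (p : ℤ_[p]) ^ k • X).det := by
    have h1 : PadicInt.toZMod (1 + (p : ℤ_[p]) ^ k • X).det = 1 := by
      rw [RingHom.map_det]
      have h2 : PadicInt.toZMod.mapMatrix (1 + (p : ℤ_[p]) ^ k • X) = 1 := by
        ext i j
        rw [RingHom.mapMatrix_apply, Matrix.map_apply, Matrix.add_apply, Matrix.smul_apply,
          map_add, smul_eq_mul, map_mul, map_pow, map_natCast, ZMod.natCast_self,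
          zero_pow (by omega), zero_mul, add_zero]
        by_cases hij : i = j
        · subst hij
          simp
        · simp [Matrix.one_apply_ne hij]
      rw [h2, Matrix.det_one]
    by_contra hn
    have h3 : (1 + (p : ℤ_[p]) ^ k • X).det ∈ IsLocalRing.maximalIdeal ℤ_[p] :=
      (IsLocalRing.mem_maximalIdeal _).2 hn
    rw [← PadicInt.ker_toZMod, RingHom.mem_ker, h1] at h3
    exact one_ne_zero h3
  obtain ⟨u, hu⟩ := (Matrix.isUnit_iff_isUnit_det _).2 hdet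
  exact ⟨u, hu⟩

/-- powers of `1 + p^j W` modulo `p^(2j)` -/
theorem NMat3_powm (j : ℕ) (W : Matrix (Fin n) (Fin n) ℤ_[p]) (m : ℕ) :
    ∃ Z : Matrix (Fin n) (Fin n) ℤ_[p], (1 + (p : ℤ_[p]) ^ j • W) ^ m =
      1 + ((m : ℤ_[p]) * (p : ℤ_[p]) ^ j) • W + ((p : ℤ_[p]) ^ j * (p : ℤ_[p]) ^ j) • Z := by
  induction m with
  | zero =>
    refine ⟨0, ?_⟩
    rw [pow_zero, Nat.cast_zero, zero_mul, zero_smul, smul_zero, add_zero, add_zero]
  | succ m ih =>
    obtain ⟨Z, hZ⟩ := ih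
    refine ⟨(m : ℤ_[p]) • (W * W) + Z + (p : ℤ_[p]) ^ j • (Z * W), ?_⟩
    rw [pow_succ, hZ]
    simp only [add_mul, mul_add, one_mul, mul_one, smul_mul_assoc, mul_smul_comm, smul_smul]
    push_cast
    module

theorem pow_pow_mod {u : Matrix (Fin n) (Fin n) ℤ_[p]} {Y : Matrix (Fin n) (Fin n) ℤ_[p]}
    (h : u = 1 + (p : ℤ_[p]) ^ 2 • Y) (s : ℕ) :
    ∃ Z, u ^ (p ^ s) = 1 + (p : ℤ_[p]) ^ (2 + s) • Y + (p : ℤ_[p]) ^ (3 + s) • Z := by
  induction s with
  | zero =>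
    refine ⟨0, ?_⟩
    rw [pow_zero, pow_one, smul_zero, add_zero, add_zero]
    exact h
  | succ s ih =>
    obtain ⟨Z, hZ⟩ := ih
    have h1 : u ^ (p ^ s) = 1 + (p : ℤ_[p]) ^ (2 + s) • (Y + (p : ℤ_[p]) • Z) := by
      rw [hZ, smul_add, smul_smul, ← pow_succ, add_assoc]
      congr 4
      omega
    obtain ⟨Z', hZ'⟩ := NMat3_powm p n (2 + s) (Y + (p : ℤ_[p]) • Z) p
    refine ⟨Z + (p : ℤ_[p]) ^ s • Z', ?_⟩
    rw [pow_succ, pow_mul, h1, hZ']
    have e1 : (p : ℤ_[p]) * (p : ℤ_[p]) ^ (2 + s) = (p : ℤ_[p]) ^ (2 + (s + 1)) := by ring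
    have e2 : (p : ℤ_[p]) ^ (2 + s) * (p : ℤ_[p]) ^ (2 + s) =
        (p : ℤ_[p]) ^ (3 + (s + 1)) * (p : ℤ_[p]) ^ s := by ring
    have e3 : (p : ℤ_[p]) ^ (3 + (s + 1)) = (p : ℤ_[p]) ^ (2 + (s + 1)) * (p : ℤ_[p]) := by ring
    rw [e1, e2, e3]
    module

theorem comm_cong {g h : (Matrix (Fin n) (Fin n) ℤ_[p])ˣ} (hg : g ∈ cong p n 2)
    (hh : h ∈ cong p n 2) : g * h * g⁻¹ * h⁻¹ ∈ cong p n 4 := by
  obtain ⟨X, hX⟩ := (NMat3_cong_iff p n).1 hg
  obtain ⟨Y, hY⟩ := (NMat3_cong_iff p n).1 hh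
  rw [NMat3_cong_iff]
  refine ⟨(X * Y - Y * X) * ((g⁻¹ * h⁻¹ : (Matrix (Fin n) (Fin n) ℤ_[p])ˣ) :
    Matrix (Fin n) (Fin n) ℤ_[p]), ?_⟩
  have h1 : (g : Matrix (Fin n) (Fin n) ℤ_[p]) * h = h * g + (p : ℤ_[p]) ^ 4 • (X * Y - Y * X) := by
    rw [hX, hY]
    simp only [add_mul, mul_add, one_mul, mul_one, smul_mul_assoc, mul_smul_comm, smul_smul]
    module
  have h2 : ((g * h * g⁻¹ * h⁻¹ : (Matrix (Fin n) (Fin n) ℤ_[p])ˣ) :
      Matrix (Fin n) (Fin n) ℤ_[p]) = ((g : Matrix (Fin n) (Fin n) ℤ_[p]) * h) *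
        ((g⁻¹ * h⁻¹ : (Matrix (Fin n) (Fin n) ℤ_[p])ˣ) : Matrix (Fin n) (Fin n) ℤ_[p]) := by
    push_cast
    rw [mul_assoc ((g : Matrix (Fin n) (Fin n) ℤ_[p]) * h)]
  have h3 : ((h : Matrix (Fin n) (Fin n) ℤ_[p]) * g) *
      ((g⁻¹ * h⁻¹ : (Matrix (Fin n) (Fin n) ℤ_[p])ˣ) : Matrix (Fin n) (Fin n) ℤ_[p]) = 1 := by
    rw [← Units.val_mul, ← Units.val_mul]
    have : h * g * (g⁻¹ * h⁻¹) = 1 := by group
    rw [this, Units.val_one]
  rw [h2, h1, add_mul, h3, smul_mul_assoc]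

/-- the leading terms at level `l + 1` of the elements of `U` -/
def NMat3_lead (U : Subgroup (Matrix (Fin n) (Fin n) ℤ_[p])ˣ) (l : ℕ) :
    AddSubmonoid (Matrix (Fin n) (Fin n) ℤ_[p]) where
  carrier := {X | ∃ v ∈ U, ∃ Z : Matrix (Fin n) (Fin n) ℤ_[p],
    (v : Matrix (Fin n) (Fin n) ℤ_[p]) = 1 + (p : ℤ_[p]) ^ (l + 1) • (X + (p : ℤ_[p]) • Z)}
  zero_mem' := by
    refine ⟨1, U.one_mem, 0, ?_⟩
    rw [smul_zero, add_zero, smul_zero, add_zero, Units.val_one]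
  add_mem' := by
    rintro X Y ⟨v, hv, Z, hZ⟩ ⟨w, hw, T, hT⟩
    refine ⟨v * w, U.mul_mem hv hw, Z + T +
      (p : ℤ_[p]) ^ l • ((X + (p : ℤ_[p]) • Z) * (Y + (p : ℤ_[p]) • T)), ?_⟩
    rw [Units.val_mul, hZ, hT]
    generalize hA : X + (p : ℤ_[p]) • Z = A
    generalize hB : Y + (p : ℤ_[p]) • T = B
    have h1 : X + Y + (p : ℤ_[p]) • (Z + T + (p : ℤ_[p]) ^ l • (A * B)) =
        A + B + (p : ℤ_[p]) ^ (l + 1) • (A * B) := by
      rw [← hA, ← hB, pow_succ]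
      module
    rw [h1]
    simp only [add_mul, mul_add, one_mul, mul_one, smul_mul_assoc, mul_smul_comm, smul_smul,
      smul_add]
    module

theorem NMat3_cong_le (U : Subgroup (Matrix (Fin n) (Fin n) ℤ_[p])ˣ)
    (g : Fin n → Fin n → (Matrix (Fin n) (Fin n) ℤ_[p])ˣ)
    (hg : ∀ i j, (g i j : Matrix (Fin n) (Fin n) ℤ_[p]) =
      1 + (p : ℤ_[p]) ^ 2 • Matrix.single i j 1) {m : ℕ} (hm : cong p n m ≤ U) (s : ℕ)
    (hs : ∀ i j, g i j ^ (p ^ s) ∈ U) : cong p n (2 + s) ≤ U := by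
  -- one step
  have step : ∀ r, cong p n (2 + s + r + 1) ≤ U → cong p n (2 + s + r) ≤ U := by
    intro r hr
    have hE : ∀ i j, Matrix.single i j (1 : ℤ_[p]) ∈ NMat3_lead p n U (1 + s + r) := by
      intro i j
      obtain ⟨Z, hZ⟩ := pow_pow_mod p n (hg i j) (s + r)
      refine ⟨g i j ^ (p ^ (s + r)), ?_, Z, ?_⟩
      · rw [pow_add, pow_mul]
        exact U.pow_mem (hs i j) _
      · rw [Units.val_pow_eq_pow_val, hZ]
        have e1 : 2 + (s + r) = 1 + s + r + 1 := by omega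
        have e2 : 3 + (s + r) = 1 + s + r + 1 + 1 := by omega
        rw [e1, e2, pow_succ (p : ℤ_[p]) (1 + s + r + 1)]
        module
    have hpi : ∀ X : Matrix (Fin n) (Fin n) ℤ_[p],
        (p : ℤ_[p]) • X ∈ NMat3_lead p n U (1 + s + r) := by
      intro X
      refine ⟨1, U.one_mem, -X, ?_⟩
      rw [smul_neg, add_neg_cancel, smul_zero, add_zero, Units.val_one]
    have hcE : ∀ i j (c : ℤ_[p]), Matrix.single i j c ∈ NMat3_lead p n U (1 + s + r) := by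
      intro i j c
      have h1 := PadicInt.appr_spec 1 c
      rw [pow_one, Ideal.mem_span_singleton] at h1
      obtain ⟨d, hd⟩ := h1
      have h2 : Matrix.single i j c = (c.appr 1) • Matrix.single i j (1 : ℤ_[p]) +
          (p : ℤ_[p]) • Matrix.single i j d := by
        rw [Matrix.smul_single, Matrix.smul_single, ← Matrix.single_add, nsmul_eq_mul, mul_one,
          smul_eq_mul, ← hd]
        congr 1
        ring
      rw [h2]
      exact add_mem (nsmul_mem (hE i j) _) (hpi _)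
    intro u hu
    obtain ⟨X, hX⟩ := (NMat3_cong_iff p n).1 hu
    have hXm : X ∈ NMat3_lead p n U (1 + s + r) := by
      rw [Matrix.matrix_eq_sum_single X]
      exact sum_mem fun i _ => sum_mem fun j _ => hcE i j _
    obtain ⟨v, hv, Z, hZ⟩ := hXm
    have h3 : u * v⁻¹ ∈ cong p n (2 + s + r + 1) := by
      rw [NMat3_cong_iff]
      refine ⟨-(Z * ((v⁻¹ : (Matrix (Fin n) (Fin n) ℤ_[p])ˣ) :
        Matrix (Fin n) (Fin n) ℤ_[p])), ?_⟩
      have h4 : (u : Matrix (Fin n) (Fin n) ℤ_[p]) =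
          v - (p : ℤ_[p]) ^ (2 + s + r + 1) • Z := by
        have e1 : 1 + s + r + 1 = 2 + s + r := by omega
        rw [hZ, hX, e1, pow_succ (p : ℤ_[p]) (2 + s + r)]
        module
      rw [Units.val_mul, h4, sub_mul, Units.mul_inv, smul_mul_assoc, smul_neg, sub_eq_add_neg]
    have h5 := U.mul_mem (hr h3) hv
    rwa [inv_mul_cancel_right] at h5
  have all : ∀ q, ∀ r, m ≤ 2 + s + r + q → cong p n (2 + s + r) ≤ U := by
    intro q
    induction q with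
    | zero => intro r hr; exact (cong_anti p n (by omega)).trans hm
    | succ q ih => intro r hr; exact step r (ih (r + 1) (by omega))
  exact all m 0 (by omega)

/-- an open subgroup of `cong p n 2`, seen in `GL`, contains a congruence subgroup -/
theorem NMat3_open {U : Subgroup (cong p n 2)} (hU : IsOpen (U : Set (cong p n 2))) :
    ∃ m, cong p n m ≤ U.map (cong p n 2).subtype := by
  have h1 : IsOpen ((U.map (cong p n 2).subtype : Subgroup (Matrix (Fin n) (Fin n) ℤ_[p])ˣ) :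
      Set (Matrix (Fin n) (Fin n) ℤ_[p])ˣ) := by
    rw [Subgroup.coe_map]
    exact (isOpen_cong p n 2).isOpenMap_subtype_val _ hU
  obtain ⟨k, -, hk⟩ := basis_cong p n (h1.mem_nhds (one_mem _))
  exact ⟨k, hk⟩

theorem unif_cong : ∃ (d : ℕ) (g : Fin d → cong p n 2), Unif p g := by
  choose e he using fun ij : Fin n × Fin n =>
    exists_unit p n (show 1 ≤ 2 by norm_num) (Matrix.single ij.1 ij.2 (1 : ℤ_[p]))
  have hmem : ∀ ij, e ij ∈ cong p n 2 := fun ij => (NMat3_cong_iff p n).2 ⟨_, he ij⟩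
  refine ⟨n * n, fun k => ⟨e (finProdFinEquiv.symm k), hmem _⟩, proP_cong p n (by norm_num),
    ?_, ?_⟩
  · intro U hU hgU
    obtain ⟨m, hm⟩ := NMat3_open p n hU
    have h1 := NMat3_cong_le p n (U.map (cong p n 2).subtype) (fun i j => e (i, j))
      (fun i j => he (i, j)) hm 0 (fun i j => by
        rw [pow_zero, pow_one]
        refine ⟨_, hgU (finProdFinEquiv (i, j)), ?_⟩
        simp)
    rw [eq_top_iff]
    intro x _
    obtain ⟨y, hy, hyx⟩ := h1 x.2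
    have h2 : y = x := Subtype.ext hyx
    rw [← h2]
    exact hy
  · intro U hU hgU i j
    obtain ⟨m, hm⟩ := NMat3_open p n hU
    have h1 := NMat3_cong_le p n (U.map (cong p n 2).subtype) (fun i j => e (i, j))
      (fun i j => he (i, j)) hm 2 (fun i j => by
        refine ⟨_, hgU (finProdFinEquiv (i, j)), ?_⟩
        simp)
    obtain ⟨y, hy, hyx⟩ := h1 (comm_cong p n (hmem (finProdFinEquiv.symm i))
      (hmem (finProdFinEquiv.symm j)))
    have h2 : y = (⟨e (finProdFinEquiv.symm i), hmem _⟩ * ⟨e (finProdFinEquiv.symm j), hmem _⟩ *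
        (⟨e (finProdFinEquiv.symm i), hmem _⟩ : cong p n 2)⁻¹ *
        (⟨e (finProdFinEquiv.symm j), hmem _⟩ : cong p n 2)⁻¹ : cong p n 2) := by
      apply Subtype.ext
      exact hyx
    rw [← h2]
    exact hy

end Emt
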