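import Pool.Agent.Emt.NHil2
import Pool.Agent.Emt.NMat3
import Pool.Agent.Emt.NInd
import Pool.Agent.Emt.Clo

/-!
# Emt, module NLad: `p`-adic Lie groups: quotients of admissible representations are admissible

PROOFS.
* `IsPadicLie.exists_good`: let `f : U → GL_n(ℤ_p)` be the closed embedding.
  `U₁ = f⁻¹ (cong p n 2)` (mapped into `G`) is an open subgroup, isomorphic as a topological group to the
  closed subgroup `f(U) ∩ cong p n 2` of the compact group `cong p n 2`, so it is compact; `IsProP`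
  by `proP_cong`, `IsProP.subgroup`; `OpenBasis` by `openBasis_GL`, `OpenBasis.subgroup`; for a closed
  subgroup `U'` of `U₁` one has `QFin C U'` by `unif_cong`, `qfin_of_unif`, `QFin.subgroup`,
  `QFin.congr`.
* `IsAdm.of_surjective`: let `U''` be a compact open subgroup of `G`; `U' = U'' ⊓ U₁`; `fix σ U''`
  is contained in `fix σ U'`, and `σ` is isomorphic to the quotient of `ρ` by `ker f`
  (`LinearMap.quotKerEquivOfSurjective`), so `QFin C U'` applied to `res ρ U'` gives the
  claim.
* `IsAdmSub.sup`: the sum of two admissible subrepresentations is a quotient of their direct sum.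
* `IsLadm.exists_finite`: induction on the finite set.
* `IsLadm.of_surjective`: the image of an admissible subrepresentation is admissible.
* `IsPadicLie.vproP`: for a compact subgroup `K` of `G`: `K ∩ U₁` is an open subgroup of `K`, contains
  an open normal subgroup `N` of `K` (`exists_normal_le`), pro-`p` by `IsProP.subgroup` for the compact
  group `U₁`.
-/

open Topology Set

namespace Emt

variable {p : ℕ} [Fact p.Prime] {G : Type} [Group G] [TopologicalSpace G] [IsTopologicalGroup G]

private theorem nlad_basis {A B : Type} [Group A] [TopologicalSpace A] [Group B]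
    [TopologicalSpace B] (hb : OpenBasis B) (φ : A →* B) (hφ : IsInducing φ) : OpenBasis A := by
  intro s hs
  rw [hφ.nhds_eq_comap] at hs
  obtain ⟨t, ht, hts⟩ := Filter.mem_comap.1 hs
  rw [map_one] at ht
  obtain ⟨U, hU, hUt⟩ := hb t ht
  refine ⟨U.comap φ, hU.preimage hφ.continuous, fun x hx => hts ?_⟩
  exact hUt hx

private theorem nlad_inv {A B : Type} [Group A] [TopologicalSpace A] [Group B]
    [TopologicalSpace B] (φ : A →* B) (hφ : IsEmbedding φ) :
    ∃ e : φ.range ≃* A, Continuous e ∧ Continuous e.symm := by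
  let e : A ≃* φ.range := MonoidHom.ofInjective hφ.injective
  have he : ∀ a, ((e a : φ.range) : B) = φ a := fun a => rfl
  refine ⟨e.symm, ?_, ?_⟩
  · rw [hφ.isInducing.continuous_iff]
    have h : (φ ∘ e.symm) = Subtype.val := by
      funext x
      rw [Function.comp_apply, ← he, MulEquiv.apply_symm_apply]
    rw [h]
    exact continuous_subtype_val
  · rw [MulEquiv.symm_symm]
    exact Continuous.subtype_mk hφ.continuous _

private theorem nlad_proP {A B : Type} [Group A] [TopologicalSpace A] [Group B]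
    [TopologicalSpace B] [IsTopologicalGroup B] [CompactSpace B] (hB : IsProP p B)
    (hb : OpenBasis B) (φ : A →* B) (hφ : IsEmbedding φ) : IsProP p A := by
  obtain ⟨e, he, -⟩ := nlad_inv φ hφ
  exact (hB.subgroup hb φ.range).map e.toMonoidHom he e.surjective

private theorem nlad_emb {U : Subgroup G} {n : ℕ} {f : U →* (Matrix (Fin n) (Fin n) ℤ_[p])ˣ}
    (hf : IsClosedEmbedding f) {U' : Subgroup G}
    (h : U' ≤ ((cong p n 2).comap f).map U.subtype) (hcl : IsClosed (U' : Set G)) :
    ∃ φ : U' →* cong p n 2, IsClosedEmbedding φ := by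
  have hU : ∀ u ∈ U', u ∈ U := by
    intro u hu
    obtain ⟨x, -, rfl⟩ := h hu
    exact x.2
  have hK : ∀ u (hu : u ∈ U'), f ⟨u, hU u hu⟩ ∈ cong p n 2 := by
    intro u hu
    obtain ⟨x, hx, hxu⟩ := h hu
    have e : (⟨u, hU u hu⟩ : U) = x := Subtype.ext hxu.symm
    rw [e]
    exact hx
  let j : U' →* U := Subgroup.inclusion hU
  have hj : IsClosedEmbedding j := by
    refine ⟨⟨⟨?_⟩, Subgroup.inclusion_injective hU⟩, ?_⟩
    · rw [instTopologicalSpaceSubtype, instTopologicalSpaceSubtype, induced_compose]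
      rfl
    · have e : Set.range j = Subtype.val ⁻¹' (U' : Set G) := by
        ext x
        constructor
        · rintro ⟨y, rfl⟩
          exact y.2
        · intro hx
          exact ⟨⟨x, hx⟩, rfl⟩
      rw [e]
      exact hcl.preimage continuous_subtype_val
  have hfj : IsClosedEmbedding (f ∘ j) := hf.comp hj
  let φ : U' →* cong p n 2 := (f.comp j).codRestrict (cong p n 2) (fun u => hK u.1 u.2)
  have hφ : Subtype.val ∘ φ = f ∘ j := rfl
  refine ⟨φ, ?_⟩
  have hc : IsClosed (cong p n 2 : Set (Matrix (Fin n) (Fin n) ℤ_[p])ˣ) :=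
    Subgroup.isClosed_of_isOpen _ (isOpen_cong p n 2)
  rw [← hc.isClosedEmbedding_subtypeVal.of_comp_iff]
  exact hfj

theorem IsPadicLie.exists_good (hG : IsPadicLie p G) (C : Type) [Field C] [Finite C]
    [CharP C p] : ∃ U : Subgroup G, IsOpen (U : Set G) ∧ IsCompact (U : Set G) ∧ IsProP p U ∧
      OpenBasis U ∧ ∀ U' : Subgroup G, U' ≤ U → IsClosed (U' : Set G) → QFin C U' := by
  obtain ⟨U, n, f, hU, hf⟩ := hG
  have hcomp : CompactSpace (Matrix (Fin n) (Fin n) ℤ_[p])ˣ := compact_GL p n
  have hc : IsClosed (cong p n 2 : Set (Matrix (Fin n) (Fin n) ℤ_[p])ˣ) :=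
    Subgroup.isClosed_of_isOpen _ (isOpen_cong p n 2)
  have hKc : CompactSpace (cong p n 2) := isCompact_iff_compactSpace.1 hc.isCompact
  have hKb : OpenBasis (cong p n 2) := (openBasis_GL p n).subgroup _
  have hKp : IsProP p (cong p n 2) := proP_cong p n (by norm_num)
  let U₁ : Subgroup G := ((cong p n 2).comap f).map U.subtype
  have hU₁ : IsOpen (U₁ : Set G) := by
    rw [Subgroup.coe_map]
    exact hU.isOpenMap_subtype_val _ ((isOpen_cong p n 2).preimage hf.continuous)
  have hU₁c : IsClosed (U₁ : Set G) := Subgroup.isClosed_of_isOpen _ hU₁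
  obtain ⟨φ₁, hφ₁⟩ := nlad_emb hf le_rfl hU₁c
  refine ⟨U₁, hU₁, ?_, nlad_proP hKp hKb φ₁ hφ₁.isEmbedding,
    nlad_basis hKb φ₁ hφ₁.isEmbedding.isInducing, ?_⟩
  · exact isCompact_iff_compactSpace.2 hφ₁.compactSpace
  · intro U' hU' hcl
    obtain ⟨φ, hφ⟩ := nlad_emb hf hU' hcl
    obtain ⟨e, he, he'⟩ := nlad_inv φ hφ.isEmbedding
    obtain ⟨d, g, hg⟩ := unif_cong p n
    have h1 : QFin C (cong p n 2) := qfin_of_unif hg
    have h2 : IsClosed (φ.range : Set (cong p n 2)) := by
      rw [MonoidHom.coe_range]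
      exact hφ.isClosed_range
    exact (h1.subgroup hKb h2).congr e he he'

theorem IsPadicLie.openBasis (hG : IsPadicLie p G) : OpenBasis G := by
  obtain ⟨U, n, f, hU, hf⟩ := hG
  have hb : OpenBasis U := nlad_basis (openBasis_GL p n) f hf.isEmbedding.isInducing
  intro s hs
  have h1 : (Subtype.val : U → G) ⁻¹' s ∈ 𝓝 (1 : U) :=
    continuous_subtype_val.continuousAt.preimage_mem_nhds hs
  obtain ⟨V, hV, hVs⟩ := hb _ h1
  refine ⟨V.map U.subtype, ?_, ?_⟩
  · rw [Subgroup.coe_map]
    exact hU.isOpenMap_subtype_val _ hV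
  · rintro _ ⟨x, hx, rfl⟩
    exact hVs hx

/-- Compact subgroups of `p`-adic Lie groups are virtually pro-`p`. -/
theorem IsPadicLie.vproP (hG : IsPadicLie p G) {K : Subgroup G} (hK : IsCompact (K : Set G)) :
    VProP p K := by
  obtain ⟨U, hU, hUc, hUp, hUb, -⟩ := hG.exists_good (ZMod p)
  have hKc : CompactSpace K := isCompact_iff_compactSpace.1 hK
  have hUc' : CompactSpace U := isCompact_iff_compactSpace.1 hUc
  have h1 : IsOpen ((U.subgroupOf K : Subgroup K) : Set K) := hU.preimage continuous_subtype_val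
  obtain ⟨N, hN, hNo, hNU⟩ := exists_normal_le h1
  refine ⟨N, hN, hNo, ?_⟩
  let ψ : N →* U := (K.subtype.comp N.subtype).codRestrict U (fun x => hNU x.2)
  have hψ : IsEmbedding ψ := by
    have h2 : IsEmbedding ((Subtype.val : K → G) ∘ (Subtype.val : N → K)) :=
      IsEmbedding.subtypeVal.comp IsEmbedding.subtypeVal
    have h3 : (Subtype.val : U → G) ∘ ψ = (Subtype.val : K → G) ∘ (Subtype.val : N → K) := rfl
    rw [← h3] at h2
    exact IsEmbedding.of_comp
      (Continuous.subtype_mk (continuous_subtype_val.comp continuous_subtype_val) _)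
      continuous_subtype_val h2
  exact nlad_proP hUp hUb ψ hψ

theorem IsPadicLie.t2 (hG : IsPadicLie p G) : T2Space G := by
  obtain ⟨U, n, f, hU, hf⟩ := hG
  have hUc : IsClosed (U : Set G) := Subgroup.isClosed_of_isOpen _ hU
  have h0 : T2Space U := hf.isEmbedding.t2Space
  have h1 : IsClosed ({1} : Set U) := isClosed_singleton
  have h2 : IsClosed ({1} : Set G) := by
    have h3 := hUc.isClosedEmbedding_subtypeVal.isClosedMap _ h1
    rwa [Set.image_singleton] at h3
  have h4 : T1Space G := IsTopologicalGroup.t1Space G h2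
  infer_instance

variable {C : Type} [Field C] [Finite C] [CharP C p] {V W : Type} [AddCommGroup V] [Module C V]
  [AddCommGroup W] [Module C W] {ρ : Representation C G V} {σ : Representation C G W}

theorem IsAdm.of_surjective (hG : IsPadicLie p G) (hρ : IsAdm ρ) {f : V →ₗ[C] W}
    (hf : Equi ρ σ f) (hs : Function.Surjective f) : IsAdm σ := by
  refine ⟨hρ.smooth.of_surjective hf hs, ?_⟩
  intro U'' hU'' hU''c
  obtain ⟨U₁, hU₁, hU₁c, -, -, hQ⟩ := hG.exists_good C
  let U' : Subgroup G := U'' ⊓ U₁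
  have hU' : IsOpen (U' : Set G) := by
    rw [Subgroup.coe_inf]
    exact hU''.inter hU₁
  have hU'cl : IsClosed (U' : Set G) := Subgroup.isClosed_of_isOpen _ hU'
  have hU'c : IsCompact (U' : Set G) :=
    hU''c.of_isClosed_subset hU'cl (inf_le_left (a := U'') (b := U₁))
  have h1 : QFin C U' := hQ U' inf_le_right hU'cl
  have h2 : FiniteDimensional C (fix (res ρ U') ⊤) := by
    have h3 : fix (res ρ U') ⊤ = fix ρ U' := by
      apply le_antisymm
      · intro v hv g hg
        exact hv ⟨g, hg⟩ trivial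
      · intro v hv g _
        exact hv g.1 g.2
    rw [h3]
    exact hρ.fin U' hU' hU'c
  have hker : IsSub (res ρ U') (LinearMap.ker f) := fun g v hv => isSub_ker hf g.1 v hv
  have h3 := h1 V (res ρ U') (hρ.smooth.res U') h2 (LinearMap.ker f) hker
  have h4 : FiniteDimensional C (fix σ U') := by
    refine emb_finDim h3 (f.quotKerEquivOfSurjective hs).symm.toLinearMap ?_ ?_
    · intro w _ hw
      exact (LinearEquiv.map_eq_zero_iff _).1 hw
    · intro w hw g _
      obtain ⟨v, rfl⟩ := hs w
      have e : (f.quotKerEquivOfSurjective hs).symm.toLinearMap (f v) =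
          (LinearMap.ker f).mkQ v := by
        rw [LinearEquiv.coe_coe, LinearEquiv.symm_apply_eq]
        rfl
      rw [e, quotRep_mk]
      have h5 : f (ρ g.1 v) = f v := by
        rw [hf]
        exact hw g.1 g.2
      rw [Submodule.mkQ_apply, Submodule.mkQ_apply, Submodule.Quotient.eq, LinearMap.mem_ker,
        res_apply, map_sub, h5, sub_self]
  exact Submodule.finiteDimensional_of_le (fix_anti σ (inf_le_left (a := U'') (b := U₁)))

theorem IsAdmSub.map (hG : IsPadicLie p G) (hρ : IsSmooth ρ) {M : Submodule C V}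
    (hM : IsAdmSub ρ M) {f : V →ₗ[C] W} (hf : Equi ρ σ f) : IsAdmSub σ (M.map f) := by
  have h1 := isAdm_subRep hρ hM
  have h2 : IsSub σ (M.map f) := isSub_map hf hM.sub
  let g : M →ₗ[C] (M.map f : Submodule C W) :=
    (f ∘ₗ M.subtype).codRestrict (M.map f) (fun v => ⟨v.1, v.2, rfl⟩)
  have hg : Equi (subRep ρ M hM.sub) (subRep σ (M.map f) h2) g := by
    intro x v
    apply Subtype.ext
    exact hf x v.1
  have hs : Function.Surjective g := by
    rintro ⟨_, v, hv, rfl⟩
    exact ⟨⟨v, hv⟩, rfl⟩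
  exact IsAdmSub.of_isAdm h2 (h1.of_surjective hG hg hs)

private theorem nlad_top (hρ : IsAdm ρ) : IsAdmSub ρ ⊤ := by
  refine ⟨isSub_top, ?_⟩
  intro U hU hU'
  have h1 := hρ.fin U hU hU'
  exact Submodule.finiteDimensional_of_le inf_le_right

theorem IsAdmSub.sup (hG : IsPadicLie p G) (hρ : IsSmooth ρ) {M N : Submodule C V}
    (hM : IsAdmSub ρ M) (hN : IsAdmSub ρ N) : IsAdmSub ρ (M ⊔ N) := by
  have h1 := (isAdm_subRep hρ hM).prod (isAdm_subRep hρ hN)
  have h2 : Equi (prodRep (subRep ρ M hM.sub) (subRep ρ N hN.sub)) ρ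
      (M.subtype.coprod N.subtype) := by
    rintro g ⟨v, w⟩
    simp [map_add]
  have h3 := (nlad_top h1).map hG h1.smooth h2
  rw [Submodule.map_top, LinearMap.range_coprod, Submodule.range_subtype,
    Submodule.range_subtype] at h3
  exact h3

theorem IsLadm.exists_finite (hG : IsPadicLie p G) (hρ : IsLadm ρ) {F : Set V}
    (hF : F.Finite) : ∃ M : Submodule C V, F ⊆ M ∧ IsAdmSub ρ M := by
  induction F, hF using Set.Finite.induction_on with
  | empty =>
    refine ⟨⊥, Set.empty_subset _, ?_, ?_⟩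
    · intro g v hv
      rw [Submodule.mem_bot] at hv ⊢
      rw [hv, map_zero]
    · intro U _ _
      rw [bot_inf_eq]
      infer_instance
  | insert _ _ ih =>
    rename_i a s _ _
    obtain ⟨M, hM, hM'⟩ := ih
    obtain ⟨N, hN, hN'⟩ := hρ.loc a
    refine ⟨M ⊔ N, ?_, hM'.sup hG hρ.smooth hN'⟩
    rw [Set.insert_subset_iff]
    exact ⟨Submodule.mem_sup_right hN, fun x hx => Submodule.mem_sup_left (hM hx)⟩

theorem IsLadm.of_surjective (hG : IsPadicLie p G) (hρ : IsLadm ρ) {f : V →ₗ[C] W}
    (hf : Equi ρ σ f) (hs : Function.Surjective f) : IsLadm σ := by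
  refine ⟨hρ.smooth.of_surjective hf hs, ?_⟩
  intro w
  obtain ⟨v, rfl⟩ := hs w
  obtain ⟨M, hM, hM'⟩ := hρ.loc v
  exact ⟨M.map f, ⟨v, hM, rfl⟩, hM'.map hG hρ.smooth hf⟩

end Emt
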