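import Pool.Agent.Emt.Glue1
import Pool.Agent.Emt.NLad

/-!
# Emt, module Glue2: the gluing theorem for amalgams

PROOF of `exists_glue`.  Let `U` be a compact open pro-`p` subgroup of `G`
(`IsPadicLie.exists_good`).  For `a = 1, 2` the group `K_a` is compact, `U ∩ K_a` is an open pro-`p`
subgroup of `K_a` (`IsProP.subgroup`), and `fix (res ρ K_a) (U ∩ K_a)` is finite dimensional (admissibility; `U ∩ K_a` is a
compact open subgroup of `G`).  Let `N` be the maximum of the two dimensions, `I = K₁ ⊓ K₂`, `j_a`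
the inclusion of `I` in `K_a` (an open embedding), and `X₁, X₂, ε` as in `exists_common`;
`E_a = Fn C K_a (X_a → C)`.  `exists_emb_adm` gives injective equivariant maps `α : V → E₁` for
`K₁`, `γ : V → E₂` for `K₂`.  Put `β = ε⁻¹ ∘ γ : V → E₁`, `I`-equivariant, as is `α`.  The
representation `η` of `I` on `E₁` is a `SmoothInj` (it is, by `fn_res_iso`, isomorphic to a
`fnRep C I _`, `fn_smoothInj`).  Let `θ` be as in `exists_auto`.
`Ω = E₁ × E₁`.  `K₁` acts by `r₁ = prodRep (fnRep C K₁ _) (fnRep C K₁ _)`, and `K₂` acts by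
transport of structure: `r₂ k = Θ⁻¹ ∘ (prodRep (fnRep C K₂ _) (fnRep C K₂ _) k) ∘ Θ`,
`Θ = (ε × ε) ∘ θ : Ω → E₂ × E₂`.  The two actions agree on `I`.  By the amalgam property (with the
group `Ω ≃ₗ[C] Ω`, or the units of `Module.End C Ω`) there is `σ : G →* (Ω ≃ₗ[C] Ω)` which restricts to
`r₁` and `r₂`.  The map `i v = (α v, 0)` is equivariant for `K₁`, and for `K₂`
because `Θ (i v) = (ε × ε) (0, β v) = (0, γ v)`; so it is equivariant (`equi_of_gen`).
`σ` is smooth: stabilisers contain open subgroups of `K₁`, open in `G`.  `IsAdm`: for `U'` compact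
open in `G` the vectors fixed by `U'` are fixed by `U' ∩ K₁`, an open subgroup of `K₁`
(`fn_fix_fin`).  `SmoothInj (res σ K₁)`: a direct sum of two copies of `fnRep C K₁ _`
(`fn_smoothInj`); `SmoothInj (res σ K₂)`: isomorphic, via `Θ`, to a direct sum of two copies of
`fnRep C K₂ _`.
`SmoothInj.prod'`, `SmoothInj.iso` are easy general lemmas.
-/

open Topology Set

namespace Emt

theorem SmoothInj.prod' {C : Type} [Field C] {G : Type} [Group G] [TopologicalSpace G]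
    [IsTopologicalGroup G] {V W : Type} [AddCommGroup V] [Module C V] [AddCommGroup W]
    [Module C W] {ρ : Representation C G V} {σ : Representation C G W} (h : SmoothInj ρ)
    (h' : SmoothInj σ) : SmoothInj (prodRep ρ σ) := by
  refine ⟨h.1.prod h'.1, ?_⟩
  intro A B _ _ _ _ α β hα hβ i hi hinj f hf
  obtain ⟨g₁, hg₁, hgf₁⟩ := h.2 A B α β hα hβ i hi hinj ((LinearMap.fst C V W).comp f)
    (fun g a => by rw [LinearMap.comp_apply, hf]; rfl)
  obtain ⟨g₂, hg₂, hgf₂⟩ := h'.2 A B α β hα hβ i hi hinj ((LinearMap.snd C V W).comp f)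
    (fun g a => by rw [LinearMap.comp_apply, hf]; rfl)
  refine ⟨g₁.prod g₂, ?_, ?_⟩
  · intro g b
    exact Prod.ext (hg₁ g b) (hg₂ g b)
  · intro a
    exact Prod.ext (hgf₁ a) (hgf₂ a)

theorem SmoothInj.iso {C : Type} [Field C] {G : Type} [Group G] [TopologicalSpace G]
    {V W : Type} [AddCommGroup V] [Module C V] [AddCommGroup W]
    [Module C W] {ρ : Representation C G V} {σ : Representation C G W} (h : SmoothInj ρ)
    (e : V ≃ₗ[C] W) (he : ∀ g v, e (ρ g v) = σ g (e v)) : SmoothInj σ := by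
  have he' : ∀ g w, e.symm (σ g w) = ρ g (e.symm w) := by
    intro g w
    rw [LinearEquiv.symm_apply_eq, he, LinearEquiv.apply_symm_apply]
  refine ⟨h.1.of_injective (f := e.symm.toLinearMap) he' e.symm.injective, ?_⟩
  intro A B _ _ _ _ α β hα hβ i hi hinj f hf
  obtain ⟨g, hg, hgf⟩ := h.2 A B α β hα hβ i hi hinj (e.symm.toLinearMap.comp f)
    (fun g a => by rw [LinearMap.comp_apply, hf]; exact he' _ _)
  refine ⟨e.toLinearMap.comp g, ?_, ?_⟩
  · intro k b
    show e (g (β k b)) = σ k (e (g b))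
    rw [hg, he]
  · intro a
    show e (g (i a)) = f a
    rw [hgf]
    exact e.apply_symm_apply _

/-- Transport of structure. -/
def conjRep {C : Type} [Field C] {G : Type} [Group G] {V W : Type} [AddCommGroup V]
    [Module C V] [AddCommGroup W] [Module C W] (ρ : Representation C G V) (e : W ≃ₗ[C] V) :
    Representation C G W where
  toFun g := e.symm.toLinearMap ∘ₗ ρ g ∘ₗ e.toLinearMap
  map_one' := by
    ext v
    simp
  map_mul' g h := by
    ext v
    simp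

theorem conjRep_apply {C : Type} [Field C] {G : Type} [Group G] {V W : Type} [AddCommGroup V]
    [Module C V] [AddCommGroup W] [Module C W] (ρ : Representation C G V) (e : W ≃ₗ[C] V)
    (g : G) (w : W) : conjRep ρ e g w = e.symm (ρ g (e w)) := rfl

theorem fix_res_eq {C : Type} [Field C] {G : Type} [Group G] {V : Type} [AddCommGroup V]
    [Module C V] (ρ : Representation C G V) (K U : Subgroup G) :
    fix (res ρ K) (U.subgroupOf K) = fix ρ (U ⊓ K) := by
  ext v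
  rw [mem_fix, mem_fix]
  constructor
  · rintro h g ⟨hg, hg'⟩
    exact h ⟨g, hg'⟩ hg
  · intro h g hg
    exact h g ⟨hg, g.2⟩

theorem proP_subgroupOf {p : ℕ} [Fact p.Prime] {G : Type} [Group G] [TopologicalSpace G]
    [IsTopologicalGroup G] {U K : Subgroup G} (hUc : IsCompact (U : Set G)) (hUp : IsProP p U)
    (hUb : OpenBasis U) : IsProP p (U.subgroupOf K) := by
  have : CompactSpace U := isCompact_iff_compactSpace.mp hUc
  have h1 : IsProP p (K.subgroupOf U) := hUp.subgroup hUb _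
  let f : K.subgroupOf U →* U.subgroupOf K :=
    { toFun := fun x => ⟨⟨x.1.1, x.2⟩, x.1.2⟩
      map_one' := rfl
      map_mul' := fun _ _ => rfl }
  refine h1.map f ?_ ?_
  · exact Continuous.subtype_mk (Continuous.subtype_mk
      (continuous_subtype_val.comp continuous_subtype_val) _) _
  · intro y
    exact ⟨⟨⟨y.1.1, y.2⟩, y.1.2⟩, rfl⟩

theorem isOpenEmbedding_incl {G : Type} [Group G] [TopologicalSpace G] {I K : Subgroup G}
    (h : I ≤ K) (hI : IsOpen (I : Set G)) : IsOpenEmbedding (Subgroup.inclusion h) := by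
  refine ⟨IsEmbedding.inclusion h, ?_⟩
  have : Set.range (Subgroup.inclusion h) = Subtype.val ⁻¹' (I : Set G) := by
    ext x
    constructor
    · rintro ⟨y, rfl⟩
      exact y.2
    · intro hx
      exact ⟨⟨x.1, hx⟩, rfl⟩
  rw [this]
  exact hI.preimage continuous_subtype_val

theorem exists_emb_sub {p : ℕ} [Fact p.Prime] {G : Type} [Group G] [TopologicalSpace G]
    [IsTopologicalGroup G] {C : Type} [Field C] [Finite C] [CharP C p]
    {K U : Subgroup G} (hK : IsOpen (K : Set G)) (hK' : IsCompact (K : Set G))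
    (hUo : IsOpen (U : Set G)) (hUc : IsCompact (U : Set G)) (hUp : IsProP p U)
    (hUb : OpenBasis U)
    {V : Type} [AddCommGroup V] [Module C V] {ρ : Representation C G V} (hρ : IsAdm ρ) {X : Type}
    [Fintype X] (hX : Module.finrank C (fix ρ (U ⊓ K)) ≤ Fintype.card X) :
    ∃ i : V →ₗ[C] Fn C K (X → C), Equi (res ρ K) (fnRep C K (X → C)) i ∧
      Function.Injective i := by
  have : CompactSpace K := isCompact_iff_compactSpace.mp hK'
  have hfin : FiniteDimensional C (fix (res ρ K) (U.subgroupOf K)) := by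
    rw [fix_res_eq]
    refine hρ.fin _ (hUo.inter hK) ?_
    exact hUc.inter_right (Subgroup.isClosed_of_isOpen K hK)
  refine exists_emb_adm (p := p) (hρ.smooth.res K) (U := U.subgroupOf K)
    (hUo.preimage continuous_subtype_val) (proP_subgroupOf hUc hUp hUb) ?_
  rw [fix_res_eq]
  exact hX

theorem isAdm_fn {C : Type} [Field C] {K : Type} [Group K] [TopologicalSpace K]
    [IsTopologicalGroup K] [CompactSpace K] (hb : OpenBasis K) (W : Type) [AddCommGroup W]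
    [Module C W] [FiniteDimensional C W] : IsAdm (fnRep C K W) :=
  ⟨fn_smooth hb, fun _ hU _ => fn_fix_fin hU⟩

theorem isAdm_of_res {G : Type} [Group G] [TopologicalSpace G] [IsTopologicalGroup G]
    {C : Type} [Field C] {K : Subgroup G} (hK : IsOpen (K : Set G))
    (hK' : IsCompact (K : Set G)) {V : Type} [AddCommGroup V] [Module C V]
    {σ : Representation C G V} (h : IsAdm (res σ K)) : IsAdm σ := by
  have : CompactSpace K := isCompact_iff_compactSpace.mp hK'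
  refine ⟨fun v => ?_, fun U hU _ => ?_⟩
  · have h1 := h.smooth v
    have h2 : IsOpen (((stabG (res σ K) v).map K.subtype : Subgroup G) : Set G) :=
      hK.isOpenMap_subtype_val _ h1
    refine isOpen_stab_of_le h2 ?_
    rintro _ ⟨g, hg, rfl⟩
    exact hg
  · have h1 : IsOpen ((U.subgroupOf K : Subgroup K) : Set K) :=
      hU.preimage continuous_subtype_val
    have h2 := h.fin (U.subgroupOf K) h1 (Subgroup.isClosed_of_isOpen _ h1).isCompact
    rw [fix_res_eq] at h2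
    exact Submodule.finiteDimensional_of_le (fix_anti σ (inf_le_left : U ⊓ K ≤ U))

theorem exists_glue {p : ℕ} [Fact p.Prime] {G : Type} [Group G] [TopologicalSpace G]
    [IsTopologicalGroup G] (hG : IsPadicLie p G) {C : Type} [Field C] [Finite C] [CharP C p]
    {K₁ K₂ : Subgroup G} (h₁ : IsOpen (K₁ : Set G)) (h₁' : IsCompact (K₁ : Set G))
    (h₂ : IsOpen (K₂ : Set G)) (h₂' : IsCompact (K₂ : Set G)) (ham : IsAmalgam K₁ K₂)
    {V : Type} [AddCommGroup V] [Module C V] {ρ : Representation C G V} (hρ : IsAdm ρ) :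
    ∃ (Ω : Type) (_ : AddCommGroup Ω) (_ : Module C Ω) (σ : Representation C G Ω)
      (i : V →ₗ[C] Ω), IsAdm σ ∧ Equi ρ σ i ∧ Function.Injective i ∧
        SmoothInj (res σ K₁) ∧ SmoothInj (res σ K₂) := by
  obtain ⟨U, hUo, hUc, hUp, hUb, -⟩ := hG.exists_good C
  have hb := hG.openBasis
  have : CompactSpace K₁ := isCompact_iff_compactSpace.mp h₁'
  have : CompactSpace K₂ := isCompact_iff_compactSpace.mp h₂'
  have hIo : IsOpen ((K₁ ⊓ K₂ : Subgroup G) : Set G) := h₁.inter h₂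
  have hIc : IsCompact ((K₁ ⊓ K₂ : Subgroup G) : Set G) :=
    h₁'.inter_right (Subgroup.isClosed_of_isOpen K₂ h₂)
  have : CompactSpace (K₁ ⊓ K₂ : Subgroup G) := isCompact_iff_compactSpace.mp hIc
  obtain ⟨j₁, hj₁⟩ : ∃ j : (K₁ ⊓ K₂ : Subgroup G) →* K₁, j = Subgroup.inclusion inf_le_left :=
    ⟨_, rfl⟩
  obtain ⟨j₂, hj₂⟩ : ∃ j : (K₁ ⊓ K₂ : Subgroup G) →* K₂, j = Subgroup.inclusion inf_le_right :=
    ⟨_, rfl⟩
  have hj₁o : IsOpenEmbedding j₁ := by
    rw [hj₁]
    exact isOpenEmbedding_incl _ hIo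
  have hj₂o : IsOpenEmbedding j₂ := by
    rw [hj₂]
    exact isOpenEmbedding_incl _ hIo
  have hj₁v : ∀ x, (j₁ x : G) = x := by
    intro x
    rw [hj₁]
    rfl
  have hj₂v : ∀ x, (j₂ x : G) = x := by
    intro x
    rw [hj₂]
    rfl
  obtain ⟨X₁, X₂, hX₁, hX₂, ε, hN₁, hN₂, hε⟩ := exists_common (C := C) j₁ hj₁o j₂ hj₂o
    (max (Module.finrank C (fix ρ (U ⊓ K₁))) (Module.finrank C (fix ρ (U ⊓ K₂))))
  obtain ⟨α, hα, hαi⟩ := exists_emb_sub (X := X₁) h₁ h₁' hUo hUc hUp hUb hρ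
    (le_trans (le_max_left _ _) hN₁)
  obtain ⟨γ, hγ, hγi⟩ := exists_emb_sub (X := X₂) h₂ h₂' hUo hUc hUp hUb hρ
    (le_trans (le_max_right _ _) hN₂)
  obtain ⟨η, hη⟩ : ∃ η : Representation C (K₁ ⊓ K₂ : Subgroup G) (Fn C K₁ (X₁ → C)),
      η = (fnRep C K₁ (X₁ → C)).comp j₁ := ⟨_, rfl⟩
  have hηa : ∀ i x, η i x = fnRep C K₁ (X₁ → C) (j₁ i) x := by
    intro i x
    rw [hη]
    rfl
  have hε' : ∀ i f, ε (η i f) = fnRep C K₂ (X₂ → C) (j₂ i) (ε f) := by
    intro i f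
    rw [hηa]
    exact hε i f
  have hηS : SmoothInj η := by
    obtain ⟨e, he⟩ := fn_res_iso (C := C) j₁ hj₁o (X₁ → C)
    refine (fn_smoothInj (C := C) (W := (K₁ ⧸ j₁.range) → (X₁ → C))
      (hb.subgroup (K₁ ⊓ K₂))).iso e.symm ?_
    intro i f
    rw [LinearEquiv.symm_apply_eq, hηa, he, LinearEquiv.apply_symm_apply]
  have hα' : Equi (res ρ (K₁ ⊓ K₂)) η α := by
    intro i v
    rw [hηa, ← hα]
    show α (ρ (i : G) v) = α (ρ (j₁ i : G) v)
    rw [hj₁v]
  have hβ' : Equi (res ρ (K₁ ⊓ K₂)) η (ε.symm.toLinearMap.comp γ) := by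
    intro i v
    show ε.symm (γ (ρ (i : G) v)) = η i (ε.symm (γ v))
    rw [LinearEquiv.symm_apply_eq, hε', LinearEquiv.apply_symm_apply, ← hγ]
    show γ (ρ (i : G) v) = γ (ρ (j₂ i : G) v)
    rw [hj₂v]
  obtain ⟨θ, hθ, hθv⟩ := exists_auto (hρ.smooth.res (K₁ ⊓ K₂)) hηS hα' hβ' hαi
    (ε.symm.injective.comp hγi)
  obtain ⟨Θ, hΘ⟩ : ∃ Θ : (Fn C K₁ (X₁ → C) × Fn C K₁ (X₁ → C)) ≃ₗ[C]
      (Fn C K₂ (X₂ → C) × Fn C K₂ (X₂ → C)), ∀ x, Θ x = (ε (θ x).1, ε (θ x).2) :=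
    ⟨θ.trans (ε.prodCongr ε), fun _ => rfl⟩
  obtain ⟨s₂, hs₂⟩ : ∃ s : Representation C K₂ (Fn C K₂ (X₂ → C) × Fn C K₂ (X₂ → C)),
      s = prodRep (fnRep C K₂ (X₂ → C)) (fnRep C K₂ (X₂ → C)) := ⟨_, rfl⟩
  obtain ⟨r₁, hr₁⟩ : ∃ r : Representation C K₁ (Fn C K₁ (X₁ → C) × Fn C K₁ (X₁ → C)),
      r = prodRep (fnRep C K₁ (X₁ → C)) (fnRep C K₁ (X₁ → C)) := ⟨_, rfl⟩
  have hagree : ∀ i x, r₁ (j₁ i) x = conjRep s₂ Θ (j₂ i) x := by
    intro i x
    rw [conjRep_apply, LinearEquiv.eq_symm_apply, hΘ, hΘ, hs₂, hr₁]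
    have h3 : prodRep (fnRep C K₁ (X₁ → C)) (fnRep C K₁ (X₁ → C)) (j₁ i) x = prodRep η η i x := by
      rw [hη]
      rfl
    rw [h3, hθ]
    show (ε (η i (θ x).1), ε (η i (θ x).2)) = _
    rw [hε', hε']
    rfl
  obtain ⟨F, hF₁, hF₂⟩ := ham.lift _ r₁.toHomUnits (conjRep s₂ Θ).toHomUnits (by
    intro g hg₁ hg₂
    apply Units.ext
    rw [MonoidHom.coe_toHomUnits, MonoidHom.coe_toHomUnits]
    refine LinearMap.ext fun x => ?_
    have h3 := hagree ⟨g, hg₁, hg₂⟩ x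
    have h4 : j₁ ⟨g, hg₁, hg₂⟩ = ⟨g, hg₁⟩ := Subtype.ext (hj₁v _)
    have h5 : j₂ ⟨g, hg₁, hg₂⟩ = ⟨g, hg₂⟩ := Subtype.ext (hj₂v _)
    rw [h4, h5] at h3
    exact h3)
  obtain ⟨σ, hσ⟩ : ∃ σ : Representation C G (Fn C K₁ (X₁ → C) × Fn C K₁ (X₁ → C)),
      ∀ g, σ g = (F g : Module.End C (Fn C K₁ (X₁ → C) × Fn C K₁ (X₁ → C))) :=
    ⟨(Units.coeHom _).comp F, fun _ => rfl⟩
  have hσ₁ : res σ K₁ = r₁ := by
    ext1 k
    show σ (k : G) = r₁ k
    rw [hσ, hF₁, MonoidHom.coe_toHomUnits]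
  have hσ₂ : res σ K₂ = conjRep s₂ Θ := by
    ext1 k
    show σ (k : G) = conjRep s₂ Θ k
    rw [hσ, hF₂, MonoidHom.coe_toHomUnits]
  refine ⟨_, _, _, σ, (LinearMap.inl C _ _).comp α, ?_, ?_, ?_, ?_, ?_⟩
  · refine isAdm_of_res h₁ h₁' ?_
    rw [hσ₁, hr₁]
    exact (isAdm_fn (hb.subgroup K₁) _).prod (isAdm_fn (hb.subgroup K₁) _)
  · refine equi_of_gen ham.gen ?_ ?_
    · intro g hg v
      have h3 : σ g = r₁ ⟨g, hg⟩ := by
        rw [← hσ₁]
        rfl
      rw [h3, hr₁]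
      show (α (ρ g v), (0 : Fn C K₁ (X₁ → C))) = (fnRep C K₁ (X₁ → C) ⟨g, hg⟩ (α v),
        fnRep C K₁ (X₁ → C) ⟨g, hg⟩ 0)
      rw [map_zero, ← hα]
      rfl
    · intro g hg v
      have h3 : σ g = conjRep s₂ Θ ⟨g, hg⟩ := by
        rw [← hσ₂]
        rfl
      rw [h3, conjRep_apply, LinearEquiv.eq_symm_apply]
      have h4 : ∀ w, Θ (((LinearMap.inl C _ _).comp α) w) = (0, γ w) := by
        intro w
        rw [hΘ]
        show (ε (θ (α w, 0)).1, ε (θ (α w, 0)).2) = (0, γ w)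
        rw [hθv]
        show (ε 0, ε (ε.symm (γ w))) = (0, γ w)
        rw [map_zero, LinearEquiv.apply_symm_apply]
      rw [h4, h4, hs₂]
      show ((0 : Fn C K₂ (X₂ → C)), γ (ρ g v)) = (fnRep C K₂ (X₂ → C) ⟨g, hg⟩ 0,
        fnRep C K₂ (X₂ → C) ⟨g, hg⟩ (γ v))
      rw [map_zero, ← hγ]
      rfl
  · exact LinearMap.inl_injective.comp hαi
  · rw [hσ₁, hr₁]
    exact (fn_smoothInj (hb.subgroup K₁)).prod' (fn_smoothInj (hb.subgroup K₁))
  · rw [hσ₂]
    refine SmoothInj.iso (ρ := s₂) ?_ Θ.symm ?_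
    · rw [hs₂]
      exact (fn_smoothInj (hb.subgroup K₂)).prod' (fn_smoothInj (hb.subgroup K₂))
    · intro g v
      rw [conjRep_apply, LinearEquiv.apply_symm_apply]

end Emt
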