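import Pool.Agent.Emt.NLad

/-!
# Emt, module Inj: the category of locally admissible representations has enough injectives

PROOF.  On `T = (G → V)` (all functions) let `G` act by right translations,
`(τ g F) x = F (x g)`.  Call a subrepresentation `M` of `T` good if all its elements have open
stabilisers and `M ⊓ fix τ U` is finite dimensional for every compact open `U`.  The sum of two good
subrepresentations is good (it is a quotient of their direct sum: `IsAdm.prod`,
`IsAdm.of_surjective`).  So `J = {F | F lies in a good subrepresentation}` is a subrepresentation,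
and `σ = subRep τ J` is locally admissible.
Injectivity: let `i : A → B` be injective, `f : A → J`, `α, β` locally admissible.  `l a = (f a) 1` is
a linear map `A → V`; extend it along `i` to `l' : B → V` and put `(g b) x = l' (β x b)`: an
equivariant map `B → T`; `b` lies in an admissible subrepresentation `M` of `B`, whose image in
`T` is good (quotients: `IsAdm.of_surjective`), so `g b ∈ J`.  `g (i a) = f a` since
`(f a) x = (σ x (f a)) 1 = (f (α x a)) 1 = l (α x a)`.
Embedding: `v ↦ (x ↦ ρ x v)`, its values are in `J` for the same reason; evaluation at `1` shows that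
it is injective.
-/

open Topology Set

namespace Emt

section Helpers

/-- right translations on all functions -/
def injT (C : Type) [Field C] (G : Type) [Group G] (V : Type) [AddCommGroup V] [Module C V] :
    Representation C G (G → V) where
  toFun g :=
    { toFun := fun F x => F (x * g)
      map_add' := fun _ _ => rfl
      map_smul' := fun _ _ => rfl }
  map_one' := by
    ext F x
    simp
  map_mul' g h := by
    ext F x
    simp [mul_assoc]

theorem injT_apply {C : Type} [Field C] {G : Type} [Group G] {V : Type} [AddCommGroup V]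
    [Module C V] (g : G) (F : G → V) (x : G) : injT C G V g F x = F (x * g) := rfl

/-- the equivariant map attached to a linear map -/
def injC {C : Type} [Field C] {G : Type} [Group G] {V B : Type} [AddCommGroup V]
    [Module C V] [AddCommGroup B] [Module C B] (β : Representation C G B) (l : B →ₗ[C] V) :
    B →ₗ[C] (G → V) where
  toFun b x := l (β x b)
  map_add' a b := by
    ext x
    simp
  map_smul' c b := by
    ext x
    simp

theorem injC_apply {C : Type} [Field C] {G : Type} [Group G] {V B : Type} [AddCommGroup V]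
    [Module C V] [AddCommGroup B] [Module C B] (β : Representation C G B) (l : B →ₗ[C] V)
    (b : B) (x : G) : injC β l b x = l (β x b) := rfl

theorem injC_equi {C : Type} [Field C] {G : Type} [Group G] {V B : Type} [AddCommGroup V]
    [Module C V] [AddCommGroup B] [Module C B] (β : Representation C G B) (l : B →ₗ[C] V) :
    Equi β (injT C G V) (injC β l) := by
  intro g b
  funext x
  rw [injC_apply, injT_apply, injC_apply, rep_mul_apply]

/-- the good subrepresentations -/
def InjGood {C : Type} [Field C] {G : Type} [Group G] [TopologicalSpace G] {V : Type}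
    [AddCommGroup V] [Module C V] (τ : Representation C G V) (M : Submodule C V) : Prop :=
  ∃ hM : IsSub τ M, IsAdm (subRep τ M hM)

variable {p : ℕ} [Fact p.Prime] {G : Type} [Group G] [TopologicalSpace G]
    [IsTopologicalGroup G] {C : Type} [Field C] {V : Type} [AddCommGroup V] [Module C V]
    {τ : Representation C G V}

omit [IsTopologicalGroup G] in
theorem InjGood.bot : InjGood τ (⊥ : Submodule C V) := by
  have hM : IsSub τ (⊥ : Submodule C V) := by
    intro g v hv
    rw [Submodule.mem_bot] at hv ⊢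
    rw [hv, map_zero]
  refine ⟨hM, ?_, ?_⟩
  · intro v
    have h : {g : G | subRep τ ⊥ hM g v = v} = Set.univ := by
      ext g
      simp only [Set.mem_ofPred_eq, Set.mem_univ, iff_true]
      exact Subsingleton.elim _ _
    rw [h]
    exact isOpen_univ
  · intro U _ _
    infer_instance

variable [Finite C] [CharP C p]

theorem InjGood.sup (hG : IsPadicLie p G) {M N : Submodule C V} (hM : InjGood τ M)
    (hN : InjGood τ N) : InjGood τ (M ⊔ N) := by
  obtain ⟨hM1, hM2⟩ := hM
  obtain ⟨hN1, hN2⟩ := hN
  have hS := isSub_sup hM1 hN1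
  refine ⟨hS, ?_⟩
  obtain ⟨f, hf⟩ : ∃ f : (M × N) →ₗ[C] (M ⊔ N : Submodule C V),
      ∀ x, ((f x : (M ⊔ N : Submodule C V)) : V) = x.1 + x.2 :=
    ⟨LinearMap.coprod (Submodule.inclusion le_sup_left) (Submodule.inclusion le_sup_right),
      fun x => rfl⟩
  refine IsAdm.of_surjective hG (hM2.prod hN2) (f := f) ?_ ?_
  · rintro g ⟨m, n⟩
    apply Subtype.ext
    rw [subRep_apply, hf, hf, prodRep_apply]
    simp
  · rintro ⟨v, hv⟩
    obtain ⟨a, ha, b, hb, rfl⟩ := Submodule.mem_sup.1 hv
    refine ⟨(⟨a, ha⟩, ⟨b, hb⟩), Subtype.ext ?_⟩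
    rw [hf]

theorem InjGood.map (hG : IsPadicLie p G) {B : Type} [AddCommGroup B] [Module C B]
    {β : Representation C G B} (hβ : IsSmooth β) {M : Submodule C B} (hM : IsAdmSub β M)
    {φ : B →ₗ[C] V} (hφ : Equi β τ φ) : InjGood τ (M.map φ) := by
  refine ⟨isSub_map hφ hM.sub, ?_⟩
  obtain ⟨f, hf⟩ : ∃ f : M →ₗ[C] (M.map φ : Submodule C V), ∀ x, ((f x : M.map φ) : V) = φ x :=
    ⟨(φ ∘ₗ M.subtype).codRestrict _ (fun x => ⟨x.1, x.2, rfl⟩), fun x => rfl⟩
  refine IsAdm.of_surjective hG (isAdm_subRep hβ hM) (f := f) ?_ ?_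
  · intro g m
    apply Subtype.ext
    rw [subRep_apply, hf, hf, subRep_apply, hφ]
  · rintro ⟨v, b, hb, rfl⟩
    exact ⟨⟨b, hb⟩, Subtype.ext (hf _)⟩

end Helpers

theorem exists_ladmInj {p : ℕ} [Fact p.Prime] {G : Type} [Group G] [TopologicalSpace G]
    [IsTopologicalGroup G] (hG : IsPadicLie p G) {C : Type} [Field C] [Finite C] [CharP C p]
    {V : Type} [AddCommGroup V] [Module C V] {ρ : Representation C G V} (hρ : IsLadm ρ) :
    ∃ (J : Type) (_ : AddCommGroup J) (_ : Module C J) (σ : Representation C G J)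
      (i : V →ₗ[C] J), LadmInj σ ∧ Equi ρ σ i ∧ Function.Injective i := by
  obtain ⟨τ, hτ⟩ : ∃ τ : Representation C G (G → V), τ = injT C G V := ⟨_, rfl⟩
  let J : Submodule C (G → V) :=
    { carrier := {F | ∃ M, InjGood τ M ∧ F ∈ M}
      add_mem' := by
        rintro F F' ⟨M, hM, hF⟩ ⟨M', hM', hF'⟩
        exact ⟨M ⊔ M', hM.sup hG hM', Submodule.add_mem_sup hF hF'⟩
      zero_mem' := ⟨⊥, InjGood.bot, Submodule.zero_mem _⟩
      smul_mem' := by
        rintro c F ⟨M, hM, hF⟩
        exact ⟨M, hM, M.smul_mem c hF⟩ }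
  have hJm : ∀ F, F ∈ J ↔ ∃ M, InjGood τ M ∧ F ∈ M := fun F => Iff.rfl
  clear_value J
  have hJ : IsSub τ J := by
    intro g F hF
    obtain ⟨M, hM, hF⟩ := (hJm F).1 hF
    exact (hJm _).2 ⟨M, hM, hM.1 g F hF⟩
  have hlad : IsLadm (subRep τ J hJ) := by
    refine ⟨?_, ?_⟩
    · rintro ⟨F, hF⟩
      obtain ⟨M, ⟨hM1, hM2⟩, hF'⟩ := (hJm F).1 hF
      have h1 := hM2.smooth ⟨F, hF'⟩
      have h2 : {g : G | subRep τ J hJ g ⟨F, hF⟩ = ⟨F, hF⟩} =
          {g : G | subRep τ M hM1 g ⟨F, hF'⟩ = ⟨F, hF'⟩} := by
        ext g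
        simp only [Set.mem_ofPred_eq]
        rw [Subtype.ext_iff, Subtype.ext_iff]
        rfl
      rw [h2]
      exact h1
    · rintro ⟨F, hF⟩
      obtain ⟨M, ⟨hM1, hM2⟩, hF'⟩ := (hJm F).1 hF
      have hs : IsSub (subRep τ J hJ) (M.comap J.subtype) := by
        intro g x hx
        exact hM1 g _ hx
      refine ⟨M.comap J.subtype, hF', IsAdmSub.of_isAdm hs ?_⟩
      obtain ⟨f, hf⟩ : ∃ f : (M.comap J.subtype : Submodule C J) →ₗ[C] M,
          ∀ x, ((f x : M) : G → V) = ((x : J) : G → V) :=
        ⟨(J.subtype ∘ₗ (M.comap J.subtype).subtype).codRestrict M (fun x => x.2), fun x => rfl⟩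
      refine hM2.of_injective (f := f) ?_ ?_
      · intro g x
        apply Subtype.ext
        rw [hf, subRep_apply, subRep_apply, subRep_apply, hf]
      · intro x y hxy
        apply Subtype.ext
        apply Subtype.ext
        rw [← hf, ← hf, hxy]
  have hval : ∀ {B : Type} [AddCommGroup B] [Module C B] (β : Representation C G B)
      (l : B →ₗ[C] V), IsLadm β → ∀ b, injC β l b ∈ J := by
    intro B _ _ β l hβ b
    obtain ⟨M, hbM, hM⟩ := hβ.loc b
    refine (hJm _).2 ⟨M.map (injC β l), ?_, ⟨b, hbM, rfl⟩⟩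
    have h1 : Equi β τ (injC β l) := by
      rw [hτ]
      exact injC_equi β l
    exact InjGood.map hG hβ.smooth hM h1
  refine ⟨J, inferInstance, inferInstance, subRep τ J hJ,
    (injC ρ LinearMap.id).codRestrict J (hval ρ LinearMap.id hρ), ⟨hlad, ?_⟩, ?_, ?_⟩
  · intro A B _ _ _ _ α β hα hβ i hi hinj f hf
    obtain ⟨r, hr⟩ := LinearMap.exists_leftInverse_of_injective i (LinearMap.ker_eq_bot.2 hinj)
    have hr' : ∀ a, r (i a) = a := fun a => LinearMap.congr_fun hr a
    obtain ⟨l, hl⟩ : ∃ l : A →ₗ[C] V, ∀ a, l a = (f a : G → V) 1 :=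
      ⟨(LinearMap.proj (1 : G)) ∘ₗ J.subtype ∘ₗ f, fun a => rfl⟩
    refine ⟨(injC β (l ∘ₗ r)).codRestrict J (hval β (l ∘ₗ r) hβ), ?_, ?_⟩
    · refine Equi.codRestrict ?_ J hJ _
      rw [hτ]
      exact injC_equi _ _
    · intro a
      apply Subtype.ext
      funext x
      show injC β (l ∘ₗ r) (i a) x = (f a : G → V) x
      rw [injC_apply, LinearMap.comp_apply, ← hi, hr', hl, hf, subRep_apply, hτ, injT_apply,
        one_mul]
  · refine Equi.codRestrict ?_ J hJ _
    rw [hτ]
    exact injC_equi _ _
  · intro v w hvw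
    have h1 : injC ρ LinearMap.id v = injC ρ LinearMap.id w := congrArg Subtype.val hvw
    have h2 := congrFun h1 1
    rw [injC_apply, injC_apply, rep_one_apply, rep_one_apply] at h2
    exact h2

end Emt
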