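import Pool.Agent.Emt.Basic

/-!
# Emt, module NDefs: the congruence subgroups of `GL_n(ℤ_p)` and the socle filtration
-/

open Topology Set

namespace Emt

/-- The congruence subgroup `1 + p^k M_n(ℤ_p)` of `GL_n(ℤ_p)`. -/
def cong (p : ℕ) [Fact p.Prime] (n k : ℕ) : Subgroup (Matrix (Fin n) (Fin n) ℤ_[p])ˣ where
  carrier := {u | ∀ i j, (p : ℤ_[p]) ^ k ∣ ((u : Matrix (Fin n) (Fin n) ℤ_[p]) - 1) i j}
  one_mem' := by
    intro i j
    simp
  mul_mem' := by
    intro a b ha hb i j
    have h : ((a * b : (Matrix (Fin n) (Fin n) ℤ_[p])ˣ) : Matrix (Fin n) (Fin n) ℤ_[p]) - 1 =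
        (a : Matrix (Fin n) (Fin n) ℤ_[p]) * ((b : Matrix (Fin n) (Fin n) ℤ_[p]) - 1) +
          ((a : Matrix (Fin n) (Fin n) ℤ_[p]) - 1) := by
      push_cast
      noncomm_ring
    rw [h, Matrix.add_apply, Matrix.mul_apply]
    exact dvd_add (Finset.dvd_sum fun l _ => Dvd.dvd.mul_left (hb l j) _) (ha i j)
  inv_mem' := by
    intro a ha i j
    have h : ((a⁻¹ : (Matrix (Fin n) (Fin n) ℤ_[p])ˣ) : Matrix (Fin n) (Fin n) ℤ_[p]) - 1 =
        -((a⁻¹ : (Matrix (Fin n) (Fin n) ℤ_[p])ˣ) : Matrix (Fin n) (Fin n) ℤ_[p]) *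
          ((a : Matrix (Fin n) (Fin n) ℤ_[p]) - 1) := by
      rw [mul_sub, neg_mul, Units.inv_mul]
      noncomm_ring
    rw [h, Matrix.mul_apply]
    exact Finset.dvd_sum fun l _ => Dvd.dvd.mul_left (ha l j) _

theorem mem_cong {p : ℕ} [Fact p.Prime] {n k : ℕ} {u : (Matrix (Fin n) (Fin n) ℤ_[p])ˣ} :
    u ∈ cong p n k ↔
      ∀ i j, (p : ℤ_[p]) ^ k ∣ ((u : Matrix (Fin n) (Fin n) ℤ_[p]) - 1) i j := Iff.rfl

/-- The socle filtration: `fil ρ 0 = 0` and `v ∈ fil ρ (n + 1)` when `g v - v ∈ fil ρ n` for all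
`g`. -/
def fil {C : Type} [Field C] {G : Type} [Group G] {V : Type} [AddCommGroup V] [Module C V]
    (ρ : Representation C G V) : ℕ → Submodule C V
  | 0 => ⊥
  | n + 1 =>
    { carrier := {v | ∀ g, ρ g v - v ∈ fil ρ n}
      add_mem' := by
        intro a b ha hb g
        rw [map_add, add_sub_add_comm]
        exact add_mem (ha g) (hb g)
      zero_mem' := by
        intro g
        rw [map_zero, sub_zero]
        exact zero_mem _
      smul_mem' := by
        intro k a ha g
        rw [map_smul, ← smul_sub]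
        exact Submodule.smul_mem _ k (ha g) }

/-- The operator `g - 1`. -/
def aug {C : Type} [Field C] {G : Type} [Group G] {V : Type} [AddCommGroup V] [Module C V]
    (ρ : Representation C G V) (g : G) : V →ₗ[C] V := ρ g - LinearMap.id

@[simp] theorem aug_apply {C : Type} [Field C] {G : Type} [Group G] {V : Type} [AddCommGroup V]
    [Module C V] (ρ : Representation C G V) (g : G) (v : V) : aug ρ g v = ρ g v - v := rfl

theorem mem_fil_succ {C : Type} [Field C] {G : Type} [Group G] {V : Type} [AddCommGroup V]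
    [Module C V] {ρ : Representation C G V} {n : ℕ} {v : V} :
    v ∈ fil ρ (n + 1) ↔ ∀ g, ρ g v - v ∈ fil ρ n := Iff.rfl

/-- The conditions on the group: it is compact, its open subgroups have `p`-power index and form a
basis, it is topologically generated by `g₁, ..., g_d`, and the commutators of the `g_i` lie in the
closed subgroup generated by the `g_i ^ (p ^ 2)`. -/
structure Unif (p : ℕ) {G : Type} [Group G] [TopologicalSpace G] {d : ℕ} (g : Fin d → G) :
    Prop where
  proP : IsProP p G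
  gen : ∀ U : Subgroup G, IsOpen (U : Set G) → (∀ i, g i ∈ U) → U = ⊤
  comm : ∀ U : Subgroup G, IsOpen (U : Set G) → (∀ i, g i ^ (p ^ 2) ∈ U) →
    ∀ i j, g i * g j * (g i)⁻¹ * (g j)⁻¹ ∈ U

/-- Quotients of representations with a finite dimensional space of fixed vectors have a finite
dimensional space of fixed vectors. -/
def QFin (C : Type) [Field C] (G : Type) [Group G] [TopologicalSpace G] : Prop :=
  ∀ (V : Type) [AddCommGroup V] [Module C V] (ρ : Representation C G V), IsSmooth ρ →
    FiniteDimensional C (fix ρ ⊤) → ∀ (W : Submodule C V) (hW : IsSub ρ W),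
    FiniteDimensional C (fix (quotRep ρ W hW) ⊤)

end Emt
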