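import Pool.Agent.Emt.Basic

/-!
# Emt, module Pro1: pro-`p` groups

PROOFS.
* `IsProP.subgroup`: let `H` be a closed subgroup of the compact group `G` in which every open
  subgroup has `p`-power index, and `M` an open subgroup of `H`.  The open normal subgroups of `G`
  form a neighbourhood basis of `1` (`G` compact, and we need totally disconnected: see below), so
  there is an open subgroup `N` of `G`, which may be taken normal, with `N ∩ H ⊆ M`; the index of
  `N ∩ H` in `H` divides the index of `N` in `G` (`Subgroup.relIndex...`: `H/(N ∩ H)` embeds as a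
  subgroup in `G/N`), a power of `p`, and the index of `M` in `H` divides the index of `N ∩ H` in
  `H`; a divisor of a power of `p` is a power of `p` (`Nat.dvd_prime_pow`).
  Hypothesis `hb`: every neighbourhood of `1` contains an open subgroup.
* `IsProP.map`: the preimage of an open subgroup under a surjective continuous homomorphism is open
  and has the same index (`Subgroup.index_comap_of_surjective`).
* `IsProP.prod`: an open subgroup `M` of `G × G'` contains `N × N'` with
  `N = {g | (g, 1) ∈ M}`, `N' = {g' | (1, g') ∈ M}` open; `index (N.prod N') = index N * index N'`.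
* `exists_fixed`: let `v ≠ 0`.  The stabiliser of `v` is open of finite index, so the orbit of `v` is
  finite; its span `X` is finite dimensional over the finite field `C`, so it is a finite set, of
  cardinality a power of `p` (`FiniteField.card`, or: it is an `𝔽_p`-vector space), `> 1`, and `G`
  acts on it through a finite quotient `G / N`, `N` open normal (the intersection of the stabilisers
  of the elements of `X`), which is a `p`-group; so the number of fixed points of `G` on `X` is
  `≡ |X| ≡ 0 mod p` (`IsPGroup.card_modEq_card_fixedPoints`, applied to `G ⧸ N` or to the image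
  of `G` in the group of the permutations of `X`), and `0` is a fixed point, so there is another one.
-/

open Topology Set

namespace Emt

theorem pro_pow_of_dvd {p m n : ℕ} [hp : Fact p.Prime] (h : m ∣ p ^ n) : ∃ k, m = p ^ k := by
  obtain ⟨k, -, hk⟩ := (Nat.dvd_prime_pow hp.out).1 h
  exact ⟨k, hk⟩

theorem pro_core_open {G : Type} [Group G] [TopologicalSpace G] [IsTopologicalGroup G]
    [CompactSpace G] (U : Subgroup G) (hU : IsOpen (U : Set G)) :
    IsOpen (U.normalCore : Set G) := by
  have hf : Finite (G ⧸ U) := Subgroup.quotient_finite_of_isOpen U hU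
  have hfi : U.FiniteIndex := Subgroup.finiteIndex_of_finite_quotient
  have hcl : IsClosed (U : Set G) := Subgroup.isClosed_of_isOpen U hU
  have hc2 : IsClosed (U.normalCore : Set G) := by
    have e : (U.normalCore : Set G) = ⋂ b : G, (fun a => b * a * b⁻¹) ⁻¹' (U : Set G) := by
      ext a
      rw [Set.mem_iInter]
      rfl
    rw [e]
    refine isClosed_iInter fun b => hcl.preimage ?_
    exact (continuous_const.mul continuous_id).mul continuous_const
  exact Subgroup.isOpen_of_isClosed_of_finiteIndex _ hc2

theorem IsProP.subgroup {p : ℕ} [Fact p.Prime] {G : Type} [Group G] [TopologicalSpace G]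
    [IsTopologicalGroup G] [CompactSpace G] (hG : IsProP p G)
    (hb : ∀ s ∈ 𝓝 (1 : G), ∃ U : Subgroup G, IsOpen (U : Set G) ∧ (U : Set G) ⊆ s)
    (H : Subgroup G) : IsProP p H := by
  intro M hM
  obtain ⟨O, hO, hOM⟩ := isOpen_induced_iff.1 hM
  have h1 : (1 : G) ∈ O := by
    have : (1 : H) ∈ Subtype.val ⁻¹' O := by
      rw [hOM]
      exact M.one_mem
    exact this
  obtain ⟨U, hU, hUO⟩ := hb O (hO.mem_nhds h1)
  have hN := pro_core_open U hU
  obtain ⟨k, hk⟩ := hG U.normalCore hN
  have h2 : U.normalCore.subgroupOf H ≤ M := by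
    intro x hx
    have h3 : (x : G) ∈ O := hUO (Subgroup.normalCore_le U hx)
    have h4 : x ∈ (Subtype.val ⁻¹' O : Set H) := h3
    rw [hOM] at h4
    exact h4
  have h5 : M.index ∣ (U.normalCore.subgroupOf H).index := Subgroup.index_dvd_of_le h2
  have h6 : (U.normalCore.subgroupOf H).index ∣ U.normalCore.index :=
    Subgroup.relIndex_dvd_index_of_normal _ _
  exact pro_pow_of_dvd (hk ▸ h5.trans h6)

theorem IsProP.map {p : ℕ} {G G' : Type} [Group G] [TopologicalSpace G] [Group G']
    [TopologicalSpace G'] (hG : IsProP p G) (f : G →* G') (hf : Continuous f)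
    (hs : Function.Surjective f) : IsProP p G' := by
  intro U hU
  obtain ⟨k, hk⟩ := hG (U.comap f) (hU.preimage hf)
  rw [Subgroup.index_comap_of_surjective _ hs] at hk
  exact ⟨k, hk⟩

theorem IsProP.prod {p : ℕ} [Fact p.Prime] {G G' : Type} [Group G] [TopologicalSpace G]
    [IsTopologicalGroup G] [Group G'] [TopologicalSpace G'] [IsTopologicalGroup G']
    (hG : IsProP p G) (hG' : IsProP p G') : IsProP p (G × G') := by
  intro M hM
  have c1 : Continuous (MonoidHom.inl G G') := by
    have : Continuous fun g : G => (g, (1 : G')) := by fun_prop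
    exact this
  have c2 : Continuous (MonoidHom.inr G G') := by
    have : Continuous fun g : G' => ((1 : G), g) := by fun_prop
    exact this
  obtain ⟨k, hk⟩ := hG (M.comap (MonoidHom.inl G G')) (hM.preimage c1)
  obtain ⟨l, hl⟩ := hG' (M.comap (MonoidHom.inr G G')) (hM.preimage c2)
  have h1 : (M.comap (MonoidHom.inl G G')).prod (M.comap (MonoidHom.inr G G')) ≤ M := by
    rintro ⟨a, b⟩ hab
    obtain ⟨ha, hb⟩ := Subgroup.mem_prod.1 hab
    have h2 := M.mul_mem (Subgroup.mem_comap.1 ha) (Subgroup.mem_comap.1 hb)
    simpa using h2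
  have h3 := Subgroup.index_dvd_of_le h1
  rw [Subgroup.index_prod, hk, hl, ← pow_add] at h3
  exact pro_pow_of_dvd h3

theorem exists_fixed {p : ℕ} [Fact p.Prime] {C : Type} [Field C] [Finite C] [CharP C p] {G : Type}
    [Group G] [TopologicalSpace G] [IsTopologicalGroup G] [CompactSpace G] (hG : IsProP p G)
    {V : Type} [AddCommGroup V] [Module C V] {ρ : Representation C G V} (hρ : IsSmooth ρ)
    [Nontrivial V] : ∃ v : V, v ≠ 0 ∧ ∀ g, ρ g v = v := by
  obtain ⟨v, hv⟩ := exists_ne (0 : V)
  have hlc : IsLocallyConstant fun g : G => ρ g v := by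
    rw [IsLocallyConstant.iff_eventually_eq]
    intro g
    have hc : Continuous fun h : G => g⁻¹ * h := continuous_const.mul continuous_id
    have ho : IsOpen {h : G | ρ (g⁻¹ * h) v = v} := (hρ v).preimage hc
    have hg : g ∈ {h : G | ρ (g⁻¹ * h) v = v} := by
      show ρ (g⁻¹ * g) v = v
      rw [inv_mul_cancel, map_one]
      rfl
    filter_upwards [ho.mem_nhds hg] with h hh
    have h1 : ρ (g⁻¹ * h) v = v := hh
    have h2 : ρ h v = ρ g (ρ (g⁻¹ * h) v) := by
      rw [← Module.End.mul_apply, ← map_mul, mul_inv_cancel_left]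
    rw [h2, h1]
  have hfin : (Set.range fun g : G => ρ g v).Finite := hlc.range_finite
  obtain ⟨X, hXd⟩ : ∃ X : Submodule C V, X = Submodule.span C (Set.range fun g : G => ρ g v) :=
    ⟨_, rfl⟩
  have hX : IsSub ρ X := by
    intro g x hx
    have h1 : X ≤ X.comap (ρ g) := by
      rw [hXd, Submodule.span_le]
      rintro _ ⟨h, rfl⟩
      have h2 : ρ g (ρ h v) = ρ (g * h) v := by
        rw [map_mul]
        rfl
      show ρ g (ρ h v) ∈ Submodule.span C (Set.range fun g : G => ρ g v)
      rw [h2]
      exact Submodule.subset_span ⟨g * h, rfl⟩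
    exact h1 hx
  have hvX : v ∈ X := by
    rw [hXd]
    refine Submodule.subset_span ⟨1, ?_⟩
    simp
  have hfd : Module.Finite C X := by
    rw [hXd]
    exact FiniteDimensional.span_of_finite C hfin
  have hfX : Finite X := Module.finite_of_finite C
  let act : MulAction G X :=
    { smul := fun g x => ⟨ρ g x, hX g x x.2⟩
      one_smul := fun x => Subtype.ext (by
        show ρ 1 (x : V) = x
        rw [map_one]
        rfl)
      mul_smul := fun g h x => Subtype.ext (by
        show ρ (g * h) (x : V) = ρ g (ρ h x)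
        rw [map_mul]
        rfl) }
  have hsm : ∀ (g : G) (x : X), ((g • x : X) : V) = ρ g x := fun _ _ => rfl
  obtain ⟨φ, hφ⟩ : ∃ φ : G →* Equiv.Perm X, φ = MulAction.toPermHom G X := ⟨_, rfl⟩
  have hφ2 : ∀ (g : G) (x : X), φ g x = g • x := by
    intro g x
    rw [hφ]
    rfl
  have hker : IsOpen (φ.ker : Set G) := by
    have e : (φ.ker : Set G) = ⋂ x : X, {g : G | ρ g (x : V) = x} := by
      ext g
      simp only [SetLike.mem_coe, MonoidHom.mem_ker, Set.mem_iInter, Set.mem_ofPred_eq]
      constructor
      · intro h x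
        rw [← hsm, ← hφ2, h]
        rfl
      · intro h
        ext x
        rw [hφ2, hsm, h x]
        rfl
    rw [e]
    exact isOpen_iInter_of_finite fun x => hρ x
  obtain ⟨k, hk⟩ := hG φ.ker hker
  have hcard : Nat.card φ.range = p ^ k := by
    rw [← hk]
    exact (Subgroup.index_ker φ).symm
  have hpg : IsPGroup p φ.range := IsPGroup.of_card hcard
  have hmod := hpg.card_modEq_card_fixedPoints X
  have hpX : p ∣ Nat.card X := by
    have h1 : addOrderOf (⟨v, hvX⟩ : X) = p := by
      refine addOrderOf_eq_prime ?_ ?_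
      · have h2 : ((p : C)) • (⟨v, hvX⟩ : X) = 0 := by
          rw [CharP.cast_eq_zero, zero_smul]
        rw [← h2, Nat.cast_smul_eq_nsmul]
      · intro h
        exact hv (congrArg Subtype.val h)
    rw [← h1]
    exact addOrderOf_dvd_natCard _
  have hpf : p ∣ Nat.card (MulAction.fixedPoints φ.range X) :=
    (Nat.modEq_zero_iff_dvd.1 (hmod.symm.trans (Nat.modEq_zero_iff_dvd.2 hpX)))
  have h0 : (0 : X) ∈ MulAction.fixedPoints φ.range X := by
    rintro ⟨_, g, rfl⟩
    show φ g 0 = 0
    rw [hφ2]
    apply Subtype.ext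
    rw [hsm]
    simp
  have hgt : 1 < Nat.card (MulAction.fixedPoints φ.range X) := by
    have hpos : 0 < Nat.card (MulAction.fixedPoints φ.range X) := by
      have : Nonempty (MulAction.fixedPoints φ.range X) := ⟨⟨0, h0⟩⟩
      exact Nat.card_pos
    exact (Fact.out : p.Prime).one_lt.trans_le (Nat.le_of_dvd hpos hpf)
  have hnt : Nontrivial (MulAction.fixedPoints φ.range X) :=
    Finite.one_lt_card_iff_nontrivial.1 hgt
  obtain ⟨⟨y, hy⟩, hne⟩ := exists_ne (⟨0, h0⟩ : MulAction.fixedPoints φ.range X)
  refine ⟨y, ?_, ?_⟩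
  · intro h
    apply hne
    apply Subtype.ext
    exact Subtype.ext h
  · intro g
    have h1 := hy ⟨φ g, g, rfl⟩
    have h2 : φ g y = y := h1
    rw [hφ2] at h2
    exact congrArg Subtype.val h2

/-- Variant: a non-zero subrepresentation contains a non-zero fixed vector. -/
theorem exists_fixed_sub {p : ℕ} [Fact p.Prime] {C : Type} [Field C] [Finite C] [CharP C p]
    {G : Type} [Group G] [TopologicalSpace G] [IsTopologicalGroup G] [CompactSpace G]
    (hG : IsProP p G) {V : Type} [AddCommGroup V] [Module C V] {ρ : Representation C G V}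
    (hρ : IsSmooth ρ) {M : Submodule C V} (hM : IsSub ρ M) (h : M ≠ ⊥) :
    ∃ v ∈ M, v ≠ 0 ∧ ∀ g, ρ g v = v := by
  have hn : Nontrivial M := M.nontrivial_iff_ne_bot.2 h
  obtain ⟨v, hv, h1⟩ := exists_fixed hG (hρ.sub M hM)
  exact ⟨v, v.2, fun h => hv (Subtype.ext h), fun g => congrArg Subtype.val (h1 g)⟩

end Emt
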