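import Pool.Agent.Emt.NDefs
import Pool.Agent.Emt.Pro1

/-!
# Emt, module NFil: the socle filtration of a representation of a `Unif` group

Notation: `x_i = aug ρ (g i)`, the operator `g_i - 1`.
PROOFS.
* `isSub_fil`, `fil_mono`: induction.  (`v ∈ fil (n+1)`, `h ∈ G`: `g (h v) - h v =
  (g h v - v) - (h v - v) ∈ fil n`.)
* `fil_exhaust`: `G` compact pro-`p`, `ρ` smooth.  Let `X` be the (finite dimensional) span of the
  orbit of `v` (`{g | ρ g v = v}` is open in a compact group, so the orbit is finite), a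
  subrepresentation.  If `X ⊓ fil n ≠ X` then `X / (X ⊓ fil n)` has a non-zero fixed vector
  (`exists_fixed`), i.e. there is `w ∈ X`, `w ∉ fil n`, with `g w - w ∈ fil n` for all `g`, so
  `X ⊓ fil (n+1)` is strictly larger than `X ⊓ fil n`; the dimension is bounded.
* `aug_mem`: definition.
* `mem_fil_of_gen`: for `v ∈ fil (n+2)` the set `{g | g v - v ∈ fil n}` is a subgroup:
  `g h v - v = (g - 1)(h v - v) + (g v - v) + (h v - v)` and `h v - v ∈ fil (n+1)` so
  `(g - 1)(h v - v) ∈ fil n`; for the inverse use that it is closed under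
  products, `g⁻¹ v - v = -g⁻¹ (g v - v)` and `fil n` is stable; it contains the stabiliser of `v`, so
  it is open; it contains the `g i`, so it is everything (`Unif.gen`).
  `mem_fil_one_of_gen`: similarly, the stabiliser of `v` is an open subgroup which contains the
  `g i`.
* `comm_mem`: for `v ∈ fil (n+3)` the set `{γ | γ v - v ∈ fil n}` is an open subgroup
  (`γ γ' v - v = γ (γ' v - v) + (γ v - v)`, `fil n` is stable), it contains `g_i ^ (p^2)`
  because `g^(p^2) - 1 = (g - 1)^(p^2)` in characteristic `p` (`sub_pow_char_pow` / `add_pow_char_pow`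
  in the ring `Module.End C V`, the two elements commute) and `p^2 ≥ 3`.  So it contains
  `γ = g_i g_j g_i⁻¹ g_j⁻¹`.  Finally `x_i x_j - x_j x_i = g_i g_j - g_j g_i = (γ - 1) g_j g_i`,
  apply the above to the vector `g_j g_i v ∈ fil (n+3)`.
  `comm_eq_zero`: the same for `v ∈ fil 3` (`n = 0`), hence for `v ∈ fil 2`, `fil 1`.
* `fil_finite`: `fil 1 = fix ρ ⊤`; the map `v ↦ (x_i v)_i`, `fil (n+1) → (fil n)^d`, has kernel
  contained in `fil 1` (`mem_fil_one_of_gen`).
-/

open Topology Set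

namespace Emt

section Alg

variable {C : Type} [Field C] {G : Type} [Group G] {V : Type} [AddCommGroup V] [Module C V]
  {ρ : Representation C G V}

theorem isSub_fil (ρ : Representation C G V) (n : ℕ) : IsSub ρ (fil ρ n) := by
  induction n with
  | zero =>
    intro g v hv
    have h0 : v = 0 := hv
    rw [h0, map_zero]
    exact zero_mem _
  | succ n _ =>
    intro h v hv g
    have e : ρ g (ρ h v) - ρ h v = (ρ (g * h) v - v) - (ρ h v - v) := by
      rw [rep_mul_apply]
      abel
    rw [e]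
    exact sub_mem (hv (g * h)) (hv h)

theorem fil_mono (ρ : Representation C G V) : Monotone (fil ρ) := by
  refine monotone_nat_of_le_succ fun n v hv g => ?_
  exact sub_mem (isSub_fil ρ n g v hv) hv

theorem fil_one (ρ : Representation C G V) : fil ρ 1 = fix ρ ⊤ := by
  ext v
  constructor
  · intro hv g _
    have h : ρ g v - v = 0 := hv g
    exact sub_eq_zero.1 h
  · intro hv g
    have h : ρ g v - v = 0 := sub_eq_zero.2 (hv g (Subgroup.mem_top g))
    rw [h]
    exact zero_mem _

theorem aug_mem (g : G) {n : ℕ} {v : V} (hv : v ∈ fil ρ (n + 1)) : aug ρ g v ∈ fil ρ n := hv g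

/-- The stabiliser of the class of `v` modulo `fil ρ n`. -/
def stabF (ρ : Representation C G V) (n : ℕ) (v : V) : Subgroup G where
  carrier := {g | ρ g v - v ∈ fil ρ n}
  mul_mem' := by
    intro a b ha hb
    have ha' : ρ a v - v ∈ fil ρ n := ha
    have hb' : ρ b v - v ∈ fil ρ n := hb
    show ρ (a * b) v - v ∈ fil ρ n
    have e : ρ (a * b) v - v = ρ a (ρ b v - v) + (ρ a v - v) := by
      rw [rep_mul_apply, map_sub]
      abel
    rw [e]
    exact add_mem (isSub_fil ρ n a _ hb') ha'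
  one_mem' := by
    show ρ 1 v - v ∈ fil ρ n
    rw [rep_one_apply, sub_self]
    exact zero_mem _
  inv_mem' := by
    intro a ha
    have ha' : ρ a v - v ∈ fil ρ n := ha
    show ρ a⁻¹ v - v ∈ fil ρ n
    have e : ρ a⁻¹ v - v = -ρ a⁻¹ (ρ a v - v) := by
      rw [map_sub, rep_inv_apply]
      abel
    rw [e]
    exact neg_mem (isSub_fil ρ n _ _ ha')

theorem mem_stabF {n : ℕ} {v : V} {a : G} : a ∈ stabF ρ n v ↔ ρ a v - v ∈ fil ρ n := Iff.rfl

end Alg

variable {p : ℕ} [Fact p.Prime] {C : Type} [Field C] {G : Type} [Group G]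
  [TopologicalSpace G] [IsTopologicalGroup G] {V : Type} [AddCommGroup V] [Module C V]
  {ρ : Representation C G V} {d : ℕ} {g : Fin d → G}

omit [Fact p.Prime] in
theorem isOpen_stabF (hρ : IsSmooth ρ) (n : ℕ) (v : V) : IsOpen (stabF ρ n v : Set G) := by
  refine Subgroup.isOpen_mono (H₁ := stabG ρ v) (H₂ := stabF ρ n v) ?_ (hρ v)
  intro a ha
  have ha' : ρ a v = v := ha
  rw [mem_stabF, ha', sub_self]
  exact zero_mem _

theorem fil_exhaust [Finite C] [CharP C p] [CompactSpace G] (hG : IsProP p G) (hρ : IsSmooth ρ)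
    (v : V) : ∃ n, v ∈ fil ρ n := by
  by_contra hcon
  push Not at hcon
  have hlc : IsLocallyConstant fun g : G => ρ g v := by
    rw [IsLocallyConstant.iff_eventually_eq]
    intro g
    have hc : Continuous fun h : G => g⁻¹ * h := continuous_const.mul continuous_id
    have ho : IsOpen {h : G | ρ (g⁻¹ * h) v = v} := (hρ v).preimage hc
    have hg : g ∈ {h : G | ρ (g⁻¹ * h) v = v} := by
      show ρ (g⁻¹ * g) v = v
      rw [inv_mul_cancel, map_one]
      rfl
    filter_upwards [ho.mem_nhds hg] with h hh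
    have h1 : ρ (g⁻¹ * h) v = v := hh
    have h2 : ρ h v = ρ g (ρ (g⁻¹ * h) v) := by
      rw [← Module.End.mul_apply, ← map_mul, mul_inv_cancel_left]
    rw [h2, h1]
  have hfin : (Set.range fun g : G => ρ g v).Finite := hlc.range_finite
  obtain ⟨X, hXd⟩ : ∃ X : Submodule C V, X = Submodule.span C (Set.range fun g : G => ρ g v) :=
    ⟨_, rfl⟩
  have hX : IsSub ρ X := by
    intro g x hx
    have h1 : X ≤ X.comap (ρ g) := by
      rw [hXd, Submodule.span_le]
      rintro _ ⟨h, rfl⟩
      have h2 : ρ g (ρ h v) = ρ (g * h) v := by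
        rw [map_mul]
        rfl
      show ρ g (ρ h v) ∈ Submodule.span C (Set.range fun g : G => ρ g v)
      rw [h2]
      exact Submodule.subset_span ⟨g * h, rfl⟩
    exact h1 hx
  have hvX : v ∈ X := by
    rw [hXd]
    refine Submodule.subset_span ⟨1, ?_⟩
    simp
  have hfd : Module.Finite C X := by
    rw [hXd]
    exact FiniteDimensional.span_of_finite C hfin
  -- the steps of the filtration of `X`
  have hstep : ∀ n, ∃ w ∈ X, w ∈ fil ρ (n + 1) ∧ w ∉ fil ρ n := by
    intro n
    obtain ⟨M, hM⟩ : ∃ M : Submodule C X, M = (fil ρ n).comap X.subtype := ⟨_, rfl⟩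
    have hMs : IsSub (subRep ρ X hX) M := by
      intro a x hx
      rw [hM] at hx ⊢
      exact isSub_fil ρ n a _ hx
    have hsm : IsSmooth (quotRep (subRep ρ X hX) M hMs) := (hρ.sub X hX).quot M hMs
    have hnt : Nontrivial (X ⧸ M) := by
      rw [Submodule.Quotient.nontrivial_iff]
      intro htop
      have h1 : (⟨v, hvX⟩ : X) ∈ M := by
        rw [htop]
        exact Submodule.mem_top
      rw [hM] at h1
      exact hcon n h1
    obtain ⟨y, hy0, hy⟩ := exists_fixed hG hsm
    obtain ⟨w, rfl⟩ := M.mkQ_surjective y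
    refine ⟨w, w.2, ?_, ?_⟩
    · intro a
      have h1 := hy a
      rw [quotRep_mk, ← sub_eq_zero, ← map_sub, ← LinearMap.mem_ker, Submodule.ker_mkQ, hM] at h1
      exact h1
    · intro hw
      apply hy0
      rw [← LinearMap.mem_ker, Submodule.ker_mkQ, hM]
      exact hw
  have hrank : ∀ n, n ≤ Module.finrank C (X ⊓ fil ρ n : Submodule C V) := by
    intro n
    induction n with
    | zero => exact Nat.zero_le _
    | succ n ih =>
      obtain ⟨w, hwX, hw1, hw2⟩ := hstep n
      have hfd1 : FiniteDimensional C (X ⊓ fil ρ (n + 1) : Submodule C V) :=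
        Submodule.finiteDimensional_of_le (S₂ := X) inf_le_left
      have hlt : (X ⊓ fil ρ n : Submodule C V) < X ⊓ fil ρ (n + 1) := by
        refine lt_of_le_of_ne (inf_le_inf_left _ (fil_mono ρ (Nat.le_succ n))) ?_
        intro he
        have h1 : w ∈ (X ⊓ fil ρ n : Submodule C V) := by
          rw [he]
          exact ⟨hwX, hw1⟩
        exact hw2 h1.2
      have := Submodule.finrank_lt_finrank_of_lt hlt
      omega
  have h1 := hrank (Module.finrank C X + 1)
  have h2 : Module.finrank C (X ⊓ fil ρ (Module.finrank C X + 1) : Submodule C V) ≤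
      Module.finrank C X := Submodule.finrank_mono inf_le_left
  omega

theorem mem_fil_one_of_gen (hg : Unif p g) (hρ : IsSmooth ρ) {v : V}
    (h : ∀ i, aug ρ (g i) v = 0) : v ∈ fil ρ 1 := by
  have h1 : stabF ρ 0 v = ⊤ := by
    refine hg.gen _ (isOpen_stabF hρ 0 v) fun i => ?_
    have h2 : ρ (g i) v - v = 0 := h i
    rw [mem_stabF, h2]
    exact zero_mem _
  intro a
  have h3 : a ∈ stabF ρ 0 v := by
    rw [h1]
    exact Subgroup.mem_top a
  exact h3

theorem mem_fil_of_gen (hg : Unif p g) (hρ : IsSmooth ρ) {n : ℕ} {v : V}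
    (hv : v ∈ fil ρ (n + 2)) (h : ∀ i, aug ρ (g i) v ∈ fil ρ n) : v ∈ fil ρ (n + 1) := by
  have h1 : stabF ρ n v = ⊤ := hg.gen _ (isOpen_stabF hρ n v) fun i => h i
  intro a
  have h3 : a ∈ stabF ρ n v := by
    rw [h1]
    exact Subgroup.mem_top a
  exact h3

private theorem aug_pow_mem (a : G) {n : ℕ} {w : V} (hw : w ∈ fil ρ n) (k : ℕ) :
    (aug ρ a ^ k) w ∈ fil ρ n := by
  induction k with
  | zero => exact hw
  | succ k ih =>
    rw [pow_succ']
    exact sub_mem (isSub_fil ρ n a _ ih) ih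

private theorem pow_sub_mem [CharP C p] (a : G) {n : ℕ} {w : V} (hw : w ∈ fil ρ (n + 3)) :
    ρ (a ^ p ^ 2) w - w ∈ fil ρ n := by
  have e1 : (ρ a - 1 : Module.End C V) ^ p ^ 2 = ρ a ^ p ^ 2 - 1 := by
    have h := congrArg (Polynomial.aeval (ρ a))
      (sub_pow_char_pow (R := Polynomial C) (p := p) (n := 2) Polynomial.X 1)
    simpa using h
  have e2 : ρ (a ^ p ^ 2) w - w = (aug ρ a ^ p ^ 2) w := by
    have h1 : aug ρ a = (ρ a - 1 : Module.End C V) := rfl
    rw [h1, e1, map_pow]
    rfl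
  have hp : 2 ≤ p := (Fact.out : p.Prime).two_le
  have hp2 : 3 ≤ p ^ 2 := by nlinarith
  obtain ⟨k, hk⟩ : ∃ k, p ^ 2 = k + 3 := ⟨p ^ 2 - 3, by omega⟩
  rw [e2, hk, pow_add]
  exact aug_pow_mem a (hw a a a) k

theorem comm_mem [CharP C p] (hg : Unif p g) (hρ : IsSmooth ρ) {n : ℕ} {v : V}
    (hv : v ∈ fil ρ (n + 3)) (i j : Fin d) :
    aug ρ (g i) (aug ρ (g j) v) - aug ρ (g j) (aug ρ (g i) v) ∈ fil ρ n := by
  obtain ⟨w, hw⟩ : ∃ w, w = ρ (g j) (ρ (g i) v) := ⟨_, rfl⟩
  have hwf : w ∈ fil ρ (n + 3) := by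
    rw [hw]
    exact isSub_fil ρ _ _ _ (isSub_fil ρ _ _ _ hv)
  have h1 := hg.comm (stabF ρ n w) (isOpen_stabF hρ n w) (fun l => pow_sub_mem (g l) hwf) i j
  rw [mem_stabF] at h1
  have h2 : ρ (g i * g j * (g i)⁻¹ * (g j)⁻¹) w = ρ (g i) (ρ (g j) v) := by
    rw [hw, ← rep_mul_apply, ← rep_mul_apply, ← rep_mul_apply]
    congr 2
    group
  have h3 : aug ρ (g i) (aug ρ (g j) v) - aug ρ (g j) (aug ρ (g i) v) =
      ρ (g i * g j * (g i)⁻¹ * (g j)⁻¹) w - w := by
    rw [h2, hw]
    simp only [aug_apply, map_sub]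
    abel
  rw [h3]
  exact h1

theorem fil_finite (hg : Unif p g) (hρ : IsSmooth ρ) [FiniteDimensional C (fix ρ ⊤)] (n : ℕ) :
    FiniteDimensional C (fil ρ n) := by
  have hone : FiniteDimensional C (fil ρ 1) := by
    rw [fil_one]
    infer_instance
  induction n with
  | zero =>
    show FiniteDimensional C (⊥ : Submodule C V)
    infer_instance
  | succ n ih =>
    obtain ⟨f, hf⟩ : ∃ f : V →ₗ[C] (Fin d → V), f = LinearMap.pi fun i => aug ρ (g i) := ⟨_, rfl⟩
    have hmap : (fil ρ (n + 1)).map f ≤ LinearMap.range ((fil ρ n).subtype.compLeft (Fin d)) := by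
      rintro _ ⟨v, hv, rfl⟩
      refine ⟨fun i => ⟨aug ρ (g i) v, aug_mem (g i) hv⟩, ?_⟩
      rw [hf]
      rfl
    have hker : (fil ρ (n + 1) ⊓ LinearMap.ker f : Submodule C V) ≤ fil ρ 1 := by
      rintro v ⟨-, hv⟩
      refine mem_fil_one_of_gen hg hρ fun i => ?_
      have h1 : f v = 0 := hv
      have h2 := congrFun h1 i
      rw [hf] at h2
      exact h2
    have h1 : FiniteDimensional C ((fil ρ (n + 1)).map f) :=
      Submodule.finiteDimensional_of_le hmap
    have h2 : FiniteDimensional C (fil ρ (n + 1) ⊓ LinearMap.ker f : Submodule C V) :=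
      Submodule.finiteDimensional_of_le hker
    have h3 : (fil ρ (n + 1)).FG :=
      Submodule.fg_of_fg_map_of_fg_inf_ker f (Module.Finite.iff_fg.1 h1) (Module.Finite.iff_fg.1 h2)
    exact Module.Finite.iff_fg.2 h3

end Emt
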