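import Mathlib

/-!
# Emt, module NHil1: a graded form of Hilbert's basis theorem

`R = C[x_1, ..., x_d]`; `M m` is a subspace of the space of the vectors of homogeneous polynomials
of degree `m`, indexed by a finite set `ι`, with `x_i M m ⊆ M (m+1)`.  Then for large `m`
`M (m+1) = ∑ i, x_i M m`.

PROOF.  `ι → R` is a noetherian `R`-module.  Let `P k` be the `R`-submodule generated by
`⋃ m ≤ k, M m`; this chain is stationary from some `N` on.  Let `m ≥ N` and `f ∈ M (m+1)`.  Then
`f ∈ P (m+1) = P N`.  CLAIM: for every `F ∈ P N` the homogeneous component of degree `m + 1` of `F`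
(component-wise) lies in `∑ i, x_i M m`.  It is enough to prove this for `F = x^α f'` with
`f' ∈ M m'`, `m' ≤ N` (the module `P N` is the `C`-span of these: `Submodule.span_induction` and
`MvPolynomial.induction_on`); `x^α f'` is homogeneous of degree `|α| + m'`; if this is not `m + 1` the
component is `0`; if it is `m + 1` then `|α| ≥ 1`, `α = α' + e_i`, and
`x^α f' = x_i (x^α' f')`, `x^α' f' ∈ M m` (apply `x_j M k ⊆ M (k+1)` repeatedly).
Apply the claim to `F = f`.
-/

open MvPolynomial

namespace Emt

theorem hc_X_mul {C : Type} [Field C] {d : ℕ} (n : ℕ) (i : Fin d)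
    (φ : MvPolynomial (Fin d) C) :
    homogeneousComponent (n + 1) (X i * φ) = X i * homogeneousComponent n φ := by
  classical
  ext e
  rw [coeff_homogeneousComponent, coeff_X_mul', coeff_X_mul', coeff_homogeneousComponent]
  by_cases hi : i ∈ e.support
  · have h1 : Finsupp.single i 1 ≤ e := by
      rw [Finsupp.single_le_iff]
      have := Finsupp.mem_support_iff.1 hi
      omega
    have h2 : e.degree = (e - Finsupp.single i 1).degree + 1 := by
      conv_lhs => rw [← tsub_add_cancel_of_le h1]
      rw [map_add, Finsupp.degree_single]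
    simp only [hi, if_true, h2, Nat.add_right_cancel_iff]
  · simp only [hi, if_false]
    split_ifs <;> rfl

theorem hc_X_mul_zero {C : Type} [Field C] {d : ℕ} (i : Fin d)
    (φ : MvPolynomial (Fin d) C) :
    homogeneousComponent 0 (X i * φ) = 0 := by
  classical
  rw [homogeneousComponent_zero, coeff_X_mul']
  simp

theorem hc_of_hom {C : Type} [Field C] {d : ℕ} (n m : ℕ)
    (φ : MvPolynomial (Fin d) C) (h : φ.IsHomogeneous m) :
    homogeneousComponent n φ = if m = n then φ else 0 := by
  rw [homogeneousComponent_of_mem ((mem_homogeneousSubmodule _ _).2 h)]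
  by_cases hmn : m = n
  · simp [hmn]
  · have : n ≠ m := fun h => hmn h.symm
    rw [if_neg this, if_neg hmn]

theorem graded_hilbert {C : Type} [Field C] {d : ℕ} {ι : Type} [Finite ι]
    (M : ℕ → Submodule C (ι → MvPolynomial (Fin d) C))
    (hM : ∀ m, ∀ f ∈ M m, ∀ k, (f k).IsHomogeneous m)
    (hX : ∀ m, ∀ f ∈ M m, ∀ i : Fin d, (fun k => X i * f k) ∈ M (m + 1)) :
    ∃ N, ∀ m, N ≤ m → ∀ f ∈ M (m + 1), ∃ F : Fin d → ι → MvPolynomial (Fin d) C,
      (∀ i, F i ∈ M m) ∧ ∀ k, f k = ∑ i, X i * F i k := by
  classical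
  let V := ι → MvPolynomial (Fin d) C
  have hNoeth : IsNoetherian (MvPolynomial (Fin d) C) (ι → MvPolynomial (Fin d) C) := inferInstance
  -- the sum of the `X i * M m`
  let S : ℕ → (ι → MvPolynomial (Fin d) C) → Prop := fun m f =>
    ∃ F : Fin d → ι → MvPolynomial (Fin d) C, (∀ i, F i ∈ M m) ∧ ∀ k, f k = ∑ i, X i * F i k
  have S0 : ∀ m, S m 0 := fun m => ⟨fun _ => 0, fun _ => (M m).zero_mem, fun k => by simp⟩
  have Sadd : ∀ m f g, S m f → S m g → S m (f + g) := by
    rintro m f g ⟨F, hF1, hF2⟩ ⟨G, hG1, hG2⟩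
    refine ⟨fun i => F i + G i, fun i => (M m).add_mem (hF1 i) (hG1 i), fun k => ?_⟩
    simp only [Pi.add_apply, hF2 k, hG2 k, mul_add, Finset.sum_add_distrib]
  have Ssmul : ∀ m (c : C) f, S m f → S m (c • f) := by
    rintro m c f ⟨F, hF1, hF2⟩
    refine ⟨fun i => c • F i, fun i => (M m).smul_mem c (hF1 i), fun k => ?_⟩
    simp only [Pi.smul_apply, hF2 k, Finset.smul_sum, mul_smul_comm]
  have SX : ∀ m (i : Fin d) f, f ∈ M m → S m (fun k => X i * f k) := by
    intro m i f hf
    refine ⟨fun j => if j = i then f else 0, fun j => ?_, fun k => ?_⟩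
    · by_cases h : j = i
      · simp only [h, if_true]; exact hf
      · simp only [h, if_false]; exact (M m).zero_mem
    · rw [Finset.sum_eq_single i]
      · simp
      · intro j _ hj
        simp [hj]
      · intro h
        exact absurd (Finset.mem_univ i) h
  -- the homogeneous components
  let cp : ℕ → (ι → MvPolynomial (Fin d) C) → (ι → MvPolynomial (Fin d) C) :=
    fun j F k => homogeneousComponent j (F k)
  have cp_add : ∀ j F G, cp j (F + G) = cp j F + cp j G := by
    intro j F G
    funext k
    simp only [cp, Pi.add_apply, map_add]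
  have cp_smul : ∀ j (c : C) F, cp j (c • F) = c • cp j F := by
    intro j c F
    funext k
    simp only [cp, Pi.smul_apply, map_smul]
  have cp_zero : ∀ j, cp j 0 = 0 := by
    intro j
    funext k
    simp only [cp, Pi.zero_apply, map_zero]
  have cp_mem : ∀ j m F, F ∈ M m → cp j F = if m = j then F else 0 := by
    intro j m F hF
    funext k
    simp only [cp]
    rw [hc_of_hom j m _ (hM m F hF k)]
    split_ifs <;> rfl
  let P : ℕ → Submodule (MvPolynomial (Fin d) C) (ι → MvPolynomial (Fin d) C) := fun n =>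
    Submodule.span _ {f | ∃ m, m ≤ n ∧ f ∈ M m}
  have hPmono : Monotone P := by
    intro a b hab
    apply Submodule.span_mono
    rintro f ⟨m, hm, hf⟩
    exact ⟨m, hm.trans hab, hf⟩
  obtain ⟨N, hN⟩ := monotone_stabilizes_iff_noetherian.2 hNoeth ⟨P, hPmono⟩
  refine ⟨N, fun m hm f hf => ?_⟩
  -- the property of all elements of `P N`
  let Q : (ι → MvPolynomial (Fin d) C) → Prop := fun F =>
    (∀ j, cp j F ∈ M j) ∧ ∀ j, N ≤ j → S j (cp (j + 1) F)
  have Qadd : ∀ F G, Q F → Q G → Q (F + G) := by
    rintro F G ⟨h1, h2⟩ ⟨h3, h4⟩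
    refine ⟨fun j => ?_, fun j hj => ?_⟩
    · rw [cp_add]; exact (M j).add_mem (h1 j) (h3 j)
    · rw [cp_add]; exact Sadd _ _ _ (h2 j hj) (h4 j hj)
  have Qsmul : ∀ (c : C) F, Q F → Q (c • F) := by
    rintro c F ⟨h1, h2⟩
    refine ⟨fun j => ?_, fun j hj => ?_⟩
    · rw [cp_smul]; exact (M j).smul_mem c (h1 j)
    · rw [cp_smul]; exact Ssmul _ _ _ (h2 j hj)
  have Q0 : Q 0 := by
    refine ⟨fun j => ?_, fun j _ => ?_⟩
    · rw [cp_zero]; exact (M j).zero_mem
    · rw [cp_zero]; exact S0 j
  have QX : ∀ (i : Fin d) F, Q F → Q (fun k => X i * F k) := by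
    rintro i F ⟨h1, h2⟩
    have hcp : ∀ j, cp (j + 1) (fun k => X i * F k) = fun k => X i * cp j F k := by
      intro j
      funext k
      exact hc_X_mul j i (F k)
    refine ⟨fun j => ?_, fun j hj => ?_⟩
    · cases j with
      | zero =>
        have : cp 0 (fun k => X i * F k) = 0 := by
          funext k
          exact hc_X_mul_zero i (F k)
        rw [this]
        exact (M 0).zero_mem
      | succ j =>
        rw [hcp]
        exact hX j _ (h1 j) i
    · rw [hcp]
      exact SX j i _ (h1 j)
  have Qmul : ∀ (p : MvPolynomial (Fin d) C) F, Q F → Q (p • F) := by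
    intro p
    induction p using MvPolynomial.induction_on with
    | C c =>
      intro F hF
      have : (MvPolynomial.C c : MvPolynomial (Fin d) C) • F = c • F := by
        funext k
        simp only [Pi.smul_apply, smul_eq_mul, MvPolynomial.smul_eq_C_mul]
      rw [this]
      exact Qsmul c F hF
    | add p q hp hq =>
      intro F hF
      rw [add_smul]
      exact Qadd _ _ (hp F hF) (hq F hF)
    | mul_X p i hp =>
      intro F hF
      have : (p * X i) • F = p • (fun k => X i * F k : ι → MvPolynomial (Fin d) C) := by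
        funext k
        simp only [Pi.smul_apply, smul_eq_mul, mul_assoc]
      rw [this]
      exact hp _ (QX i F hF)
  have hQ : ∀ F ∈ P N, Q F := by
    intro F hF
    induction hF using Submodule.span_induction with
    | mem F h =>
      obtain ⟨m', hm', hF⟩ := h
      refine ⟨fun j => ?_, fun j hj => ?_⟩
      · rw [cp_mem j m' F hF]
        split_ifs with h
        · rw [← h]; exact hF
        · exact (M j).zero_mem
      · rw [cp_mem (j + 1) m' F hF, if_neg (by omega)]
        exact S0 j
    | zero => exact Q0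
    | add F G _ _ h1 h2 => exact Qadd F G h1 h2
    | smul p F _ h => exact Qmul p F h
  have hfP : f ∈ P N := by
    have h1 : P N = P (m + 1) := hN (m + 1) (by omega)
    rw [h1]
    exact Submodule.subset_span ⟨m + 1, le_rfl, hf⟩
  have h2 := (hQ f hfP).2 m hm
  rw [cp_mem (m + 1) (m + 1) f hf, if_pos rfl] at h2
  exact h2

end Emt
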