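import Pool.Agent.Emt.NMon
import Pool.Agent.Emt.NHil1

/-!
# Emt, module NHil2: `Unif` groups have the property `QFin`

PROOF.  Let `V^G = fil 1` be finite dimensional, with the basis `b_k`, `k ∈ ι = Fin r`, and the
coordinate functionals `l_k : V^G → C`, which we extend to linear maps `l_k : V → C`.  For a vector
`f = (f_k)` of polynomials and `v ∈ V` put `⟨f, v⟩_m = ∑_k ∑_{|α| = m} coeff α f_k * l_k (mon α v)`
(a finite sum: `α` runs through `(Finset.univ.finsuppAntidiag m)` or use
`∑ α ∈ (f k).support` for homogeneous `f k`).  `W` is a subrepresentation.  Let `M m` be the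
set of the vectors `f` of homogeneous polynomials of degree `m` with `⟨f, w⟩_m = 0` for all
`w ∈ W ⊓ fil (m+1)`.  One has `⟨x_i f, w⟩_(m+1) = ⟨f, x_i w⟩_m` for `w ∈ fil (m+2)` (`mon_aug`), so
`x_i M m ⊆ M (m+1)`, and `graded_hilbert` gives `N`.
CLAIM (`claim`): let `m ≥ N`, `v ∈ fil (m+2)` with `x_i v ∈ W + fil m` for all `i`.  Then
`v ∈ W + fil (m+1)`.  Proof.  Consider `T : V → ({α // |α| = m+1} → C^r)`,
`T v = (l_k (mon α v))_(α, k)`; for `v ∈ fil (m+2)` all the `mon α v` are in `fil 1`, so that by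
`mem_fil_of_mon` `T v = 0` implies `v ∈ fil (m+1)`.  If `T v ∈ T (W ⊓ fil (m+2))` then
`v - w ∈ fil (m+1)` for some `w ∈ W` and we are done.  Otherwise there is a linear form on the finite
dimensional space `{α // |α| = m+1} → C^r` which vanishes on `T (W ⊓ fil (m+2))` and not at `T v`
(`Submodule.exists_le_ker_of_notMem` or `Submodule.exists_dual_map_eq_bot...`); it is of the form
`⟨f, ·⟩_(m+1)` with `f` homogeneous of degree `m+1`; so `f ∈ M (m+1)`, `f = ∑ x_i F_i`,
`F_i ∈ M m`, `⟨f, v⟩ = ∑ ⟨F_i, x_i v⟩_m`, and `x_i v = w_i + u_i`, `w_i ∈ W`, `u_i ∈ fil m`,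
`w_i ∈ fil (m+1)`; `⟨F_i, w_i⟩ = 0`, and `⟨F_i, u_i⟩ = 0` since `mon α u_i ∈ fil 0 = 0` for `|α| = m`
(`mon_mem`).  Contradiction.
CONCLUSION (`qfin_of_unif`).  Let `q ∈ (V/W)^G`, `q = v mod W`.  `v ∈ fil n` for some `n`
(`fil_exhaust`).  We show that `q` is in the image of `fil (N+1)`, which is finite dimensional
(`fil_finite`): take the least `n` such that `q` is in the image of `fil n`; if `n ≥ N + 2`,
`n = m + 2`, `q = v mod W`, `v ∈ fil (m+2)`, then `x_i v ∈ W` for all `i`, so by the claim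
`v ∈ W + fil (m+1)`, a contradiction.
-/

open Topology Set

namespace Emt

section Aux

variable {p : ℕ} [Fact p.Prime] {C : Type} [Field C] [CharP C p] {G : Type} [Group G]
  [TopologicalSpace G] [IsTopologicalGroup G] {V : Type} [AddCommGroup V] [Module C V]
  {ρ : Representation C G V} {d : ℕ} {g : Fin d → G}

/-- The operator which a polynomial defines (the monomials being ordered). -/
noncomputable def phiOp (ρ : Representation C G V) (g : Fin d → G) :
    MvPolynomial (Fin d) C →ₗ[C] (V →ₗ[C] V) :=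
  (MvPolynomial.basisMonomials (Fin d) C).constr C (fun α => mon ρ g α)

omit [CharP C p] [TopologicalSpace G] [IsTopologicalGroup G] in
theorem phiOp_monomial (α : Fin d →₀ ℕ) (c : C) :
    phiOp ρ g (MvPolynomial.monomial α c) = c • mon ρ g α := by
  have h1 : MvPolynomial.monomial α c = c • (MvPolynomial.basisMonomials (Fin d) C) α := by
    rw [MvPolynomial.coe_basisMonomials, MvPolynomial.smul_monomial, smul_eq_mul, mul_one]
  rw [h1, map_smul]
  unfold phiOp
  rw [Module.Basis.constr_basis]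

/-- a property of homogeneous polynomials can be checked on monomials -/
theorem homog_sum {f : MvPolynomial (Fin d) C} {m : ℕ} (hf : f.IsHomogeneous m) :
    ∃ s : Finset (Fin d →₀ ℕ), (∀ α ∈ s, α.degree = m) ∧
      f = ∑ α ∈ s, MvPolynomial.monomial α (f.coeff α) := by
  refine ⟨f.support, fun α hα => ?_, f.support_sum_monomial_coeff.symm⟩
  by_contra h
  exact (MvPolynomial.mem_support_iff.mp hα) (hf.coeff_eq_zero h)

theorem phiOp_mem {f : MvPolynomial (Fin d) C} {m : ℕ} (hf : f.IsHomogeneous m) {n : ℕ} {v : V}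
    (hv : v ∈ fil ρ (m + n)) : phiOp ρ g f v ∈ fil ρ n := by
  obtain ⟨s, hs, h⟩ := homog_sum hf
  rw [h, map_sum, LinearMap.sum_apply]
  refine Submodule.sum_mem _ fun α hα => ?_
  rw [phiOp_monomial, LinearMap.smul_apply]
  refine Submodule.smul_mem _ _ (mon_mem α ?_)
  rw [hs α hα]
  exact hv

theorem phiOp_X (hg : Unif p g) (hρ : IsSmooth ρ) {f : MvPolynomial (Fin d) C} {m : ℕ}
    (hf : f.IsHomogeneous m) (i : Fin d) {v : V} (hv : v ∈ fil ρ (m + 2)) :
    phiOp ρ g (MvPolynomial.X i * f) v = phiOp ρ g f (aug ρ (g i) v) := by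
  obtain ⟨s, hs, h⟩ := homog_sum hf
  rw [h, Finset.mul_sum, map_sum, map_sum, LinearMap.sum_apply, LinearMap.sum_apply]
  refine Finset.sum_congr rfl fun α hα => ?_
  have h1 : MvPolynomial.X i * MvPolynomial.monomial α (f.coeff α) =
      MvPolynomial.monomial (α + Finsupp.single i 1) (f.coeff α) := by
    rw [mul_comm, MvPolynomial.X, MvPolynomial.monomial_mul, mul_one]
  rw [h1, phiOp_monomial, phiOp_monomial, LinearMap.smul_apply, LinearMap.smul_apply,
    mon_aug hg hρ α i]
  rw [hs α hα]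
  exact hv

/-- the graded module of the relations -/
noncomputable def relM (ρ : Representation C G V) (g : Fin d → G) (W : Submodule C V) {r : ℕ}
    (L : V →ₗ[C] (Fin r → C)) (m : ℕ) : Submodule C (Fin r → MvPolynomial (Fin d) C) where
  carrier := {f | (∀ k, (f k).IsHomogeneous m) ∧
    ∀ w ∈ W, w ∈ fil ρ (m + 1) → ∑ k, L (phiOp ρ g (f k) w) k = 0}
  add_mem' := by
    rintro a b ⟨ha, ha'⟩ ⟨hb, hb'⟩
    refine ⟨fun k => (ha k).add (hb k), fun w hw hw' => ?_⟩
    have e : ∀ k, L (phiOp ρ g ((a + b) k) w) k =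
        L (phiOp ρ g (a k) w) k + L (phiOp ρ g (b k) w) k := fun k => by
      rw [Pi.add_apply, map_add, LinearMap.add_apply, map_add, Pi.add_apply]
    simp only [e]
    rw [Finset.sum_add_distrib, ha' w hw hw', hb' w hw hw', add_zero]
  zero_mem' := by
    refine ⟨fun k => MvPolynomial.isHomogeneous_zero _ _ _, fun w _ _ => ?_⟩
    refine Finset.sum_eq_zero fun k _ => ?_
    rw [Pi.zero_apply, map_zero, LinearMap.zero_apply, map_zero, Pi.zero_apply]
  smul_mem' := by
    rintro c a ⟨ha, ha'⟩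
    refine ⟨fun k => ?_, fun w hw hw' => ?_⟩
    · rw [Pi.smul_apply, MvPolynomial.smul_eq_C_mul]
      exact (ha k).C_mul c
    · have e : ∀ k, L (phiOp ρ g ((c • a) k) w) k = c * L (phiOp ρ g (a k) w) k := fun k => by
        rw [Pi.smul_apply, map_smul, LinearMap.smul_apply, map_smul, Pi.smul_apply, smul_eq_mul]
      simp only [e]
      rw [← Finset.mul_sum, ha' w hw hw', mul_zero]

theorem relM_X (hg : Unif p g) (hρ : IsSmooth ρ) {W : Submodule C V} (hW : IsSub ρ W) {r : ℕ}
    {L : V →ₗ[C] (Fin r → C)} {m : ℕ} {f : Fin r → MvPolynomial (Fin d) C}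
    (hf : f ∈ relM ρ g W L m) (i : Fin d) :
    (fun k => MvPolynomial.X i * f k) ∈ relM ρ g W L (m + 1) := by
  obtain ⟨h1, h2⟩ := hf
  refine ⟨fun k => ?_, fun w hw hw' => ?_⟩
  · rw [add_comm m 1]
    exact (MvPolynomial.isHomogeneous_X C i).mul (h1 k)
  · have e : ∀ k, L (phiOp ρ g (MvPolynomial.X i * f k) w) k =
        L (phiOp ρ g (f k) (aug ρ (g i) w)) k := fun k => by
      rw [phiOp_X hg hρ (h1 k) i hw']
    simp only [e]
    refine h2 _ ?_ (aug_mem (g i) hw')
    rw [aug_apply]
    exact sub_mem (hW (g i) w hw) hw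

/-- the claim of the header -/
theorem qfin_claim (hg : Unif p g) (hρ : IsSmooth ρ) {W : Submodule C V} {r : ℕ}
    {L : V →ₗ[C] (Fin r → C)} (hL : ∀ v ∈ fil ρ 1, L v = 0 → v = 0) {m : ℕ}
    (hN : ∀ f ∈ relM ρ g W L (m + 1), ∃ F : Fin d → Fin r → MvPolynomial (Fin d) C,
      (∀ i, F i ∈ relM ρ g W L m) ∧ ∀ k, f k = ∑ i, MvPolynomial.X i * F i k)
    {v : V} (hv : v ∈ fil ρ (m + 2)) (hx : ∀ i, aug ρ (g i) v ∈ W ⊔ fil ρ m) :
    v ∈ W ⊔ fil ρ (m + 1) := by
  classical
  have hfin : Finite {α : Fin d →₀ ℕ // α.degree = m + 1} :=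
    (Finsupp.finite_of_degree_eq (m + 1)).to_subtype
  haveI : Fintype {α : Fin d →₀ ℕ // α.degree = m + 1} := Fintype.ofFinite _
  obtain ⟨T, hT⟩ : ∃ T : V →ₗ[C] ({α : Fin d →₀ ℕ // α.degree = m + 1} → Fin r → C),
      ∀ u α, T u α = L (mon ρ g α.1 u) :=
    ⟨LinearMap.pi fun α => L ∘ₗ mon ρ g α.1, fun u α => rfl⟩
  have hT0 : ∀ u ∈ fil ρ (m + 2), T u = 0 → u ∈ fil ρ (m + 1) := by
    intro u hu h0
    refine mem_fil_of_mon hg hρ (m + 1) hu fun α hα => ?_
    apply hL
    · apply mon_mem α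
      rw [hα]
      exact hu
    · rw [← hT u ⟨α, hα⟩, h0]
      rfl
  by_cases hmem : T v ∈ (W ⊓ fil ρ (m + 2)).map T
  · obtain ⟨w, hw, hwT⟩ := hmem
    have h1 : v - w ∈ fil ρ (m + 1) := by
      apply hT0 _ (sub_mem hv hw.2)
      rw [map_sub, hwT, sub_self]
    have h2 : v = w + (v - w) := by abel
    rw [h2]
    exact Submodule.add_mem_sup hw.1 h1
  · exfalso
    obtain ⟨φ, hφ, hker⟩ := Submodule.exists_le_ker_of_notMem hmem
    apply hφ
    -- the polynomials
    obtain ⟨f, hf⟩ : ∃ f : Fin r → MvPolynomial (Fin d) C, ∀ k, f k =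
        ∑ α : {α : Fin d →₀ ℕ // α.degree = m + 1}, MvPolynomial.monomial α.1
          (φ (Pi.single α (Pi.single k 1))) := ⟨_, fun k => rfl⟩
    have hfh : ∀ k, (f k).IsHomogeneous (m + 1) := fun k => by
      rw [hf]
      exact MvPolynomial.IsHomogeneous.sum _ _ _ fun α _ =>
        MvPolynomial.isHomogeneous_monomial _ α.2
    have hpair : ∀ u, ∑ k, L (phiOp ρ g (f k) u) k = φ (T u) := by
      intro u
      have e1 : ∀ k, L (phiOp ρ g (f k) u) k =
          ∑ α : {α : Fin d →₀ ℕ // α.degree = m + 1}, T u α k * φ (Pi.single α (Pi.single k 1)) := by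
        intro k
        rw [hf, map_sum, LinearMap.sum_apply, map_sum, Finset.sum_apply]
        refine Finset.sum_congr rfl fun α _ => ?_
        rw [phiOp_monomial, LinearMap.smul_apply, map_smul, Pi.smul_apply, smul_eq_mul, hT, mul_comm]
      simp only [e1]
      rw [Finset.sum_comm]
      have e2 : T u = ∑ α : {α : Fin d →₀ ℕ // α.degree = m + 1}, ∑ k, T u α k •
          (Pi.single α (Pi.single k 1) : {α : Fin d →₀ ℕ // α.degree = m + 1} → Fin r → C) := by
        funext β j
        rw [Finset.sum_apply, Finset.sum_apply]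
        rw [Finset.sum_eq_single β]
        · rw [Finset.sum_apply, Finset.sum_apply]
          rw [Finset.sum_eq_single j]
          · simp
          · intro k _ hk
            simp [Pi.single_apply, hk.symm]
          · intro h
            exact absurd (Finset.mem_univ _) h
        · intro α _ hα
          rw [Finset.sum_apply, Finset.sum_apply]
          refine Finset.sum_eq_zero fun k _ => ?_
          rw [Pi.smul_apply, Pi.single_eq_of_ne hα.symm]
          simp
        · intro h
          exact absurd (Finset.mem_univ _) h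
      conv_rhs => rw [e2]
      rw [map_sum]
      refine Finset.sum_congr rfl fun α _ => ?_
      rw [map_sum]
      refine Finset.sum_congr rfl fun k _ => ?_
      rw [map_smul, smul_eq_mul]
    have hfM : f ∈ relM ρ g W L (m + 1) := by
      refine ⟨hfh, fun w hw hw' => ?_⟩
      rw [hpair]
      exact hker (Submodule.mem_map_of_mem ⟨hw, hw'⟩)
    obtain ⟨F, hF, hfF⟩ := hN f hfM
    rw [← hpair]
    have e3 : ∀ k, L (phiOp ρ g (f k) v) k = ∑ i, L (phiOp ρ g (F i k) (aug ρ (g i) v)) k := by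
      intro k
      rw [hfF, map_sum, LinearMap.sum_apply, map_sum, Finset.sum_apply]
      refine Finset.sum_congr rfl fun i _ => ?_
      rw [phiOp_X hg hρ ((hF i).1 k) i hv]
    simp only [e3]
    rw [Finset.sum_comm]
    refine Finset.sum_eq_zero fun i _ => ?_
    obtain ⟨a, ha, u, hu, hau⟩ := Submodule.mem_sup.mp (hx i)
    have ha' : a ∈ fil ρ (m + 1) := by
      have h1 : a = aug ρ (g i) v - u := by rw [← hau]; abel
      rw [h1]
      exact sub_mem (aug_mem (g i) hv) (fil_mono ρ (Nat.le_succ m) hu)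
    have e4 : ∀ k, L (phiOp ρ g (F i k) (aug ρ (g i) v)) k = L (phiOp ρ g (F i k) a) k := by
      intro k
      have h1 : phiOp ρ g (F i k) u ∈ fil ρ 0 := phiOp_mem ((hF i).1 k) hu
      have h2 : phiOp ρ g (F i k) u = 0 := h1
      rw [← hau, map_add, h2, add_zero]
    simp only [e4]
    exact (hF i).2 a ha ha'

end Aux

theorem qfin_of_unif {p : ℕ} [Fact p.Prime] {C : Type} [Field C] [Finite C] [CharP C p] {G : Type}
    [Group G] [TopologicalSpace G] [IsTopologicalGroup G] [CompactSpace G] {d : ℕ}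
    {g : Fin d → G} (hg : Unif p g) : QFin C G := by
  intro V _ _ ρ hρ hfd W hW
  haveI := hfd
  haveI hfil1 : FiniteDimensional C (fil ρ 1) := fil_finite hg hρ 1
  obtain ⟨L, hL⟩ := (Module.finBasis C (fil ρ 1)).equivFun.toLinearMap.exists_extend
  have hL' : ∀ v ∈ fil ρ 1, L v = 0 → v = 0 := by
    intro v hv h0
    have h1 := LinearMap.congr_fun hL ⟨v, hv⟩
    have h2 : (Module.finBasis C (fil ρ 1)).equivFun ⟨v, hv⟩ = 0 := by
      rw [← h0]
      exact h1.symm
    rw [map_eq_zero_iff _ (LinearEquiv.injective _)] at h2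
    exact congrArg Subtype.val h2
  obtain ⟨N, hN⟩ := graded_hilbert (fun m => relM ρ g W L m) (fun m f hf k => hf.1 k)
    (fun m f hf i => relM_X hg hρ hW hf i)
  haveI hfilN : FiniteDimensional C (fil ρ (N + 1)) := fil_finite hg hρ (N + 1)
  have key : ∀ n, ∀ v ∈ fil ρ n, (∀ x, ρ x v - v ∈ W) → W.mkQ v ∈ (fil ρ (N + 1)).map W.mkQ := by
    intro n
    induction n with
    | zero =>
      intro v hv _
      have h0 : v = 0 := hv
      rw [h0, map_zero]
      exact zero_mem _
    | succ n ih =>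
      intro v hv hvW
      by_cases hn : n ≤ N
      · exact Submodule.mem_map_of_mem (fil_mono ρ (Nat.succ_le_succ hn) hv)
      · obtain ⟨m, rfl⟩ : ∃ m, n = m + 1 := ⟨n - 1, by omega⟩
        have h1 : v ∈ W ⊔ fil ρ (m + 1) := by
          refine qfin_claim hg hρ hL' (fun f hf => hN m (by omega) f hf) hv fun i => ?_
          rw [aug_apply]
          exact Submodule.mem_sup_left (hvW (g i))
        obtain ⟨w, hw, u, hu, rfl⟩ := Submodule.mem_sup.mp h1
        have h2 : W.mkQ (w + u) = W.mkQ u := by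
          rw [map_add]
          have : W.mkQ w = 0 := by
            rw [Submodule.mkQ_apply, Submodule.Quotient.mk_eq_zero]
            exact hw
          rw [this, zero_add]
        rw [h2]
        refine ih u hu fun x => ?_
        have h3 : ρ x u - u = (ρ x (w + u) - (w + u)) - (ρ x w - w) := by
          rw [map_add]
          abel
        rw [h3]
        exact sub_mem (hvW x) (sub_mem (hW x w hw) hw)
  have hle : fix (quotRep ρ W hW) ⊤ ≤ (fil ρ (N + 1)).map W.mkQ := by
    intro q hq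
    obtain ⟨v, rfl⟩ := W.mkQ_surjective q
    obtain ⟨n, hn⟩ := fil_exhaust hg.proP hρ v
    refine key n v hn fun x => ?_
    have h1 := hq x (Subgroup.mem_top x)
    rw [quotRep_mk] at h1
    rw [← Submodule.Quotient.eq]
    exact h1
  exact Submodule.finiteDimensional_of_le hle

end Emt
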