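import Pool.Agent.Emt.NDefs
import Pool.Agent.Emt.Fn1

/-!
# Emt, module NMat1: topology of `GL_n(ℤ_p)`

`GL = (Matrix (Fin n) (Fin n) ℤ_[p])ˣ` with the topology of the units (induced by
`u ↦ (u, u⁻¹)`, `Units.embedProduct`), `cong p n k = 1 + p^k M_n(ℤ_p)`.

PROOFS.
* `compact`: the image of `Units.embedProduct` is closed in `M × Mᵐᵒᵖ`
  (`{(a, b) | a b = 1, b a = 1}`, cf. `Units.isClosedEmbedding_embedProduct` if it exists), and
  `M_n(ℤ_p)` is compact (`ℤ_[p]` is compact).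
* `isOpen_cong`: `u ↦ (u - 1) i j` is continuous (`Units.continuous_val`) and
  `{x : ℤ_[p] | p^k ∣ x}` is open (`PadicInt.norm_le_pow_iff_mem_span_pow`, it is a ball).
* `basis_cong`: every neighbourhood of `1` contains some `cong p n k`, `k ≥ 1`: if `u ∈ cong k` then
  `u⁻¹ ∈ cong k`, and a neighbourhood of `1` in the units contains the set of the `u` for which all
  the entries of `u - 1` and of `u⁻¹ - 1` have norm `≤ p^(-k)`, for some `k`.
* `cong_normal`: `u (1 + p^k X) u⁻¹ = 1 + p^k u X u⁻¹`.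
* `openBasis_subgroup`: `OpenBasis` for the subgroups of `GL` (as types): from `basis_cong`.
-/

open Topology Set

namespace Emt

variable (p : ℕ) [Fact p.Prime] (n : ℕ)

private theorem nm1_open (k : ℕ) : IsOpen {x : ℤ_[p] | (p : ℤ_[p]) ^ k ∣ x} := by
  have h : {x : ℤ_[p] | (p : ℤ_[p]) ^ k ∣ x} = {x : ℤ_[p] | ‖x‖ < (p : ℝ) ^ (-(k : ℤ) + 1)} := by
    ext x
    rw [Set.mem_ofPred_eq, Set.mem_ofPred_eq, ← Ideal.mem_span_singleton,
      ← PadicInt.norm_le_pow_iff_mem_span_pow, PadicInt.norm_le_pow_iff_norm_lt_pow_add_one]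
  rw [h]
  exact isOpen_lt continuous_norm continuous_const

private theorem nm1_nhds {A : Set (Matrix (Fin n) (Fin n) ℤ_[p])} (hA : A ∈ 𝓝 1) :
    ∃ k, ∀ x : Matrix (Fin n) (Fin n) ℤ_[p], (∀ i j, (p : ℤ_[p]) ^ k ∣ (x - 1) i j) → x ∈ A := by
  obtain ⟨ε, hε, hs⟩ := (Metric.nhds_basis_closedBall (α := Fin n → Fin n → ℤ_[p])).mem_iff.1 hA
  obtain ⟨k, hk⟩ := PadicInt.exists_pow_neg_lt p hε
  refine ⟨k, fun x hx => hs ?_⟩
  rw [Metric.mem_closedBall, dist_pi_le_iff hε.le]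
  intro i
  rw [dist_pi_le_iff hε.le]
  intro j
  rw [dist_eq_norm]
  have h1 := (PadicInt.norm_le_pow_iff_mem_span_pow ((x - 1) i j) k).2
    (Ideal.mem_span_singleton.2 (hx i j))
  exact h1.trans hk.le

theorem compact_GL : CompactSpace (Matrix (Fin n) (Fin n) ℤ_[p])ˣ := by
  have : CompactSpace (Matrix (Fin n) (Fin n) ℤ_[p]) :=
    inferInstanceAs (CompactSpace (Fin n → Fin n → ℤ_[p]))
  infer_instance

theorem isOpen_cong (k : ℕ) : IsOpen (cong p n k : Set (Matrix (Fin n) (Fin n) ℤ_[p])ˣ) := by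
  have h : (cong p n k : Set (Matrix (Fin n) (Fin n) ℤ_[p])ˣ) =
      ⋂ i, ⋂ j, (fun u : (Matrix (Fin n) (Fin n) ℤ_[p])ˣ =>
        ((u : Matrix (Fin n) (Fin n) ℤ_[p]) - 1) i j) ⁻¹' {x : ℤ_[p] | (p : ℤ_[p]) ^ k ∣ x} := by
    ext u
    rw [SetLike.mem_coe, mem_cong]
    simp only [Set.mem_iInter, Set.mem_preimage, Set.mem_ofPred_eq]
  rw [h]
  refine isOpen_iInter_of_finite fun i => isOpen_iInter_of_finite fun j => ?_
  refine (nm1_open p k).preimage ?_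
  exact ((Units.continuous_val.sub continuous_const).matrix_elem i j)

theorem basis_cong {s : Set (Matrix (Fin n) (Fin n) ℤ_[p])ˣ} (hs : s ∈ 𝓝 1) :
    ∃ k, 1 ≤ k ∧ (cong p n k : Set (Matrix (Fin n) (Fin n) ℤ_[p])ˣ) ⊆ s := by
  rw [Units.isInducing_embedProduct.nhds_eq_comap] at hs
  obtain ⟨t, ht, hts⟩ := Filter.mem_comap.1 hs
  obtain ⟨A, hA, v, hv, hAv⟩ := mem_nhds_prod_iff.1 ht
  have hA1 : A ∈ 𝓝 (1 : Matrix (Fin n) (Fin n) ℤ_[p]) := hA
  have hv1 : v ∈ 𝓝 (MulOpposite.op (1 : Matrix (Fin n) (Fin n) ℤ_[p])) := by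
    have e : ((Units.embedProduct (Matrix (Fin n) (Fin n) ℤ_[p])) 1).2 =
        MulOpposite.op (1 : Matrix (Fin n) (Fin n) ℤ_[p]) := by
      simp
    rw [← e]
    exact hv
  have hB1 : MulOpposite.op ⁻¹' v ∈ 𝓝 (1 : Matrix (Fin n) (Fin n) ℤ_[p]) :=
    MulOpposite.continuous_op.continuousAt hv1
  obtain ⟨k, hk⟩ := nm1_nhds p n hA1
  obtain ⟨l, hl⟩ := nm1_nhds p n hB1
  refine ⟨max 1 (max k l), le_max_left _ _, fun u hu => hts (hAv ⟨?_, ?_⟩)⟩
  · refine hk _ fun i j => ?_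
    exact dvd_trans (pow_dvd_pow _ (by omega)) (mem_cong.1 hu i j)
  · refine hl _ fun i j => ?_
    exact dvd_trans (pow_dvd_pow _ (by omega)) (mem_cong.1 (inv_mem hu) i j)

theorem cong_normal (k : ℕ) : (cong p n k).Normal := by
  refine ⟨fun u hu g => ?_⟩
  rw [mem_cong] at hu ⊢
  intro i j
  have h : ((g * u * g⁻¹ : (Matrix (Fin n) (Fin n) ℤ_[p])ˣ) : Matrix (Fin n) (Fin n) ℤ_[p]) - 1 =
      (g : Matrix (Fin n) (Fin n) ℤ_[p]) * (((u : Matrix (Fin n) (Fin n) ℤ_[p]) - 1) *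
        ((g⁻¹ : (Matrix (Fin n) (Fin n) ℤ_[p])ˣ) : Matrix (Fin n) (Fin n) ℤ_[p])) := by
    rw [sub_mul, mul_sub, one_mul, Units.mul_inv, Units.val_mul, Units.val_mul, mul_assoc]
  rw [h, Matrix.mul_apply]
  refine Finset.dvd_sum fun l _ => Dvd.dvd.mul_left ?_ _
  rw [Matrix.mul_apply]
  exact Finset.dvd_sum fun m _ => Dvd.dvd.mul_right (hu l m) _

theorem cong_anti : Antitone (cong p n) := by
  intro k l hkl u hu
  rw [mem_cong] at hu ⊢
  exact fun i j => dvd_trans (pow_dvd_pow _ hkl) (hu i j)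

theorem openBasis_GL : OpenBasis (Matrix (Fin n) (Fin n) ℤ_[p])ˣ := by
  intro s hs
  obtain ⟨k, -, hk⟩ := basis_cong p n hs
  exact ⟨cong p n k, isOpen_cong p n k, hk⟩

end Emt
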