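import Pool.Agent.Emt.NMat1

/-!
# Emt, module NMat2: the congruence subgroups are pro-`p`

PROOFS.
* `relIndex_cong`: for `k ≥ 1` the index of `cong (k+1)` in `cong k` is a power of `p`: the map
  `1 + p^k X ↦ X mod p` is a homomorphism from `cong k` to the additive group `M_n(ℤ/p)` with kernel
  `cong (k+1)` (for `k ≥ 1`: `(1 + p^k X)(1 + p^k Y) = 1 + p^k (X + Y + p^k X Y)`), so
  `cong k / cong (k+1)` embeds in a finite group of order `p^(n^2)` and its order divides `p^(n^2)`.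
  (Alternative: `u ↦ u^p` maps `cong k` into `cong (k+1)` for `k ≥ 1`, so that the finite group
  `cong k / cong (k+1)` is a `p`-group, `IsPGroup`.)
* `proP_cong`: an open subgroup `U` of `cong p n k`, `k ≥ 1`, contains `cong p n m ⊓ cong p n k`
  for some `m ≥ k` (`basis_cong`, `cong_anti`); the index of `cong m` in `cong k` is a
  power of `p` (`Subgroup.relIndex_mul_relIndex`), and the index of `U` divides it.
-/

open Topology Set

namespace Emt

variable (p : ℕ) [Fact p.Prime] (n : ℕ)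

theorem nmat2_exists {k : ℕ} (u : cong p n k) :
    ∃ X : Matrix (Fin n) (Fin n) ℤ_[p],
      ((u : (Matrix (Fin n) (Fin n) ℤ_[p])ˣ) : Matrix (Fin n) (Fin n) ℤ_[p]) =
        1 + (p : ℤ_[p]) ^ k • X := by
  have h := u.2
  rw [mem_cong] at h
  choose X hX using h
  refine ⟨Matrix.of X, ?_⟩
  ext i j
  have := hX i j
  rw [Matrix.sub_apply] at this
  rw [Matrix.add_apply, Matrix.smul_apply, smul_eq_mul, Matrix.of_apply, ← this]
  ring

/-- The matrix `X` with `u = 1 + p ^ k X`. -/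
noncomputable def nmat2X {k : ℕ} (u : cong p n k) : Matrix (Fin n) (Fin n) ℤ_[p] :=
  (nmat2_exists p n u).choose

theorem nmat2X_spec {k : ℕ} (u : cong p n k) :
    ((u : (Matrix (Fin n) (Fin n) ℤ_[p])ˣ) : Matrix (Fin n) (Fin n) ℤ_[p]) =
        1 + (p : ℤ_[p]) ^ k • nmat2X p n u :=
  (nmat2_exists p n u).choose_spec

theorem nmat2_pow_ne (k : ℕ) : (p : ℤ_[p]) ^ k ≠ 0 := by
  apply pow_ne_zero
  exact_mod_cast (Fact.out : p.Prime).ne_zero

theorem nmat2X_mul {k : ℕ} (u v : cong p n k) :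
    nmat2X p n (u * v) = nmat2X p n u + nmat2X p n v +
      (p : ℤ_[p]) ^ k • (nmat2X p n u * nmat2X p n v) := by
  have h := nmat2X_spec p n (u * v)
  have hu := nmat2X_spec p n u
  have hv := nmat2X_spec p n v
  rw [Subgroup.coe_mul, Units.val_mul, hu, hv] at h
  have h2 : (p : ℤ_[p]) ^ k • nmat2X p n (u * v) = (p : ℤ_[p]) ^ k • (nmat2X p n u + nmat2X p n v +
      (p : ℤ_[p]) ^ k • (nmat2X p n u * nmat2X p n v)) := by
    have h3 : (p : ℤ_[p]) ^ k • nmat2X p n (u * v) =
        (1 + (p : ℤ_[p]) ^ k • nmat2X p n u) * (1 + (p : ℤ_[p]) ^ k • nmat2X p n v) - 1 := by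
      rw [h]
      abel
    rw [h3, smul_add, smul_add, add_mul, mul_add, mul_add, one_mul, one_mul, mul_one,
      Matrix.smul_mul, Matrix.mul_smul]
    abel
  ext i j
  have h4 := congrFun (congrFun h2 i) j
  rw [Matrix.smul_apply, Matrix.smul_apply, smul_eq_mul, smul_eq_mul] at h4
  exact mul_left_cancel₀ (nmat2_pow_ne p k) h4

/-- The reduction modulo `p` of the matrix `X`. -/
noncomputable def nmat2Hom {k : ℕ} (hk : 1 ≤ k) :
    cong p n k →* Multiplicative (Matrix (Fin n) (Fin n) (ZMod p)) :=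
  MonoidHom.mk' (fun u => Multiplicative.ofAdd ((nmat2X p n u).map (PadicInt.toZMod (p := p))))
    (by
      intro u v
      rw [← ofAdd_add]
      congr 1
      rw [nmat2X_mul]
      ext i j
      simp only [Matrix.map_apply, Matrix.add_apply, Matrix.smul_apply, smul_eq_mul, map_add,
        map_mul, map_pow, map_natCast]
      rw [CharP.cast_eq_zero, zero_pow (by omega), zero_mul, add_zero])

theorem nmat2Hom_ker {k : ℕ} (hk : 1 ≤ k) :
    (nmat2Hom p n hk).ker = (cong p n (k + 1)).subgroupOf (cong p n k) := by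
  ext u
  rw [MonoidHom.mem_ker, Subgroup.mem_subgroupOf, mem_cong]
  have h1 : (nmat2Hom p n hk u = 1) ↔ (nmat2X p n u).map (PadicInt.toZMod (p := p)) = 0 := by
    unfold nmat2Hom
    rw [MonoidHom.mk'_apply, ofAdd_eq_one]
  rw [h1]
  have h2 : ∀ i j, (((u : (Matrix (Fin n) (Fin n) ℤ_[p])ˣ) : Matrix (Fin n) (Fin n) ℤ_[p]) - 1) i j =
      (p : ℤ_[p]) ^ k * nmat2X p n u i j := by
    intro i j
    rw [nmat2X_spec p n u, add_sub_cancel_left, Matrix.smul_apply, smul_eq_mul]
  have h3 : ∀ x : ℤ_[p], PadicInt.toZMod x = 0 ↔ (p : ℤ_[p]) ∣ x := by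
    intro x
    rw [← RingHom.mem_ker, PadicInt.ker_toZMod, PadicInt.maximalIdeal_eq_span_p,
      Ideal.mem_span_singleton]
  constructor
  · intro h i j
    rw [h2, pow_succ]
    refine mul_dvd_mul_left _ ((h3 _).1 ?_)
    have := congrFun (congrFun h i) j
    rwa [Matrix.map_apply, Matrix.zero_apply] at this
  · intro h
    ext i j
    rw [Matrix.map_apply, Matrix.zero_apply]
    apply (h3 _).2
    have := h i j
    rw [h2, pow_succ] at this
    exact (mul_dvd_mul_iff_left (nmat2_pow_ne p k)).1 this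

theorem relIndex_cong {k : ℕ} (hk : 1 ≤ k) :
    ∃ m, (cong p n (k + 1)).relIndex (cong p n k) = p ^ m := by
  rw [Subgroup.relIndex, ← nmat2Hom_ker p n hk, Subgroup.index_ker]
  have h1 := Subgroup.card_subgroup_dvd_card (nmat2Hom p n hk).range
  have h2 : Nat.card (Multiplicative (Matrix (Fin n) (Fin n) (ZMod p))) = p ^ (n * n) := by
    rw [Nat.card_congr Multiplicative.toAdd]
    have : Nat.card (Matrix (Fin n) (Fin n) (ZMod p)) = Nat.card (Fin n → Fin n → ZMod p) := rfl
    rw [this]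
    rw [Nat.card_fun, Nat.card_fun, Nat.card_eq_fintype_card (α := Fin n), Nat.card_zmod,
      Fintype.card_fin, ← pow_mul]
  rw [h2] at h1
  obtain ⟨m, -, hm⟩ := (Nat.dvd_prime_pow (Fact.out : p.Prime)).1 h1
  exact ⟨m, hm⟩

theorem nmat2_relIndex {k : ℕ} (hk : 1 ≤ k) (l : ℕ) :
    ∃ m, (cong p n (k + l)).relIndex (cong p n k) = p ^ m := by
  induction l with
  | zero => exact ⟨0, by rw [add_zero, Subgroup.relIndex_self, pow_zero]⟩
  | succ l ih =>
    obtain ⟨m, hm⟩ := ih
    obtain ⟨m', hm'⟩ := relIndex_cong p n (k := k + l) (by omega)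
    refine ⟨m' + m, ?_⟩
    rw [pow_add, ← hm, ← hm', Subgroup.relIndex_mul_relIndex]
    · rfl
    · exact cong_anti p n (by omega)
    · exact cong_anti p n (by omega)

theorem proP_cong {k : ℕ} (hk : 1 ≤ k) : IsProP p (cong p n k) := by
  intro U hU
  obtain ⟨O, hO, hOU⟩ := isOpen_induced_iff.1 hU
  have h1 : (1 : (Matrix (Fin n) (Fin n) ℤ_[p])ˣ) ∈ O := by
    have : (1 : cong p n k) ∈ Subtype.val ⁻¹' O := by
      rw [hOU]
      exact U.one_mem
    exact this
  obtain ⟨m, -, hm⟩ := basis_cong p n (hO.mem_nhds h1)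
  obtain ⟨e, he⟩ := nmat2_relIndex p n hk m
  have h2 : (cong p n (k + m)).subgroupOf (cong p n k) ≤ U := by
    intro u hu
    rw [Subgroup.mem_subgroupOf] at hu
    have h3 : (u : (Matrix (Fin n) (Fin n) ℤ_[p])ˣ) ∈ O := hm (cong_anti p n (by omega) hu)
    have h4 : u ∈ Subtype.val ⁻¹' O := h3
    rw [hOU] at h4
    exact h4
  have h3 := Subgroup.index_dvd_of_le h2
  rw [Subgroup.relIndex] at he
  rw [he] at h3
  obtain ⟨m', -, hm'⟩ := (Nat.dvd_prime_pow (Fact.out : p.Prime)).1 h3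
  exact ⟨m', hm'⟩

end Emt
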