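import Pool.Agent.Emt.NFil

/-!
# Emt, module NMon: monomials in the operators `x_i = g_i - 1`

`mon ρ g α = x_0^(α 0) ∘ x_1^(α 1) ∘ ... ∘ x_(d-1)^(α (d-1))`.

PROOFS.  Write `|α| = α.degree = ∑ i, α i` (`Finsupp.degree`).
* `mon_mem`: `x_i` maps `fil (n+1)` into `fil n`.
* `word_mem`: a word `l : List (Fin d)` of length `m` maps `fil (m + n)` into `fil n`.
* `word_perm`: if the words `l`, `l'` are permutations of each other (`List.Perm`), of length `m`,
  then on `fil (m + 1)` they are equal: indeed the difference of two words of length `m` which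
  differ by the transposition of two adjacent letters,
  `a (x_i x_j - x_j x_i) b` with `a`, `b` words of lengths `s`, `t`, `s + t + 2 = m`, maps
  `fil (m + 1)` to `0`: `b` maps `fil (s + t + 3)` into `fil (s + 3)`, the commutator maps
  `fil (s + 3)` into `fil s` (`comm_mem`), and `a` maps `fil s` into `fil 0 = 0`.  (Induction on
  `List.Perm`: `cons`: `x :: l` applies `x` last, the two words `l`, `l'` agree on `fil (m + 1)`,
  a fortiori... careful: `word (i :: l) v = x_i (word l v)`; for `cons` use that for `v ∈ fil (m+2)`
  the difference `word l v - word l' v` lies in `fil 1`?  NO: prove the stronger statement that on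
  `fil (m + n + 1)` the difference of the two words maps into `fil n`.)
  So the general statement: `l ~ l'`, `l.length = m`, `v ∈ fil (m + 1 + n)`:
  `word l v - word l' v ∈ fil n`.
* `mon_aug`: for `v ∈ fil (|α| + 2)`: `mon α (x_i v) = mon (α + e_i) v`: both are words of length
  `|α| + 1` with the same letters (`word_perm` with `n = 0`).
* `mem_fil_of_mon`: induction on `m`.  `m = 0`: `α = 0`, `mon 0 = id`, so `v = 0`.  Step: let
  `v ∈ fil (m + 2)` with `mon β v = 0` for all `|β| = m + 1`.  For every `i`, `x_i v ∈ fil (m+1)` and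
  `mon α (x_i v) = mon (α + e_i) v = 0` for all `|α| = m`, so `x_i v ∈ fil m` by induction, and
  `v ∈ fil (m + 1)` by `mem_fil_of_gen`.
-/

open Topology Set

namespace Emt

/-- The word in the operators `x_i`. -/
def word {C : Type} [Field C] {G : Type} [Group G] {V : Type} [AddCommGroup V] [Module C V]
    (ρ : Representation C G V) {d : ℕ} (g : Fin d → G) (l : List (Fin d)) : V →ₗ[C] V :=
  (l.map fun i => aug ρ (g i)).foldr (fun f h => f ∘ₗ h) LinearMap.id

/-- The monomial in the operators `x_i`. -/
noncomputable def mon {C : Type} [Field C] {G : Type} [Group G] {V : Type} [AddCommGroup V]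
    [Module C V] (ρ : Representation C G V) {d : ℕ} (g : Fin d → G) (α : Fin d →₀ ℕ) :
    V →ₗ[C] V :=
  word ρ g ((List.finRange d).flatMap fun i => List.replicate (α i) i)

variable {p : ℕ} [Fact p.Prime] {C : Type} [Field C] [CharP C p] {G : Type} [Group G]
  [TopologicalSpace G] [IsTopologicalGroup G] {V : Type} [AddCommGroup V] [Module C V]
  {ρ : Representation C G V} {d : ℕ} {g : Fin d → G}

@[simp] theorem word_nil {C : Type} [Field C] {G : Type} [Group G] {V : Type} [AddCommGroup V]
    [Module C V] (ρ : Representation C G V) {d : ℕ} (g : Fin d → G) (v : V) :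
    word ρ g [] v = v := rfl

@[simp] theorem word_cons {C : Type} [Field C] {G : Type} [Group G] {V : Type} [AddCommGroup V]
    [Module C V] (ρ : Representation C G V) {d : ℕ} (g : Fin d → G) (i : Fin d)
    (l : List (Fin d)) (v : V) : word ρ g (i :: l) v = aug ρ (g i) (word ρ g l v) := rfl

theorem word_append {C : Type} [Field C] {G : Type} [Group G] {V : Type} [AddCommGroup V]
    [Module C V] (ρ : Representation C G V) {d : ℕ} (g : Fin d → G)
    (l l' : List (Fin d)) (v : V) : word ρ g (l ++ l') v = word ρ g l (word ρ g l' v) := by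
  induction l with
  | nil => rfl
  | cons i l ih => rw [List.cons_append, word_cons, word_cons, ih]

theorem word_mem (l : List (Fin d)) {n : ℕ} {v : V} (hv : v ∈ fil ρ (l.length + n)) :
    word ρ g l v ∈ fil ρ n := by
  induction l generalizing n with
  | nil =>
    rw [List.length_nil, zero_add] at hv
    exact hv
  | cons i l ih =>
    rw [word_cons]
    apply aug_mem
    apply ih
    rw [List.length_cons] at hv
    rwa [show l.length + (n + 1) = l.length + 1 + n by ring]

theorem word_perm (hg : Unif p g) (hρ : IsSmooth ρ) {l l' : List (Fin d)} (h : l.Perm l')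
    {n : ℕ} {v : V} (hv : v ∈ fil ρ (l.length + 1 + n)) :
    word ρ g l v - word ρ g l' v ∈ fil ρ n := by
  induction h generalizing n with
  | nil =>
    rw [sub_self]
    exact zero_mem _
  | cons x h ih =>
    rw [word_cons, word_cons, ← map_sub]
    apply aug_mem
    apply ih
    rw [List.length_cons] at hv
    rwa [show ∀ a : ℕ, a + 1 + (n + 1) = a + 1 + 1 + n by intro a; ring]
  | swap x y l =>
    rw [word_cons, word_cons, word_cons, word_cons]
    apply comm_mem hg hρ
    apply word_mem
    rw [List.length_cons, List.length_cons] at hv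
    rwa [show l.length + (n + 3) = l.length + 1 + 1 + 1 + n by ring]
  | trans h1 h2 ih1 ih2 =>
    have e1 := ih1 hv
    have e2 := ih2 (by rwa [← h1.length_eq])
    have := add_mem e1 e2
    rwa [sub_add_sub_cancel] at this

/-- the list of the letters of the monomial -/
def mlist {d : ℕ} (α : Fin d →₀ ℕ) : List (Fin d) :=
  (List.finRange d).flatMap fun i => List.replicate (α i) i

theorem mlist_count {d : ℕ} (α : Fin d →₀ ℕ) (j : Fin d) : (mlist α).count j = α j := by
  unfold mlist
  rw [List.count_flatMap]
  have h1 : (List.count j ∘ fun i => List.replicate (α i) i) =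
      fun i => if i = j then α i else 0 := by
    funext i
    simp only [Function.comp_apply, List.count_replicate, beq_iff_eq]
  rw [h1, ← Fin.sum_univ_def]
  simp

theorem mlist_length {d : ℕ} (α : Fin d →₀ ℕ) : (mlist α).length = α.degree := by
  unfold mlist
  rw [List.length_flatMap]
  have h1 : (fun i => (List.replicate (α i) i).length) = fun i => α i := by
    funext i
    simp
  rw [h1, ← Fin.sum_univ_def, Finsupp.degree_eq_sum]

theorem mon_zero (v : V) : mon ρ g 0 v = v := by
  have h : mlist (0 : Fin d →₀ ℕ) = [] := by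
    rw [← List.length_eq_zero_iff, mlist_length]
    simp
  show word ρ g (mlist 0) v = v
  rw [h]
  rfl

theorem mon_mem (α : Fin d →₀ ℕ) {n : ℕ} {v : V} (hv : v ∈ fil ρ (α.degree + n)) :
    mon ρ g α v ∈ fil ρ n := by
  show word ρ g (mlist α) v ∈ fil ρ n
  apply word_mem
  rwa [mlist_length]

theorem mon_aug (hg : Unif p g) (hρ : IsSmooth ρ) (α : Fin d →₀ ℕ) (i : Fin d) {v : V}
    (hv : v ∈ fil ρ (α.degree + 2)) :
    mon ρ g α (aug ρ (g i) v) = mon ρ g (α + Finsupp.single i 1) v := by
  have h1 : mon ρ g α (aug ρ (g i) v) = word ρ g (mlist α ++ [i]) v := by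
    rw [word_append]
    rfl
  have h2 : (mlist α ++ [i]).Perm (mlist (α + Finsupp.single i 1)) := by
    rw [List.perm_iff_count]
    intro j
    rw [List.count_append, mlist_count, mlist_count, Finsupp.add_apply, Finsupp.single_apply,
      List.count_singleton]
    simp only [beq_iff_eq]
  have h3 := word_perm (ρ := ρ) (n := 0) hg hρ h2 (v := v) (by
    rw [List.length_append, mlist_length, List.length_singleton]
    exact hv)
  have h4 : word ρ g (mlist α ++ [i]) v - word ρ g (mlist (α + Finsupp.single i 1)) v = 0 := h3
  rw [h1, sub_eq_zero.1 h4]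
  rfl

theorem mem_fil_of_mon (hg : Unif p g) (hρ : IsSmooth ρ) (m : ℕ) {v : V}
    (hv : v ∈ fil ρ (m + 1)) (h : ∀ α : Fin d →₀ ℕ, α.degree = m → mon ρ g α v = 0) :
    v ∈ fil ρ m := by
  induction m generalizing v with
  | zero =>
    have h1 := h 0 (by simp)
    rw [mon_zero] at h1
    rw [h1]
    exact zero_mem _
  | succ m ih =>
    refine mem_fil_of_gen hg hρ hv fun i => ?_
    refine ih (aug_mem _ hv) fun α hα => ?_
    rw [mon_aug hg hρ α i (by rw [hα]; exact hv)]
    apply h
    rw [map_add, hα, Finsupp.degree_single]

end Emt
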