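import Pool.Agent.Emt.NLad

/-!
# Emt, module Padic: closure properties of the class of `p`-adic Lie groups

PROOFS.
* `IsPadicLie.prod`: block diagonal matrices: if `f : U → GL_n(ℤ_p)`, `f' : U' → GL_m(ℤ_p)` are closed
  embeddings then `(u, u') ↦ diag(f u, f' u')`, `U × U' → GL_(n+m)(ℤ_p)` is an injective
  continuous homomorphism of a compact group into a Hausdorff group, so a closed embedding
  (`Continuous.isClosedEmbedding`); the open subgroup is `U.prod U'`.  (Matrices indexed by
  `Fin n ⊕ Fin m`, reindexed by `finSumFinEquiv`.)  `U` is compact because it is homeomorphic to a closed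
  subset of the compact space `GL_n(ℤ_p)` (`compact_GL`).
* `IsPadicLie.subgroup`: for a closed subgroup `G'` of `G`: `U ∩ G'` is open in `G'` and its image in
  `GL_n(ℤ_p)` is closed.
* `IsAdm.tens`: let `W` be a compact open subgroup of `G × G'`.  `W₁ = {g | (g, 1) ∈ W}`,
  `W₂ = {g' | (1, g') ∈ W}` are open and compact, and `fix (tensRep α β) W ≤
  fix (tensRep α β) (W₁.prod W₂)`, which is the image of `fix α W₁ ⊗ fix β W₂` (finite dimensional):
  let `t ∈ A ⊗ B` be fixed by `W₁ × W₂`; choose a basis `b_k` of `B`: `t = ∑ a_k ⊗ b_k`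
  uniquely, so all the `a_k` are fixed by `W₁`; then choose a basis `a'_l` of the finite dimensional
  space `fix α W₁`: `t = ∑ a'_l ⊗ b'_l`, the `a'_l` linearly independent, so all the `b'_l` are
  fixed by `W₂`.  Smoothness: a tensor `a ⊗ b` is fixed by `Stab a × Stab b`.
* `IsLadm.tens`: a tensor `t = ∑ a_k ⊗ b_k` lies in the image of `M ⊗ N`, `M`, `N` admissible
  subrepresentations containing the `a_k`, resp. the `b_k` (`IsLadm.exists_finite`), and
  `M ⊗ N → A ⊗ B` is injective over a field.
-/

open Topology Set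

namespace Emt

variable {p : ℕ} [Fact p.Prime] {G G' : Type} [Group G] [TopologicalSpace G]
  [IsTopologicalGroup G] [Group G'] [TopologicalSpace G'] [IsTopologicalGroup G']

omit [IsTopologicalGroup G'] [TopologicalSpace G'] in
private theorem padic_cont {M : Type} [Monoid M] [TopologicalSpace M] [TopologicalSpace G']
    [IsTopologicalGroup G'] (h : G' →* M) (hh : Continuous h) : Continuous h.toHomUnits := by
  rw [Units.continuous_iff]
  refine ⟨hh, ?_⟩
  have e : (fun x => (((h.toHomUnits x)⁻¹ : Mˣ) : M)) = fun x => h x⁻¹ := by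
    funext x
    rw [← map_inv]
    rfl
  rw [e]
  exact hh.comp continuous_inv

private noncomputable def padicBlock (p : ℕ) [Fact p.Prime] (n m : ℕ) :
    Matrix (Fin n) (Fin n) ℤ_[p] × Matrix (Fin m) (Fin m) ℤ_[p] →*
      Matrix (Fin (n + m)) (Fin (n + m)) ℤ_[p] where
  toFun x := (Matrix.fromBlocks x.1 0 0 x.2).submatrix finSumFinEquiv.symm finSumFinEquiv.symm
  map_one' := by
    rw [Prod.fst_one, Prod.snd_one, Matrix.fromBlocks_one, Matrix.submatrix_one_equiv]
  map_mul' x y := by
    rw [Matrix.submatrix_mul_equiv, Matrix.fromBlocks_multiply]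
    simp

private theorem padicBlock_cont (p : ℕ) [Fact p.Prime] (n m : ℕ) :
    Continuous (padicBlock p n m) := by
  have h : Continuous fun x : Matrix (Fin n) (Fin n) ℤ_[p] × Matrix (Fin m) (Fin m) ℤ_[p] =>
      Matrix.fromBlocks x.1 (0 : Matrix (Fin n) (Fin m) ℤ_[p]) (0 : Matrix (Fin m) (Fin n) ℤ_[p])
        x.2 :=
    Continuous.matrix_fromBlocks continuous_fst continuous_const continuous_const continuous_snd
  exact h.matrix_submatrix _ _

private theorem padicBlock_inj (p : ℕ) [Fact p.Prime] (n m : ℕ) :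
    Function.Injective (padicBlock p n m) := by
  rintro ⟨a, b⟩ ⟨a', b'⟩ h
  have h1 : Matrix.fromBlocks a (0 : Matrix (Fin n) (Fin m) ℤ_[p])
      (0 : Matrix (Fin m) (Fin n) ℤ_[p]) b = Matrix.fromBlocks a' 0 0 b' := by
    ext i j
    have h2 := congrFun (congrFun h (finSumFinEquiv i)) (finSumFinEquiv j)
    have h3 : ∀ M : Matrix (Fin n ⊕ Fin m) (Fin n ⊕ Fin m) ℤ_[p],
        (M.submatrix finSumFinEquiv.symm finSumFinEquiv.symm) (finSumFinEquiv i)
          (finSumFinEquiv j) = M i j := by
      intro M
      rw [Matrix.submatrix_apply, Equiv.symm_apply_apply, Equiv.symm_apply_apply]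
    exact (h3 _).symm.trans (h2.trans (h3 _))
  rw [Matrix.fromBlocks_inj] at h1
  exact Prod.ext h1.1 h1.2.2.2

theorem IsPadicLie.prod (hG : IsPadicLie p G) (hG' : IsPadicLie p G') :
    IsPadicLie p (G × G') := by
  obtain ⟨U, n, f, hU, hf⟩ := hG
  obtain ⟨U', m, f', hU', hf'⟩ := hG'
  have c1 : CompactSpace (Matrix (Fin n) (Fin n) ℤ_[p])ˣ := compact_GL p n
  have c2 : CompactSpace (Matrix (Fin m) (Fin m) ℤ_[p])ˣ := compact_GL p m
  have c3 : CompactSpace U := hf.compactSpace
  have c4 : CompactSpace U' := hf'.compactSpace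
  have hcomp : CompactSpace (U.prod U') := by
    have h1 : IsCompact ((U.prod U' : Subgroup (G × G')) : Set (G × G')) := by
      rw [Subgroup.coe_prod]
      exact (isCompact_iff_compactSpace.2 c3).prod (isCompact_iff_compactSpace.2 c4)
    exact isCompact_iff_compactSpace.1 h1
  let h0 : (U.prod U') →* Matrix (Fin n) (Fin n) ℤ_[p] × Matrix (Fin m) (Fin m) ℤ_[p] :=
    { toFun := fun u => ((f ⟨u.1.1, u.2.1⟩ : (Matrix (Fin n) (Fin n) ℤ_[p])ˣ),
        (f' ⟨u.1.2, u.2.2⟩ : (Matrix (Fin m) (Fin m) ℤ_[p])ˣ))
      map_one' := by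
        refine Prod.ext ?_ ?_
        · exact congrArg Units.val (map_one f)
        · exact congrArg Units.val (map_one f')
      map_mul' := fun x y => by
        refine Prod.ext ?_ ?_
        · exact congrArg Units.val (map_mul f ⟨x.1.1, x.2.1⟩ ⟨y.1.1, y.2.1⟩)
        · exact congrArg Units.val (map_mul f' ⟨x.1.2, x.2.2⟩ ⟨y.1.2, y.2.2⟩) }
  have hh0 : Continuous h0 := by
    refine Continuous.prodMk ?_ ?_
    · refine Units.continuous_val.comp (hf.continuous.comp ?_)
      exact Continuous.subtype_mk (continuous_fst.comp continuous_subtype_val) _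
    · refine Units.continuous_val.comp (hf'.continuous.comp ?_)
      exact Continuous.subtype_mk (continuous_snd.comp continuous_subtype_val) _
  have hi0 : Function.Injective h0 := by
    intro x y hxy
    have e1 : (f ⟨x.1.1, x.2.1⟩ : Matrix (Fin n) (Fin n) ℤ_[p]) = f ⟨y.1.1, y.2.1⟩ :=
      congrArg Prod.fst hxy
    have e2 : (f' ⟨x.1.2, x.2.2⟩ : Matrix (Fin m) (Fin m) ℤ_[p]) = f' ⟨y.1.2, y.2.2⟩ :=
      congrArg Prod.snd hxy
    have e3 := hf.injective (Units.ext e1)
    have e4 := hf'.injective (Units.ext e2)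
    refine Subtype.ext (Prod.ext ?_ ?_)
    · exact congrArg Subtype.val e3
    · exact congrArg Subtype.val e4
  refine ⟨U.prod U', n + m, ((padicBlock p n m).comp h0).toHomUnits, ?_, ?_⟩
  · rw [Subgroup.coe_prod]
    exact hU.prod hU'
  · refine (padic_cont _ ((padicBlock_cont p n m).comp hh0)).isClosedEmbedding ?_
    intro x y hxy
    have e1 : padicBlock p n m (h0 x) = padicBlock p n m (h0 y) := congrArg Units.val hxy
    exact hi0 (padicBlock_inj p n m e1)

theorem IsPadicLie.subgroup (hG : IsPadicLie p G) {H : Subgroup G} (hH : IsClosed (H : Set G)) :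
    IsPadicLie p H := by
  obtain ⟨U, n, f, hU, hf⟩ := hG
  let j : (U.subgroupOf H) →* U :=
    (H.subtype.comp (U.subgroupOf H).subtype).codRestrict U (fun x => x.2)
  have hj : IsClosedEmbedding j := by
    have h1 : IsEmbedding ((Subtype.val : H → G) ∘ (Subtype.val : U.subgroupOf H → H)) :=
      IsEmbedding.subtypeVal.comp IsEmbedding.subtypeVal
    have h2 : (Subtype.val : U → G) ∘ j =
        (Subtype.val : H → G) ∘ (Subtype.val : U.subgroupOf H → H) := rfl
    rw [← h2] at h1
    refine ⟨IsEmbedding.of_comp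
      (Continuous.subtype_mk (continuous_subtype_val.comp continuous_subtype_val) _)
      continuous_subtype_val h1, ?_⟩
    have e : Set.range j = Subtype.val ⁻¹' (H : Set G) := by
      ext x
      constructor
      · rintro ⟨y, rfl⟩
        exact y.1.2
      · intro hx
        exact ⟨⟨⟨x.1, hx⟩, x.2⟩, rfl⟩
    rw [e]
    exact hH.preimage continuous_subtype_val
  exact ⟨U.subgroupOf H, n, f.comp j, hU.preimage continuous_subtype_val, hf.comp hj⟩

variable {C : Type} [Field C] {A B : Type} [AddCommGroup A] [Module C A] [AddCommGroup B]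
  [Module C B] {α : Representation C G A} {β : Representation C G' B}

open TensorProduct in
private theorem padic_right {X B : Type} [AddCommGroup X] [Module C X] [AddCommGroup B]
    [Module C B] (S : Set (B →ₗ[C] B)) (F : Submodule C B)
    (hF : ∀ b, (∀ s ∈ S, s b = b) → b ∈ F)
    (t : TensorProduct C X B) (ht : ∀ s ∈ S, LinearMap.lTensor X s t = t) :
    t ∈ LinearMap.range (LinearMap.lTensor X F.subtype) := by
  classical
  let e := Module.Free.chooseBasis C X
  have key : ∀ (s : B →ₗ[C] B) (t : TensorProduct C X B) i,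
      TensorProduct.equivFinsuppOfBasisLeft e (LinearMap.lTensor X s t) i =
        s (TensorProduct.equivFinsuppOfBasisLeft e t i) := by
    intro s t i
    induction t with
    | zero => simp
    | add x y hx hy => rw [map_add, map_add, Finsupp.add_apply, hx, hy, map_add,
        Finsupp.add_apply, map_add]
    | tmul x y => simp
  have h1 : ∀ i, TensorProduct.equivFinsuppOfBasisLeft e t i ∈ F := by
    intro i
    apply hF
    intro s hs
    rw [← key, ht s hs]
  rw [← (TensorProduct.equivFinsuppOfBasisLeft e).symm_apply_apply t,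
    TensorProduct.equivFinsuppOfBasisLeft_symm_apply]
  refine Submodule.sum_mem _ fun i _ => ?_
  exact ⟨e i ⊗ₜ ⟨_, h1 i⟩, LinearMap.lTensor_tmul _ _ _ _⟩

open TensorProduct in
private theorem padic_left {X A : Type} [AddCommGroup X] [Module C X] [AddCommGroup A]
    [Module C A] (S : Set (A →ₗ[C] A)) (F : Submodule C A)
    (hF : ∀ b, (∀ s ∈ S, s b = b) → b ∈ F)
    (t : TensorProduct C A X) (ht : ∀ s ∈ S, LinearMap.rTensor X s t = t) :
    t ∈ LinearMap.range (LinearMap.rTensor X F.subtype) := by
  classical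
  let e := Module.Free.chooseBasis C X
  have key : ∀ (s : A →ₗ[C] A) (t : TensorProduct C A X) i,
      TensorProduct.equivFinsuppOfBasisRight e (LinearMap.rTensor X s t) i =
        s (TensorProduct.equivFinsuppOfBasisRight e t i) := by
    intro s t i
    induction t with
    | zero => simp
    | add x y hx hy => rw [map_add, map_add, Finsupp.add_apply, hx, hy, map_add,
        Finsupp.add_apply, map_add]
    | tmul x y => simp
  have h1 : ∀ i, TensorProduct.equivFinsuppOfBasisRight e t i ∈ F := by
    intro i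
    apply hF
    intro s hs
    rw [← key, ht s hs]
  rw [← (TensorProduct.equivFinsuppOfBasisRight e).symm_apply_apply t,
    TensorProduct.equivFinsuppOfBasisRight_symm_apply]
  refine Submodule.sum_mem _ fun i _ => ?_
  exact ⟨⟨_, h1 i⟩ ⊗ₜ e i, LinearMap.rTensor_tmul _ _ _ _⟩

private theorem padic_smooth (hα : IsSmooth α) (hβ : IsSmooth β) : IsSmooth (tensRep α β) := by
  intro t
  obtain ⟨U, hU, h⟩ : ∃ U : Subgroup (G × G'), IsOpen (U : Set (G × G')) ∧
      ∀ g ∈ U, tensRep α β g t = t := by
    induction t with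
    | zero => exact ⟨⊤, isOpen_univ, fun g _ => map_zero _⟩
    | add x y hx hy =>
      obtain ⟨U, hU, h⟩ := hx
      obtain ⟨U', hU', h'⟩ := hy
      refine ⟨U ⊓ U', ?_, fun g hg => ?_⟩
      · rw [Subgroup.coe_inf]
        exact hU.inter hU'
      · rw [map_add, h g hg.1, h' g hg.2]
    | tmul a b =>
      refine ⟨(stabG α a).prod (stabG β b), ?_, ?_⟩
      · rw [Subgroup.coe_prod]
        exact (hα a).prod (hβ b)
      · intro g hg
        have h1 : α g.1 a = a := hg.1
        have h2 : β g.2 b = b := hg.2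
        rw [tensRep_tmul, h1, h2]
  exact isOpen_stab_of_le hU h

theorem IsAdm.tens (hα : IsAdm α) (hβ : IsAdm β) : IsAdm (tensRep α β) := by
  refine ⟨padic_smooth hα.smooth hβ.smooth, ?_⟩
  intro W hW hWc
  have hWcl : IsClosed (W : Set (G × G')) := Subgroup.isClosed_of_isOpen _ hW
  have i1 : Continuous (MonoidHom.inl G G') := by
    have : Continuous fun g : G => (g, (1 : G')) := by fun_prop
    exact this
  have i2 : Continuous (MonoidHom.inr G G') := by
    have : Continuous fun g : G' => ((1 : G), g) := by fun_prop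
    exact this
  let W₁ : Subgroup G := W.comap (MonoidHom.inl G G')
  let W₂ : Subgroup G' := W.comap (MonoidHom.inr G G')
  have o1 : IsOpen (W₁ : Set G) := hW.preimage i1
  have o2 : IsOpen (W₂ : Set G') := hW.preimage i2
  have k1 : IsCompact (W₁ : Set G) := by
    refine (hWc.image continuous_fst).of_isClosed_subset (hWcl.preimage i1) ?_
    intro g hg
    exact ⟨(g, 1), hg, rfl⟩
  have k2 : IsCompact (W₂ : Set G') := by
    refine (hWc.image continuous_snd).of_isClosed_subset (hWcl.preimage i2) ?_
    intro g hg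
    exact ⟨(1, g), hg, rfl⟩
  have d1 : FiniteDimensional C (fix α W₁) := hα.fin W₁ o1 k1
  have d2 : FiniteDimensional C (fix β W₂) := hβ.fin W₂ o2 k2
  let Φ : TensorProduct C (fix α W₁) (fix β W₂) →ₗ[C] TensorProduct C A B :=
    (LinearMap.rTensor B (fix α W₁).subtype) ∘ₗ
      (LinearMap.lTensor (fix α W₁) (fix β W₂).subtype)
  have hle : fix (tensRep α β) W ≤ LinearMap.range Φ := by
    intro t ht
    have e1 : ∀ g ∈ W₁, LinearMap.rTensor B (α g) t = t := by
      intro g hg
      have h1 := ht (g, 1) hg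
      have h2 : tensRep α β (g, 1) = LinearMap.rTensor B (α g) := by
        show TensorProduct.map (α g) (β 1) = _
        rw [map_one]
        rfl
      rwa [h2] at h1
    have e2 : ∀ g ∈ W₂, LinearMap.lTensor A (β g) t = t := by
      intro g hg
      have h1 := ht (1, g) hg
      have h2 : tensRep α β (1, g) = LinearMap.lTensor A (β g) := by
        show TensorProduct.map (α 1) (β g) = _
        rw [map_one]
        rfl
      rwa [h2] at h1
    obtain ⟨t', ht'⟩ := padic_left {s | ∃ g ∈ W₁, s = α g} (fix α W₁)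
      (fun b hb g hg => hb (α g) ⟨g, hg, rfl⟩) t (by
        rintro _ ⟨g, hg, rfl⟩
        exact e1 g hg)
    have hinj : Function.Injective (LinearMap.rTensor B (fix α W₁).subtype) :=
      Module.Flat.rTensor_preserves_injective_linearMap _ (fix α W₁).injective_subtype
    obtain ⟨t'', ht''⟩ := padic_right {s | ∃ g ∈ W₂, s = β g} (fix β W₂)
      (fun b hb g hg => hb (β g) ⟨g, hg, rfl⟩) t' (by
        rintro _ ⟨g, hg, rfl⟩
        apply hinj
        rw [← LinearMap.comp_apply, LinearMap.rTensor_comp_lTensor, ← LinearMap.lTensor_comp_rTensor,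
          LinearMap.comp_apply, ht', e2 g hg])
    exact ⟨t'', by rw [LinearMap.comp_apply, ht'', ht']⟩
  exact Submodule.finiteDimensional_of_le hle

theorem IsLadm.tens [Finite C] [CharP C p] (hG : IsPadicLie p G) (hG' : IsPadicLie p G')
    (hα : IsLadm α) (hβ : IsLadm β) : IsLadm (tensRep α β) := by
  have hs : IsSmooth (tensRep α β) := padic_smooth hα.smooth hβ.smooth
  have hGG := hG.prod hG'
  refine ⟨hs, ?_⟩
  have h0 : ∀ a b, ∃ M : Submodule C (TensorProduct C A B), TensorProduct.tmul C a b ∈ M ∧
      IsAdmSub (tensRep α β) M := by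
    intro a b
    obtain ⟨M, hM, hM'⟩ := hα.loc a
    obtain ⟨N, hN, hN'⟩ := hβ.loc b
    have h1 := (isAdm_subRep hα.smooth hM').tens (isAdm_subRep hβ.smooth hN')
    have h2 : IsAdmSub (tensRep (subRep α M hM'.sub) (subRep β N hN'.sub)) ⊤ := by
      refine ⟨isSub_top, ?_⟩
      intro U hU hU'
      have h1 := h1.fin U hU hU'
      exact Submodule.finiteDimensional_of_le inf_le_right
    have h3 : Equi (tensRep (subRep α M hM'.sub) (subRep β N hN'.sub)) (tensRep α β)
        (TensorProduct.map M.subtype N.subtype) := by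
      intro g t
      induction t with
      | zero => rw [map_zero, map_zero, map_zero]
      | add x y hx hy => rw [map_add, map_add, hx, hy, map_add, map_add]
      | tmul x y =>
        rw [tensRep_tmul, TensorProduct.map_tmul, TensorProduct.map_tmul, tensRep_tmul]
        rfl
    refine ⟨_, ?_, h2.map hGG h1.smooth h3⟩
    exact ⟨TensorProduct.tmul C ⟨a, hM⟩ ⟨b, hN⟩, trivial, TensorProduct.map_tmul _ _ _ _⟩
  intro t
  induction t with
  | zero =>
    obtain ⟨M, -, hM⟩ := h0 0 0
    exact ⟨M, zero_mem _, hM⟩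
  | add x y hx hy =>
    obtain ⟨M, hM, hM'⟩ := hx
    obtain ⟨N, hN, hN'⟩ := hy
    exact ⟨M ⊔ N, Submodule.add_mem_sup hM hN, hM'.sup hGG hs hN'⟩
  | tmul a b => exact h0 a b

end Emt
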