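import Pool.Agent.Emt.NLad

/-!
# Emt, module Push: pushouts, and the multiplicity representation

PROOFS.
* `exists_pushout`: `P = (V × Y) / R`, `R = {(m x, - j x) | x ∈ X}`, `a v = (v, 0)`, `b y = (0, y)`.
  `(v, 0) ∈ R` implies `j x = 0`, `x = 0`, `v = 0`.  `P` is locally admissible as a quotient of
  `V × Y` (`IsLadm.prod`, `IsLadm.of_surjective`).
* `exists_hom`: `ρ` is an admissible representation of `G₁ × G₂` on `V`, `F` a finite set of
  vectors fixed by `U₁ × 1`, `U₁` open in `G₁`.  Let `ρ₁ = ρ (·, 1)`, `ρ₂ = ρ (1, ·)` be the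
  restrictions to the two factors; they commute.  `B` is the subrepresentation of `ρ₂`
  generated by `F` (`gen ρ₂ F`); all its vectors are fixed by `U₁ × 1`; it is admissible: for `U₂ ≤ G₂`
  compact open the space `B^{U₂}` is contained in `V^{U₁' × U₂}`, with `U₁' ≤ U₁` compact open in
  `G₁` (`hG₁`: there is a compact open subgroup `O` of `G₁`; `U₁' = U₁ ⊓ O`); smooth: the stabilisers in
  `G₂` are the preimages of open sets.
  On `Hom_C(B, V)` let `G₁` act by `(g φ) b = ρ (g, 1) (φ b)`; let `a₀ : B → V` be the inclusion and `A`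
  the subrepresentation generated by `a₀`.  All `φ ∈ A` are `G₂`-equivariant
  (`φ (ρ₂ h b) = ρ₂ h (φ b)`).  `a₀` is fixed by `U₁`, so `A` is smooth.  `A` is admissible: let
  `W₁ ≤ G₁` be compact open, `O₂` a compact open subgroup of `G₂` which fixes the elements of
  `F` (smoothness, `hG₂`); `φ ∈ A^{W₁}` is determined by the values `φ f ∈ V^{W₁ × O₂}`, `f ∈ F`
  (equivariance: `B` is generated by `F`), so `A^{W₁}` embeds into a finite product of finite
  dimensional spaces.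
  `μ (φ ⊗ b) = φ b` (`TensorProduct.lift` of the inclusion `A → Hom_C(B, V)`), equivariant for
  `G₁ × G₂`: `μ ((g φ) ⊗ (h b)) = ρ (g, 1) (φ (h b)) = ρ (g, 1) ρ (1, h) (φ b) = ρ (g, h) (φ b)`.
  `j` is the inclusion of `B`.
-/

open Topology Set
open scoped TensorProduct

namespace Emt

theorem exists_pushout {p : ℕ} [Fact p.Prime] {G : Type} [Group G] [TopologicalSpace G]
    [IsTopologicalGroup G] (hG : IsPadicLie p G) {C : Type} [Field C] [Finite C] [CharP C p]
    {V X Y : Type} [AddCommGroup V] [Module C V] [AddCommGroup X] [Module C X] [AddCommGroup Y]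
    [Module C Y] {ρ : Representation C G V} {ξ : Representation C G X}
    {η : Representation C G Y} (hρ : IsLadm ρ) (hη : IsLadm η) {m : X →ₗ[C] V}
    (hm : Equi ξ ρ m) {j : X →ₗ[C] Y} (hj : Equi ξ η j) (hji : Function.Injective j) :
    ∃ (P : Type) (_ : AddCommGroup P) (_ : Module C P) (τ : Representation C G P)
      (a : V →ₗ[C] P) (b : Y →ₗ[C] P), IsLadm τ ∧ Equi ρ τ a ∧ Function.Injective a ∧
        Equi η τ b ∧ ∀ x, a (m x) = b (j x) := by
  have hE : Equi ξ (prodRep ρ η) (LinearMap.prod m (-j)) := by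
    intro g x
    rw [LinearMap.prod_apply, LinearMap.prod_apply]
    show (m (ξ g x), (-j) (ξ g x)) = prodRep ρ η g (m x, (-j) x)
    rw [prodRep_apply, hm, LinearMap.neg_apply, LinearMap.neg_apply, hj, map_neg]
  have hR : IsSub (prodRep ρ η) (LinearMap.range (LinearMap.prod m (-j))) := isSub_range hE
  set R := LinearMap.range (LinearMap.prod m (-j)) with hRdef
  have hinl : Equi ρ (prodRep ρ η) (LinearMap.inl C V Y) := by
    intro g v
    show (ρ g v, (0 : Y)) = prodRep ρ η g (v, 0)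
    rw [prodRep_apply, map_zero]
  have hinr : Equi η (prodRep ρ η) (LinearMap.inr C V Y) := by
    intro g v
    show ((0 : V), η g v) = prodRep ρ η g (0, v)
    rw [prodRep_apply, map_zero]
  refine ⟨(V × Y) ⧸ R, inferInstance, inferInstance, quotRep (prodRep ρ η) R hR,
    R.mkQ ∘ₗ LinearMap.inl C V Y, R.mkQ ∘ₗ LinearMap.inr C V Y, ?_, ?_, ?_, ?_, ?_⟩
  · exact IsLadm.of_surjective hG (hρ.prod hη) (equi_mkQ R hR) R.mkQ_surjective
  · exact (equi_mkQ R hR).comp hinl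
  · rw [← LinearMap.ker_eq_bot, LinearMap.ker_eq_bot']
    intro v hv
    have h1 : ((v, 0) : V × Y) ∈ R := by
      rw [← Submodule.ker_mkQ R, LinearMap.mem_ker]
      exact hv
    obtain ⟨x, hx⟩ := h1
    have hx' : (m x, -j x) = ((v, 0) : V × Y) := hx
    rw [Prod.mk.injEq] at hx'
    have h2 : j x = 0 := neg_eq_zero.1 hx'.2
    have h3 : x = 0 := hji (by rw [h2, map_zero])
    rw [← hx'.1, h3, map_zero]
  · exact (equi_mkQ R hR).comp hinr
  · intro x
    show R.mkQ (m x, 0) = R.mkQ (0, j x)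
    rw [← sub_eq_zero, ← map_sub, ← LinearMap.mem_ker, Submodule.ker_mkQ]
    refine ⟨x, ?_⟩
    show (m x, -j x) = ((m x, 0) : V × Y) - (0, j x)
    rw [Prod.mk_sub_mk, sub_zero, zero_sub]

/-- the action of `G` on `Hom (B, V)` through `V` -/
def homRep {C : Type} [Field C] {G : Type} [Group G] {V : Type} [AddCommGroup V] [Module C V]
    (ρ : Representation C G V) (B : Type) [AddCommGroup B] [Module C B] :
    Representation C G (B →ₗ[C] V) where
  toFun g :=
    { toFun := fun φ => (ρ g) ∘ₗ φ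
      map_add' := fun φ ψ => LinearMap.comp_add _ _ _
      map_smul' := fun k φ => LinearMap.comp_smul _ _ _ }
  map_one' := by
    ext φ b
    simp
  map_mul' g h := by
    ext φ b
    simp

theorem homRep_apply {C : Type} [Field C] {G : Type} [Group G] {V : Type} [AddCommGroup V]
    [Module C V] (ρ : Representation C G V) (B : Type) [AddCommGroup B] [Module C B] (g : G)
    (φ : B →ₗ[C] V) (b : B) : homRep ρ B g φ b = ρ g (φ b) := rfl

theorem exists_hom {p : ℕ} [Fact p.Prime] {G₁ G₂ : Type} [Group G₁] [TopologicalSpace G₁]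
    [IsTopologicalGroup G₁] [Group G₂] [TopologicalSpace G₂] [IsTopologicalGroup G₂]
    (hG₁ : IsPadicLie p G₁) (hG₂ : IsPadicLie p G₂) {C : Type} [Field C] [Finite C]
    [CharP C p] {V : Type} [AddCommGroup V] [Module C V] {ρ : Representation C (G₁ × G₂) V}
    (hρ : IsAdm ρ) {F : Set V} (hF : F.Finite) {U₁ : Subgroup G₁} (hU₁ : IsOpen (U₁ : Set G₁))
    (hfix : ∀ u ∈ U₁, ∀ v ∈ F, ρ (u, 1) v = v) :
    ∃ (A B : Type) (_ : AddCommGroup A) (_ : Module C A) (_ : AddCommGroup B) (_ : Module C B)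
      (α : Representation C G₁ A) (β : Representation C G₂ B) (μ : A ⊗[C] B →ₗ[C] V) (a₀ : A)
      (j : B →ₗ[C] V), IsAdm α ∧ IsAdm β ∧ Equi (tensRep α β) ρ μ ∧ (∀ u ∈ U₁, α u a₀ = a₀) ∧
        (∀ b, μ (a₀ ⊗ₜ b) = j b) ∧ Function.Injective j ∧ (∀ v ∈ F, ∃ b, j b = v) ∧
        (∀ g b, j (β g b) = ρ (1, g) (j b)) := by
  obtain ⟨ρ₁, hρ₁⟩ : ∃ ρ₁ : Representation C G₁ V, ∀ g, ρ₁ g = ρ (g, 1) :=
    ⟨ρ.comp (MonoidHom.inl G₁ G₂), fun _ => rfl⟩
  obtain ⟨ρ₂, hρ₂⟩ : ∃ ρ₂ : Representation C G₂ V, ∀ g, ρ₂ g = ρ (1, g) :=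
    ⟨ρ.comp (MonoidHom.inr G₁ G₂), fun _ => rfl⟩
  have hmul : ∀ g h v, ρ (g, h) v = ρ₁ g (ρ₂ h v) := by
    intro g h v
    rw [hρ₁, hρ₂, ← rep_mul_apply, Prod.mk_mul_mk, mul_one, one_mul]
  have hmul' : ∀ g h v, ρ (g, h) v = ρ₂ h (ρ₁ g v) := by
    intro g h v
    rw [hρ₁, hρ₂, ← rep_mul_apply, Prod.mk_mul_mk, mul_one, one_mul]
  have hcomm : ∀ g h v, ρ₁ g (ρ₂ h v) = ρ₂ h (ρ₁ g v) := fun g h v => by
    rw [← hmul, ← hmul']
  have hs₁ : IsSmooth ρ₁ := by
    intro v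
    have : {g : G₁ | ρ₁ g v = v} = (fun g : G₁ => (g, (1 : G₂))) ⁻¹' {x | ρ x v = v} := by
      ext g
      show ρ₁ g v = v ↔ ρ (g, 1) v = v
      rw [hρ₁]
    rw [this]
    exact (hρ.smooth v).preimage (Continuous.prodMk_left 1)
  have hs₂ : IsSmooth ρ₂ := by
    intro v
    have : {g : G₂ | ρ₂ g v = v} = (fun g : G₂ => ((1 : G₁), g)) ⁻¹' {x | ρ x v = v} := by
      ext g
      show ρ₂ g v = v ↔ ρ (1, g) v = v
      rw [hρ₂]
    rw [this]
    exact (hρ.smooth v).preimage (Continuous.prodMk_right 1)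
  obtain ⟨O₁, hO₁, hO₁c, -⟩ := hG₁.exists_good C
  obtain ⟨O₂, hO₂, hO₂c, -⟩ := hG₂.exists_good C
  -- the representation `B`
  have hBsub : IsSub ρ₂ (gen ρ₂ F) := isSub_gen ρ₂ F
  have hBfix : ∀ u ∈ U₁, ∀ b ∈ gen ρ₂ F, ρ₁ u b = b := by
    intro u hu b hb
    have h1 : IsSub ρ₂ (fix ρ₁ U₁) := by
      intro h v hv g hg
      rw [hcomm, hv g hg]
    have h2 : gen ρ₂ F ≤ fix ρ₁ U₁ := by
      refine gen_le h1 ?_
      intro v hv g hg
      rw [hρ₁]
      exact hfix g hg v hv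
    exact h2 hb u hu
  set B := gen ρ₂ F with hBdef
  set β := subRep ρ₂ B hBsub with hβ
  have hβB : IsAdm β := by
    refine ⟨hs₂.sub B hBsub, ?_⟩
    intro U₂ hU₂ hU₂c
    have hco : IsOpen ((U₁ ⊓ O₁ : Subgroup G₁) : Set G₁) := hU₁.inter hO₁
    have hcc : IsCompact ((U₁ ⊓ O₁ : Subgroup G₁) : Set G₁) :=
      hO₁c.inter_left (U₁.isClosed_of_isOpen hU₁)
    have hfd := hρ.fin ((U₁ ⊓ O₁).prod U₂) (by rw [Subgroup.coe_prod]; exact hco.prod hU₂)
      (by rw [Subgroup.coe_prod]; exact hcc.prod hU₂c)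
    refine emb_finDim hfd B.subtype (fun v _ h0 => Subtype.ext h0) ?_
    rintro v hv ⟨g, h⟩ hgh
    obtain ⟨hg, hh⟩ := Subgroup.mem_prod.1 hgh
    have h1 : ρ₂ h v = v := congrArg Subtype.val (hv h hh)
    show ρ (g, h) (v : V) = v
    rw [hmul, h1, hBfix g hg.1 v v.2]
  -- the representation `A`
  obtain ⟨κ, hκ⟩ : ∃ κ : Representation C G₁ (B →ₗ[C] V), ∀ g φ b, κ g φ b = ρ₁ g (φ b) :=
    ⟨homRep ρ₁ B, fun _ _ _ => rfl⟩
  have hAsub : IsSub κ (gen κ {B.subtype}) := isSub_gen κ _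
  have hAE : ∀ φ ∈ gen κ {B.subtype}, Equi β ρ₂ φ := by
    let E : Submodule C (B →ₗ[C] V) :=
      { carrier := {φ | Equi β ρ₂ φ}
        add_mem' := by
          intro a b ha hb g v
          rw [LinearMap.add_apply, LinearMap.add_apply, ha, hb, map_add]
        zero_mem' := by
          intro g v
          rw [LinearMap.zero_apply, LinearMap.zero_apply, map_zero]
        smul_mem' := by
          intro k a ha g v
          rw [LinearMap.smul_apply, LinearMap.smul_apply, ha, map_smul] }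
    have hE1 : IsSub κ E := by
      intro g φ hφ h v
      have hφ' : Equi β ρ₂ φ := hφ
      rw [hκ, hκ, hφ', hcomm]
    have hE2 : gen κ {B.subtype} ≤ E := by
      refine gen_le hE1 ?_
      rintro _ rfl g v
      rfl
    exact fun φ hφ => hE2 hφ
  have hBeq : ∀ φ ψ : B →ₗ[C] V, Equi β ρ₂ φ → Equi β ρ₂ ψ →
      (∀ v (hv : v ∈ F), φ ⟨v, subset_gen ρ₂ F hv⟩ = ψ ⟨v, subset_gen ρ₂ F hv⟩) → φ = ψ := by
    intro φ ψ hφ hψ hag
    have h1 : Equi β ρ₂ (φ - ψ) := by
      intro g v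
      rw [LinearMap.sub_apply, LinearMap.sub_apply, hφ, hψ, map_sub]
    have h2 : IsSub ρ₂ ((LinearMap.ker (φ - ψ)).map B.subtype) :=
      isSub_map (ρ := β) (equi_subtype B hBsub) (isSub_ker h1)
    have h3 : gen ρ₂ F ≤ (LinearMap.ker (φ - ψ)).map B.subtype := by
      refine gen_le h2 ?_
      intro v hv
      refine ⟨⟨v, subset_gen ρ₂ F hv⟩, ?_, rfl⟩
      show _ ∈ LinearMap.ker (φ - ψ)
      rw [LinearMap.mem_ker, LinearMap.sub_apply, hag v hv, sub_self]
    ext b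
    obtain ⟨b', hb', hbb⟩ := h3 b.2
    have : b' = b := Subtype.ext hbb
    rw [this] at hb'
    have h4 : (φ - ψ) b = 0 := hb'
    rw [LinearMap.sub_apply] at h4
    exact sub_eq_zero.1 h4
  set A := gen κ {B.subtype} with hAdef
  set α := subRep κ A hAsub with hα
  have hFfin : Finite F := hF.to_subtype
  have hκE : ∀ φ ∈ A, ∀ g, Equi β ρ₂ (κ g φ) := fun φ hφ g => hAE _ (hAsub g φ hφ)
  have hαA : IsAdm α := by
    constructor
    · rintro ⟨φ, hφ⟩
      have hfin : (Set.range fun f : F => φ ⟨f.1, subset_gen ρ₂ F f.2⟩).Finite :=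
        Set.finite_range _
      obtain ⟨U, hU, hUf⟩ := hs₁.exists_open hfin
      refine isOpen_stab_of_le hU ?_
      intro g hg
      apply Subtype.ext
      show κ g φ = φ
      refine hBeq _ _ (hκE φ hφ g) (hAE φ hφ) ?_
      intro v hv
      rw [hκ]
      exact hUf g hg _ ⟨⟨v, hv⟩, rfl⟩
    · intro W₁ hW₁ hW₁c
      obtain ⟨U₂, hU₂, hU₂f⟩ := hs₂.exists_open hF
      have hco : IsOpen ((U₂ ⊓ O₂ : Subgroup G₂) : Set G₂) := hU₂.inter hO₂
      have hcc : IsCompact ((U₂ ⊓ O₂ : Subgroup G₂) : Set G₂) :=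
        hO₂c.inter_left (U₂.isClosed_of_isOpen hU₂)
      have hfd := hρ.fin (W₁.prod (U₂ ⊓ O₂)) (by rw [Subgroup.coe_prod]; exact hW₁.prod hco)
        (by rw [Subgroup.coe_prod]; exact hW₁c.prod hcc)
      let ev : F → (fix α W₁ →ₗ[C] V) := fun f =>
        (LinearMap.applyₗ (⟨f.1, subset_gen ρ₂ F f.2⟩ : B)) ∘ₗ A.subtype ∘ₗ (fix α W₁).subtype
      have hev : ∀ (f : F) (φ : fix α W₁), ev f φ = (φ : A).1 ⟨f.1, subset_gen ρ₂ F f.2⟩ :=
        fun _ _ => rfl
      have hmem : ∀ f φ, ev f φ ∈ fix ρ (W₁.prod (U₂ ⊓ O₂)) := by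
        rintro f φ ⟨g, h⟩ hgh
        obtain ⟨hg, hh⟩ := Subgroup.mem_prod.1 hgh
        rw [hev, hmul]
        have h1 : β h ⟨f.1, subset_gen ρ₂ F f.2⟩ = ⟨f.1, subset_gen ρ₂ F f.2⟩ :=
          Subtype.ext (hU₂f h hh.1 f.1 f.2)
        rw [← hAE _ (φ : A).2, h1, ← hκ]
        have h2 : κ g (φ : A).1 = (φ : A).1 := congrArg Subtype.val (φ.2 g hg)
        rw [h2]
      let f' : fix α W₁ →ₗ[C] (F → fix ρ (W₁.prod (U₂ ⊓ O₂))) :=
        LinearMap.pi fun f => (ev f).codRestrict _ (hmem f)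
      have hf' : Function.Injective f' := by
        intro φ ψ hφψ
        apply Subtype.ext
        apply Subtype.ext
        refine hBeq _ _ (hAE _ (φ : A).2) (hAE _ (ψ : A).2) ?_
        intro v hv
        exact congrArg Subtype.val (congrFun hφψ ⟨v, hv⟩)
      exact FiniteDimensional.of_injective f' hf'
  refine ⟨A, B, inferInstance, inferInstance, inferInstance, inferInstance, α, β,
    TensorProduct.lift A.subtype, ⟨B.subtype, subset_gen κ _ rfl⟩, B.subtype, hαA, hβB,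
    ?_, ?_, ?_, B.injective_subtype, ?_, ?_⟩
  · rintro ⟨g, h⟩ v
    induction v using TensorProduct.induction_on with
    | zero => rw [map_zero, map_zero, map_zero]
    | add x y hx hy => rw [map_add, map_add, map_add, map_add, hx, hy]
    | tmul φ b =>
      rw [tensRep_tmul, TensorProduct.lift.tmul, TensorProduct.lift.tmul]
      show κ g φ.1 (β h b) = ρ (g, h) (φ.1 b)
      rw [hκ, hAE _ φ.2, hmul]
  · intro u hu
    apply Subtype.ext
    show κ u B.subtype = B.subtype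
    ext b
    rw [hκ]
    exact hBfix u hu b b.2
  · intro b
    rw [TensorProduct.lift.tmul]
    rfl
  · intro v hv
    exact ⟨⟨v, subset_gen ρ₂ F hv⟩, rfl⟩
  · intro g b
    rw [← hρ₂]
    rfl

end Emt
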