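import Pool.Agent.Emt.Padic
import Pool.Agent.Emt.Push
import Pool.Agent.Emt.Eff

/-!
# Emt, module Prod1: the main lemma for products

PROOF of `main_lemma`.  `c : H₂ → V` has finite image (`H₂` is compact), so its values lie in an
admissible subrepresentation `M` of `π` (`IsLadm.exists_finite` for the `p`-adic Lie group
`G₁ × G₂`); they are fixed by `K₁ × 1`, so there is a compact open subgroup `U₁ ≥ K₁` of `G₁`
such that they are fixed by `U₁ × 1` (`IsSmooth.exists_compact_open` for the restriction of `π` to `G₁`,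
smooth).  Apply `exists_hom` to `ρ = subRep π M` and `F = range c` (in `M`): `A, B, α, β, μ, a₀, j`.
As `j` is injective and the values of `c` are in the range of `j` there is a cocycle `c' : H₂ → B`
with `j (c' h) = c h`, locally constant.  `Eff C G₂ H₂` for `β` and `c'` gives a locally admissible
representation `β'` of `G₂` on `B'`, `i : B → B'` injective equivariant and `e ∈ B'` with
`i (c' h) = h e - e`.  `tensRep α β'` is locally admissible (`IsLadm.tens`), `id ⊗ i : A ⊗ B → A ⊗ B'` is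
injective (`Module.Flat.lTensor_preserves_injective_linearMap`) and equivariant.  Let `P, τ, a, b`
be the pushout (`exists_pushout`) of `μ : A ⊗ B → M` and `id ⊗ i`.  Since `π` is injective
(`LadmInj`) the inclusion `M → V` extends along `a : M → P` to an equivariant `ψ : P → V`.  Put
`x = ψ (b (a₀ ⊗ e))`.  For `k ∈ K₁ ≤ U₁`: `π (k, 1) x = ψ (b ((k a₀) ⊗ e)) = x`.  For `h ∈ H₂`:
`π (1, h) x - x = ψ (b (a₀ ⊗ (h e - e))) = ψ (b (a₀ ⊗ i (c' h))) = ψ (a (μ (a₀ ⊗ c' h))) =
j (c' h) = c h`.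
`main_lemma'` is the same for the other factor: apply `main_lemma` to `G₂ × G₁` and
`π ∘ swap` (`LadmInj.congr` for the isomorphism `Prod.swap` of topological groups).
-/

open Topology Set
open scoped TensorProduct

namespace Emt

theorem IsLadm.congr {C : Type} [Field C] {G G' : Type} [Group G] [TopologicalSpace G]
    [Group G'] [TopologicalSpace G'] {V : Type} [AddCommGroup V] [Module C V]
    {π : Representation C G V} (h : IsLadm π) (e : G' ≃* G) (he : Continuous e)
    (he' : Continuous e.symm) : IsLadm (π.comp e.toMonoidHom) := by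
  refine ⟨fun v => (h.smooth v).preimage he, ?_⟩
  intro v
  obtain ⟨M, hv, hM⟩ := h.loc v
  refine ⟨M, hv, fun g w hw => hM.sub (e g) w hw, ?_⟩
  intro U hU hU'
  have hmap : ((U.map e.toMonoidHom : Subgroup G) : Set G) = e.symm ⁻¹' (U : Set G') := by
    ext g
    constructor
    · rintro ⟨u, hu, rfl⟩
      show e.symm (e u) ∈ U
      rw [MulEquiv.symm_apply_apply]
      exact hu
    · intro hg
      exact ⟨e.symm g, hg, MulEquiv.apply_symm_apply e g⟩
  have hmap' : ((U.map e.toMonoidHom : Subgroup G) : Set G) = e '' (U : Set G') := by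
    rfl
  have h1 : IsOpen ((U.map e.toMonoidHom : Subgroup G) : Set G) := by
    rw [hmap]
    exact hU.preimage he'
  have h2 : IsCompact ((U.map e.toMonoidHom : Subgroup G) : Set G) := by
    rw [hmap']
    exact hU'.image he
  have h3 := hM.fin _ h1 h2
  have h4 : (M ⊓ fix (π.comp e.toMonoidHom) U : Submodule C V) ≤
      (M ⊓ fix π (U.map e.toMonoidHom) : Submodule C V) := by
    rintro w ⟨hw1, hw2⟩
    refine ⟨hw1, ?_⟩
    rintro _ ⟨u, hu, rfl⟩
    exact hw2 u hu
  exact Submodule.finiteDimensional_of_le h4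

theorem LadmInj.congr {C : Type} [Field C] {G G' : Type} [Group G] [TopologicalSpace G]
    [Group G'] [TopologicalSpace G'] {V : Type} [AddCommGroup V] [Module C V]
    {π : Representation C G V} (h : LadmInj π) (e : G' ≃* G) (he : Continuous e)
    (he' : Continuous e.symm) : LadmInj (π.comp e.toMonoidHom) := by
  refine ⟨h.1.congr e he he', ?_⟩
  intro A B _ _ _ _ α β hα hβ i hi hinj f hf
  obtain ⟨g, hg, hgf⟩ := h.2 A B (α.comp e.symm.toMonoidHom) (β.comp e.symm.toMonoidHom)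
    (hα.congr e.symm he' he) (hβ.congr e.symm he' he) i
    (fun k a => hi (e.symm k) a) hinj f (fun k a => by
      have h1 := hf (e.symm k) a
      have h2 : (π.comp e.toMonoidHom) (e.symm k) (f a) = π k (f a) := by
        show π (e (e.symm k)) (f a) = π k (f a)
        rw [MulEquiv.apply_symm_apply]
      rw [h2] at h1
      exact h1)
  refine ⟨g, ?_, hgf⟩
  intro k b
  have h1 := hg (e k) b
  have h2 : (β.comp e.symm.toMonoidHom) (e k) b = β k b := by
    show β (e.symm (e k)) b = β k b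
    rw [MulEquiv.symm_apply_apply]
  rw [h2] at h1
  exact h1

variable {p : ℕ} [Fact p.Prime] {G₁ G₂ : Type} [Group G₁] [TopologicalSpace G₁]
  [IsTopologicalGroup G₁] [Group G₂] [TopologicalSpace G₂] [IsTopologicalGroup G₂]
  {C : Type} [Field C] [Finite C] [CharP C p] {V : Type} [AddCommGroup V] [Module C V]
  {π : Representation C (G₁ × G₂) V}

theorem main_lemma (hG₁ : IsPadicLie p G₁) (hG₂ : IsPadicLie p G₂) (hπ : LadmInj π)
    {K₁ : Subgroup G₁} (hK₁ : IsCompact (K₁ : Set G₁)) {H₂ : Subgroup G₂}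
    (hH₂ : IsCompact (H₂ : Set G₂)) (hE : Eff C G₂ H₂) {c : H₂ → V}
    (hc : ∀ g h : H₂, c (g * h) = c g + π (1, (g : G₂)) (c h)) (hl : IsLocallyConstant c)
    (hfix : ∀ h, ∀ k ∈ K₁, π (k, 1) (c h) = c h) :
    ∃ x : V, (∀ k ∈ K₁, π (k, 1) x = x) ∧ ∀ h : H₂, c h = π (1, (h : G₂)) x - x := by
  haveI : CompactSpace H₂ := isCompact_iff_compactSpace.1 hH₂
  have hG : IsPadicLie p (G₁ × G₂) := hG₁.prod hG₂
  have hfin : (Set.range c).Finite := hl.range_finite
  obtain ⟨M, hMc, hM⟩ := hπ.1.exists_finite hG hfin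
  let π₁ : Representation C G₁ V := π.comp (MonoidHom.inl G₁ G₂)
  have hπ₁ : IsSmooth π₁ := by
    intro v
    exact (hπ.1.smooth v).preimage (continuous_id.prodMk continuous_const)
  obtain ⟨U₀, hU₀, hU₀', -, -, -⟩ := hG₁.exists_good C
  obtain ⟨U₁, hU₁, hU₁', hKU, hUF⟩ := hπ₁.exists_compact_open hU₀ hU₀' hK₁ hfin (by
    rintro _ ⟨h, rfl⟩ k hk
    exact hfix h k hk)
  let ρ := subRep π M hM.sub
  have hρ : IsAdm ρ := isAdm_subRep hπ.1.smooth hM
  have hF : ((Subtype.val : M → V) ⁻¹' (Set.range c)).Finite :=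
    hfin.preimage Subtype.val_injective.injOn
  obtain ⟨A, B, iA, mA, iB, mB, α, β, μ, a₀, j, hα, hβ, hμ, ha₀, hμj, hji, hjF, hjβ⟩ :=
    exists_hom hG₁ hG₂ hρ hF hU₁ (by
      rintro u hu v hv
      apply Subtype.ext
      exact hUF _ hv u hu)
  have hex : ∀ h : H₂, ∃ b, j b = (⟨c h, hMc ⟨h, rfl⟩⟩ : M) := fun h =>
    hjF _ ⟨h, rfl⟩
  choose c' hc' using hex
  have hcoc : IsCoc (res β H₂) c' := by
    constructor
    · intro g h
      apply hji
      rw [map_add, res_apply, hjβ, hc', hc', hc']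
      apply Subtype.ext
      exact hc g h
    · rw [IsLocallyConstant.iff_eventually_eq]
      intro x
      have h1 := (IsLocallyConstant.iff_eventually_eq c).1 hl x
      filter_upwards [h1] with y hy
      apply hji
      rw [hc', hc']
      exact Subtype.ext hy
  obtain ⟨W, iW, mW, σ, i, e, hσ, hi, hinj, hcob⟩ := hE B β hβ c' hcoc
  have hη : IsLadm (tensRep α σ) := IsLadm.tens hG₁ hG₂ hα.isLadm hσ
  let J : TensorProduct C A B →ₗ[C] TensorProduct C A W := LinearMap.lTensor A i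
  have hJinj : Function.Injective J := Module.Flat.lTensor_preserves_injective_linearMap i hinj
  have hJ : Equi (tensRep α β) (tensRep α σ) J := by
    intro g t
    have h1 : J ∘ₗ (tensRep α β g) = (tensRep α σ g) ∘ₗ J := by
      apply TensorProduct.ext'
      intro x y
      show J (tensRep α β g (x ⊗ₜ[C] y)) = tensRep α σ g (J (x ⊗ₜ[C] y))
      rw [tensRep_tmul]
      show (α g.1 x) ⊗ₜ[C] i (β g.2 y) = tensRep α σ g (x ⊗ₜ[C] i y)
      rw [tensRep_tmul, hi]
    exact LinearMap.congr_fun h1 t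
  obtain ⟨P, iP, mP, τ, a, b, hτ, ha, hainj, hb, hab⟩ :=
    exists_pushout hG hρ.isLadm hη hμ hJ hJinj
  obtain ⟨ψ, hψ, hψa⟩ := hπ.2 M P ρ τ hρ.isLadm hτ a ha hainj M.subtype (equi_subtype M hM.sub)
  refine ⟨ψ (b (a₀ ⊗ₜ[C] e)), ?_, ?_⟩
  · intro k hk
    rw [← hψ, ← hb, tensRep_tmul]
    show ψ (b ((α k a₀) ⊗ₜ[C] (σ 1 e))) = ψ (b (a₀ ⊗ₜ[C] e))
    rw [ha₀ k (hKU hk), rep_one_apply]
  · intro h
    rw [← hψ, ← hb, tensRep_tmul]
    show c h = ψ (b ((α 1 a₀) ⊗ₜ[C] (σ (h : G₂) e))) - ψ (b (a₀ ⊗ₜ[C] e))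
    rw [rep_one_apply, ← map_sub, ← map_sub, ← TensorProduct.tmul_sub, ← hcob]
    have h2 : a₀ ⊗ₜ[C] i (c' h) = J (a₀ ⊗ₜ[C] c' h) := rfl
    rw [h2, ← hab, hψa, hμj, hc']
    rfl

theorem main_lemma' (hG₁ : IsPadicLie p G₁) (hG₂ : IsPadicLie p G₂) (hπ : LadmInj π)
    {H₁ : Subgroup G₁} (hH₁ : IsCompact (H₁ : Set G₁)) (hE : Eff C G₁ H₁) {c : H₁ → V}
    (hc : ∀ g h : H₁, c (g * h) = c g + π ((g : G₁), 1) (c h)) (hl : IsLocallyConstant c) :
    ∃ x : V, ∀ h : H₁, c h = π ((h : G₁), 1) x - x := by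
  have hπ' : LadmInj (π.comp (MulEquiv.prodComm (M := G₂) (N := G₁)).toMonoidHom) :=
    hπ.congr MulEquiv.prodComm continuous_swap continuous_swap
  have hK : IsCompact ((⊥ : Subgroup G₂) : Set G₂) := by
    rw [Subgroup.coe_bot]
    exact isCompact_singleton
  obtain ⟨x, -, hx⟩ := main_lemma hG₂ hG₁ hπ' hK hH₁ hE (c := c) hc hl (by
    intro h k hk
    rw [Subgroup.mem_bot] at hk
    subst hk
    show π ((1 : G₁), (1 : G₂)) (c h) = c h
    exact rep_one_apply π (c h))
  exact ⟨x, hx⟩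

end Emt
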