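import Pool.Agent.Emt.Prod1

/-!
# Emt, module Prod2: the restriction property for products

PROOF.  Let `S₁ ≤ H₁`, `S₂ ≤ H₂` be as in `exists_sylow_sub` (compact, pro-`p`, index prime to `p`).
`RI C G_a S_a` by `RI.mono_closed` (compact subgroups are closed, `IsPadicLie.t2`), `Eff C G_a S_a`
by `eff_of_ri`.  Let `π` be `LadmInj` for `G₁ × G₂`.  Claim: `Van (res π (S₁.prod S₂))`.  Let `c` be a
cocycle.  `h ↦ c (h, 1)` is a cocycle of `S₁`, so `c (h, 1) = π (h, 1) x - x` (`main_lemma'`).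
`c' g = c g - (π g x - x)` is a cocycle of `S₁.prod S₂` which vanishes on `S₁ × 1`.  So
`c' ((h, 1) (1, k)) = π (h, 1) (c' (1, k))` and `c' ((1, k) (h, 1)) = c' (1, k)`; hence the
`c' (1, k)` are fixed by `S₁ × 1`.  By `main_lemma` (`K₁ = S₁`) there is `y` fixed by `S₁ × 1` with
`c' (1, k) = π (1, k) y - y`.  Then `c' g = π g y - y` for all `g = (h, k)`, and
`c g = π g (x + y) - (x + y)`.
`S₁.prod S₂` is compact and pro-`p` (`IsProP.prod`; as a type it is isomorphic to `S₁ × S₂`), so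
`smoothInj_of_van` gives `SmoothInj (res π (S₁.prod S₂))`; the index of `S₁.prod S₂` in
`H₁.prod H₂` is the product of the two indices, prime to `p`; conclude with `RI.of_index`.
-/

open Topology Set

namespace Emt

theorem prod2_locConst {C : Type} [Field C] {G : Type} [Group G] [TopologicalSpace G]
    [IsTopologicalGroup G] {V : Type} [AddCommGroup V] [Module C V] {ρ : Representation C G V}
    (hρ : IsSmooth ρ) (v : V) : IsLocallyConstant fun g : G => ρ g v := by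
  rw [IsLocallyConstant.iff_eventually_eq]
  intro g
  have hc : Continuous fun h : G => g⁻¹ * h := continuous_const.mul continuous_id
  have ho : IsOpen {h : G | ρ (g⁻¹ * h) v = v} := (hρ v).preimage hc
  have hm : g ∈ {h : G | ρ (g⁻¹ * h) v = v} := by
    show ρ (g⁻¹ * g) v = v
    rw [inv_mul_cancel, rep_one_apply]
  filter_upwards [ho.mem_nhds hm] with y hy
  have h1 : ρ (g⁻¹ * y) v = v := hy
  rw [rep_mul_apply] at h1
  have h2 := congrArg (ρ g) h1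
  rwa [rep_apply_inv] at h2

theorem prod2_van {p : ℕ} [Fact p.Prime] {G₁ G₂ : Type} [Group G₁] [TopologicalSpace G₁]
    [IsTopologicalGroup G₁] [Group G₂] [TopologicalSpace G₂] [IsTopologicalGroup G₂]
    {C : Type} [Field C] [Finite C] [CharP C p] (hG₁ : IsPadicLie p G₁)
    (hG₂ : IsPadicLie p G₂) {S₁ : Subgroup G₁} (hS₁ : IsCompact (S₁ : Set G₁))
    {S₂ : Subgroup G₂} (hS₂ : IsCompact (S₂ : Set G₂)) (h₁ : Eff C G₁ S₁) (h₂ : Eff C G₂ S₂)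
    {V : Type} [AddCommGroup V] [Module C V] {π : Representation C (G₁ × G₂) V}
    (hπ : LadmInj π) : Van (res π (S₁.prod S₂)) := by
  intro c hc
  have hm₁ : ∀ h : S₁, ((h : G₁), (1 : G₂)) ∈ S₁.prod S₂ := fun h => ⟨h.2, S₂.one_mem⟩
  have hm₂ : ∀ k : S₂, ((1 : G₁), (k : G₂)) ∈ S₁.prod S₂ := fun k => ⟨S₁.one_mem, k.2⟩
  have hmul : ∀ a b : G₁ × G₂, ∀ (ha : a ∈ S₁.prod S₂) (hb : b ∈ S₁.prod S₂),
      c ⟨a * b, mul_mem ha hb⟩ = c ⟨a, ha⟩ + π a (c ⟨b, hb⟩) := by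
    intro a b ha hb
    exact hc.mul ⟨a, ha⟩ ⟨b, hb⟩
  obtain ⟨x, hx⟩ := main_lemma' hG₁ hG₂ hπ hS₁ h₁ (c := fun h => c ⟨((h : G₁), 1), hm₁ h⟩)
    (by
      intro g h
      have h3 := hmul ((g : G₁), 1) ((h : G₁), 1) (hm₁ g) (hm₁ h)
      rw [← h3]
      congr 1
      apply Subtype.ext
      exact Prod.ext rfl (mul_one 1).symm)
    (hc.cont.comp_continuous
      (Continuous.subtype_mk (continuous_subtype_val.prodMk continuous_const) _))
  have hl₂ : IsLocallyConstant fun k : S₂ => π ((1 : G₁), (k : G₂)) x :=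
    (prod2_locConst hπ.1.smooth x).comp_continuous
      (continuous_const.prodMk continuous_subtype_val)
  have hl₁ : IsLocallyConstant fun k : S₂ => c ⟨((1 : G₁), (k : G₂)), hm₂ k⟩ :=
    hc.cont.comp_continuous
      (Continuous.subtype_mk (continuous_const.prodMk continuous_subtype_val) _)
  have hc1 : ∀ a b : S₂, c ⟨((1 : G₁), ((a * b : S₂) : G₂)), hm₂ (a * b)⟩ =
      c ⟨((1 : G₁), (a : G₂)), hm₂ a⟩ + π ((1 : G₁), (a : G₂)) (c ⟨((1 : G₁), (b : G₂)), hm₂ b⟩) := by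
    intro a b
    rw [← hmul]
    congr 1
    apply Subtype.ext
    exact Prod.ext (mul_one 1).symm rfl
  have hp1 : ∀ (a b : G₂) (v : V), π ((1 : G₁), a * b) v = π ((1 : G₁), a) (π ((1 : G₁), b) v) := by
    intro a b v
    rw [← rep_mul_apply, Prod.mk_mul_mk, mul_one]
  have hp2 : ∀ (a : G₁) (b : G₂) (v : V), π (a, 1) (π ((1 : G₁), b) v) = π (a, b) v := by
    intro a b v
    rw [← rep_mul_apply, Prod.mk_mul_mk, mul_one, one_mul]
  have hp3 : ∀ (a : G₁) (b : G₂) (v : V), π ((1 : G₁), b) (π (a, 1) v) = π (a, b) v := by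
    intro a b v
    rw [← rep_mul_apply, Prod.mk_mul_mk, mul_one, one_mul]
  have hx' : ∀ (k : G₁) (hk : k ∈ S₁), c ⟨(k, (1 : G₂)), hm₁ ⟨k, hk⟩⟩ = π (k, 1) x - x :=
    fun k hk => hx ⟨k, hk⟩
  obtain ⟨y, hy1, hy2⟩ := main_lemma hG₁ hG₂ hπ hS₁ hS₂ h₂
    (c := fun k => c ⟨((1 : G₁), (k : G₂)), hm₂ k⟩ - (π ((1 : G₁), (k : G₂)) x - x))
    (by
      intro g h
      show c ⟨((1 : G₁), ((g * h : S₂) : G₂)), hm₂ (g * h)⟩ -
          (π ((1 : G₁), ((g * h : S₂) : G₂)) x - x) = _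
      rw [hc1, Subgroup.coe_mul, hp1, map_sub, map_sub]
      abel)
    (by
      rw [IsLocallyConstant.iff_eventually_eq]
      intro k
      have e1 := (IsLocallyConstant.iff_eventually_eq _).1 hl₁ k
      have e2 := (IsLocallyConstant.iff_eventually_eq _).1 hl₂ k
      filter_upwards [e1, e2] with z hz1 hz2
      rw [hz1, hz2])
    (by
      intro h k hk
      have e1 := hmul (k, 1) ((1 : G₁), (h : G₂)) (hm₁ ⟨k, hk⟩) (hm₂ h)
      have e2 := hmul ((1 : G₁), (h : G₂)) (k, 1) (hm₂ h) (hm₁ ⟨k, hk⟩)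
      have e3 : (⟨(k, (1 : G₂)) * ((1 : G₁), (h : G₂)),
          mul_mem (hm₁ ⟨k, hk⟩) (hm₂ h)⟩ : S₁.prod S₂) =
          ⟨((1 : G₁), (h : G₂)) * (k, (1 : G₂)), mul_mem (hm₂ h) (hm₁ ⟨k, hk⟩)⟩ := by
        apply Subtype.ext
        show (k, (1 : G₂)) * ((1 : G₁), (h : G₂)) = ((1 : G₁), (h : G₂)) * (k, (1 : G₂))
        rw [Prod.mk_mul_mk, Prod.mk_mul_mk, mul_one, one_mul, mul_one, one_mul]
      rw [e3, e2, hx' k hk, map_sub, hp3] at e1
      have e4 : π (k, 1) (c ⟨((1 : G₁), (h : G₂)), hm₂ h⟩) =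
          c ⟨((1 : G₁), (h : G₂)), hm₂ h⟩ + (π (k, (h : G₂)) x - π ((1 : G₁), (h : G₂)) x) -
            (π (k, 1) x - x) := by
        rw [eq_sub_iff_add_eq, e1]
        abel
      show π (k, 1) (c ⟨((1 : G₁), (h : G₂)), hm₂ h⟩ - (π ((1 : G₁), (h : G₂)) x - x)) = _
      rw [map_sub, map_sub, e4, hp2]
      abel)
  refine ⟨x + y, ?_⟩
  rintro ⟨⟨h, k⟩, hh, hk⟩
  have hh' : h ∈ S₁ := hh
  have hk' : k ∈ S₂ := hk
  have e1 := hmul (h, 1) ((1 : G₁), k) (hm₁ ⟨h, hh'⟩) (hm₂ ⟨k, hk'⟩)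
  have e2 : (⟨(h, k), ⟨hh, hk⟩⟩ : S₁.prod S₂) =
      ⟨(h, (1 : G₂)) * ((1 : G₁), k), mul_mem (hm₁ ⟨h, hh'⟩) (hm₂ ⟨k, hk'⟩)⟩ := by
    apply Subtype.ext
    show (h, k) = (h, (1 : G₂)) * ((1 : G₁), k)
    rw [Prod.mk_mul_mk, mul_one, one_mul]
  have e3 : c ⟨((1 : G₁), k), hm₂ ⟨k, hk'⟩⟩ - (π ((1 : G₁), k) x - x) = π ((1 : G₁), k) y - y :=
    hy2 ⟨k, hk'⟩
  have e4 : c ⟨((1 : G₁), k), hm₂ ⟨k, hk'⟩⟩ = π ((1 : G₁), k) y - y + (π ((1 : G₁), k) x - x) := by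
    rw [← e3]
    abel
  rw [e2, e1, hx' h hh', e4]
  show _ = π ((h, (1 : G₂)) * ((1 : G₁), k)) (x + y) - (x + y)
  rw [Prod.mk_mul_mk, mul_one, one_mul, map_add, map_add, map_sub, map_sub, hp2, hp2, hy1 h hh']
  abel

theorem prod2_index {G₁ G₂ : Type} [Group G₁] [Group G₂] (S₁ H₁ : Subgroup G₁)
    (S₂ H₂ : Subgroup G₂) :
    ((S₁.prod S₂).subgroupOf (H₁.prod H₂)).index =
      (S₁.subgroupOf H₁).index * (S₂.subgroupOf H₂).index := by
  have h1 : (S₁.prod S₂).subgroupOf (H₁.prod H₂) =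
      ((S₁.subgroupOf H₁).prod (S₂.subgroupOf H₂)).comap
        (Subgroup.prodEquiv H₁ H₂).toMonoidHom := by
    ext x
    rw [Subgroup.mem_subgroupOf, Subgroup.mem_comap, Subgroup.mem_prod, Subgroup.mem_prod,
      Subgroup.mem_subgroupOf, Subgroup.mem_subgroupOf]
    exact Iff.rfl
  rw [h1, Subgroup.index_comap_of_surjective _ (Subgroup.prodEquiv H₁ H₂).surjective,
    Subgroup.index_prod]

theorem prod2_proP {p : ℕ} [Fact p.Prime] {G₁ G₂ : Type} [Group G₁] [TopologicalSpace G₁]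
    [IsTopologicalGroup G₁] [Group G₂] [TopologicalSpace G₂] [IsTopologicalGroup G₂]
    {S₁ : Subgroup G₁} {S₂ : Subgroup G₂} (h₁ : IsProP p S₁) (h₂ : IsProP p S₂) :
    IsProP p (S₁.prod S₂) := by
  refine (IsProP.prod h₁ h₂).map (Subgroup.prodEquiv S₁ S₂).symm.toMonoidHom ?_
    (Subgroup.prodEquiv S₁ S₂).symm.surjective
  have hc : Continuous fun x : S₁ × S₂ =>
      (⟨((x.1 : G₁), (x.2 : G₂)), ⟨x.1.2, x.2.2⟩⟩ : S₁.prod S₂) :=
    Continuous.subtype_mk ((continuous_subtype_val.comp continuous_fst).prodMk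
      (continuous_subtype_val.comp continuous_snd)) _
  exact hc

theorem RI.prod {p : ℕ} [Fact p.Prime] {G₁ G₂ : Type} [Group G₁] [TopologicalSpace G₁]
    [IsTopologicalGroup G₁] [Group G₂] [TopologicalSpace G₂] [IsTopologicalGroup G₂]
    {C : Type} [Field C] [Finite C] [CharP C p] (hG₁ : IsPadicLie p G₁)
    (hG₂ : IsPadicLie p G₂) {H₁ : Subgroup G₁} (hH₁ : IsCompact (H₁ : Set G₁))
    {H₂ : Subgroup G₂} (hH₂ : IsCompact (H₂ : Set G₂)) (h₁ : RI C G₁ H₁) (h₂ : RI C G₂ H₂) :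
    RI C (G₁ × G₂) (H₁.prod H₂) := by
  haveI : T2Space G₁ := hG₁.t2
  haveI : T2Space G₂ := hG₂.t2
  obtain ⟨S₁, hle₁, hS₁, hp₁, hi₁, hn₁⟩ := exists_sylow_sub hG₁ hH₁
  obtain ⟨S₂, hle₂, hS₂, hp₂, hi₂, hn₂⟩ := exists_sylow_sub hG₂ hH₂
  have hE₁ : Eff C G₁ S₁ := eff_of_ri hG₁ (h₁.mono_closed hG₁ hH₁ hle₁ hS₁.isClosed)
  have hE₂ : Eff C G₂ S₂ := eff_of_ri hG₂ (h₂.mono_closed hG₂ hH₂ hle₂ hS₂.isClosed)
  have hK : IsCompact ((S₁.prod S₂ : Subgroup (G₁ × G₂)) : Set (G₁ × G₂)) := by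
    rw [Subgroup.coe_prod]
    exact hS₁.prod hS₂
  haveI : CompactSpace (S₁.prod S₂) := isCompact_iff_compactSpace.1 hK
  have hR : RI C (G₁ × G₂) (S₁.prod S₂) := by
    intro V _ _ π hπ
    exact smoothInj_of_van (prod2_proP hp₁ hp₂) (hπ.1.smooth.res _)
      (prod2_van hG₁ hG₂ hS₁ hS₂ hE₁ hE₂ hπ)
  refine RI.of_index (p := p) (H' := S₁.prod S₂) (Subgroup.prod_mono hle₁ hle₂) ?_ ?_ hR
  · rw [prod2_index]
    exact mul_ne_zero hi₁ hi₂
  · rw [prod2_index]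
    intro h
    rcases (Nat.Prime.dvd_mul (Fact.out : p.Prime)).1 h with h | h
    · exact hn₁ h
    · exact hn₂ h

end Emt
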