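import Mathlib

/-!
# Emt, module Tree1: a group with a finite orbit on a tree without inversions fixes a vertex

PROOF.  `dist = T.dist`.  For vertices `v ≠ u` let `first v u` be the second vertex of the unique path
from `v` to `u`.  FACTS on trees: (1) `dist v (first v u) = 1`,
`dist (first v u) u = dist v u - 1`; (2) if `u, u' ≠ v` and `first v u ≠ first v u'` then
`dist u u' = dist u v + dist v u'` (the concatenation of the two paths is a path; uniqueness of paths in
acyclic graphs `SimpleGraph.IsAcyclic.path_unique`, `IsTree.existsUnique_path`, and the length of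
the path is the distance); (3) automorphisms preserve `dist` and `first`; (4) by the colouring `dist v (h v)` is
even (adjacent vertices have different colours, `col (h v) = col v`).
All orbits are finite / have bounded distances: `dist x (h x) ≤ dist x x₀ + dist x₀ (h x₀) +
dist (h x₀) (h x)`.  Let `D x = sup_h dist x (h x)` (a maximum); choose `v` with `D v`
minimal (well-foundedness of `ℕ`).  Suppose `D v > 0`, so there is `h₀` with
`dist v (h₀ v) = D v =: D > 0`; `w = first v (h₀ v)`.
(a) for all `h` with `h v ≠ v`: `first v (h v) = w`; otherwise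
`dist (h v) (h₀ v) = dist (h v) v + D > D` but `dist (h v) (h₀ v) = dist v (h⁻¹ h₀ v) ≤ D`.
(b) let `h v ≠ v`, `d = dist v (h v) ≥ 2` (even).  Then `dist w (h w) = d - 2`: also
`h⁻¹ v ≠ v`, so `first v (h⁻¹ v) = w`, apply `h`: `first (h v) v = h w`.  `dist w (h v) = d - 1 ≥ 1`.
`first (h v) w = h w`: otherwise by (2) at the vertex `h v`,
`dist w v = dist w (h v) + dist (h v) v = 2 d - 1 > 1`.  So `dist (h w) w = dist (h v) w - 1 = d - 2`.
(c) let `h v = v`.  Then `(h h₀) v = h (h₀ v) ≠ h v = v`, so by (a) `first v (h h₀ v) = w`;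
but `first v (h h₀ v) = first (h v) (h (h₀ v)) = h (first v (h₀ v)) = h w`.  So `h w = w`.
So `D w ≤ D - 2 < D`, a contradiction to the minimality.  So `D v = 0`.
-/

namespace Emt

/-- If the vertices `x, y` of a tree are at distance at least two, then there is a vertex which is
closer to every vertex `u` than `x` or than `y`. -/
private theorem exists_between {X : Type} {T : SimpleGraph X} (hT : T.IsTree) {x y : X}
    (h : 2 ≤ T.dist x y) :
    ∃ z, ∀ u, T.dist z u + 1 ≤ T.dist x u ∨ T.dist z u + 1 ≤ T.dist y u := by
  classical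
  obtain ⟨r, hr, hrl⟩ := hT.connected.exists_path_of_dist x y
  refine ⟨r.getVert 1, fun u => ?_⟩
  have hz : r.getVert 1 ∈ r.support := r.getVert_mem_support 1
  have hxz : r.getVert 1 ≠ x := by
    have hadj := r.adj_getVert_succ (i := 0) (by omega)
    rw [SimpleGraph.Walk.getVert_zero] at hadj
    exact hadj.ne'
  have hyz : r.getVert 1 ≠ y := by
    intro he
    have h1 : T.dist x y ≤ 1 := by
      have hadj := r.adj_getVert_succ (i := 0) (by omega)
      rw [SimpleGraph.Walk.getVert_zero, zero_add, he] at hadj
      exact (SimpleGraph.dist_eq_one_iff_adj.2 hadj).le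
    omega
  obtain ⟨p, hp⟩ := hT.connected.exists_walk_length_eq_dist x u
  obtain ⟨q, hq⟩ := hT.connected.exists_walk_length_eq_dist u y
  have heq : (p.append q).bypass = r := by
    have := hT.isAcyclic.path_unique ⟨(p.append q).bypass, (p.append q).bypass_isPath⟩ ⟨r, hr⟩
    exact congrArg Subtype.val this
  have hmem : r.getVert 1 ∈ (p.append q).support := by
    apply (p.append q).support_bypass_subset_support
    rw [heq]
    exact hz
  rw [SimpleGraph.Walk.mem_support_append_iff] at hmem
  rcases hmem with hm | hm
  · left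
    have h1 := congrArg SimpleGraph.Walk.length (p.take_spec hm)
    rw [SimpleGraph.Walk.length_append, hp] at h1
    have h2 := SimpleGraph.dist_le (p.takeUntil _ hm)
    have h3 := SimpleGraph.dist_le (p.dropUntil _ hm)
    have h4 : 0 < T.dist x (r.getVert 1) := hT.connected.pos_dist_of_ne (Ne.symm hxz)
    omega
  · right
    have h1 := congrArg SimpleGraph.Walk.length (q.take_spec hm)
    rw [SimpleGraph.Walk.length_append, hq] at h1
    have h2 := SimpleGraph.dist_le (q.takeUntil _ hm)
    have h3 := SimpleGraph.dist_le (q.dropUntil _ hm)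
    have h4 : 0 < T.dist (r.getVert 1) y := hT.connected.pos_dist_of_ne hyz
    rw [T.dist_comm (u := u) (v := r.getVert 1)] at h2
    rw [T.dist_comm (u := u) (v := y)] at h1
    omega

/-- Simpler than the proof of the header: the function `e x = max_{u in the orbit} dist x u` is
invariant, and two vertices where it is minimal have distance at most one (`exists_between`), so
that they are equal if they are in the same orbit, by the colouring. -/
theorem exists_fixed_vertex {X H : Type} [Group H] [MulAction H X] {T : SimpleGraph X}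
    (hT : T.IsTree) (hact : ∀ (h : H) (x y : X), T.Adj x y → T.Adj (h • x) (h • y))
    (col : X → Bool) (hcol : ∀ x y, T.Adj x y → col x ≠ col y)
    (hcol' : ∀ (h : H) x, col (h • x) = col x) (x₀ : X)
    (hfin : (Set.range fun h : H => h • x₀).Finite) : ∃ x : X, ∀ h : H, h • x = x := by
  classical
  have hdist : ∀ (h : H) (x y : X), T.dist (h • x) (h • y) ≤ T.dist x y := by
    intro h x y
    obtain ⟨p, hp⟩ := hT.connected.exists_walk_length_eq_dist x y
    let f : T →g T := ⟨fun x => h • x, fun {a b} hab => hact h a b hab⟩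
    rw [← hp, ← SimpleGraph.Walk.length_map f p]
    exact SimpleGraph.dist_le (p.map f)
  let O : Finset X := hfin.toFinset
  have hO : ∀ u ∈ O, ∀ h : H, h • u ∈ O := by
    intro u hu h
    rw [Set.Finite.mem_toFinset] at hu ⊢
    obtain ⟨g, rfl⟩ := hu
    exact ⟨h * g, mul_smul h g x₀⟩
  have hx₀ : x₀ ∈ O := by
    rw [Set.Finite.mem_toFinset]
    exact ⟨1, one_smul H x₀⟩
  let e : X → ℕ := fun x => O.sup (fun u => T.dist x u)
  have he : ∀ (h : H) (x : X), e (h • x) ≤ e x := by
    intro h x
    apply Finset.sup_le
    intro u hu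
    have h1 := hdist h x (h⁻¹ • u)
    rw [smul_inv_smul] at h1
    exact h1.trans (Finset.le_sup (f := fun u => T.dist x u) (hO u hu h⁻¹))
  have hne : Nonempty X := ⟨x₀⟩
  obtain ⟨x, hx⟩ : ∃ x, ∀ y, e x ≤ e y :=
    ⟨Function.argmin e, fun y => Function.argmin_le (f := e) y⟩
  refine ⟨x, fun h => ?_⟩
  by_contra hxh
  have h1 : 0 < T.dist x (h • x) := hT.connected.pos_dist_of_ne (Ne.symm hxh)
  rcases Nat.lt_or_ge (T.dist x (h • x)) 2 with h2 | h2
  · have h3 : T.Adj x (h • x) := SimpleGraph.dist_eq_one_iff_adj.1 (by omega)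
    exact hcol _ _ h3 (hcol' h x).symm
  · obtain ⟨z, hz⟩ := exists_between hT h2
    have h3 : e z + 1 ≤ e x := by
      have h4 : ∀ u ∈ O, T.dist z u + 1 ≤ e x := by
        intro u hu
        rcases hz u with h5 | h5
        · exact h5.trans (Finset.le_sup (f := fun u => T.dist x u) hu)
        · exact (h5.trans (Finset.le_sup (f := fun u => T.dist (h • x) u) hu)).trans (he h x)
      obtain ⟨u, hu, hue⟩ := Finset.exists_mem_eq_sup O ⟨x₀, hx₀⟩ (fun u => T.dist z u)
      show O.sup (fun u => T.dist z u) + 1 ≤ e x
      rw [hue]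
      exact h4 u hu
    have h4 := hx z
    omega

end Emt
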